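import Pool.Agent.Work.MP_c71557_gt.A.DefsC
import Pool.Agent.Work.MP_c71557_gt.H.Equiv

set_option autoImplicit false
set_option linter.unusedVariables false

/-!
# MP_c71557_gt, module A/ActFF: a criterion for equivalences (S-M)

`hiso_functor`: the functor given by `f : A.Ob → A'.Ob` and `φ : Γ →* Γ'` is
* full, if every admissible `g' : f a → f b` is equal modulo `A'.N (f a)` to some `φ g`, `g : a → b`
  admissible;
* faithful, if `φ (g⁻¹ g') ∈ A'.N (f a)` implies `g⁻¹ g' ∈ A.N a`;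
* essentially surjective, if for every `b'` there are `a` and `g : f a → b'` admissible with `g⁻¹`
  admissible `b' → f a` (isomorphism `A'.hom g _`, inverse `A'.hom g⁻¹ _`).
Then it is an equivalence: `hiso_of_equiv` (H/Equiv).

Use `hom_surj`, `cl_eq`, `functor_map` (H/Act).
-/

noncomputable section

namespace C715

open CategoryTheory

namespace ActCat

variable {Γ Γ' : Type} [Group Γ] [Group Γ']

private theorem isoOf {A : ActCat Γ} {a b : A.Ob} {g : Γ} (h : A.Adm a g b)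
    (h' : A.Adm b g⁻¹ a) : Nonempty ((⟨a⟩ : A.Obj) ≅ ⟨b⟩) :=
  ⟨{ hom := A.hom g h
     inv := A.hom g⁻¹ h'
     hom_inv_id := by
       refine cl_eq.2 ?_
       have : (g⁻¹ * g)⁻¹ * (1 : Γ) = 1 := by group
       rw [this]
       exact Subgroup.one_mem _
     inv_hom_id := by
       refine cl_eq.2 ?_
       have : (g * g⁻¹)⁻¹ * (1 : Γ) = 1 := by group
       rw [this]
       exact Subgroup.one_mem _ }⟩

theorem hiso_functor {A : ActCat Γ} {A' : ActCat Γ'} (f : A.Ob → A'.Ob) (φ : Γ →* Γ')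
    (hAdm : ∀ {a b : A.Ob} {g : Γ}, A.Adm a g b → A'.Adm (f a) (φ g) (f b))
    (hN : ∀ {a : A.Ob} {n : Γ}, n ∈ A.N a → φ n ∈ A'.N (f a))
    (hfull : ∀ (a b : A.Ob) (g' : Γ'), A'.Adm (f a) g' (f b) →
      ∃ g, A.Adm a g b ∧ (φ g)⁻¹ * g' ∈ A'.N (f a))
    (hfaith : ∀ (a b : A.Ob) (g g' : Γ), A.Adm a g b → A.Adm a g' b →
      φ (g⁻¹ * g') ∈ A'.N (f a) → g⁻¹ * g' ∈ A.N a)
    (hess : ∀ b' : A'.Ob, ∃ (a : A.Ob) (g : Γ'), A'.Adm (f a) g b' ∧ A'.Adm b' g⁻¹ (f a)) :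
    HIso (functor (A := A) (A' := A') f φ hAdm hN) := by
  have h1 : (functor (A := A) (A' := A') f φ hAdm hN).Faithful := by
    refine ⟨fun {x y} u v e => ?_⟩
    obtain ⟨g, hg, rfl⟩ := hom_surj u
    obtain ⟨g', hg', rfl⟩ := hom_surj v
    refine cl_eq.2 (hfaith _ _ g g' hg hg' ?_)
    rw [map_mul, map_inv]
    exact cl_eq.1 e
  have h2 : (functor (A := A) (A' := A') f φ hAdm hN).Full := by
    refine ⟨fun {x y} u => ?_⟩
    obtain ⟨g', hg', rfl⟩ := hom_surj u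
    obtain ⟨g, hg, h⟩ := hfull x.o y.o g' hg'
    exact ⟨A.hom g hg, cl_eq.2 h⟩
  have h3 : (functor (A := A) (A' := A') f φ hAdm hN).EssSurj := by
    refine ⟨fun b' => ?_⟩
    obtain ⟨a, g, hg, hg'⟩ := hess b'.o
    exact ⟨⟨a⟩, isoOf hg hg'⟩
  have h4 : (functor (A := A) (A' := A') f φ hAdm hN).IsEquivalence := {}
  exact hiso_of_equiv _

end ActCat
end C715
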