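import Pool.Agent.Work.MP_c71557_gt.A.Ext

set_option autoImplicit false

/-!
# MP_c71557_gt, module A/Per: periodization (M)

Write `T = 2π`.
* `exists_per`: for `s` let `k = ⌊(s - x)/T⌋` and put `f s = F.f (s - kT) + kT`,
  `r s = F.r (s - kT)`.  For `s ∈ [x + kT, x + (k+1)T]` (closed interval, also at the right end, by
  the hypothesis `h`) one has `f s = F.f (s - kT) + kT`, `r s = F.r (s - kT)`; i.e. there the pair
  agrees with `tau^k F tau^{-k}`.  `f` is strictly monotone, surjective, `f (s + T) = f s + T`;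
  local condition: `exists_of_local` (at `x + kT` use `tau^k F tau^{-k}` on the right and
  `tau^{k-1} F tau^{-(k-1)}` on the left).  Membership in `Ft`: `mem_Ft`.
* `exists_Ft`: choose `e > 0` with `b + e < a - e + T` and `G.f (b + e) < G.f (a - e) + T`
  (continuity).  Let `G' = tau G tau⁻¹` (`G'.f s = G.f (s - T) + T`).  `exists_ext G G'` on
  `b + e < a - e + T` gives `H`, equal to `G` on `(-∞, b + e]` and to `G'` on `[a - e + T, ∞)`.  With
  `x = a - e`: `H.ev (x + T) = G'.ev (x + T) = (G.f x + T, G.r x) = (H.f x + T, H.r x)`; apply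
  `exists_per H x`; on `[a - e, b + e] ⊆ [x, x + T]` the result is `H = G`.
* `exists_Ft_sup`: `exists_sup` gives `F0`, the identity outside `[c,d]`, equal to `G` on `[a,b]`;
  `exists_per F0 c` (`F0.ev (c + T) = (c + T, 1)` as `d ≤ c + T`).
-/

namespace C715
namespace Ang

open XX

private theorem conj_ev (F : XX) (u s : ℝ) :
    (rot u * F * rot (-u)).ev s = (F.f (s - u) + u, F.r (s - u)) := by
  have h1 : (rot u * F * rot (-u)).f s = F.f (s + -u) + u := rfl
  have h2 : (rot u * F * rot (-u)).r s = 1 * F.r (s + -u) * 1 := rfl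
  rw [ev_def, h1, h2, one_mul, mul_one, sub_eq_add_neg]

theorem exists_per (F : XX) (x : ℝ)
    (h : F.ev (x + 2 * Real.pi) = (F.f x + 2 * Real.pi, F.r x)) :
    ∃ P ∈ Ft, ∀ s, x ≤ s → s ≤ x + 2 * Real.pi → P.ev s = F.ev s := by
  set T : ℝ := 2 * Real.pi with hT
  have hT0 : 0 < T := by positivity
  have hf : F.f (x + T) = F.f x + T := congrArg Prod.fst h
  have hr : F.r (x + T) = F.r x := congrArg Prod.snd h
  let k : ℝ → ℤ := fun s => ⌊(s - x) / T⌋
  let g : ℝ → ℝ := fun s => F.f (s - k s * T) + k s * T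
  let rr : ℝ → ℝ := fun s => F.r (s - k s * T)
  have hk1 : ∀ s, x + k s * T ≤ s := fun s => by
    have h1 : (k s : ℝ) ≤ (s - x) / T := Int.floor_le _
    rw [le_div_iff₀ hT0] at h1
    linarith
  have hk2 : ∀ s, s < x + (k s + 1) * T := fun s => by
    have h1 : (s - x) / T < k s + 1 := Int.lt_floor_add_one _
    rw [div_lt_iff₀ hT0] at h1
    linarith
  have hkeq : ∀ (m : ℤ) (s : ℝ), x + m * T ≤ s → s < x + (m + 1) * T → k s = m := by
    intro m s h1 h2
    change ⌊(s - x) / T⌋ = m
    rw [Int.floor_eq_iff, le_div_iff₀ hT0, div_lt_iff₀ hT0]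
    constructor <;> linarith
  have key : ∀ (m : ℤ) (s : ℝ), x + m * T ≤ s → s ≤ x + (m + 1) * T →
      g s = F.f (s - m * T) + m * T ∧ rr s = F.r (s - m * T) := by
    intro m s h1 h2
    rcases h2.lt_or_eq with h3 | h3
    · have h4 := hkeq m s h1 h3
      change F.f (s - k s * T) + k s * T = _ ∧ F.r (s - k s * T) = _
      rw [h4]
      exact ⟨rfl, rfl⟩
    · have h4 : k s = m + 1 := by
        refine hkeq (m + 1) s ?_ ?_
        · push_cast
          linarith
        · push_cast
          linarith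
      change F.f (s - k s * T) + k s * T = _ ∧ F.r (s - k s * T) = _
      rw [h4]
      push_cast
      have h5 : s - (m + 1) * T = x := by linarith
      have h6 : s - m * T = x + T := by linarith
      rw [h5, h6, hf, hr]
      exact ⟨by ring, rfl⟩
  have hmono : StrictMono g := by
    intro s t hst
    have hkm : k s ≤ k t := Int.floor_le_floor (div_le_div_of_nonneg_right (by linarith) hT0.le)
    rcases hkm.lt_or_eq with h1 | h1
    · have h2 : (k s : ℝ) + 1 ≤ k t := by exact_mod_cast h1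
      have h3 : F.f (s - k s * T) < F.f (x + T) := F.f.strictMono (by linarith [hk2 s])
      have h4 : F.f x ≤ F.f (t - k t * T) := F.f.monotone (by linarith [hk1 t])
      rw [hf] at h3
      change F.f (s - k s * T) + k s * T < F.f (t - k t * T) + k t * T
      nlinarith
    · change F.f (s - k s * T) + k s * T < F.f (t - k t * T) + k t * T
      rw [← h1]
      have : F.f (s - k s * T) < F.f (t - k s * T) := F.f.strictMono (by linarith)
      linarith
  have hsurj : Function.Surjective g := by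
    intro y
    let m : ℤ := ⌊(y - F.f x) / T⌋
    have h1 : (m : ℝ) ≤ (y - F.f x) / T := Int.floor_le _
    have h2 : (y - F.f x) / T < m + 1 := Int.lt_floor_add_one _
    rw [le_div_iff₀ hT0] at h1
    rw [div_lt_iff₀ hT0] at h2
    have h3 : x ≤ F.f.symm (y - m * T) := by
      rw [F.f.le_symm_apply]
      linarith
    have h4 : F.f.symm (y - m * T) < x + T := by
      rw [F.f.symm_apply_lt, hf]
      linarith
    refine ⟨F.f.symm (y - m * T) + m * T, ?_⟩
    rw [(key m (F.f.symm (y - m * T) + m * T) (by linarith) (by linarith)).1, add_sub_cancel_right,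
      F.f.apply_symm_apply, sub_add_cancel]
  obtain ⟨P, hPf, hPr⟩ := exists_of_local (StrictMono.orderIsoOfSurjective g hmono hsurj) rr (by
    intro t
    have hC : ∀ (m : ℤ) (s : ℝ), x + m * T ≤ s → s ≤ x + (m + 1) * T →
        (StrictMono.orderIsoOfSurjective g hmono hsurj) s = (rot (m * T) * F * rot (-(m * T))).f s ∧
          rr s = (rot (m * T) * F * rot (-(m * T))).r s := by
      intro m s h1 h2
      obtain ⟨h3, h4⟩ := key m s h1 h2
      have h5 := conj_ev F (m * T) s
      rw [ev_def, Prod.mk_inj] at h5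
      rw [h5.1, h5.2]
      exact ⟨h3, h4⟩
    have h1 := hk1 t
    have h2 := hk2 t
    rcases h1.lt_or_eq with h3 | h3
    · refine ⟨min (x + (k t + 1) * T - t) (t - (x + k t * T)), lt_min (by linarith) (by linarith),
        ⟨_, fun s h4 h5 => hC (k t) s (by linarith) ?_⟩, ⟨_, fun s h4 h5 => hC (k t) s ?_ (by linarith)⟩⟩
      · have := min_le_left (x + (k t + 1) * T - t) (t - (x + k t * T))
        linarith
      · have := min_le_right (x + (k t + 1) * T - t) (t - (x + k t * T))
        linarith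
    · refine ⟨T, hT0, ⟨_, fun s h4 h5 => hC (k t) s (by linarith) (by linarith)⟩,
        ⟨_, fun s h4 h5 => hC (k t - 1) s ?_ ?_⟩⟩
      · push_cast
        linarith
      · push_cast
        linarith)
  have hPev : ∀ s, P.ev s = (g s, rr s) := fun s => by
    rw [ev_def, hPf, hPr]
    rfl
  refine ⟨P, ?_, ?_⟩
  · rw [mem_Ft]
    intro s
    have h1 : k (s + T) = k s + 1 := by
      refine hkeq (k s + 1) (s + T) ?_ ?_
      · push_cast
        linarith [hk1 s]
      · push_cast
        linarith [hk2 s]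
    have h2 : s + T - (k (s + T) : ℝ) * T = s - k s * T := by
      rw [h1]
      push_cast
      ring
    have h3 : g (s + T) = g s + T := by
      change F.f (s + T - k (s + T) * T) + k (s + T) * T = F.f (s - k s * T) + k s * T + T
      rw [h2, h1]
      push_cast
      ring
    have h4 : rr (s + T) = rr s := by
      change F.r (s + T - k (s + T) * T) = F.r (s - k s * T)
      rw [h2]
    have h5 : P.f s = g s := congrArg Prod.fst (hPev s)
    have h6 : P.r s = rr s := congrArg Prod.snd (hPev s)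
    rw [hPev, h3, h4, h5, h6]
  · intro s h1 h2
    obtain ⟨h3, h4⟩ := key 0 s (by push_cast; linarith) (by push_cast; linarith)
    rw [hPev, h3, h4, ev_def]
    push_cast
    rw [zero_mul, sub_zero, add_zero]

theorem exists_Ft (G : XX) {a b : ℝ} (hab : a ≤ b) (hb : b < a + 2 * Real.pi)
    (h : G.f b < G.f a + 2 * Real.pi) :
    ∃ P ∈ Ft, ∃ e : ℝ, 0 < e ∧ ∀ s, a - e ≤ s → s ≤ b + e → P.ev s = G.ev s := by
  set T : ℝ := 2 * Real.pi with hT
  have hT0 : 0 < T := by positivity
  have hc : ContinuousAt (fun e : ℝ => G.f (a - e) + T - G.f (b + e)) 0 := by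
    have h1 : Continuous (fun e : ℝ => G.f (a - e) + T - G.f (b + e)) := by
      have h2 : Continuous (fun e : ℝ => G.f (a - e)) :=
        G.continuous_f.comp (continuous_const.sub continuous_id)
      have h3 : Continuous (fun e : ℝ => G.f (b + e)) :=
        G.continuous_f.comp (continuous_const.add continuous_id)
      exact (h2.add continuous_const).sub h3
    exact h1.continuousAt
  have h0 : (0 : ℝ) < (fun e : ℝ => G.f (a - e) + T - G.f (b + e)) 0 := by
    simp only [sub_zero, add_zero]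
    linarith
  obtain ⟨d, hd, hd'⟩ := Metric.eventually_nhds_iff.1 (hc.eventually (lt_mem_nhds h0))
  let e := min (d / 2) ((a + T - b) / 3)
  have he : 0 < e := lt_min (half_pos hd) (by linarith)
  have he1 : e ≤ d / 2 := min_le_left _ _
  have he2 : e ≤ (a + T - b) / 3 := min_le_right _ _
  have h1 : 0 < G.f (a - e) + T - G.f (b + e) := by
    refine hd' (y := e) ?_
    rw [Real.dist_eq, sub_zero, abs_of_pos he]
    linarith
  have hG' : ∀ s, (rot T * G * rot (-T)).ev s = (G.f (s - T) + T, G.r (s - T)) := conj_ev G T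
  have hG'f : ∀ s, (rot T * G * rot (-T)).f s = G.f (s - T) + T := fun s =>
    congrArg Prod.fst (hG' s)
  obtain ⟨H, hH1, hH2⟩ := exists_ext G (rot T * G * rot (-T)) (a := b + e) (b := a - e + T)
    (by linarith) (by
      rw [hG'f, add_sub_cancel_right]
      linarith)
  obtain ⟨P, hP, hP'⟩ := exists_per H (a - e) (by
    have h2 : H.ev (a - e) = G.ev (a - e) := hH1 _ (by linarith)
    obtain ⟨h3, h4⟩ := ev_eq_iff.1 h2
    rw [← hT, hH2 _ le_rfl, hG', add_sub_cancel_right, h3, h4])
  refine ⟨P, hP, e, he, fun s h2 h3 => ?_⟩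
  rw [hP' s h2 (by linarith), hH1 s h3]

/-- an element of `XX` which is the identity outside `[c,d]`, `d ≤ c + 2π`, periodized -/
private theorem exists_Ft_of_sup' (F : XX) {c d : ℝ} (hcd : c ≤ d) (hdc : d ≤ c + 2 * Real.pi)
    (h1 : ∀ s, s ≤ c → F.ev s = (s, 1)) (h2 : ∀ s, d ≤ s → F.ev s = (s, 1)) :
    ∃ P ∈ Ft, (∀ s, c ≤ s → s ≤ d → P.ev s = F.ev s) ∧
      ∀ s, d ≤ s → s ≤ c + 2 * Real.pi → P.ev s = (s, 1) := by
  obtain ⟨P, hP, hP'⟩ := exists_per F c (by
    have h3 := h1 c le_rfl
    have h4 : F.f c = c := congrArg Prod.fst h3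
    have h5 : F.r c = 1 := congrArg Prod.snd h3
    rw [h2 _ hdc, h4, h5])
  exact ⟨P, hP, fun s h3 h4 => hP' s h3 (h4.trans hdc), fun s h3 h4 => by
    rw [hP' s (hcd.trans h3) h4, h2 s h3]⟩

theorem exists_Ft_sup (G : XX) {a b c d : ℝ} (hca : c < a) (hab : a ≤ b) (hbd : b < d)
    (hdc : d ≤ c + 2 * Real.pi) (h1 : c < G.f a) (h2 : G.f b < d) :
    ∃ P ∈ Ft, (∀ s, a ≤ s → s ≤ b → P.ev s = G.ev s) ∧
      ∀ s, d ≤ s → s ≤ c + 2 * Real.pi → P.ev s = (s, 1) := by
  obtain ⟨F, hF1, hF2, hF3⟩ := exists_sup G hca hab hbd h1 h2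
  obtain ⟨P, hP, hP1, hP2⟩ := exists_Ft_of_sup' F (by linarith) hdc hF1 hF2
  refine ⟨P, hP, fun s h3 h4 => ?_, hP2⟩
  rw [hP1 s (by linarith) (by linarith), hF3 s h3 h4]

/-- an element of `XX` which is the identity outside `[c,d]`, `d ≤ c + 2π`, periodized -/
theorem exists_Ft_of_sup (F : XX) {c d : ℝ} (hcd : c ≤ d) (hdc : d ≤ c + 2 * Real.pi)
    (h1 : ∀ s, s ≤ c → F.ev s = (s, 1)) (h2 : ∀ s, d ≤ s → F.ev s = (s, 1)) :
    ∃ P ∈ Ft, (∀ s, c ≤ s → s ≤ d → P.ev s = F.ev s) ∧
      ∀ s, d ≤ s → s ≤ c + 2 * Real.pi → P.ev s = (s, 1) :=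
  exists_Ft_of_sup' F hcd hdc h1 h2

end Ang
end C715
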