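import Pool.Agent.Work.MP_c71557_gt.A.DefsC
import Pool.Agent.Work.MP_c71557_gt.H.Filt
import Pool.Agent.Work.MP_c71557_gt.H.Equiv

/-!
# MP_c71557_gt, module A/PiA: the poset of short subintervals of `[c,d]` is acyclic (M)

`Pc k c d` = intervals `[x,y] ⊆ [c,d]`, `x ≤ y < x + 2π`, with `x < y` if `k` holds, ordered by
inclusion (a preorder, hence a category: `Preorder.smallCategory`).

Proof of `acy_Pc`.  Induction on `n` for the statement: `∀ c d, c ≤ d → (k → c < d) →
d - c < (n + 1) π → Acy (Pc k c d)`.
* If `d < c + 2π` (in particular for `n = 0`): `[c,d]` is an element of `Pc k c d`, the largest one;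
  `acy_of_terminal` (H/Equiv).
* Otherwise let `t = d - π` (so `c < t`, `t - c < (n + 1)π` for `d - c < (n + 2) π`),
  `ε = min 1 (t - c)` (so `0 < ε < π`, `c ≤ t - ε`).  Monotone maps:
  - `g : Pc k c d → Pc k c d`, `g [x,y] = [min x (t-ε), y]`.  (Short: `y < x + 2π`, and
    `y ≤ d = t + π < t - ε + 2π` as `ε ≤ 1 < π`.)  `a ≤ g a`.
  - `i : Pc k c t → Pc k c d` the inclusion; `r : Pc k c d → Pc k c t`,
    `r [x,y] = [min x (t-ε), min y t]`.  (`k → min x (t-ε) < min y t`: `min x (t-ε) ≤ x < y` and
    `≤ t - ε < t`; without `k`: `≤`.  Short: as for `g`.)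
  - `i (r a) ≤ g a`, and for `b : Pc k c t`: `b ≤ r (i b)` (as `min y t = y`).
  So as functors (`Monotone.functor`): `𝟭 → g ← r ⋙ i` and `𝟭 → i ⋙ r`.  By `HCmap_natTrans`
  (H/Prism) `HCmap (r ⋙ i) n = HCmap g n = HCmap 𝟭 n = id` and `HCmap (i ⋙ r) n = id`; with
  `HCmap_comp`, `HCmap_id` (H/Base): `HCmap i n` is bijective for all `n`, i.e. `HIso i`; `Acy.congr`
  and the induction hypothesis for `Pc k c t`.
-/

set_option autoImplicit false
set_option linter.unusedVariables false

noncomputable section

namespace C715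

open CategoryTheory

namespace Ang

private theorem acy_short (k : Prop) {c d : ℝ} (hcd : c ≤ d) (hk : k → c < d)
    (h : d < c + 2 * Real.pi) : Acy (Pc k c d) := by
  refine acy_of_terminal (⟨c, d, hcd, hk, h, le_rfl, le_rfl⟩ : Pc k c d) (fun a => ?_)
  exact ⟨homOfLE ⟨a.hc, a.hd⟩, trivial, fun _ _ => Subsingleton.elim _ _⟩

/-- functors between preorders -/
private def mf {P Q : Type} [Preorder P] [Preorder Q] (f : P → Q) (hf : ∀ a b, a ≤ b → f a ≤ f b) :
    P ⥤ Q where
  obj := f
  map {a b} u := homOfLE (hf a b u.le)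
  map_id a := Subsingleton.elim _ _
  map_comp u v := Subsingleton.elim _ _

private def mn {P Q : Type} [SmallCategory P] [Preorder Q] (F G : P ⥤ Q)
    (h : ∀ a, F.obj a ≤ G.obj a) : F ⟶ G where
  app a := homOfLE (h a)
  naturality a b u := Subsingleton.elim _ _

private theorem acy_step (k : Prop) {c d t : ℝ} (ht : c ≤ t - 1) (hd : d = t + Real.pi)
    (h : Acy (Pc k c t)) : Acy (Pc k c d) := by
  have hπ := Real.pi_gt_three
  let g : Pc k c d ⥤ Pc k c d := mf (fun a =>
    { lo := min a.lo (t - 1)
      hi := a.hi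
      le := (min_le_left _ _).trans a.le
      nd := fun hk => lt_of_le_of_lt (min_le_left _ _) (a.nd hk)
      sh := by
        have h1 := a.sh
        have h2 := a.hd
        rcases min_choice a.lo (t - 1) with h3 | h3 <;> rw [h3] <;> linarith
      hc := le_min a.hc ht
      hd := a.hd }) (fun a b hab => ⟨min_le_min hab.1 le_rfl, hab.2⟩)
  let i : Pc k c t ⥤ Pc k c d := mf (fun a =>
    { lo := a.lo
      hi := a.hi
      le := a.le
      nd := a.nd
      sh := a.sh
      hc := a.hc
      hd := by have := a.hd; linarith }) (fun a b hab => hab)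
  let r : Pc k c d ⥤ Pc k c t := mf (fun a =>
    { lo := min a.lo (t - 1)
      hi := min a.hi t
      le := le_min ((min_le_left _ _).trans a.le) ((min_le_right _ _).trans (by linarith))
      nd := fun hk => lt_min (lt_of_le_of_lt (min_le_left _ _) (a.nd hk))
        (lt_of_le_of_lt (min_le_right _ _) (by linarith))
      sh := by
        have h1 := a.sh
        have h4 := min_le_left a.hi t
        have h5 := min_le_right a.hi t
        rcases min_choice a.lo (t - 1) with h3 | h3 <;> rw [h3] <;> linarith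
      hc := le_min a.hc ht
      hd := min_le_right _ _ }) (fun a b hab => ⟨min_le_min hab.1 le_rfl, min_le_min hab.2 le_rfl⟩)
  have hi : HIso i := by
    intro n
    have e1 : Function.LeftInverse (HCmap r n) (HCmap i n) := fun y => by
      rw [← HCmap_comp]
      have h1 : 𝟭 (Pc k c t) ⟶ i ⋙ r := mn _ _ (fun b => by
        refine ⟨min_le_left _ _, ?_⟩
        exact le_min le_rfl b.hd)
      rw [← HCmap_natTrans h1 n, HCmap_id]
    have e2 : Function.RightInverse (HCmap r n) (HCmap i n) := fun y => by
      rw [← HCmap_comp]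
      have h1 : r ⋙ i ⟶ g := mn _ _ (fun b => ⟨le_rfl, min_le_left _ _⟩)
      have h2 : 𝟭 (Pc k c d) ⟶ g := mn _ _ (fun b => ⟨min_le_left _ _, le_rfl⟩)
      rw [HCmap_natTrans h1 n, ← HCmap_natTrans h2 n, HCmap_id]
    exact ⟨e1.injective, e2.surjective⟩
  exact (Acy.congr hi).1 h

theorem acy_Pc (k : Prop) {c d : ℝ} (hcd : c ≤ d) (hk : k → c < d) : Acy (Pc k c d) := by
  have key : ∀ (n : ℕ) (c d : ℝ), c ≤ d → (k → c < d) → d - c < (n + 1) * Real.pi →
      Acy (Pc k c d) := by
    intro n
    induction n with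
    | zero =>
      intro c d hcd hk hn
      have hπ := Real.pi_gt_three
      exact acy_short k hcd hk (by push_cast at hn; linarith)
    | succ n ih =>
      intro c d hcd hk hn
      have hπ := Real.pi_gt_three
      rcases lt_or_ge d (c + 2 * Real.pi) with h | h
      · exact acy_short k hcd hk h
      · refine acy_step k (t := d - Real.pi) (by linarith) (by ring) ?_
        refine ih c (d - Real.pi) (by linarith) (fun _ => by linarith) ?_
        push_cast at hn
        linarith
  have hπ := Real.pi_gt_three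
  obtain ⟨n, hn⟩ := exists_nat_gt ((d - c) / Real.pi)
  refine key n c d hcd hk ?_
  rw [div_lt_iff₀ (by linarith)] at hn
  nlinarith

end Ang
end C715
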