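import Pool.Agent.Work.MP_c71557_gt.A.ThinP
import Pool.Agent.Work.MP_c71557_gt.A.PiA
import Pool.Agent.Work.MP_c71557_gt.A.ActFF
import Pool.Agent.Work.MP_c71557_gt.H.QA

set_option autoImplicit false
set_option linter.unusedVariables false

/-!
# MP_c71557_gt, module A/AcS: restriction to short cells (points allowed) (M)

* `hiso_Acs`: `Ac.restrIncl ShC : Acs → Ac`.  `quillenA_over` (H/QA): for a cell `b` (possibly a
  point) the category `D = CostructuredArrow (Ac.restrIncl ShC) ⟨b⟩` has objects `(a, g)`, `a`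
  short, `g : Ft × ℤ` with `Into a (mZ g).1 b` (`N = ⊥`), arrows `(a, g) → (a', g')`:
  `k = g'⁻¹ g`, if `Into a (mZ k).1 a'`; so `D` is thin and an arrow exists iff
  `[G a.lo, G a.hi] ⊆ [G' a'.lo, G' a'.hi]`, `G = (mZ g).1` (`mZ` is a homomorphism:
  `(mZ (g'⁻¹ g)).1 = G'⁻¹ G`).  Apply `acy_thin` (A/ThinP) with `P = Pc False b.lo b.hi` (A/PiA) and
  `π (a, g) = [G.f a.lo, G.f a.hi]`; short because `G` commutes with `tau` (`G = g.1 tau^k ∈ Ft`).
  Surjective: `p = π (p, 1)`.  (Same technique as in A/ShT, `hiso_T1n`.)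
* `hiso_Bcs`: `Bc.restrIncl ShC : Bcs → Bc` by `hiso_functor` (A/ActFF) with `φ = id`: full and
  faithful trivially (`g = g'`, `1 ∈ N`; same `N`); essentially surjective: for a cell
  `b = [x,y]` (if `y < x + 2π` take `a = b`, `g = 1`); otherwise take `a = [x, x+1]` and `g = (G,1)`
  with `G x = x`, `G (x+1) = y`: by `exists_ext 1 (rot (y - (x+1)))` on `x < x+1` (A/Ext; needs
  `x < (x+1) + (y-(x+1)) = y`), so `G.ev s = (s,1)` for `s ≤ x` and `G.f s = s + (y-(x+1))` for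
  `s ≥ x+1`.  Then `Into a G b` and `Into b G⁻¹ a` (`G.f a.lo = b.lo`, `G.f a.hi = b.hi`, `inv_f_f`).
-/

noncomputable section

namespace C715

open CategoryTheory

namespace Ang

open XX ActCat

private abbrev DD (b : Cell) := CostructuredArrow (Ac.restrIncl ShC) (⟨b⟩ : Ac.Obj)

/-- the group element of an object over `b` -/
private def el {b : Cell} (x : DD b) : {g // Ac.Adm x.left.o.1 g b} :=
  Quotient.out (s := Ac.setoid x.left.o.1 b) (x.hom : Ac.Hm x.left.o.1 b)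

private theorem el_spec {b : Cell} (x : DD b) :
    x.hom = (Ac.cl (el x).1 (el x).2 : Ac.Hm x.left.o.1 b) :=
  (Quotient.out_eq (s := Ac.setoid x.left.o.1 b) (x.hom : Ac.Hm x.left.o.1 b)).symm

private theorem mem_bot_eq {a : Cell} {g g' : ↥Ft × Multiplicative ℤ}
    (h : g⁻¹ * g' ∈ Ac.N a) : g = g' := by
  have h1 : g⁻¹ * g' ∈ (⊥ : Subgroup (↥Ft × Multiplicative ℤ)) := h
  exact inv_mul_eq_one.1 (Subgroup.mem_bot.1 h1)

private theorem hom_left {b : Cell} {x y : DD b} (u : x ⟶ y) :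
    ∃ hk : Ac.Adm x.left.o.1 ((el y).1⁻¹ * (el x).1) y.left.o.1,
      u.left = ((Ac.restr ShC).cl (a := x.left.o) (b := y.left.o) _ hk :
        (Ac.restr ShC).Hm x.left.o y.left.o) := by
  obtain ⟨k, hk, e⟩ := hom_surj u.left
  have h1 := CostructuredArrow.w u
  rw [e, el_spec x, el_spec y] at h1
  have h2 : Ac.cl ((el y).1 * k) (Ac.mul hk (el y).2) = Ac.cl (el x).1 (el x).2 := h1
  have h3 := mem_bot_eq (cl_eq.1 h2)
  have h4 : k = (el y).1⁻¹ * (el x).1 := by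
    rw [← h3, inv_mul_cancel_left]
  subst h4
  exact ⟨hk, e⟩

private theorem mZ_diff (g g' : ↥Ft × Multiplicative ℤ) :
    (mZ (g'⁻¹ * g)).1 = (mZ g').1⁻¹ * (mZ g).1 := by
  rw [map_mul, map_inv]
  rfl

private theorem adm_diff {a a' : Cell} {g g' : ↥Ft × Multiplicative ℤ} :
    Ac.Adm a (g'⁻¹ * g) a' ↔
      (mZ g').1.f a'.lo ≤ (mZ g).1.f a.lo ∧ (mZ g).1.f a.hi ≤ (mZ g').1.f a'.hi := by
  change Into a (mZ (g'⁻¹ * g)).1 a' ↔ _
  unfold Into
  rw [mZ_diff, mul_f, mul_f, inv_f, inv_f, OrderIso.le_symm_apply, OrderIso.symm_apply_le]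

private theorem mZ_mem (g : ↥Ft × Multiplicative ℤ) : (mZ g).1 ∈ Ft :=
  Ft.mul_mem g.1.2 (Ft.zpow_mem tau_mem _)

private theorem short_img {F : XX} (hF : F ∈ Ft) {a : Cell} (h : ShC a) :
    F.f a.hi < F.f a.lo + 2 * Real.pi := by
  have h1 : F.f (a.lo + 2 * Real.pi) = F.f a.lo + 2 * Real.pi :=
    congrArg Prod.fst (mem_Ft.1 hF a.lo)
  rw [← h1]
  exact F.f.strictMono h

private def pid {b : Cell} (x : DD b) : Pc False b.lo b.hi where
  lo := (mZ (el x).1).1.f x.left.o.1.lo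
  hi := (mZ (el x).1).1.f x.left.o.1.hi
  le := (mZ (el x).1).1.f.monotone x.left.o.1.le
  nd h := h.elim
  sh := short_img (mZ_mem _) x.left.o.2
  hc := (el x).2.1
  hd := (el x).2.2

private theorem pid_le {b : Cell} {x y : DD b} : pid x ≤ pid y ↔
    Ac.Adm x.left.o.1 ((el y).1⁻¹ * (el x).1) y.left.o.1 := adm_diff.symm

theorem hiso_Acs : HIso (Ac.restrIncl ShC) := by
  refine quillenA_over _ ?_
  rintro ⟨b⟩
  refine acy_thin (acy_Pc False b.le (fun h => h.elim)) (pid (b := b)) ?_ ?_ ?_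
  · intro x y u v
    obtain ⟨h1, e1⟩ := hom_left u
    obtain ⟨h2, e2⟩ := hom_left v
    refine CostructuredArrow.hom_ext _ _ ?_
    rw [e1, e2]
  · intro x y
    rw [pid_le]
    constructor
    · rintro ⟨u⟩
      exact (hom_left u).1
    · intro h
      refine ⟨CostructuredArrow.homMk ((Ac.restr ShC).hom (a := x.left.o) (b := y.left.o) _ h) ?_⟩
      rw [el_spec x, el_spec y]
      refine cl_eq.2 ?_
      change ((el y).1 * ((el y).1⁻¹ * (el x).1))⁻¹ * (el x).1 ∈ _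
      rw [mul_inv_cancel_left, inv_mul_cancel]
      exact Subgroup.one_mem _
  · intro p
    have h1 : Ac.Adm (⟨p.lo, p.hi, p.le⟩ : Cell) 1 b := by
      change Into _ (mZ 1).1 b
      rw [map_one]
      exact ⟨p.hc, p.hd⟩
    let x : DD b := CostructuredArrow.mk (S := Ac.restrIncl ShC)
      (Y := (⟨⟨⟨p.lo, p.hi, p.le⟩, p.sh⟩⟩ : (Ac.restr ShC).Obj)) (Ac.hom 1 h1)
    have h2 : (1 : ↥Ft × Multiplicative ℤ) = (el x).1 := by
      have h3 : Ac.cl 1 h1 = Ac.cl (el x).1 (el x).2 := el_spec x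
      exact mem_bot_eq (cl_eq.1 h3)
    have h4 : (mZ (el x).1).1 = 1 := by
      rw [← h2, map_one]
      rfl
    refine ⟨x, ?_, ?_⟩
    · change p.lo ≤ (mZ (el x).1).1.f p.lo ∧ (mZ (el x).1).1.f p.hi ≤ p.hi
      rw [h4]
      exact ⟨le_rfl, le_rfl⟩
    · change (mZ (el x).1).1.f p.lo ≤ p.lo ∧ p.hi ≤ (mZ (el x).1).1.f p.hi
      rw [h4]
      exact ⟨le_rfl, le_rfl⟩

theorem hiso_Bcs : HIso (Bc.restrIncl ShC) := by
  refine hiso_functor (A := Bc.restr ShC) (A' := Bc) (fun a => a.1) (MonoidHom.id _) (fun h => h)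
    (fun h => h) ?_ ?_ ?_
  · intro a b g' h
    refine ⟨g', h, ?_⟩
    rw [MonoidHom.id_apply, inv_mul_cancel]
    exact Subgroup.one_mem _
  · intro a b g g' _ _ h
    exact h
  · intro b
    have hπ := Real.pi_gt_three
    rcases lt_or_ge b.hi (b.lo + 2 * Real.pi) with h | h
    · refine ⟨⟨b, h⟩, 1, Bc.one b, ?_⟩
      rw [inv_one]
      exact Bc.one b
    · obtain ⟨F, hF1, hF2⟩ := exists_ext 1 (rot (b.hi - (b.lo + 1))) (a := b.lo) (b := b.lo + 1)
        (by linarith) (by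
          rw [one_f, rot_f]
          linarith)
      have e1 : F.f b.lo = b.lo := congrArg Prod.fst (hF1 b.lo le_rfl)
      have e2 : F.f (b.lo + 1) = b.hi := by
        have h1 : F.f (b.lo + 1) = (b.lo + 1) + (b.hi - (b.lo + 1)) :=
          congrArg Prod.fst (hF2 (b.lo + 1) le_rfl)
        rw [h1]
        ring
      let a : Cell := ⟨b.lo, b.lo + 1, by linarith⟩
      refine ⟨⟨a, by
        change b.lo + 1 < b.lo + 2 * Real.pi
        linarith⟩, (F, 1), ⟨e1.ge, e2.le⟩, ?_, ?_⟩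
      · change b.lo ≤ (F⁻¹).f b.lo
        conv_rhs => rw [← e1, inv_f_f]
      · change (F⁻¹).f b.hi ≤ b.lo + 1
        rw [← e2, inv_f_f]

end Ang
end C715
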