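import Pool.Agent.Work.MP_c71557_gt.A.Per

set_option autoImplicit false

/-!
# MP_c71557_gt, module A/Cut: cutting off the support (M)

* `exists_cut`: for `F ∈ Fix x y` glue (`exists_glue`) `1` and `F` at `x`, then the result with `1`
  at `y`; the result is determined by its values (`ext_ev`), so `F ↦ cut F` is a homomorphism:
  check the values of `cut (F G)` and `cut F * cut G` at `s` (for `x ≤ s ≤ y`:
  `x = G.f x ≤ G.f s ≤ G.f y = y`).
* `cut_per`: for `h ∈ sp x y` with `y ≤ x + 2π` periodize (`exists_Ft_of_sup` with `c = x`, `d = y`):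
  `P ∈ Ft`, `P = h` on `[x,y]`, `P = 1` on `[y, x + 2π]`.  `P` is the identity near
  `[y, x + 2π]`, hence (period) near `[y - 2π, x]`; `P ∈ nb (y) (x + 2π)`.
-/

namespace C715
namespace Ang

open XX

/-- elements fixing the unit vectors of the rays `x` and `y` -/
noncomputable def Fix (x y : ℝ) : Subgroup XX where
  carrier := {F | F.ev x = (x, 1) ∧ F.ev y = (y, 1)}
  one_mem' := ⟨rfl, rfl⟩
  mul_mem' := by
    rintro F G ⟨h1, h2⟩ ⟨h3, h4⟩
    exact ⟨(mul_ev_right h3).trans h1, (mul_ev_right h4).trans h2⟩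
  inv_mem' := by
    rintro F ⟨h1, h2⟩
    refine ⟨?_, ?_⟩
    · rw [inv_ev h1, inv_one]
    · rw [inv_ev h2, inv_one]

private theorem cut_one {x y : ℝ} (hxy : x ≤ y) (F : XX) (hF : F ∈ Fix x y) :
    ∃ H : XX, ∀ s : ℝ, (x ≤ s → s ≤ y → H.ev s = F.ev s) ∧ (s ≤ x → H.ev s = (s, 1)) ∧
      (y ≤ s → H.ev s = (s, 1)) := by
  obtain ⟨h1, h2⟩ := hF
  obtain ⟨A, hA1, hA2⟩ := exists_glue 1 F x (by rw [one_ev, h1])
  obtain ⟨B, hB1, hB2⟩ := exists_glue A 1 y (by rw [hA2 y hxy, h2, one_ev])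
  refine ⟨B, fun s => ⟨fun h3 h4 => ?_, fun h3 => ?_, fun h3 => ?_⟩⟩
  · rw [hB1 s h4, hA2 s h3]
  · rw [hB1 s (h3.trans hxy), hA1 s h3, one_ev]
  · rw [hB2 s h3, one_ev]

theorem exists_cut {x y : ℝ} (hxy : x ≤ y) : ∃ φ : ↥(Fix x y) →* XX, ∀ (F : ↥(Fix x y)) (s : ℝ),
    (x ≤ s → s ≤ y → (φ F).ev s = F.1.ev s) ∧ (s ≤ x → (φ F).ev s = (s, 1)) ∧
      (y ≤ s → (φ F).ev s = (s, 1)) := by
  choose cut hcut using fun F : ↥(Fix x y) => cut_one hxy F.1 F.2
  refine ⟨MonoidHom.mk' cut ?_, hcut⟩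
  intro F G
  refine ext_ev fun s => ?_
  rcases le_total s x with h1 | h1
  · have h2 := (hcut G s).2.1 h1
    have h3 := (hcut F s).2.1 h1
    rw [(hcut (F * G) s).2.1 h1, mul_ev_right h2, h3]
  · rcases le_total y s with h2 | h2
    · have h3 := (hcut G s).2.2 h2
      have h4 := (hcut F s).2.2 h2
      rw [(hcut (F * G) s).2.2 h2, mul_ev_right h3, h4]
    · have h3 := (hcut (F * G) s).1 h1 h2
      have h4 := (hcut G s).1 h1 h2
      rw [h3]
      change (F.1 * G.1).ev s = _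
      have h5 : x ≤ G.1.f s := by
        have h6 : G.1.f x = x := congrArg Prod.fst G.2.1
        have h8 : G.1.f x ≤ G.1.f s := G.1.f.monotone h1
        rwa [h6] at h8
      have h7 : G.1.f s ≤ y := by
        have h6 : G.1.f y = y := congrArg Prod.fst G.2.2
        have h8 : G.1.f s ≤ G.1.f y := G.1.f.monotone h2
        rwa [h6] at h8
      exact mul_ev_congr h4.symm ((hcut F (G.1.f s)).1 h5 h7).symm

theorem cut_per {x y : ℝ} (hxy : x < y) (hy : y < x + 2 * Real.pi) {h : XX} (hh : h ∈ sp x y) :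
    ∃ P ∈ Ft, P ∈ nb y (x + 2 * Real.pi) ∧ ∀ s, x ≤ s → s ≤ y → P.ev s = h.ev s := by
  obtain ⟨⟨e, he, h1⟩, ⟨d, hd, h2⟩⟩ := hh
  obtain ⟨P, hP, hP1, hP2⟩ := exists_Ft_of_sup h hxy.le hy.le (fun s hs => h1 s (by linarith))
    (fun s hs => h2 s (by linarith))
  refine ⟨P, hP, ?_, hP1⟩
  refine ⟨min (min e d) (y - x), lt_min (lt_min he hd) (by linarith), fun s h3 h4 => ?_⟩
  have h5 : min (min e d) (y - x) ≤ e := (min_le_left _ _).trans (min_le_left _ _)
  have h6 : min (min e d) (y - x) ≤ d := (min_le_left _ _).trans (min_le_right _ _)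
  have h7 : min (min e d) (y - x) ≤ y - x := min_le_right _ _
  rcases le_total s y with h8 | h8
  · rw [hP1 s (by linarith) h8, h2 s (by linarith)]
  · rcases le_total s (x + 2 * Real.pi) with h9 | h9
    · exact hP2 s h8 h9
    · have h10 := (mem_Ft.1 hP) (s - 2 * Real.pi)
      rw [sub_add_cancel] at h10
      have h11 : P.ev (s - 2 * Real.pi) = (s - 2 * Real.pi, 1) := by
        rw [hP1 _ (by linarith) (by linarith), h1 _ (by linarith)]
      have h12 : P.f (s - 2 * Real.pi) = s - 2 * Real.pi := congrArg Prod.fst h11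
      have h13 : P.r (s - 2 * Real.pi) = 1 := congrArg Prod.snd h11
      rw [h10, h12, h13, sub_add_cancel]

end Ang
end C715
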