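import Pool.Agent.Work.MP_c71557_gt.A.DefsC
import Pool.Agent.Work.MP_c71557_gt.A.Cut
import Pool.Agent.Work.MP_c71557_gt.H.ConjIncl

/-!
# MP_c71557_gt, module A/CS: `KS` and the fibres (M)

Let `S0 = sp (8 - 2π) 7 ≤ S1 = sp 0 7` (`nbL_mono`, `8 - 2π > 0`).
* `cutS_bij`: `cutS : KS → XX` is injective with image `S0`.  Image in `S0`: `cutS_sp`.  Injective:
  if `cutS F = 1` then `F = 1` on `[8 - 2π, 7]` (`cutF_spec`) and on `[7,8]` (`KS_ev`), hence
  everywhere (`mem_Ft`: `F.ev (s + 2π) = (F.f s + 2π, F.r s)`; every real is `s + 2πk` with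
  `s ∈ [8 - 2π, 8]`).  Surjective: `h ∈ S0`: `cut_per` (A/Cut) with `x = 8 - 2π`, `y = 7` gives
  `P ∈ Ft`, `P ∈ nb 7 8`, `P = h` on `[8 - 2π, 7]`, so `cutS P = h` (`cutF_spec`, and `h = 1` outside).
* `kS0 : sg KS → sg S0`: the functor `sgFun KS (sg S0) () cutS _` is a homology isomorphism: it is
  full and faithful and bijective on objects (as in `sgMap_hiso`, H/ConjIncl; there the homomorphism
  is defined on the whole group, here on `KS`; prove it directly with `hiso_of_equiv`).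
* `sgIncl (S0 ≤ S1)`: `conjIncl_hiso` (H/ConjIncl): given finite `E0 ⊆ S0`, `E ⊆ S1` choose
  `0 < e < 1` such that all elements of `E0` are the identity on `(-∞, 8 - 2π + e]` and on
  `[7 - e, ∞)`, those of `E` on `(-∞, e]` and on `[7 - e, ∞)`.  Take `g ∈ S1` with `g = 1` on
  `(-∞, e/2]` and on `[8 - 2π + e, ∞)`, `g e > 8 - 2π` (e.g. `exists_ext 1 (rot (8-2π+e/3-e))` on
  `e/2 < e`, then `exists_ext (that) 1` on `e < 8-2π+e`: its value at `e` is `8-2π+e/3`).  Then `g`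
  commutes with `E0` (disjoint supports), and `g f g⁻¹` for `f ∈ E` is the identity on
  `(-∞, 8 - 2π + e/3]` (there `g⁻¹ s ≤ e`) and on `[7 - e, ∞)` (there `g⁻¹ s = s`): it is in `S0`.
  (Note `8 - 2π + e < 7 - e` because `e < 1`… use `pi_b`.)
* `sgToGrp S1 (N2 o2) (T2.N o2)`: `sgToGrp_hiso` (H/ConjIncl): `S1 ≤ N2 o2 = nbL 0 ⊓ nb 7 8`
  (`nbR 7 ≤ nb 7 8`); `k ∈ S1`, `k ∈ nbL 8` gives `k = 1`; for `g ∈ N2 o2`: `exists_glue g 1 7` (A/Loc;
  `g.ev 7 = (7,1)`) gives `k = g` on `(-∞,7]`, `k = 1` on `[7,∞)`, and `k⁻¹ g = 1` on `(-∞, 8 + e]`.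
* `cS` is the composite of the three (functor extensionality, arrows by `ActCat.ind`).
* `hiso_kS`: `sgToGrp_hiso` (`T1.N o1 = ⊥`, `K = N1 o1`).
-/

set_option autoImplicit false
set_option linter.unusedVariables false

noncomputable section

namespace C715

open CategoryTheory

namespace Ang

open XX ActCat

private theorem per_ev {F : XX} (hF : F ∈ Ft) (s : ℝ) :
    F.ev (s + 2 * Real.pi) = (s + 2 * Real.pi, 1) ↔ F.ev s = (s, 1) := by
  rw [mem_Ft.1 hF s, ev_def]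
  constructor
  · intro h
    have h1 : F.f s + 2 * Real.pi = s + 2 * Real.pi := congrArg Prod.fst h
    have h2 : F.r s = 1 := congrArg Prod.snd h
    exact Prod.ext (by change F.f s = s; linarith) h2
  · intro h
    have h1 : F.f s = s := congrArg Prod.fst h
    have h2 : F.r s = 1 := congrArg Prod.snd h
    rw [h1, h2]

private theorem per_ev_nat {F : XX} (hF : F ∈ Ft) (n : ℕ) (s : ℝ) :
    F.ev (s + n * (2 * Real.pi)) = (s + n * (2 * Real.pi), 1) ↔ F.ev s = (s, 1) := by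
  induction n with
  | zero => simp
  | succ n ih =>
    have h1 : s + ((n + 1 : ℕ) : ℝ) * (2 * Real.pi) = s + n * (2 * Real.pi) + 2 * Real.pi := by
      push_cast; ring
    rw [← ih, h1]
    exact per_ev hF _

private theorem per_ev_int {F : XX} (hF : F ∈ Ft) (n : ℤ) (s : ℝ) :
    F.ev (s + n * (2 * Real.pi)) = (s + n * (2 * Real.pi), 1) ↔ F.ev s = (s, 1) := by
  rcases Int.eq_nat_or_neg n with ⟨m, rfl | rfl⟩
  · have := per_ev_nat hF m s
    simpa using this
  · rw [← per_ev_nat hF m (s + ((-(m : ℤ) : ℤ) : ℝ) * (2 * Real.pi))]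
    have h1 : s + ((-(m : ℤ) : ℤ) : ℝ) * (2 * Real.pi) + m * (2 * Real.pi) = s := by
      push_cast; ring
    rw [h1]

theorem cutS_inj (F : ↥KS) (h : cutS F = 1) : F = 1 := by
  have hF : KSX F ∈ Ft := F.1.2
  obtain ⟨e, he, h1, h2⟩ := KS_ev F
  have hπ := pi_b
  have h3 : ∀ s, 8 - 2 * Real.pi ≤ s → s ≤ 8 → (KSX F).ev s = (s, 1) := by
    intro s hs hs'
    rcases le_total s 7 with h7 | h7
    · have h4 := (cutF_spec (KSX.codRestrict _ KS_Fix F) s).1 hs h7
      have h5 : (cutS F).ev s = (KSX F).ev s := h4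
      rw [← h5, h, one_ev]
    · exact h1 s (by linarith) (by linarith)
  have h4 : KSX F = 1 := by
    refine ext_ev (fun s => ?_)
    rw [one_ev]
    have hp : (0 : ℝ) < 2 * Real.pi := by linarith
    obtain ⟨k, hk, -⟩ := existsUnique_add_zsmul_mem_Ico hp s (8 - 2 * Real.pi)
    have hk1 : 8 - 2 * Real.pi ≤ s + k * (2 * Real.pi) := by
      have := hk.1
      rwa [zsmul_eq_mul] at this
    have hk2 : s + k * (2 * Real.pi) < 8 - 2 * Real.pi + 2 * Real.pi := by
      have := hk.2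
      rwa [zsmul_eq_mul] at this
    exact (per_ev_int hF k s).1 (h3 _ hk1 (by linarith))
  exact Subtype.ext (Subtype.ext h4)

theorem cutS_surj {h : XX} (hh : h ∈ sp (8 - 2 * Real.pi) 7) : ∃ F : ↥KS, cutS F = h := by
  have hπ := pi_b
  obtain ⟨P, hP, hP1, hP2⟩ := cut_per (x := 8 - 2 * Real.pi) (y := 7) (by linarith) (by linarith) hh
  have hP3 : P ∈ nb 7 8 := by
    have h1 : 8 - 2 * Real.pi + 2 * Real.pi = 8 := by ring
    rwa [h1] at hP1
  let F : ↥KS := ⟨⟨P, hP⟩, hP3⟩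
  refine ⟨F, ext_ev (fun s => ?_)⟩
  obtain ⟨⟨e, he, h1⟩, ⟨d, hd, h2⟩⟩ := hh
  obtain ⟨c1, c2, c3⟩ := cutF_spec (KSX.codRestrict _ KS_Fix F) s
  rcases le_total s (8 - 2 * Real.pi) with h3 | h3
  · rw [h1 s (by linarith)]
    exact c2 h3
  · rcases le_total s 7 with h4 | h4
    · refine (c1 h3 h4).trans ?_
      exact hP2 s h3 h4
    · rw [h2 s (by linarith)]
      exact c3 h4

private theorem S01 : sp (8 - 2 * Real.pi) 7 ≤ sp 0 7 := by
  have hπ := pi_b
  exact inf_le_inf (nbL_mono (by linarith)) le_rfl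

private def kS0 : (sg KS).Obj ⥤ (sg (sp (8 - 2 * Real.pi) 7)).Obj :=
  sgFun KS (sg (sp (8 - 2 * Real.pi) 7)) () cutS cutS_sp

private theorem kS0_hiso : HIso kS0 := by
  have hf : kS0.Faithful := ⟨fun {x y f f'} e => by
    induction f using ActCat.ind with
    | h g hg =>
      induction f' using ActCat.ind with
      | h g' hg' =>
        have e1 : (cutS ⟨g, hg⟩)⁻¹ * cutS ⟨g', hg'⟩ ∈ (⊥ : Subgroup XX) := cl_eq.1 e
        rw [Subgroup.mem_bot, ← map_inv, ← map_mul] at e1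
        have e2 := cutS_inj _ e1
        refine cl_eq.2 ?_
        change g⁻¹ * g' ∈ (⊥ : Subgroup ↥Ft)
        rw [Subgroup.mem_bot]
        exact congrArg Subtype.val e2⟩
  have hl : kS0.Full := ⟨fun {x y} f => by
    induction f using ActCat.ind with
    | h g hg =>
      obtain ⟨F, hF⟩ := cutS_surj hg
      refine ⟨(sg KS).hom (a := x.o) (b := y.o) F.1 F.2, cl_eq.2 ?_⟩
      change (cutS F)⁻¹ * g ∈ (⊥ : Subgroup XX)
      rw [hF, inv_mul_cancel]
      exact Subgroup.one_mem _⟩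
  have he : kS0.EssSurj := ⟨fun y => ⟨⟨()⟩, ⟨eqToIso rfl⟩⟩⟩
  have : kS0.IsEquivalence := { }
  exact hiso_of_equiv _

private theorem fin_eps (P : XX → ℝ → Prop) (hmono : ∀ F e e', P F e → 0 < e' → e' ≤ e → P F e')
    (E : Set XX) (hE : E.Finite) (h : ∀ F ∈ E, ∃ e : ℝ, 0 < e ∧ P F e) :
    ∃ e : ℝ, 0 < e ∧ ∀ F ∈ E, P F e := by
  induction E, hE using Set.Finite.induction_on with
  | empty => exact ⟨1, one_pos, fun F hF => absurd hF (Set.notMem_empty F)⟩
  | insert _ _ ih =>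
    rename_i a s _ _
    obtain ⟨e1, he1, h1⟩ := ih (fun F hF => h F (Set.mem_insert_of_mem _ hF))
    obtain ⟨e2, he2, h2⟩ := h a (Set.mem_insert _ _)
    refine ⟨min e1 e2, lt_min he1 he2, fun F hF => ?_⟩
    rcases hF with rfl | hF
    · exact hmono _ _ _ h2 (lt_min he1 he2) (min_le_right _ _)
    · exact hmono _ _ _ (h1 F hF) (lt_min he1 he2) (min_le_left _ _)

private theorem i01_hiso : HIso (sgIncl S01) := by
  have hπ := pi_b
  refine conjIncl_hiso S01 (fun E0 E hE0 hE hE0S hES => ?_)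
  obtain ⟨e0, he0, h0⟩ := fin_eps
    (fun F e => (∀ s, s ≤ 8 - 2 * Real.pi + e → F.ev s = (s, 1)) ∧
      ∀ s, 7 - e ≤ s → F.ev s = (s, 1))
    (fun F e e' h _ hle => ⟨fun s hs => h.1 s (by linarith), fun s hs => h.2 s (by linarith)⟩)
    E0 hE0 (fun F hF => by
      obtain ⟨⟨e, he, h1⟩, ⟨d, hd, h2⟩⟩ := hE0S hF
      exact ⟨min e d, lt_min he hd, fun s hs => h1 s (by linarith [min_le_left e d]),
        fun s hs => h2 s (by linarith [min_le_right e d])⟩)
  obtain ⟨e1, he1, h1⟩ := fin_eps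
    (fun F e => (∀ s, s ≤ 0 + e → F.ev s = (s, 1)) ∧
      ∀ s, 7 - e ≤ s → F.ev s = (s, 1))
    (fun F e e' h _ hle => ⟨fun s hs => h.1 s (by linarith), fun s hs => h.2 s (by linarith)⟩)
    E hE (fun F hF => by
      obtain ⟨⟨e, he, h1⟩, ⟨d, hd, h2⟩⟩ := hES hF
      exact ⟨min e d, lt_min he hd, fun s hs => h1 s (by linarith [min_le_left e d]),
        fun s hs => h2 s (by linarith [min_le_right e d])⟩)
  obtain ⟨e, he, hee0, hee1, he1'⟩ : ∃ e : ℝ, 0 < e ∧ e ≤ e0 ∧ e ≤ e1 ∧ e ≤ 1 :=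
    ⟨min (min e0 e1) 1, lt_min (lt_min he0 he1) one_pos,
      (min_le_left _ _).trans (min_le_left _ _), (min_le_left _ _).trans (min_le_right _ _),
      min_le_right _ _⟩
  obtain ⟨G1, g1, g2⟩ := exists_ext 1 (rot (8 - 2 * Real.pi + e / 3 - e)) (a := e / 2) (b := e)
    (by linarith) (by rw [one_f, rot_f]; linarith)
  have g3 : G1.f e = 8 - 2 * Real.pi + e / 3 := by
    have := (ev_eq_iff.1 (g2 e le_rfl)).1
    rw [this, rot_f]; ring
  obtain ⟨g, g4, g5⟩ := exists_ext G1 1 (a := e) (b := 8 - 2 * Real.pi + e) (by linarith)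
    (by rw [one_f, g3]; linarith)
  have k1 : ∀ s, s ≤ e / 2 → g.ev s = (s, 1) := fun s hs => by
    rw [g4 s (by linarith), g1 s hs, one_ev]
  have k2 : ∀ s, 8 - 2 * Real.pi + e ≤ s → g.ev s = (s, 1) := fun s hs => by
    rw [g5 s hs, one_ev]
  have k3 : g.f e = 8 - 2 * Real.pi + e / 3 := by
    rw [(ev_eq_iff.1 (g4 e le_rfl)).1, g3]
  have k4 : g.f (8 - 2 * Real.pi + e) = 8 - 2 * Real.pi + e := congrArg Prod.fst (k2 _ le_rfl)
  refine ⟨g, ⟨⟨e / 2, by linarith, fun s hs => k1 s (by linarith)⟩,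
    ⟨1, one_pos, fun s hs => k2 s (by linarith)⟩⟩, ?_, ?_⟩
  · intro f hf
    obtain ⟨f1, f2⟩ := h0 f hf
    refine ext_ev (fun s => ?_)
    rcases le_total s (8 - 2 * Real.pi + e) with hs | hs
    · have hgs : g.f s ≤ 8 - 2 * Real.pi + e := by
        rw [← k4]; exact g.f.monotone hs
      rw [mul_ev_right (f1 s (by linarith)), mul_ev_left (f1 _ (by linarith))]
    · have hfs : f.f (8 - 2 * Real.pi + e) = 8 - 2 * Real.pi + e :=
        congrArg Prod.fst (f1 _ (by linarith))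
      have hfs' : 8 - 2 * Real.pi + e ≤ f.f s := by
        conv_lhs => rw [← hfs]
        exact f.f.monotone hs
      rw [mul_ev_right (k2 s hs), mul_ev_left (k2 _ hfs')]
  · intro f hf
    obtain ⟨f1, f2⟩ := h1 f hf
    have hgg : ∀ s, (g * g⁻¹).ev s = (s, 1) := fun s => by rw [mul_inv_cancel, one_ev]
    refine ⟨⟨e / 3, by linarith, fun s hs => ?_⟩, ⟨e, he, fun s hs => ?_⟩⟩
    · have hs1 : (g⁻¹).f s ≤ e := by
        rw [inv_f, g.f.symm_apply_le, k3]
        exact hs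
      rw [mul_assoc]
      have h2 : (f * g⁻¹).ev s = (g⁻¹).ev s := mul_ev_left (f1 _ (by linarith))
      rw [mul_ev_congr h2 rfl]
      exact hgg s
    · have hs1 : (g⁻¹).ev s = (s, 1) := by
        rw [inv_ev (k2 s (by linarith)), inv_one]
      rw [mul_ev_right hs1, mul_ev_right (f2 s (by linarith))]
      exact k2 s (by linarith)

private theorem S1N2 : sp 0 7 ≤ N2 o2 := by
  intro k hk
  obtain ⟨⟨e, he, h1⟩, ⟨d, hd, h2⟩⟩ := hk
  exact ⟨⟨e, he, h1⟩, ⟨d, hd, fun s hs _ => h2 s hs⟩⟩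

private def qS : (sg (sp 0 7)).Obj ⥤ F2.Obj :=
  sgToGrp (sp 0 7) (N2 o2) (T2.N o2) (N2_le o2) (fun g hg n hn => T2.conj (N2_adm hg) hn) S1N2

private theorem qS_hiso : HIso qS := by
  refine sgToGrp_hiso _ _ _ _ _ _ ?_ ?_
  · rintro k ⟨h1, ⟨d, hd, h2⟩⟩ ⟨e, he, h3⟩
    refine ext_ev (fun s => ?_)
    rw [one_ev]
    rcases le_total s 7 with hs | hs
    · refine h3 s ?_
      change s ≤ 8 + e
      linarith
    · exact h2 s (by linarith)
  · rintro g ⟨⟨e, he, h1⟩, ⟨d, hd, h2⟩⟩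
    have h2' : ∀ s, 7 - d ≤ s → s ≤ 8 + d → g.ev s = (s, 1) := h2
    obtain ⟨k, k1, k2⟩ := exists_glue g 1 7 (by
      rw [h2' 7 (by linarith) (by linarith), one_ev])
    refine ⟨k, ⟨⟨min e 1, lt_min he one_pos, fun s hs => ?_⟩, ⟨min d 1, lt_min hd one_pos,
      fun s hs => ?_⟩⟩, ⟨d, hd, fun s hs => ?_⟩⟩
    · have m1 := min_le_left e 1
      have m2 := min_le_right e 1
      rw [k1 s (by linarith)]
      exact h1 s (by linarith)
    · have m1 := min_le_left d 1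
      have m2 := min_le_right d 1
      rcases le_total s 7 with h7 | h7
      · rw [k1 s h7]
        exact h2' s (by linarith) (by linarith)
      · rw [k2 s h7, one_ev]
    · have hs' : s ≤ 8 + d := hs
      rw [inv_mul_ev]
      rcases le_total s 7 with h7 | h7
      · exact k1 s h7
      · rw [k2 s h7, h2' s (by linarith) hs', one_ev]

theorem hiso_cS : HIso cS := by
  have h : cS = kS0 ⋙ sgIncl S01 ⋙ qS := by
    refine CategoryTheory.Functor.ext (fun _ => rfl) (fun x y u => ?_)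
    induction u using ActCat.ind with
    | h g hg =>
      refine Eq.trans ?_ (Category.id_comp _).symm
      exact (Category.comp_id _).symm
  rw [h]
  exact kS0_hiso.comp (i01_hiso.comp qS_hiso)

theorem hiso_kS : HIso kS := by
  refine sgToGrp_hiso _ _ _ _ _ _ ?_ ?_
  · intro k _ hk
    exact Subgroup.mem_bot.1 hk
  · intro g hg
    refine ⟨g, hg, ?_⟩
    rw [inv_mul_cancel]
    exact Subgroup.one_mem _

end Ang
end C715
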