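import Pool.Agent.Work.MP_c71557_gt.A.Defs

/-!
# MP_c71557_gt, module A/Cmp: finite subdivisions (S-M)

`exists_pcs`: let `S = {t ∈ [a,b] | t = a ∨ ∃ n, Pcs F a n t}`.  It is nonempty; let `c` be its
supremum; by the local condition at `c` (left side) there are `e > 0` and `t ∈ S`, `c - e < t ≤ c`,
with `F` linear on `[t,c]`, so `c ∈ S` (`Pcs.snoc`); if `c < b` the right side gives a larger element.
Alternatively `IsClosed.Icc_subset_of_forall_exists_gt`, or a compactness argument
(Lebesgue number).  `Pcs.snoc`: induction.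
-/

set_option autoImplicit false

namespace C715
namespace Ang

open XX

/-- `F` is linear on `n` consecutive intervals from `a` to `b` -/
inductive Pcs (F : XX) : ℝ → ℕ → ℝ → Prop
  | one {a b : ℝ} : a < b → LinOn F.f F.r (Set.Icc a b) → Pcs F a 1 b
  | cons {a t b : ℝ} {n : ℕ} : a < t → LinOn F.f F.r (Set.Icc a t) → Pcs F t n b →
      Pcs F a (n + 1) b

theorem Pcs.lt {F : XX} {a b : ℝ} {n : ℕ} (h : Pcs F a n b) : a < b := by
  induction h with
  | one h _ => exact h
  | cons h _ _ ih => exact h.trans ih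

theorem Pcs.snoc {F : XX} {a t b : ℝ} {n : ℕ} (h : Pcs F a n t) (htb : t < b)
    (hl : LinOn F.f F.r (Set.Icc t b)) : Pcs F a (n + 1) b := by
  induction h with
  | one h h' => exact Pcs.cons h h' (Pcs.one htb hl)
  | cons h h' _ ih => exact Pcs.cons h h' (ih htb hl)

theorem exists_pcs (F : XX) {a b : ℝ} (hab : a < b) : ∃ n, Pcs F a n b := by
  let S : Set ℝ := {t | t ≤ b ∧ ∃ n, Pcs F a n t}
  obtain ⟨e0, he0, h0, -⟩ := F.pl a
  have hm0 : min (a + e0) b ∈ S := by
    refine ⟨min_le_right _ _, 1, Pcs.one (lt_min (by linarith) hab) (h0.mono ?_)⟩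
    exact Set.Icc_subset_Icc_right (min_le_left _ _)
  have hbdd : BddAbove S := ⟨b, fun t ht => ht.1⟩
  let c := sSup S
  have hcb : c ≤ b := csSup_le ⟨_, hm0⟩ fun t ht => ht.1
  obtain ⟨e, he, h1, h2⟩ := F.pl c
  obtain ⟨t, ht, htc⟩ := exists_lt_of_lt_csSup (s := S) ⟨_, hm0⟩ (show c - e < sSup S by
    change c - e < c
    linarith)
  have htc' : t ≤ c := le_csSup hbdd ht
  obtain ⟨htb, n, hn⟩ := ht
  have hc : ∃ n, Pcs F a n c := by
    rcases htc'.eq_or_lt with h | h
    · rw [← h]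
      exact ⟨n, hn⟩
    · exact ⟨n + 1, hn.snoc h (h2.mono (Set.Icc_subset_Icc_left htc.le))⟩
  rcases hcb.eq_or_lt with h | h
  · rw [← h]
    exact hc
  · exfalso
    obtain ⟨m, hm⟩ := hc
    have h3 : min (c + e) b ∈ S := by
      refine ⟨min_le_right _ _, m + 1, hm.snoc (lt_min (by linarith) h) (h1.mono ?_)⟩
      exact Set.Icc_subset_Icc_right (min_le_left _ _)
    have h4 : min (c + e) b ≤ c := le_csSup hbdd h3
    have h5 : c < min (c + e) b := lt_min (by linarith) h
    linarith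

end Ang
end C715
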