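import Pool.Agent.Work.MP_c71557_gt.A.DefsC
import Pool.Agent.Work.MP_c71557_gt.H.Equiv

set_option autoImplicit false
set_option linter.unusedVariables false

/-!
# MP_c71557_gt, module A/ConnA: degree zero (S-M)

`Conn C` (A/DefsC): any two objects are connected by a chain of arrows.
* `h0_inj`: `F : C ⥤ D`, `C` connected: a class of degree 0 is a combination `x` of points; let `s(x)`
  be the sum of its coefficients (`Finsupp.linearCombination ℚ (fun _ => 1)`).  If `F_* x` is a
  boundary then `s(x) = s(F_* x) = 0` (boundaries have `s = 0`: `NC_d_single`, `n = 0`), so `x` is a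
  boundary by `H0_of_connected` (H/Equiv).
* `h0_surj`: `D` connected, `C` nonempty: given `y`, let `x = s(y)·[c]`; `F_* x - y` has `s = 0`, so it
  is a boundary.
* Connectedness: in `CC`, `AA`, `Ac`: for cells `a, b` let `c` be the smallest cell containing
  both; `1 : a → c`, `1 : b → c`.
-/

noncomputable section

namespace C715

open CategoryTheory

/-- augmentation -/
private abbrev aug (C : Type) [SmallCategory C] : (NC C).X 0 →ₗ[ℚ] ℚ :=
  Finsupp.linearCombination ℚ (fun _ => (1 : ℚ))

private theorem aug_d {C : Type} [SmallCategory C] : (aug C).comp ((NC C).d 0) = 0 := by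
  refine Finsupp.lhom_ext fun σ a => ?_
  rw [LinearMap.comp_apply, NC_d_single, Fin.sum_univ_two, map_add, map_smul, map_smul,
    Finsupp.linearCombination_single, Finsupp.linearCombination_single]
  simp

private theorem aug_Bd {C : Type} [SmallCategory C] {x : (NC C).X 0} (hx : x ∈ (NC C).Bd 0) :
    aug C x = 0 := by
  obtain ⟨y, rfl⟩ := hx
  exact LinearMap.congr_fun (aug_d (C := C)) y

private theorem aug_map {C D : Type} [SmallCategory C] [SmallCategory D] (j : C ⥤ D)
    (x : (NC C).X 0) : aug D ((NCmap j).f 0 x) = aug C x := by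
  have h : (aug D).comp ((NCmap j).f 0) = aug C := by
    refine Finsupp.lhom_ext fun σ a => ?_
    rw [LinearMap.comp_apply, NCmap_single, Finsupp.linearCombination_single,
      Finsupp.linearCombination_single]
  exact LinearMap.congr_fun h x

theorem h0_inj {C D : Type} [SmallCategory C] [SmallCategory D] (F : C ⥤ D) (hC : Conn C) :
    Function.Injective (HCmap F 0) := by
  rw [injective_iff_map_eq_zero]
  intro y hy
  obtain ⟨x, hx, rfl⟩ := Cx.H_surj y
  rw [Cx.H_cls, Cx.cls_eq_zero] at hy
  rw [Cx.cls_eq_zero]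
  refine H0_of_connected hC x ?_
  have h1 := aug_Bd hy
  rw [aug_map F x] at h1
  exact h1

theorem h0_surj {C D : Type} [SmallCategory C] [SmallCategory D] (F : C ⥤ D) (hD : Conn D)
    (hC : Nonempty C) : Function.Surjective (HCmap F 0) := by
  intro y
  obtain ⟨x, hx, rfl⟩ := Cx.H_surj y
  obtain ⟨k⟩ := hC
  let σ : Sx C 0 :=
    { o := fun _ => k
      m := fun _ _ _ => 𝟙 _
      m_self := fun _ => rfl
      m_comp := fun _ _ _ _ _ => Category.id_comp _ }
  refine ⟨(NC C).cls 0 (Finsupp.single σ (aug D x)) trivial, ?_⟩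
  rw [Cx.H_cls, Cx.cls_eq]
  refine H0_of_connected hD _ ?_
  rw [map_sub, NCmap_single, Finsupp.linearCombination_single]
  simp

namespace Ang

open XX ActCat

/-- the smallest cell containing two cells -/
private def hull (a b : Cell) : Cell :=
  ⟨min a.lo b.lo, max a.hi b.hi, (min_le_left _ _).trans (a.le.trans (le_max_left _ _))⟩

private theorem hull_left (a b : Cell) : Into a 1 (hull a b) :=
  ⟨min_le_left a.lo b.lo, le_max_left a.hi b.hi⟩

private theorem hull_right (a b : Cell) : Into b 1 (hull a b) :=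
  ⟨min_le_right a.lo b.lo, le_max_right a.hi b.hi⟩

theorem conn_CC : Conn CC.Obj := by
  intro x y
  refine Relation.EqvGen.trans x ⟨hull x.o y.o⟩ y (Relation.EqvGen.rel _ _ ⟨?_⟩)
    (Relation.EqvGen.symm _ _ (Relation.EqvGen.rel _ _ ⟨?_⟩))
  · exact CC.hom (a := x.o) (b := hull x.o y.o) 1 (hull_left x.o y.o)
  · exact CC.hom (a := y.o) (b := hull x.o y.o) 1 (hull_right x.o y.o)

theorem conn_AA : Conn AA.Obj := by
  intro x y
  refine Relation.EqvGen.trans x ⟨hull x.o y.o⟩ y (Relation.EqvGen.rel _ _ ⟨?_⟩)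
    (Relation.EqvGen.symm _ _ (Relation.EqvGen.rel _ _ ⟨?_⟩))
  · exact AA.hom (a := x.o) (b := hull x.o y.o) 1 (hull_left x.o y.o)
  · exact AA.hom (a := y.o) (b := hull x.o y.o) 1 (hull_right x.o y.o)

theorem conn_Ac : Conn Ac.Obj := by
  intro x y
  have h1 : Ac.Adm x.o 1 (hull x.o y.o) := by
    change Into x.o (mZ 1).1 (hull x.o y.o)
    rw [map_one]
    exact hull_left x.o y.o
  have h2 : Ac.Adm y.o 1 (hull x.o y.o) := by
    change Into y.o (mZ 1).1 (hull x.o y.o)
    rw [map_one]
    exact hull_right x.o y.o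
  refine Relation.EqvGen.trans x ⟨hull x.o y.o⟩ y (Relation.EqvGen.rel _ _ ⟨?_⟩)
    (Relation.EqvGen.symm _ _ (Relation.EqvGen.rel _ _ ⟨?_⟩))
  · exact Ac.hom (a := x.o) (b := hull x.o y.o) 1 h1
  · exact Ac.hom (a := y.o) (b := hull x.o y.o) 1 h2

end Ang
end C715
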