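import Pool.Agent.Work.MP_c71557_gt.A.XX
import Pool.Agent.Work.MP_c71557_gt.H.Defs4

set_option autoImplicit false
set_option linter.unusedVariables false

/-!
# MP_c71557_gt, block A (angular groups): definitions

`nb a b`, `nbL b`, `nbR a` : elements which are the identity near `[a,b]`, `(-∞,b]`, `[a,∞)`;
`Ft` : centralizer of the rotation `tau` by `2π`; cells (compact intervals, points allowed) and the
categories of partial group elements `CC` (germs of `XX` near cells), `AA` (`Ft` acting on cells),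
`T1`, `T2`, `T3` and `Ac`, `Bc`.
-/

noncomputable section

namespace C715
namespace Ang

open XX CategoryTheory

/-- the identity near `[a,b]` -/
def nb (a b : ℝ) : Subgroup XX where
  carrier := {F | ∃ e : ℝ, 0 < e ∧ ∀ s, a - e ≤ s → s ≤ b + e → F.ev s = (s, 1)}
  one_mem' := ⟨1, one_pos, fun s _ _ => rfl⟩
  mul_mem' := by
    rintro F G ⟨e, he, h⟩ ⟨d, hd, h'⟩
    refine ⟨min d e, lt_min hd he, fun s h1 h2 => ?_⟩
    have h3 := min_le_left d e
    have h4 := min_le_right d e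
    rw [mul_ev_right (h' s (by linarith) (by linarith))]
    exact h s (by linarith) (by linarith)
  inv_mem' := by
    rintro F ⟨e, he, h⟩
    refine ⟨e, he, fun s h1 h2 => ?_⟩
    rw [inv_ev (h s h1 h2), inv_one]

/-- the identity near `(-∞,b]` -/
def nbL (b : ℝ) : Subgroup XX where
  carrier := {F | ∃ e : ℝ, 0 < e ∧ ∀ s, s ≤ b + e → F.ev s = (s, 1)}
  one_mem' := ⟨1, one_pos, fun s _ => rfl⟩
  mul_mem' := by
    rintro F G ⟨e, he, h⟩ ⟨d, hd, h'⟩
    refine ⟨min d e, lt_min hd he, fun s h2 => ?_⟩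
    have h3 := min_le_left d e
    have h4 := min_le_right d e
    rw [mul_ev_right (h' s (by linarith))]
    exact h s (by linarith)
  inv_mem' := by
    rintro F ⟨e, he, h⟩
    refine ⟨e, he, fun s h2 => ?_⟩
    rw [inv_ev (h s h2), inv_one]

/-- the identity near `[a,∞)` -/
def nbR (a : ℝ) : Subgroup XX where
  carrier := {F | ∃ e : ℝ, 0 < e ∧ ∀ s, a - e ≤ s → F.ev s = (s, 1)}
  one_mem' := ⟨1, one_pos, fun s _ => rfl⟩
  mul_mem' := by
    rintro F G ⟨e, he, h⟩ ⟨d, hd, h'⟩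
    refine ⟨min d e, lt_min hd he, fun s h2 => ?_⟩
    have h3 := min_le_left d e
    have h4 := min_le_right d e
    rw [mul_ev_right (h' s (by linarith))]
    exact h s (by linarith)
  inv_mem' := by
    rintro F ⟨e, he, h⟩
    refine ⟨e, he, fun s h2 => ?_⟩
    rw [inv_ev (h s h2), inv_one]

theorem mem_nb {a b : ℝ} {F : XX} :
    F ∈ nb a b ↔ ∃ e : ℝ, 0 < e ∧ ∀ s, a - e ≤ s → s ≤ b + e → F.ev s = (s, 1) := Iff.rfl
theorem mem_nbL {b : ℝ} {F : XX} :
    F ∈ nbL b ↔ ∃ e : ℝ, 0 < e ∧ ∀ s, s ≤ b + e → F.ev s = (s, 1) := Iff.rfl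
theorem mem_nbR {a : ℝ} {F : XX} :
    F ∈ nbR a ↔ ∃ e : ℝ, 0 < e ∧ ∀ s, a - e ≤ s → F.ev s = (s, 1) := Iff.rfl

/-- elements supported in a compact subset of the open interval `(a,b)` -/
def sp (a b : ℝ) : Subgroup XX := nbL a ⊓ nbR b

/-- the rotation by `2π` -/
def tau : XX := rot (2 * Real.pi)

/-- periodic elements -/
def Ft : Subgroup XX := Subgroup.centralizer {tau}

theorem mem_Ft {F : XX} : F ∈ Ft ↔ ∀ s, F.ev (s + 2 * Real.pi) = (F.f s + 2 * Real.pi, F.r s) := by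
  unfold Ft
  rw [Subgroup.mem_centralizer_iff]
  constructor
  · intro h s
    have h1 := h tau rfl
    have h2 : (F * tau).ev s = (tau * F).ev s := by rw [h1]
    rw [mul_ev, mul_ev] at h2
    have h3 : (F.f (tau.f s), F.r (tau.f s) * tau.r s) =
      ((F.f (s + 2 * Real.pi), F.r (s + 2 * Real.pi) * 1) : ℝ × ℝ) := rfl
    have h4 : (tau.f (F.f s), tau.r (F.f s) * F.r s) =
      ((F.f s + 2 * Real.pi, 1 * F.r s) : ℝ × ℝ) := rfl
    rw [h3, h4, mul_one, one_mul] at h2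
    exact h2
  · intro h g hg
    rw [Set.mem_singleton_iff] at hg
    subst hg
    refine ext_ev fun s => ?_
    have h2 := h s
    rw [mul_ev, mul_ev]
    have h3 : (F.f (tau.f s), F.r (tau.f s) * tau.r s) =
      ((F.f (s + 2 * Real.pi), F.r (s + 2 * Real.pi) * 1) : ℝ × ℝ) := rfl
    have h4 : (tau.f (F.f s), tau.r (F.f s) * F.r s) =
      ((F.f s + 2 * Real.pi, 1 * F.r s) : ℝ × ℝ) := rfl
    rw [h3, h4, mul_one, one_mul]
    exact h2.symm

theorem tau_mem : tau ∈ Ft := by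
  unfold Ft
  rw [Subgroup.mem_centralizer_iff]
  intro h hh
  rw [Set.mem_singleton_iff.1 hh]

theorem tau_comm {F : XX} (hF : F ∈ Ft) : tau * F = F * tau :=
  Subgroup.mem_centralizer_iff.1 hF tau rfl

/-- cells: compact intervals, points allowed -/
@[ext] structure Cell where
  lo : ℝ
  hi : ℝ
  le : lo ≤ hi

/-- `F` maps the cell `a` into the cell `b` -/
def Into (a : Cell) (F : XX) (b : Cell) : Prop := b.lo ≤ F.f a.lo ∧ F.f a.hi ≤ b.hi

theorem Into.one (a : Cell) : Into a 1 a := ⟨le_rfl, le_rfl⟩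

theorem Into.mul {a b c : Cell} {F G : XX} (h : Into a F b) (h' : Into b G c) :
    Into a (G * F) c :=
  ⟨h'.1.trans (G.f.monotone h.1), (G.f.monotone h.2).trans h'.2⟩

theorem Into.of_nb {a : Cell} {F : XX} (h : F ∈ nb a.lo a.hi) : Into a F a := by
  obtain ⟨e, he, h⟩ := h
  have h1 : F.f a.lo = a.lo := congrArg Prod.fst (h a.lo (by linarith) (by linarith [a.le]))
  have h2 : F.f a.hi = a.hi := congrArg Prod.fst (h a.hi (by linarith [a.le]) (by linarith))
  exact ⟨h1.ge, h2.le⟩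

/-- conjugation of germs of the identity -/
theorem Into.conj {a b : Cell} {F n : XX} (h : Into a F b) (hn : n ∈ nb b.lo b.hi) :
    F⁻¹ * n * F ∈ nb a.lo a.hi := by
  obtain ⟨e, he, hn⟩ := hn
  refine ⟨min (F.f.symm (F.f a.hi + e) - a.hi) (a.lo - F.f.symm (F.f a.lo - e)), ?_, ?_⟩
  · refine lt_min ?_ ?_
    · rw [sub_pos, F.f.lt_symm_apply]
      linarith
    · rw [sub_pos, F.f.symm_apply_lt]
      linarith
  · intro s h1 h2
    have h3 := min_le_left (F.f.symm (F.f a.hi + e) - a.hi) (a.lo - F.f.symm (F.f a.lo - e))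
    have h4 := min_le_right (F.f.symm (F.f a.hi + e) - a.hi) (a.lo - F.f.symm (F.f a.lo - e))
    have h5 : F.f s ≤ F.f a.hi + e := by
      rw [← F.f.le_symm_apply]
      linarith
    have h6 : F.f a.lo - e ≤ F.f s := by
      rw [← F.f.symm_apply_le]
      linarith
    rw [mul_assoc, inv_mul_ev]
    symm
    refine mul_ev_left (hn (F.f s) ?_ ?_)
    · linarith [h.1]
    · linarith [h.2]

theorem nbL_conj {F n : XX} {a b : ℝ} (h : F.f a ≤ b) (hn : n ∈ nbL b) :
    F⁻¹ * n * F ∈ nbL a := by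
  obtain ⟨e, he, hn⟩ := hn
  refine ⟨F.f.symm (F.f a + e) - a, ?_, ?_⟩
  · rw [sub_pos, F.f.lt_symm_apply]
    linarith
  · intro s h2
    have h5 : F.f s ≤ F.f a + e := by
      rw [← F.f.le_symm_apply]
      linarith
    rw [mul_assoc, inv_mul_ev]
    symm
    exact mul_ev_left (hn (F.f s) (by linarith))

theorem nbL_mono {a b : ℝ} (h : a ≤ b) : nbL b ≤ nbL a := by
  rintro F ⟨e, he, hF⟩
  exact ⟨e, he, fun s hs => hF s (by linarith)⟩

theorem nbR_mono {a b : ℝ} (h : a ≤ b) : nbR a ≤ nbR b := by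
  rintro F ⟨e, he, hF⟩
  exact ⟨e, he, fun s hs => hF s (by linarith)⟩

theorem nbL_le_nb (a b : ℝ) : nbL b ≤ nb a b := by
  rintro F ⟨e, he, hF⟩
  exact ⟨e, he, fun s _ hs => hF s hs⟩

/-- germs of `XX` near cells -/
def CC : ActCat XX where
  Ob := Cell
  Adm := Into
  N a := nb a.lo a.hi
  one := Into.one
  mul := Into.mul
  nAdm := Into.of_nb
  conj := Into.conj

/-- `Ft` acting on cells -/
def AA : ActCat ↥Ft where
  Ob := Cell
  Adm a F b := Into a F.1 b
  N _ := ⊥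
  one a := Into.one a
  mul h h' := h.mul h'
  nAdm {a n} h := by
    rw [Subgroup.mem_bot] at h
    subst h
    exact Into.one a
  conj {a b g n} h hn := by
    rw [Subgroup.mem_bot] at hn ⊢
    subst hn
    group

/-- nondegenerate cells -/
def Nd (a : Cell) : Prop := a.lo < a.hi

/-- short nondegenerate cells -/
def Sh (a : Cell) : Prop := a.lo < a.hi ∧ a.hi < a.lo + 2 * Real.pi

/-- germs near nondegenerate cells -/
def CCn : ActCat XX := CC.restr Nd

/-- `Ft` acting on nondegenerate cells -/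
def AAn : ActCat ↥Ft := AA.restr Nd

/-- `Ft` acting on short nondegenerate cells -/
def T1 : ActCat ↥Ft := AA.restr Sh

/-- the fibre groups of `T1 → CC` -/
def N1 (a : T1.Ob) : Subgroup ↥Ft := (nb a.1.lo a.1.hi).comap Ft.subtype

/-- cells `[x,y]`, `0 < x < y`, and germs near `[0,y]` of elements which are the identity near
`(-∞,0]` -/
def T2 : ActCat XX where
  Ob := {a : Cell // 0 < a.lo ∧ a.lo < a.hi}
  Adm a F b := F ∈ nbL 0 ∧ Into a.1 F b.1
  N a := nbL a.1.hi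
  one a := ⟨(nbL 0).one_mem, Into.one a.1⟩
  mul h h' := ⟨(nbL 0).mul_mem h'.1 h.1, h.2.mul h'.2⟩
  nAdm {a n} h := ⟨nbL_mono (a.2.1.trans a.2.2).le h, Into.of_nb (nbL_le_nb _ _ h)⟩
  conj {a b g n} h hn := nbL_conj h.2.2 hn

/-- the fibre groups of `T2 → CC` -/
def N2 (a : T2.Ob) : Subgroup XX := nbL 0 ⊓ nb a.1.lo a.1.hi

/-- points `y > 0` and germs near `[0,y]` -/
def T3 : ActCat XX where
  Ob := {y : ℝ // 0 < y}
  Adm a F b := F ∈ nbL 0 ∧ F.f a.1 ≤ b.1
  N a := nbL a.1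
  one a := ⟨(nbL 0).one_mem, le_rfl⟩
  mul h h' := ⟨(nbL 0).mul_mem h'.1 h.1, (OrderIso.monotone _ h.2).trans h'.2⟩
  nAdm {a n} h := by
    refine ⟨nbL_mono a.2.le h, ?_⟩
    obtain ⟨e, he, h⟩ := h
    exact (congrArg Prod.fst (h a.1 (by linarith))).le
  conj {a b g n} h hn := nbL_conj h.2 hn

theorem mem_N1 {a : T1.Ob} {n : ↥Ft} : n ∈ N1 a ↔ (n : XX) ∈ nb a.1.lo a.1.hi := Iff.rfl

theorem N1_adm {a : T1.Ob} {n : ↥Ft} (h : n ∈ N1 a) : T1.Adm a n a := Into.of_nb h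

theorem N1_conj {a b : T1.Ob} {g n : ↥Ft} (h : T1.Adm a g b) (hn : n ∈ N1 b) :
    g⁻¹ * n * g ∈ N1 a := Into.conj h hn

theorem N1_le (a : T1.Ob) : T1.N a ≤ N1 a := bot_le

theorem N2_adm {a : T2.Ob} {n : XX} (h : n ∈ N2 a) : T2.Adm a n a := ⟨h.1, Into.of_nb h.2⟩

theorem N2_conj {a b : T2.Ob} {g n : XX} (h : T2.Adm a g b) (hn : n ∈ N2 b) :
    g⁻¹ * n * g ∈ N2 a :=
  ⟨(nbL 0).mul_mem ((nbL 0).mul_mem ((nbL 0).inv_mem h.1) hn.1) h.1, h.2.conj hn.2⟩

theorem N2_le (a : T2.Ob) : T2.N a ≤ N2 a := fun n hn =>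
  ⟨nbL_mono (a.2.1.trans a.2.2).le hn, nbL_le_nb _ _ hn⟩

/-- the base of `T1` -/
def B1 : ActCat ↥Ft := T1.enl N1 N1_adm N1_conj

/-- the base of `T2` -/
def B2 : ActCat XX := T2.enl N2 N2_adm N2_conj

/-- `T1 → CC` -/
def R1 : T1.Obj ⥤ CC.Obj :=
  ActCat.functor (A := T1) (A' := CC) (fun a => a.1) Ft.subtype (fun h => h) (fun {a n} h => by
    have h' : n ∈ (⊥ : Subgroup ↥Ft) := h
    rw [Subgroup.mem_bot] at h'
    rw [h', map_one]
    exact Subgroup.one_mem _)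

/-- `T2 → CC` -/
def R2 : T2.Obj ⥤ CC.Obj :=
  ActCat.idFun (A := T2) (A' := CC) (fun a => a.1) (fun h => h.2) (fun h => nbL_le_nb _ _ h)

/-- `B1 → CC` -/
def Q1 : B1.Obj ⥤ CC.Obj :=
  ActCat.functor (A := B1) (A' := CC) (fun a => a.1) Ft.subtype (fun h => h) (fun h => h)

/-- `B2 → CC` -/
def Q2 : B2.Obj ⥤ CC.Obj :=
  ActCat.idFun (A := B2) (A' := CC) (fun a => a.1) (fun h => h.2) (fun h => h.2)

/-- `AA → CC` -/
def RA : AA.Obj ⥤ CC.Obj :=
  ActCat.functor (A := AA) (A' := CC) (fun a => a) Ft.subtype (fun h => h) (fun {a n} h => by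
    have h' : n ∈ (⊥ : Subgroup ↥Ft) := h
    rw [Subgroup.mem_bot] at h'
    rw [h', map_one]
    exact Subgroup.one_mem _)

/-- `AA → Ft` (one object category) -/
def pA : AA.Obj ⥤ (ActCat.sg (⊤ : Subgroup ↥Ft)).Obj :=
  ActCat.idFun (A := AA) (A' := ActCat.sg (⊤ : Subgroup ↥Ft)) (fun _ => ()) (fun _ => trivial)
    (fun h => h)

/-- `T1 → AA` -/
def T1A : T1.Obj ⥤ AA.Obj := AA.restrIncl Sh

/-! ## the categories of the interface -/

/-- integral powers of `tau` commute with `Ft` -/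
theorem tau_zpow_comm {F : XX} (hF : F ∈ Ft) (k : ℤ) : tau ^ k * F = F * tau ^ k :=
  (Commute.zpow_left (tau_comm hF) k : Commute (tau ^ k) F)

/-- `(F, k) ↦ (F tau^k, k)` -/
def mZ : (↥Ft × Multiplicative ℤ) →* (XX × Multiplicative ℤ) where
  toFun g := ((g.1 : XX) * tau ^ (Multiplicative.toAdd g.2), g.2)
  map_one' := by
    refine Prod.ext ?_ rfl
    change (1 : XX) * tau ^ (0 : ℤ) = 1
    rw [zpow_zero, mul_one]
  map_mul' g h := by
    refine Prod.ext ?_ rfl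
    change ((g.1 : XX) * (h.1 : XX)) * tau ^ (Multiplicative.toAdd g.2 + Multiplicative.toAdd h.2) =
      ((g.1 : XX) * tau ^ (Multiplicative.toAdd g.2)) *
        ((h.1 : XX) * tau ^ (Multiplicative.toAdd h.2))
    rw [zpow_add, mul_assoc, mul_assoc, ← mul_assoc (h.1 : XX) _ _, ← tau_zpow_comm h.1.2,
      mul_assoc]

/-- `Ft × ℤ` acting on cells by `(F, k) a = F tau^k a` -/
def Ac : ActCat (↥Ft × Multiplicative ℤ) where
  Ob := Cell
  Adm a g b := Into a (mZ g).1 b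
  N _ := ⊥
  one a := by
    rw [map_one]
    exact Into.one a
  mul h h' := by
    rw [map_mul]
    exact h.mul h'
  nAdm {a n} h := by
    rw [Subgroup.mem_bot] at h
    subst h
    rw [map_one]
    exact Into.one a
  conj {a b g n} h hn := by
    rw [Subgroup.mem_bot] at hn ⊢
    subst hn
    group

/-- germs of `XX` near cells, times `ℤ` -/
def Bc : ActCat (XX × Multiplicative ℤ) where
  Ob := Cell
  Adm a g b := Into a g.1 b
  N a := (nb a.lo a.hi).prod ⊥
  one := Into.one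
  mul h h' := Into.mul h h'
  nAdm h := Into.of_nb h.1
  conj {a b g n} h hn := by
    refine ⟨Into.conj h hn.1, ?_⟩
    have h2 : n.2 = 1 := hn.2
    change g.2⁻¹ * n.2 * g.2 ∈ (⊥ : Subgroup (Multiplicative ℤ))
    rw [h2, mul_one, inv_mul_cancel]
    exact Subgroup.one_mem _

/-- short cells, points allowed -/
def ShC (a : Cell) : Prop := a.hi < a.lo + 2 * Real.pi

/-- `Ac` restricted to short cells -/
def Acs : ActCat (↥Ft × Multiplicative ℤ) := Ac.restr ShC

/-- `Bc` restricted to short cells -/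
def Bcs : ActCat (XX × Multiplicative ℤ) := Bc.restr ShC

/-- `Ac → Bc` -/
def AcBc : Ac.Obj ⥤ Bc.Obj :=
  ActCat.functor (A := Ac) (A' := Bc) (fun a => a) mZ (fun h => h) (fun {a n} h => by
    have h' : n ∈ (⊥ : Subgroup (↥Ft × Multiplicative ℤ)) := h
    rw [Subgroup.mem_bot] at h'
    rw [h', map_one]
    exact Subgroup.one_mem _)

/-- `Ac → Ft` -/
def AcF : Ac.Obj ⥤ (ActCat.sg (⊤ : Subgroup ↥Ft)).Obj :=
  ActCat.functor (A := Ac) (A' := ActCat.sg (⊤ : Subgroup ↥Ft)) (fun _ => ())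
    (MonoidHom.fst ↥Ft (Multiplicative ℤ)) (fun h => trivial) (fun {a n} h => by
    have h' : n ∈ (⊥ : Subgroup (↥Ft × Multiplicative ℤ)) := h
    rw [Subgroup.mem_bot] at h'
    rw [h', map_one]
    exact Subgroup.one_mem _)

/-- `Acs → Bcs` -/
def AcsBcs : Acs.Obj ⥤ Bcs.Obj :=
  ActCat.functor (A := Acs) (A' := Bcs) (fun a => a) mZ (fun h => h) (fun {a n} h => by
    have h' : n ∈ (⊥ : Subgroup (↥Ft × Multiplicative ℤ)) := h
    rw [Subgroup.mem_bot] at h'
    rw [h', map_one]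
    exact Subgroup.one_mem _)

/-- `Acs → Ft` -/
def AcsF : Acs.Obj ⥤ (ActCat.sg (⊤ : Subgroup ↥Ft)).Obj := Ac.restrIncl ShC ⋙ AcF

end Ang
end C715
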