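import Pool.Agent.Work.MP_c71557_gt.H.Prism

set_option autoImplicit false

/-!
# MP_c71557_gt, module A/Pr: the explicit prism operator (proved)

`pr α n : C_n(C) → C_{n+1}(D)` for a natural transformation `α : F ⟶ G`,
`d (pr α x) + pr α (d x) = G_* x - F_* x`; functoriality; the operation
`nt α β : H_q(C) → H_{q+1}(D)` for two natural transformations `α β : F ⟶ G`, induced by
`pr α - pr β`.
-/

namespace C715

open CategoryTheory

variable {C : Type} [SmallCategory C] {D : Type} [SmallCategory D] {E : Type} [SmallCategory E]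

private theorem prism_sum (n : ℕ) {V : Type} [AddCommGroup V] [Module ℚ V]
    (B : Fin (n + 3) → Fin (n + 2) → V) (A : Fin (n + 1) → Fin (n + 2) → V)
    (h1 : ∀ (i : Fin (n + 1)) (j : Fin (n + 2)), j ≤ i.castSucc → B j.castSucc i.succ = A i j)
    (h2 : ∀ (i : Fin (n + 1)) (j : Fin (n + 2)), i.castSucc < j → B j.succ i.castSucc = A i j)
    (h3 : ∀ i : Fin (n + 1), B i.castSucc.succ i.castSucc = B i.castSucc.succ i.succ) :
    (∑ x : Fin (n + 3) × Fin (n + 2), ((-1 : ℚ) ^ (x.1 + x.2 : ℕ)) • B x.1 x.2) +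
      (∑ x : Fin (n + 1) × Fin (n + 2), ((-1 : ℚ) ^ (x.1 + x.2 : ℕ)) • A x.1 x.2) =
      B 0 0 - B (Fin.last _) (Fin.last _) := by
  classical
  let α (x : Fin (n + 1) × Fin (n + 2)) : V := ((-1 : ℚ) ^ ((x.1 + x.2 : ℕ))) • A x.1 x.2
  let β (x : Fin (n + 3) × Fin (n + 2)) : V := ((-1 : ℚ) ^ ((x.1 + x.2 : ℕ))) • B x.1 x.2
  let S : Finset (Fin (n + 1) × Fin (n + 2)) := { x | x.1.castSucc < x.2 }
  let γ₁ (x : Fin (n + 1) × Fin (n + 2)) : Fin (n + 3) × Fin (n + 2) := (x.2.castSucc, x.1.succ)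
  let γ₂ (x : Fin (n + 1) × Fin (n + 2)) : Fin (n + 3) × Fin (n + 2) := (x.2.succ, x.1.castSucc)
  let γ₃ (i : Fin (n + 1)) : Fin (n + 3) × Fin (n + 2) := (i.castSucc.succ, i.succ)
  let γ₄ (i : Fin (n + 1)) : Fin (n + 3) × Fin (n + 2) := (i.castSucc.succ, i.castSucc)
  have hγ₁ : Function.Injective γ₁ := fun _ _ ↦ by aesop
  have hγ₂ : Function.Injective γ₂ := fun _ _ ↦ by aesop
  have hγ₃ : Function.Injective γ₃ := fun _ _ ↦ by aesop
  have hγ₄ : Function.Injective γ₄ := fun _ _ ↦ by aesop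
  have eq₁ : B 0 0 = β ⟨0, 0⟩ := by simp [β]
  have eq₂ : B (Fin.last _) (Fin.last _) = - β ⟨Fin.last _, Fin.last _⟩ := by
    have : ((-1 : ℚ) ^ ((n + 2) + (n + 1))) = -1 := by
      rw [show (n + 2) + (n + 1) = 2 * (n + 1) + 1 by ring, pow_succ, pow_mul]
      norm_num
    simp only [β, Fin.val_last, this, neg_smul, one_smul, neg_neg]
  have eq₃ : ∑ x ∈ Sᶜ, α x = - ∑ y ∈ Finset.image γ₁ Sᶜ, β y := by
    rw [← Finset.sum_neg_distrib, Finset.sum_image hγ₁.injOn]
    refine Finset.sum_congr rfl (fun x hx ↦ ?_)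
    have hx' : x.2 ≤ x.1.castSucc := by simpa [S] using hx
    simp only [α, β, γ₁, h1 x.1 x.2 hx', Fin.val_castSucc, Fin.val_succ]
    rw [← neg_smul]
    congr 1
    ring
  have eq₄ : ∑ x ∈ S, α x = - ∑ y ∈ Finset.image γ₂ S, β y := by
    rw [← Finset.sum_neg_distrib, Finset.sum_image hγ₂.injOn]
    refine Finset.sum_congr rfl (fun x hx ↦ ?_)
    have hx' : x.1.castSucc < x.2 := by simpa [S] using hx
    simp only [α, β, γ₂, h2 x.1 x.2 hx', Fin.val_castSucc, Fin.val_succ]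
    rw [← neg_smul]
    congr 1
    ring
  have eq₅ : ∑ x, β (γ₄ x) = - ∑ x, β (γ₃ x) := by
    rw [← Finset.sum_neg_distrib]
    refine Finset.sum_congr rfl (fun x hx ↦ ?_)
    simp only [β, γ₃, γ₄, h3, Fin.val_castSucc, Fin.val_succ]
    rw [← neg_smul]
    congr 1
    ring
  have h₁ : Disjoint (Finset.image γ₁ Sᶜ) (Finset.image γ₂ S) := by
    rw [Finset.disjoint_iff_ne]
    grind [Finset.mem_compl]
  have h₂ : Disjoint (Finset.image γ₃ .univ) (Finset.image γ₄ .univ) := by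
    rw [Finset.disjoint_iff_ne]
    grind
  have h₃ : Disjoint (Finset.disjUnion _ _ h₂) {(0, 0), (Fin.last _, Fin.last _)} := by
    rw [Finset.disjoint_iff_ne]
    simp only [Finset.mem_insert, forall_eq_or_imp, Prod.forall]
    rintro ⟨a, _⟩ ⟨b, _⟩
    simp
    grind
  have h₄ : Disjoint (Finset.disjUnion _ _ h₁) (Finset.disjUnion _ _ h₃) := by
    rw [Finset.disjoint_iff_ne]
    simp only [Finset.compl_filter, not_lt, Finset.disjUnion_eq_union, Finset.mem_union,
      Finset.mem_image, Finset.mem_filter, Finset.mem_univ, true_and, Prod.exists, ne_eq,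
      Finset.mem_insert, Finset.mem_singleton, Prod.forall, Prod.mk.injEq, not_and,
      S, γ₁, γ₂, γ₃, γ₄]
    rintro ⟨a, _⟩ ⟨b, _⟩ (⟨⟨j, _⟩, ⟨k, _⟩, h₁, h₂, h₃⟩ | ⟨⟨j, _⟩, ⟨k, _⟩, h₁, h₂, h₃⟩) _ _
      ((⟨⟨i, _⟩, h₄, h₅⟩ | ⟨⟨i, _⟩, h₄, h₅⟩) | (⟨rfl, rfl⟩ | ⟨rfl, rfl⟩)) <;>
        simp [Fin.ext_iff] at h₁ h₂ h₃ ⊢ <;> grind
  have H : (Finset.disjUnion _ _ h₁)ᶜ = Finset.disjUnion _ _ h₃ :=
    Finset.compl_eq_of_disjoint_of_card_add_eq h₄ (by
      rw [Finset.card_disjUnion, Finset.card_disjUnion, Finset.card_disjUnion,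
        Finset.card_image_of_injective _ hγ₁, Finset.card_image_of_injective _ hγ₂,
        Finset.card_image_of_injective _ hγ₃, Finset.card_image_of_injective _ hγ₄]
      simp
      lia)
  change ∑ x, β x + ∑ x, α x = _
  rw [eq₁, eq₂, ← S.sum_add_sum_compl α, eq₃, eq₄,
    ← (Finset.disjUnion _ _ h₁).sum_add_sum_compl β, H,
    Finset.sum_disjUnion, Finset.sum_disjUnion, Finset.sum_disjUnion,
    Finset.sum_image hγ₃.injOn, Finset.sum_image hγ₄.injOn,
    Finset.sum_insert (by simp), Finset.sum_singleton, eq₅]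
  abel

/-- the prism operator -/
noncomputable def pr {F G : C ⥤ D} (α : F ⟶ G) (n : ℕ) : (NC C).X n →ₗ[ℚ] (NC D).X (n + 1) :=
  ∑ i : Fin (n + 1), ((-1 : ℚ) ^ (i : ℕ)) •
    Finsupp.lmapDomain ℚ ℚ (fun σ : Sx C n => (prismX α σ).pull (prs i))

theorem pr_apply {F G : C ⥤ D} (α : F ⟶ G) (n : ℕ) (x : (NC C).X n) :
    pr α n x = ∑ i : Fin (n + 1), ((-1 : ℚ) ^ (i : ℕ)) •
      Finsupp.mapDomain (fun σ : Sx C n => (prismX α σ).pull (prs i)) (x : Sx C n →₀ ℚ) := by
  unfold pr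
  rw [LinearMap.sum_apply]
  rfl

theorem pr_single {F G : C ⥤ D} (α : F ⟶ G) (n : ℕ) (σ : Sx C n) (a : ℚ) :
    pr α n (Finsupp.single σ a) = ∑ i : Fin (n + 1), ((-1 : ℚ) ^ (i : ℕ)) •
      Finsupp.single ((prismX α σ).pull (prs i)) a := by
  rw [pr_apply]
  exact Finset.sum_congr rfl fun i _ => by rw [Finsupp.mapDomain_single]

section htpy

variable {F G : C ⥤ D} (α : F ⟶ G)

private noncomputable abbrev hh (n : ℕ) (i : Fin (n + 1)) : (NS C).X n →ₗ[ℚ] (NS D).X (n + 1) :=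
  Finsupp.lmapDomain ℚ ℚ (fun σ : Sx C n => (prismX α σ).pull (prs i))

private theorem q0 (n : ℕ) (x : (NS C).X n) :
    (NS D).map (dl 0) (hh α n 0 x) = (NCmap G).f n x := by
  change Finsupp.mapDomain _ (Finsupp.mapDomain _ (x : Sx C n →₀ ℚ)) = Finsupp.mapDomain _ x
  rw [← Finsupp.mapDomain_comp]
  refine congrArg (fun f => Finsupp.mapDomain f x) (funext fun σ => ?_)
  change (prismX α σ).pull ((prs 0).comp (dl 0)) = _
  rw [prs_zero]
  rfl

private theorem ql (n : ℕ) (x : (NS C).X n) :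
    (NS D).map (dl (Fin.last _)) (hh α n (Fin.last n) x) = (NCmap F).f n x := by
  change Finsupp.mapDomain _ (Finsupp.mapDomain _ (x : Sx C n →₀ ℚ)) = Finsupp.mapDomain _ x
  rw [← Finsupp.mapDomain_comp]
  refine congrArg (fun f => Finsupp.mapDomain f x) (funext fun σ => ?_)
  change (prismX α σ).pull ((prs (Fin.last n)).comp (dl (Fin.last (n + 1)))) = _
  rw [prs_last]
  rfl

private theorem q1 (n : ℕ) (i : Fin (n + 1)) (j : Fin (n + 2)) (h : j ≤ i.castSucc)
    (x : (NS C).X (n + 1)) : (NS D).map (dl j.castSucc) (hh α (n + 1) i.succ x) =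
      hh α n i ((NS C).map (dl j) x) := by
  change Finsupp.mapDomain _ (Finsupp.mapDomain _ (x : Sx C (n + 1) →₀ ℚ)) =
    Finsupp.mapDomain _ (Finsupp.mapDomain _ (x : Sx C (n + 1) →₀ ℚ))
  rw [← Finsupp.mapDomain_comp, ← Finsupp.mapDomain_comp]
  refine congrArg (fun f => Finsupp.mapDomain f x) (funext fun σ => ?_)
  change (prismX α σ).pull ((prs i.succ).comp (dl j.castSucc)) =
    (prismX α σ).pull ((prm (dl j)).comp (prs i))
  rw [prs_one i j h]

private theorem q2 (n : ℕ) (i : Fin (n + 1)) (j : Fin (n + 2)) (h : i.castSucc < j)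
    (x : (NS C).X (n + 1)) : (NS D).map (dl j.succ) (hh α (n + 1) i.castSucc x) =
      hh α n i ((NS C).map (dl j) x) := by
  change Finsupp.mapDomain _ (Finsupp.mapDomain _ (x : Sx C (n + 1) →₀ ℚ)) =
    Finsupp.mapDomain _ (Finsupp.mapDomain _ (x : Sx C (n + 1) →₀ ℚ))
  rw [← Finsupp.mapDomain_comp, ← Finsupp.mapDomain_comp]
  refine congrArg (fun f => Finsupp.mapDomain f x) (funext fun σ => ?_)
  change (prismX α σ).pull ((prs i.castSucc).comp (dl j.succ)) =
    (prismX α σ).pull ((prm (dl j)).comp (prs i))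
  rw [prs_two i j h]

private theorem q3 (n : ℕ) (i : Fin (n + 1)) (x : (NS C).X (n + 1)) :
    (NS D).map (dl i.castSucc.succ) (hh α (n + 1) i.castSucc x) =
      (NS D).map (dl i.castSucc.succ) (hh α (n + 1) i.succ x) := by
  change Finsupp.mapDomain _ (Finsupp.mapDomain _ (x : Sx C (n + 1) →₀ ℚ)) =
    Finsupp.mapDomain _ (Finsupp.mapDomain _ (x : Sx C (n + 1) →₀ ℚ))
  rw [← Finsupp.mapDomain_comp, ← Finsupp.mapDomain_comp]
  refine congrArg (fun f => Finsupp.mapDomain f x) (funext fun σ => ?_)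
  change (prismX α σ).pull ((prs i.castSucc).comp (dl i.castSucc.succ)) =
    (prismX α σ).pull ((prs i.succ).comp (dl i.castSucc.succ))
  rw [prs_three i]

theorem d_pr_zero (x : (NC C).X 0) :
    (NC D).d 0 (pr α 0 x) = (NCmap G).f 0 x - (NCmap F).f 0 x := by
  have hx : pr α 0 x = hh α 0 0 x := by
    unfold pr
    simp
  rw [hx]
  change (NS D).alt 0 (hh α 0 0 x) = _
  rw [SMod.alt_apply, Fin.sum_univ_two, ← q0 α 0 x, ← ql α 0 x]
  change ((-1 : ℚ) ^ (0 : ℕ)) • _ + ((-1 : ℚ) ^ (1 : ℕ)) • _ = _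
  rw [pow_zero, pow_one, one_smul, neg_smul, one_smul, sub_eq_add_neg]
  rfl

theorem d_pr (n : ℕ) (x : (NC C).X (n + 1)) :
    (NC D).d (n + 1) (pr α (n + 1) x) + pr α n ((NC C).d n x) =
      (NCmap G).f (n + 1) x - (NCmap F).f (n + 1) x := by
  have hx : ∀ m (y : (NC C).X m), pr α m y =
      ∑ i : Fin (m + 1), ((-1 : ℚ) ^ (i : ℕ)) • hh α m i y := by
    intro m y
    unfold pr
    simp
  have key := prism_sum n (fun j i => (NS D).map (dl j) (hh α (n + 1) i x))
    (fun i j => hh α n i ((NS C).map (dl j) x)) (fun i j hij => q1 α n i j hij x)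
    (fun i j hij => q2 α n i j hij x) (fun i => q3 α n i x)
  change (NS D).alt (n + 1) (pr α (n + 1) x) + pr α n ((NS C).alt n x) = _
  rw [hx, hx, SMod.alt_apply, SMod.alt_apply, ← q0 α (n + 1) x, ← ql α (n + 1) x]
  refine Eq.trans ?_ key
  symm
  congr 1
  · rw [Fintype.sum_prod_type]
    refine Finset.sum_congr rfl fun j _ => ?_
    rw [map_sum, Finset.smul_sum]
    refine Finset.sum_congr rfl fun i _ => ?_
    rw [map_smul, smul_smul, pow_add]
  · rw [Fintype.sum_prod_type]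
    refine Finset.sum_congr rfl fun i _ => ?_
    rw [map_sum, Finset.smul_sum]
    refine Finset.sum_congr rfl fun j _ => ?_
    rw [map_smul, smul_smul, pow_add]

end htpy

/-- the prism of a whiskered transformation (after) -/
theorem prism_whiskerRight {F G : C ⥤ D} (α : F ⟶ G) (K : D ⥤ E) {n m : ℕ} (σ : Sx C n)
    (t : Fin (m + 1) →o Fin (n + 1) × Bool) :
    ((prismX α σ).pull t).push K = (prismX (Functor.whiskerRight α K) σ).pull t := by
  have ho : ∀ x : Fin (n + 1) × Bool, K.obj ((prismX α σ).o x) =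
      (prismX (Functor.whiskerRight α K) σ).o x := by
    rintro ⟨a, b⟩
    cases b <;> rfl
  refine Sx.ext (funext fun i => ho (t i)) ?_
  refine Function.hfunext rfl fun i i' hi => ?_
  obtain rfl := eq_of_heq hi
  refine Function.hfunext rfl fun j j' hj => ?_
  obtain rfl := eq_of_heq hj
  refine Function.hfunext rfl fun h h' _ => ?_
  have hm : ∀ (x y : Fin (n + 1) × Bool) (hxy : x ≤ y), HEq (K.map ((prismX α σ).m x y hxy))
      ((prismX (Functor.whiskerRight α K) σ).m x y hxy) := by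
    rintro ⟨a, x⟩ ⟨b, y⟩ ⟨h1, h2⟩
    cases x <;> cases y
    · exact HEq.rfl
    · exact heq_of_eq (K.map_comp _ _)
    · exact absurd (show true ≤ false from h2) (by decide)
    · exact HEq.rfl
  exact hm (t i) (t j) (t.monotone h)

/-- the prism of a whiskered transformation (before) -/
theorem prism_whiskerLeft {F G : D ⥤ E} (K : C ⥤ D) (α : F ⟶ G) {n m : ℕ} (σ : Sx C n)
    (t : Fin (m + 1) →o Fin (n + 1) × Bool) :
    (prismX α (σ.push K)).pull t = (prismX (Functor.whiskerLeft K α) σ).pull t := by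
  have ho : ∀ x : Fin (n + 1) × Bool, (prismX α (σ.push K)).o x =
      (prismX (Functor.whiskerLeft K α) σ).o x := by
    rintro ⟨a, b⟩
    cases b <;> rfl
  refine Sx.ext (funext fun i => ho (t i)) ?_
  refine Function.hfunext rfl fun i i' hi => ?_
  obtain rfl := eq_of_heq hi
  refine Function.hfunext rfl fun j j' hj => ?_
  obtain rfl := eq_of_heq hj
  refine Function.hfunext rfl fun h h' _ => ?_
  have hm : ∀ (x y : Fin (n + 1) × Bool) (hxy : x ≤ y), HEq ((prismX α (σ.push K)).m x y hxy)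
      ((prismX (Functor.whiskerLeft K α) σ).m x y hxy) := by
    rintro ⟨a, x⟩ ⟨b, y⟩ ⟨h1, h2⟩
    cases x <;> cases y
    · exact HEq.rfl
    · exact HEq.rfl
    · exact absurd (show true ≤ false from h2) (by decide)
    · exact HEq.rfl
  exact hm (t i) (t j) (t.monotone h)

theorem pr_whiskerRight {F G : C ⥤ D} (α : F ⟶ G) (K : D ⥤ E) (n : ℕ) (x : (NC C).X n) :
    (NCmap K).f (n + 1) (pr α n x) = pr (Functor.whiskerRight α K) n x := by
  have : ((NCmap K).f (n + 1)).comp (pr α n) = pr (Functor.whiskerRight α K) n := by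
    refine Finsupp.lhom_ext fun σ a => ?_
    rw [LinearMap.comp_apply, pr_single, pr_single, map_sum]
    refine Finset.sum_congr rfl fun i _ => ?_
    rw [map_smul, NCmap_single, prism_whiskerRight]
  exact LinearMap.congr_fun this x

theorem pr_whiskerLeft {F G : D ⥤ E} (K : C ⥤ D) (α : F ⟶ G) (n : ℕ) (x : (NC C).X n) :
    pr α n ((NCmap K).f n x) = pr (Functor.whiskerLeft K α) n x := by
  have : (pr α n).comp ((NCmap K).f n) = pr (Functor.whiskerLeft K α) n := by
    refine Finsupp.lhom_ext fun σ a => ?_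
    rw [LinearMap.comp_apply, NCmap_single, pr_single, pr_single]
    refine Finset.sum_congr rfl fun i _ => ?_
    rw [prism_whiskerLeft]
  exact LinearMap.congr_fun this x

/-- equal functors, heterogeneously equal transformations -/
theorem pr_congr {F F' G G' : C ⥤ D} (α : F ⟶ G) (α' : F' ⟶ G') (hF : F = F') (hG : G = G')
    (h : ∀ x, HEq (α.app x) (α'.app x)) (n : ℕ) (x : (NC C).X n) : pr α n x = pr α' n x := by
  subst hF
  subst hG
  have : α = α' := by
    ext x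
    exact eq_of_heq (h x)
  rw [this]

/-- the operation of a pair of natural transformations, on chains -/
noncomputable def dpr {F G : C ⥤ D} (α β : F ⟶ G) (n : ℕ) :
    (NC C).X n →ₗ[ℚ] (NC D).X (n + 1) := pr α n - pr β n

theorem dpr_apply {F G : C ⥤ D} (α β : F ⟶ G) (n : ℕ) (x : (NC C).X n) :
    dpr α β n x = pr α n x - pr β n x := rfl

theorem dpr_Z {F G : C ⥤ D} (α β : F ⟶ G) (n : ℕ) {x : (NC C).X n} (hx : x ∈ (NC C).Z n) :
    dpr α β n x ∈ (NC D).Z (n + 1) := by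
  rw [Cx.mem_Z_succ, dpr_apply, map_sub]
  cases n with
  | zero =>
    rw [d_pr_zero, d_pr_zero, sub_self]
  | succ n =>
    rw [Cx.mem_Z_succ] at hx
    have h1 := d_pr α n x
    have h2 := d_pr β n x
    rw [hx, map_zero, add_zero] at h1 h2
    rw [h1, h2, sub_self]

theorem dpr_Bd {F G : C ⥤ D} (α β : F ⟶ G) (n : ℕ) {x : (NC C).X n} (hx : x ∈ (NC C).Bd n) :
    dpr α β n x ∈ (NC D).Bd (n + 1) := by
  obtain ⟨y, rfl⟩ := hx
  refine ⟨-(dpr α β (n + 1) y), ?_⟩
  have h1 := d_pr α n y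
  have h2 := d_pr β n y
  rw [map_neg, dpr_apply, dpr_apply, map_sub]
  have h3 : (NC D).d (n + 1) (pr α (n + 1) y) =
      (NCmap G).f (n + 1) y - (NCmap F).f (n + 1) y - pr α n ((NC C).d n y) := by
    rw [← h1]
    abel
  have h4 : (NC D).d (n + 1) (pr β (n + 1) y) =
      (NCmap G).f (n + 1) y - (NCmap F).f (n + 1) y - pr β n ((NC C).d n y) := by
    rw [← h2]
    abel
  rw [h3, h4]
  abel

/-- the operation of a pair of natural transformations on homology -/
noncomputable def nt {F G : C ⥤ D} (α β : F ⟶ G) (n : ℕ) : HC C n →ₗ[ℚ] HC D (n + 1) :=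
  Submodule.mapQ _ _ ((dpr α β n).restrict (fun _ hx => dpr_Z α β n hx)) (by
    rintro ⟨x, hx⟩ hx'
    exact dpr_Bd α β n hx')

theorem nt_cls {F G : C ⥤ D} (α β : F ⟶ G) (n : ℕ) (x : (NC C).X n) (hx : x ∈ (NC C).Z n) :
    nt α β n ((NC C).cls n x hx) = (NC D).cls (n + 1) (dpr α β n x) (dpr_Z α β n hx) := rfl

theorem nt_whiskerRight {F G : C ⥤ D} (α β : F ⟶ G) (K : D ⥤ E) (n : ℕ) (y : HC C n) :
    HCmap K (n + 1) (nt α β n y) =
      nt (Functor.whiskerRight α K) (Functor.whiskerRight β K) n y := by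
  induction y using Cx.H_ind with
  | h x hx =>
    rw [nt_cls, nt_cls, HCmap, Cx.H_cls, Cx.cls_eq]
    have : (NCmap K).f (n + 1) (dpr α β n x) =
        dpr (Functor.whiskerRight α K) (Functor.whiskerRight β K) n x := by
      rw [dpr_apply, dpr_apply, map_sub, pr_whiskerRight, pr_whiskerRight]
    rw [this, sub_self]
    exact Submodule.zero_mem _

theorem nt_whiskerLeft {F G : D ⥤ E} (K : C ⥤ D) (α β : F ⟶ G) (n : ℕ) (y : HC C n) :
    nt α β n (HCmap K n y) = nt (Functor.whiskerLeft K α) (Functor.whiskerLeft K β) n y := by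
  induction y using Cx.H_ind with
  | h x hx =>
    rw [HCmap, Cx.H_cls, nt_cls, nt_cls, Cx.cls_eq]
    have : dpr α β n ((NCmap K).f n x) =
        dpr (Functor.whiskerLeft K α) (Functor.whiskerLeft K β) n x := by
      rw [dpr_apply, dpr_apply, pr_whiskerLeft, pr_whiskerLeft]
    rw [this, sub_self]
    exact Submodule.zero_mem _

theorem nt_congr {F F' G G' : C ⥤ D} (α β : F ⟶ G) (α' β' : F' ⟶ G') (hF : F = F') (hG : G = G')
    (h : ∀ x, HEq (α.app x) (α'.app x)) (h' : ∀ x, HEq (β.app x) (β'.app x)) (n : ℕ)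
    (y : HC C n) : nt α β n y = nt α' β' n y := by
  subst hF
  subst hG
  have e : α = α' := by
    ext x
    exact eq_of_heq (h x)
  have e' : β = β' := by
    ext x
    exact eq_of_heq (h' x)
  rw [e, e']

end C715
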