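import Pool.Agent.Work.MP_c71557_gt.A.Defs
import Pool.Agent.Work.MP_c71557_gt.A.Pr
import Pool.Agent.Work.MP_c71557_gt.A.Cut

set_option autoImplicit false
set_option linter.unusedVariables false

/-!
# MP_c71557_gt, block A: functors from groups, the base cells, the group `KS`
-/

noncomputable section

namespace C715

open CategoryTheory

namespace ActCat

variable {Γ Γ' : Type} [Group Γ] [Group Γ']

/-- functor from the one object category of `K` given by a homomorphism defined on `K` -/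
def sgFun (K : Subgroup Γ) (A : ActCat Γ') (b : A.Ob) (φ : ↥K →* Γ')
    (h : ∀ k, A.Adm b (φ k) b) : (sg K).Obj ⥤ A.Obj where
  obj _ := ⟨b⟩
  map {x y} u := Quotient.lift (fun g : {g : Γ // (sg K).Adm x.o g y.o} =>
      A.cl (a := b) (b := b) (φ ⟨g.1, g.2⟩) (h _)) (by
    rintro ⟨g, hg⟩ ⟨g', hg'⟩ (e : g⁻¹ * g' ∈ (⊥ : Subgroup Γ))
    rw [Subgroup.mem_bot, inv_mul_eq_one] at e
    subst e
    rfl) u
  map_id x := by
    change A.cl (φ ⟨1, _⟩) _ = A.cl 1 (A.one b)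
    refine cl_eq.2 ?_
    have : φ ⟨1, K.one_mem⟩ = 1 := φ.map_one
    rw [this]
    simp
  map_comp u v := by
    induction u using ActCat.ind with
    | h f hf =>
      induction v using ActCat.ind with
      | h g hg =>
        refine cl_eq.2 ?_
        have : φ ⟨g * f, K.mul_mem hg hf⟩ = φ ⟨g, hg⟩ * φ ⟨f, hf⟩ := φ.map_mul ⟨g, hg⟩ ⟨f, hf⟩
        change (φ ⟨g * f, K.mul_mem hg hf⟩)⁻¹ * (φ ⟨g, hg⟩ * φ ⟨f, hf⟩) ∈ A.N b
        rw [this]
        simp

theorem sgFun_map (K : Subgroup Γ) (A : ActCat Γ') (b : A.Ob) (φ : ↥K →* Γ')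
    (h : ∀ k, A.Adm b (φ k) b) {x y : Unit} (g : Γ) (hg : g ∈ K) :
    (sgFun K A b φ h).map ((sg K).hom (a := x) (b := y) g hg) =
      A.hom (a := b) (b := b) (φ ⟨g, hg⟩) (h _) := rfl

/-- natural transformations between such functors -/
def sgNat {K : Subgroup Γ} {A : ActCat Γ'} {b c : A.Ob} {φ ψ : ↥K →* Γ'}
    (h : ∀ k, A.Adm b (φ k) b) (h' : ∀ k, A.Adm c (ψ k) c) (g : Γ') (hg : A.Adm b g c)
    (hn : ∀ k, (g * φ k)⁻¹ * (ψ k * g) ∈ A.N b) : sgFun K A b φ h ⟶ sgFun K A c ψ h' where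
  app _ := A.hom (a := b) (b := c) g hg
  naturality x y u := by
    induction u using ActCat.ind with
    | h f hf => exact cl_eq.2 (hn ⟨f, hf⟩)

/-- two such functors are equal if the homomorphisms agree modulo `N b` -/
theorem sgFun_congr (K : Subgroup Γ) (A : ActCat Γ') (b : A.Ob) (φ ψ : ↥K →* Γ')
    (h : ∀ k, A.Adm b (φ k) b) (h' : ∀ k, A.Adm b (ψ k) b)
    (e : ∀ k, (φ k)⁻¹ * ψ k ∈ A.N b) : sgFun K A b φ h = sgFun K A b ψ h' := by
  refine CategoryTheory.Functor.ext (fun _ => rfl) (fun x y u => ?_)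
  induction u using ActCat.ind with
  | h f hf =>
    refine Eq.trans ?_ (Category.id_comp _).symm
    refine Eq.trans ?_ (Category.comp_id _).symm
    exact cl_eq.2 (e ⟨f, hf⟩)

/-- composition with a functor given by a homomorphism -/
theorem sgFun_comp {Γ'' : Type} [Group Γ''] (K : Subgroup Γ) (A : ActCat Γ') (A' : ActCat Γ'')
    (b : A.Ob) (φ : ↥K →* Γ') (h : ∀ k, A.Adm b (φ k) b) (f : A.Ob → A'.Ob) (χ : Γ' →* Γ'')
    (hAdm : ∀ {a b : A.Ob} {g : Γ'}, A.Adm a g b → A'.Adm (f a) (χ g) (f b))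
    (hN : ∀ {a : A.Ob} {n : Γ'}, n ∈ A.N a → χ n ∈ A'.N (f a)) :
    sgFun K A b φ h ⋙ functor f χ hAdm hN =
      sgFun K A' (f b) (χ.comp φ) (fun k => hAdm (h k)) := by
  refine CategoryTheory.Functor.ext (fun _ => rfl) (fun x y u => ?_)
  induction u using ActCat.ind with
  | h g hg =>
    refine Eq.trans ?_ (Category.id_comp _).symm
    exact (Category.comp_id _).symm

end ActCat

namespace Ang

open XX ActCat

theorem pi_b : (3 : ℝ) < Real.pi ∧ Real.pi < 3.15 := ⟨Real.pi_gt_three, Real.pi_lt_d2⟩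

/-- the base cell `[7,8]` -/
def a0 : Cell := ⟨7, 8, by norm_num⟩

/-- the hull of `[7,8]` and `[7,8] - 2π` -/
def b0 : Cell := ⟨7 - 2 * Real.pi, 8, by linarith [pi_b.1]⟩

/-- `[7,8]` as an object of `T1` -/
def o1 : T1.Ob := ⟨a0, by
  have := pi_b.1
  exact ⟨by change (7 : ℝ) < 8; norm_num, by change (8 : ℝ) < 7 + 2 * Real.pi; linarith⟩⟩

/-- `[7,8]` as an object of `T2` -/
def o2 : T2.Ob := ⟨a0, by
  exact ⟨by change (0 : ℝ) < 7; norm_num, by change (7 : ℝ) < 8; norm_num⟩⟩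

/-- `[7 - 2π, 8]` as an object of `T2` -/
def o2b : T2.Ob := ⟨b0, by
  have := pi_b
  exact ⟨by change (0 : ℝ) < 7 - 2 * Real.pi; linarith,
    by change 7 - 2 * Real.pi < (8 : ℝ); linarith⟩⟩

/-- periodic elements which are the identity near `[7,8]` -/
def KS : Subgroup ↥Ft := N1 o1

theorem mem_KS {F : ↥Ft} : F ∈ KS ↔ (F : XX) ∈ nb 7 8 := Iff.rfl

/-- the inclusion `KS → XX` -/
def KSX : ↥KS →* XX := Ft.subtype.comp KS.subtype

/-- values of an element of `KS` near `[7,8]` and near `[7,8] - 2π` -/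
theorem KS_ev (F : ↥KS) : ∃ e : ℝ, 0 < e ∧
    (∀ s, 7 - e ≤ s → s ≤ 8 + e → (KSX F).ev s = (s, 1)) ∧
    (∀ s, 7 - 2 * Real.pi - e ≤ s → s ≤ 8 - 2 * Real.pi + e → (KSX F).ev s = (s, 1)) := by
  have h1 : KSX F ∈ Ft := F.1.2
  obtain ⟨e, he, h2⟩ := F.2
  refine ⟨e, he, h2, fun s hs hs' => ?_⟩
  have h3 : (KSX F).ev (s + 2 * Real.pi) = (s + 2 * Real.pi, 1) := h2 (s + 2 * Real.pi) (by
    change (7 : ℝ) - e ≤ _
    linarith) (by
    change _ ≤ (8 : ℝ) + e
    linarith)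
  rw [mem_Ft.1 h1 s] at h3
  have h4 : (KSX F).f s + 2 * Real.pi = s + 2 * Real.pi := congrArg Prod.fst h3
  have h5 : (KSX F).r s = 1 := congrArg Prod.snd h3
  exact Prod.ext (by change (KSX F).f s = s; linarith) h5

theorem KS_Fix (F : ↥KS) : KSX F ∈ Fix (8 - 2 * Real.pi) 7 := by
  obtain ⟨e, he, h1, h2⟩ := KS_ev F
  exact ⟨h2 _ (by linarith) (by linarith), h1 _ (by linarith) (by linarith)⟩

/-- cut off the support to `(8 - 2π, 7)` -/
def cutF : ↥(Fix (8 - 2 * Real.pi) 7) →* XX :=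
  (exists_cut (x := 8 - 2 * Real.pi) (y := 7) (by linarith [pi_b.1])).choose

theorem cutF_spec (F : ↥(Fix (8 - 2 * Real.pi) 7)) (s : ℝ) :
    (8 - 2 * Real.pi ≤ s → s ≤ 7 → (cutF F).ev s = F.1.ev s) ∧
    (s ≤ 8 - 2 * Real.pi → (cutF F).ev s = (s, 1)) ∧ (7 ≤ s → (cutF F).ev s = (s, 1)) :=
  (exists_cut (x := 8 - 2 * Real.pi) (y := 7) (by linarith [pi_b.1])).choose_spec F s

/-- cut off the support of an element of `KS` to `(8 - 2π, 7)` -/
def cutS : ↥KS →* XX := cutF.comp (KSX.codRestrict _ KS_Fix)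

/-- the cut element is the identity near `(-∞, 8 - 2π]` and near `[7, ∞)`, and agrees with the
original one near `[7 - 2π, 8]` -/
theorem cutS_spec (F : ↥KS) : ∃ e : ℝ, 0 < e ∧
    (∀ s, s ≤ 8 - 2 * Real.pi + e → (cutS F).ev s = (s, 1)) ∧
    (∀ s, 7 - e ≤ s → (cutS F).ev s = (s, 1)) ∧
    (∀ s, 7 - 2 * Real.pi - e ≤ s → s ≤ 8 + e → (cutS F).ev s = (KSX F).ev s) := by
  obtain ⟨e, he, h1, h2⟩ := KS_ev F
  have hπ := pi_b
  refine ⟨min e 1, lt_min he one_pos, fun s hs => ?_, fun s hs => ?_, fun s hs hs' => ?_⟩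
  · have m := min_le_left e 1
    have m' := min_le_right e 1
    obtain ⟨c1, c2, c3⟩ := cutF_spec (KSX.codRestrict _ KS_Fix F) s
    rcases le_total s (8 - 2 * Real.pi) with h | h
    · exact c2 h
    · rcases le_total s 7 with h' | h'
      · exact (c1 h h').trans (h2 s (by linarith) (by linarith))
      · exact c3 h'
  · have m := min_le_left e 1
    have m' := min_le_right e 1
    obtain ⟨c1, c2, c3⟩ := cutF_spec (KSX.codRestrict _ KS_Fix F) s
    rcases le_total 7 s with h | h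
    · exact c3 h
    · rcases le_total (8 - 2 * Real.pi) s with h' | h'
      · exact (c1 h' h).trans (h1 s (by linarith) (by linarith))
      · exact c2 h'
  · have m := min_le_left e 1
    have m' := min_le_right e 1
    obtain ⟨c1, c2, c3⟩ := cutF_spec (KSX.codRestrict _ KS_Fix F) s
    rcases le_total s (8 - 2 * Real.pi) with h | h
    · exact (c2 h).trans (h2 s (by linarith) (by linarith)).symm
    · rcases le_total s 7 with h' | h'
      · exact c1 h h'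
      · exact (c3 h').trans (h1 s (by linarith) (by linarith)).symm

theorem cutS_sp (F : ↥KS) : cutS F ∈ sp (8 - 2 * Real.pi) 7 := by
  obtain ⟨e, he, h1, h2, h3⟩ := cutS_spec F
  exact ⟨⟨e, he, h1⟩, ⟨e, he, h2⟩⟩

theorem cutS_N2 (F : ↥KS) : cutS F ∈ N2 o2 := by
  obtain ⟨e, he, h1, h2, h3⟩ := cutS_spec F
  have hπ := pi_b
  refine ⟨⟨8 - 2 * Real.pi, by linarith, fun s hs => h1 s (by linarith)⟩,
    ⟨e, he, fun s hs hs' => h2 s hs⟩⟩

theorem cutS_adm (F : ↥KS) : T2.Adm o2 (cutS F) o2 := N2_adm (cutS_N2 F)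

theorem cutS_admb (F : ↥KS) : T2.Adm o2b (cutS F) o2b := by
  obtain ⟨e, he, h1, h2, h3⟩ := cutS_spec F
  have hπ := pi_b
  refine ⟨(cutS_N2 F).1, ?_, ?_⟩
  · have h := congrArg Prod.fst (h1 (7 - 2 * Real.pi) (by linarith))
    exact (show (cutS F).f (7 - 2 * Real.pi) = 7 - 2 * Real.pi from h).ge
  · have h := congrArg Prod.fst (h2 8 (by linarith))
    exact (show (cutS F).f 8 = 8 from h).le

theorem KS_adma (F : ↥KS) : AA.Adm a0 F.1 a0 := Into.of_nb F.2

theorem KS_admb (F : ↥KS) : AA.Adm b0 F.1 b0 := by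
  obtain ⟨e, he, h1, h2⟩ := KS_ev F
  refine ⟨?_, ?_⟩
  · have h := congrArg Prod.fst (h2 (7 - 2 * Real.pi) (by linarith) (by linarith))
    exact (show (KSX F).f (7 - 2 * Real.pi) = 7 - 2 * Real.pi from h).ge
  · have h := congrArg Prod.fst (h1 8 (by linarith) (by linarith))
    exact (show (KSX F).f 8 = 8 from h).le

/-- `KS` acting on `[7,8]` -/
def PhA : (sg KS).Obj ⥤ AA.Obj := sgFun KS AA a0 KS.subtype KS_adma

/-- `KS` acting on `[7 - 2π, 8]` -/
def PhB : (sg KS).Obj ⥤ AA.Obj := sgFun KS AA b0 KS.subtype KS_admb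

theorem tauInv_mem : tau⁻¹ ∈ Ft := Ft.inv_mem tau_mem

theorem tauInv_ev (s : ℝ) : (tau⁻¹).ev s = (s - 2 * Real.pi, 1) := by
  have : tau⁻¹ = rot (-(2 * Real.pi)) := rot_inv _
  rw [this, rot_ev, sub_eq_add_neg]

theorem tauInv_f (s : ℝ) : (tau⁻¹).f s = s - 2 * Real.pi := congrArg Prod.fst (tauInv_ev s)

theorem tauInv_comm {F : XX} (hF : F ∈ Ft) : tau⁻¹ * F = F * tau⁻¹ := by
  have h := tau_comm hF
  rw [inv_mul_eq_iff_eq_mul, ← mul_assoc, h, mul_inv_cancel_right]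

/-- `tau⁻¹` as an element of `Ft` -/
def tI : ↥Ft := ⟨tau⁻¹, tauInv_mem⟩

theorem tI_comm (F : ↥Ft) : tI * F = F * tI := Subtype.ext (tauInv_comm F.2)

theorem tauInv_adm : AA.Adm a0 tI b0 := by
  refine ⟨?_, ?_⟩
  · change _ ≤ (tau⁻¹).f _
    rw [tauInv_f]
    exact le_rfl
  · change (tau⁻¹).f _ ≤ _
    rw [tauInv_f]
    change (8 : ℝ) - 2 * Real.pi ≤ 8
    linarith [pi_b.1]

theorem one_adm : AA.Adm a0 1 b0 := by
  refine ⟨?_, ?_⟩
  · change 7 - 2 * Real.pi ≤ (7 : ℝ)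
    linarith [pi_b.1]
  · exact le_rfl

/-- the natural transformation `tau⁻¹` -/
def tA : PhA ⟶ PhB := sgNat KS_adma KS_admb tI tauInv_adm (fun k => by
  have h : (tI * KS.subtype k)⁻¹ * (KS.subtype k * tI) = 1 := by
    rw [inv_mul_eq_one]
    exact tI_comm _
  rw [h]
  exact Subgroup.one_mem _)

/-- the natural transformation `1` -/
def iA : PhA ⟶ PhB := sgNat KS_adma KS_admb 1 one_adm (fun k => by
  have h : (1 * KS.subtype k)⁻¹ * (KS.subtype k * 1) = 1 := by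
    rw [one_mul, mul_one, inv_mul_cancel]
  rw [h]
  exact Subgroup.one_mem _)

/-- the suspension map `H_q(KS) → H_{q+1}(CC)` -/
def EE (q : ℕ) : HC (sg KS).Obj q →ₗ[ℚ] HC CC.Obj (q + 1) :=
  (HCmap RA (q + 1)).comp (nt tA iA q)

/-- `KS` in the fibre of `T2` at `[7,8]` -/
def cS : (sg KS).Obj ⥤ (T2.fib N2 N2_adm N2_le o2).Obj :=
  sgFun KS (T2.fib N2 N2_adm N2_le o2) () cutS cutS_N2

end Ang
end C715
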