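import Pool.Agent.Work.MP_c71557_gt.A.Defs

set_option autoImplicit false

/-!
# MP_c71557_gt, module A/Lin: linear elements of `XX` (M-L)

`exists_lin`: lifts of linear maps.  Reduce to `a = c = 0`, `ρ = 1` by composing with rotations
`rot` (linear: see `XX.rot`, and `LinOn.comp`) and homotheties (`f = id`, `r` constant).

Triangular maps: for `k > 0` and `m : ℝ` the real linear map `A` of `ℂ` with `A 1 = 1`,
`A I = m + k I`, i.e. `W s := A (e^{is}) = cos s + m sin s + k sin s I` (`p = 1`, `q = m + k I`).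
`W s ≠ 0`, and `e^{-is} W s` is never in `(-∞, 0]`: if `W s = -λ e^{is}`, `λ ≥ 0`, then imaginary
parts give `k sin s = -λ sin s`, so `sin s = 0` and then `cos s = -λ cos s`, impossible.  So
`f s := s + arg (e^{-is} W s)` is continuous (`Complex.continuousAt_arg` on `slitPlane`), with
`r s := ‖W s‖ > 0` one has `r s e^{i f s} = W s` (`Complex.norm_mul_exp_arg_mul_I`), and
`f (s + 2π) = f s + 2π`, `f 0 = 0`, `f (s + π) = f s + π` (`e^{-i(s+π)} W (s+π) = e^{-is} W s`).
`f` is injective: `f s = f t` gives `W s`, `W t` positively proportional, hence (A injective)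
`e^{is}`, `e^{it}` positively proportional, so `t = s + 2πk`, and then `f t = f s + 2πk` gives
`k = 0`.  A continuous injective function is strictly monotone or antitone
(`Continuous.strictMono_of_inj`); antitone contradicts `f (0 + 2π) = f 0 + 2π`.  Surjective:
continuous and unbounded on both sides (`f (2πn) = 2πn`).  So
`StrictMono.orderIsoOfSurjective`; this is an element `T k m` of `XX`, linear.

Given `0 < δ = b - a < π`, `0 < δ' = d - c < π` and `κ > 0`: choose `k, m` with
`A (e^{iδ}) = κ e^{iδ'}`: `k sin δ = κ sin δ'`, `cos δ + m sin δ = κ cos δ'`.  Then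
`f δ ∈ (f 0, f π) = (0, π)` and `e^{i f δ} = e^{iδ'}`, so `f δ = δ'`.

Finally `F = rot c ∘ (homothety ρ) ∘ T ∘ rot (-a)` with `κ = σ / ρ`.
-/

namespace C715
namespace Ang

open XX

/-- linear elements -/
def IsLin (F : XX) : Prop := LinOn F.f F.r Set.univ

theorem IsLin.mul {F G : XX} (hF : IsLin F) (hG : IsLin G) : IsLin (F * G) :=
  LinOn.comp (f := F.f) (r := F.r) hF hG (fun _ _ => trivial)

theorem isLin_rot (α : ℝ) : IsLin (rot α) := by
  refine ⟨⟨Real.cos α, Real.sin α⟩, ⟨-Real.sin α, Real.cos α⟩, fun s _ => Complex.ext ?_ ?_⟩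
  · rw [V_re, rot_f, rot_r, Real.cos_add]
    simp only [Complex.add_re, Complex.smul_re, smul_eq_mul]
    ring
  · rw [V_im, rot_f, rot_r, Real.sin_add]
    simp only [Complex.add_im, Complex.smul_im, smul_eq_mul]
    ring

theorem isLin_inv {F : XX} (hF : IsLin F) : IsLin F⁻¹ := by
  obtain ⟨p, q, h⟩ := hF
  have hd : 0 < p.re * q.im - p.im * q.re :=
    LinOn.det_pos F.pos (zero_lt_one : (0 : ℝ) < 1) (fun s _ => h s trivial)
  set δ := p.re * q.im - p.im * q.re with hδ
  refine ⟨⟨q.im / δ, -p.im / δ⟩, ⟨-q.re / δ, p.re / δ⟩, fun s _ => ?_⟩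
  obtain ⟨x, rfl⟩ := F.f.surjective s
  have h1 := V_re F.f F.r x
  have h2 := V_im F.f F.r x
  rw [h x trivial] at h1 h2
  simp only [Complex.add_re, Complex.add_im, Complex.smul_re, Complex.smul_im, smul_eq_mul]
    at h1 h2
  have hx0 := (F.pos x).ne'
  have hδ0 := hd.ne'
  refine Complex.ext ?_ ?_
  · rw [V_re, inv_f_f, inv_r, F.f.symm_apply_apply]
    simp only [Complex.add_re, Complex.smul_re, smul_eq_mul]
    field_simp
    rw [hδ]
    linear_combination q.im * h1 - q.re * h2
  · rw [V_im, inv_f_f, inv_r, F.f.symm_apply_apply]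
    simp only [Complex.add_im, Complex.smul_im, smul_eq_mul]
    field_simp
    rw [hδ]
    linear_combination (-p.im) * h1 + p.re * h2

/-- homothety -/
private noncomputable def hom (ρ : ℝ) (hρ : 0 < ρ) : XX where
  f := OrderIso.refl ℝ
  r _ := ρ
  pos _ := hρ
  pl t := by
    have h : ∀ A : Set ℝ, LinOn (OrderIso.refl ℝ) (fun _ => ρ) A := fun A => by
      refine ⟨⟨ρ, 0⟩, ⟨0, ρ⟩, fun s _ => Complex.ext ?_ ?_⟩
      · rw [V_re]
        simp only [OrderIso.refl_apply, Complex.add_re, Complex.smul_re, smul_eq_mul]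
        ring
      · rw [V_im]
        simp only [OrderIso.refl_apply, Complex.add_im, Complex.smul_im, smul_eq_mul]
        ring
    exact ⟨1, one_pos, h _, h _⟩

private theorem isLin_hom (ρ : ℝ) (hρ : 0 < ρ) : IsLin (hom ρ hρ) := by
  refine ⟨⟨ρ, 0⟩, ⟨0, ρ⟩, fun s _ => Complex.ext ?_ ?_⟩
  · rw [V_re]
    change ρ * Real.cos s = _
    simp only [Complex.add_re, Complex.smul_re, smul_eq_mul]
    ring
  · rw [V_im]
    change ρ * Real.sin s = _
    simp only [Complex.add_im, Complex.smul_im, smul_eq_mul]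
    ring

section tri

variable (k m : ℝ)

/-- `e^{-is} W s` -/
private noncomputable def w (s : ℝ) : ℂ :=
  ⟨Real.cos s * (Real.cos s + m * Real.sin s) + k * Real.sin s * Real.sin s,
    k * Real.sin s * Real.cos s - Real.sin s * (Real.cos s + m * Real.sin s)⟩

private theorem w_cont : Continuous (w k m) := by
  have h1 : Continuous fun s : ℝ =>
      Real.cos s * (Real.cos s + m * Real.sin s) + k * Real.sin s * Real.sin s := by fun_prop
  have h2 : Continuous fun s : ℝ =>
      k * Real.sin s * Real.cos s - Real.sin s * (Real.cos s + m * Real.sin s) := by fun_prop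
  have h3 : w k m = fun s => (((Real.cos s * (Real.cos s + m * Real.sin s) +
      k * Real.sin s * Real.sin s : ℝ) : ℂ) +
      ((k * Real.sin s * Real.cos s - Real.sin s * (Real.cos s + m * Real.sin s) : ℝ) : ℂ) *
        Complex.I) := by
    funext s
    exact Complex.mk_eq_add_mul_I _ _
  rw [h3]
  exact (Complex.continuous_ofReal.comp h1).add
    ((Complex.continuous_ofReal.comp h2).mul continuous_const)

private theorem w_slit (hk : 0 < k) (s : ℝ) : w k m s ∈ Complex.slitPlane := by
  rw [Complex.mem_slitPlane_iff]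
  by_contra hcon
  push Not at hcon
  obtain ⟨h1, h2⟩ := hcon
  have hre : (w k m s).re =
    Real.cos s * (Real.cos s + m * Real.sin s) + k * Real.sin s * Real.sin s := rfl
  have him : (w k m s).im =
    k * Real.sin s * Real.cos s - Real.sin s * (Real.cos s + m * Real.sin s) := rfl
  rw [hre] at h1
  rw [him] at h2
  have h3 := Real.sin_sq_add_cos_sq s
  have h4 : Real.sin s * (k * Real.cos s - (Real.cos s + m * Real.sin s)) = 0 := by
    linear_combination h2
  rcases mul_eq_zero.1 h4 with h5 | h5
  · rw [h5] at h1 h3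
    nlinarith
  · have h6 : Real.cos s + m * Real.sin s = k * Real.cos s := by linarith
    rw [h6] at h1
    nlinarith

private theorem w_pi (s : ℝ) : w k m (s + Real.pi) = w k m s := by
  unfold w
  rw [Real.sin_add_pi, Real.cos_add_pi]
  refine Complex.ext ?_ ?_
  · ring
  · ring

/-- the angle function -/
private noncomputable def fT (s : ℝ) : ℝ := s + Complex.arg (w k m s)

private theorem fT_cont (hk : 0 < k) : Continuous (fT k m) := by
  refine continuous_id.add ?_
  rw [continuous_iff_continuousAt]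
  intro s
  exact (Complex.continuousAt_arg (w_slit k m hk s)).comp (w_cont k m).continuousAt

private theorem fT_pi (s : ℝ) : fT k m (s + Real.pi) = fT k m s + Real.pi := by
  unfold fT
  rw [w_pi]
  ring

private theorem fT_int (s : ℝ) (n : ℤ) : fT k m (s + n * Real.pi) = fT k m s + n * Real.pi := by
  induction n using Int.induction_on with
  | zero => simp
  | succ i ih =>
    have : s + ((i : ℤ) + 1 : ℤ) * Real.pi = (s + (i : ℤ) * Real.pi) + Real.pi := by
      push_cast
      ring
    rw [this, fT_pi, ih]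
    push_cast
    ring
  | pred i ih =>
    have h1 : s + ((-(i : ℤ) : ℤ) : ℝ) * Real.pi =
        (s + ((-(i : ℤ) - 1 : ℤ) : ℝ) * Real.pi) + Real.pi := by
      push_cast
      ring
    rw [h1, fT_pi] at ih
    push_cast at ih ⊢
    linarith

private theorem w_zero : w k m 0 = 1 := by
  unfold w
  rw [Real.sin_zero, Real.cos_zero]
  refine Complex.ext ?_ ?_
  · change _ = (1 : ℝ)
    ring
  · change _ = (0 : ℝ)
    ring

private theorem fT_zero : fT k m 0 = 0 := by
  unfold fT
  rw [w_zero, Complex.arg_one, add_zero]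

private theorem V_T (s : ℝ) : V (fT k m) (fun s => ‖w k m s‖) s =
    Real.cos s • (⟨1, 0⟩ : ℂ) + Real.sin s • (⟨m, k⟩ : ℂ) := by
  have h1 : V (fT k m) (fun s => ‖w k m s‖) s = Complex.exp (s * Complex.I) * w k m s := by
    unfold V fT
    have h2 := Complex.norm_mul_exp_arg_mul_I (w k m s)
    rw [Complex.ofReal_add, add_mul, Complex.exp_add, Complex.real_smul]
    calc (‖w k m s‖ : ℂ) * (Complex.exp (s * Complex.I) *
        Complex.exp ((Complex.arg (w k m s) : ℂ) * Complex.I))
        = Complex.exp (s * Complex.I) * ((‖w k m s‖ : ℂ) *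
          Complex.exp ((Complex.arg (w k m s) : ℂ) * Complex.I)) := by ring
      _ = _ := by rw [h2]
  rw [h1]
  have h3 := Real.sin_sq_add_cos_sq s
  refine Complex.ext ?_ ?_
  · rw [Complex.mul_re, Complex.exp_ofReal_mul_I_re, Complex.exp_ofReal_mul_I_im]
    simp only [Complex.add_re, Complex.smul_re, smul_eq_mul, w]
    linear_combination (Real.cos s + m * Real.sin s) * h3
  · rw [Complex.mul_im, Complex.exp_ofReal_mul_I_re, Complex.exp_ofReal_mul_I_im]
    simp only [Complex.add_im, Complex.smul_im, smul_eq_mul, w]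
    linear_combination (k * Real.sin s) * h3

private theorem w_pos (hk : 0 < k) (s : ℝ) : 0 < ‖w k m s‖ :=
  norm_pos_iff.2 (Complex.slitPlane_ne_zero (w_slit k m hk s))

private theorem fT_inj (hk : 0 < k) : Function.Injective (fT k m) := by
  intro s t hst
  have h1 := LinOn.cross (f := fT k m) (r := fun s => ‖w k m s‖) (A := Set.univ)
    (fun s _ => V_T k m s) (s := s) (t := t) trivial trivial
  rw [hst, sub_self, Real.sin_zero, mul_zero] at h1
  have h2 : Real.sin (t - s) = 0 := by
    have h3 : k * Real.sin (t - s) = 0 := by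
      have : ((⟨1, 0⟩ : ℂ).re * (⟨m, k⟩ : ℂ).im - (⟨1, 0⟩ : ℂ).im * (⟨m, k⟩ : ℂ).re) = k := by
        change (1 : ℝ) * k - 0 * m = k
        ring
      rw [this] at h1
      exact h1.symm
    exact (mul_eq_zero.1 h3).resolve_left hk.ne'
  obtain ⟨n, hn⟩ := Real.sin_eq_zero_iff.1 h2
  have h4 : t = s + n * Real.pi := by linarith
  rw [h4, fT_int] at hst
  have h5 : (n : ℝ) * Real.pi = 0 := by linarith
  rw [h4, h5, add_zero]

private theorem fT_mono (hk : 0 < k) : StrictMono (fT k m) := by
  rcases (fT_cont k m hk).strictMono_of_inj (fT_inj k m hk) with h | h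
  · exact h
  · exfalso
    have h1 := h Real.pi_pos
    have h2 := fT_pi k m 0
    rw [zero_add] at h2
    rw [h2] at h1
    linarith [Real.pi_pos]

private theorem fT_surj (hk : 0 < k) : Function.Surjective (fT k m) := by
  refine (fT_cont k m hk).surjective ?_ ?_
  · refine Filter.tendsto_atTop_mono (fun s => ?_)
      (Filter.tendsto_atTop_add_const_right Filter.atTop (-Real.pi) Filter.tendsto_id)
    unfold fT
    have := Complex.neg_pi_lt_arg (w k m s)
    change s + -Real.pi ≤ _
    linarith
  · refine Filter.tendsto_atBot_mono (fun s => ?_)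
      (Filter.tendsto_atBot_add_const_right Filter.atBot Real.pi Filter.tendsto_id)
    unfold fT
    have := Complex.arg_le_pi (w k m s)
    change _ ≤ s + Real.pi
    linarith

/-- the lift of a triangular linear map -/
private noncomputable def TT (hk : 0 < k) : XX where
  f := (fT_mono k m hk).orderIsoOfSurjective (fT k m) (fT_surj k m hk)
  r s := ‖w k m s‖
  pos s := w_pos k m hk s
  pl _ := ⟨1, one_pos, ⟨_, _, fun s _ => V_T k m s⟩, ⟨_, _, fun s _ => V_T k m s⟩⟩

private theorem isLin_TT (hk : 0 < k) : IsLin (TT k m hk) := ⟨_, _, fun s _ => V_T k m s⟩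

private theorem TT_f (hk : 0 < k) (s : ℝ) : (TT k m hk).f s = fT k m s := rfl

private theorem TT_r (hk : 0 < k) (s : ℝ) : (TT k m hk).r s = ‖w k m s‖ := rfl

end tri

private theorem exists_tri {δ δ' κ : ℝ} (h0 : 0 < δ) (h1 : δ < Real.pi) (h2 : 0 < δ')
    (h3 : δ' < Real.pi) (hκ : 0 < κ) :
    ∃ F : XX, IsLin F ∧ F.ev 0 = (0, 1) ∧ F.ev δ = (δ', κ) := by
  have hs := Real.sin_pos_of_pos_of_lt_pi h0 h1
  have hs' := Real.sin_pos_of_pos_of_lt_pi h2 h3
  let k := κ * Real.sin δ' / Real.sin δ
  let m := (κ * Real.cos δ' - Real.cos δ) / Real.sin δ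
  have hk : 0 < k := div_pos (mul_pos hκ hs') hs
  have hk1 : k * Real.sin δ = κ * Real.sin δ' := div_mul_cancel₀ _ hs.ne'
  have hm1 : m * Real.sin δ = κ * Real.cos δ' - Real.cos δ := div_mul_cancel₀ _ hs.ne'
  refine ⟨TT k m hk, isLin_TT k m hk, ?_, ?_⟩
  · refine Prod.ext ?_ ?_
    · exact fT_zero k m
    · change ‖w k m 0‖ = 1
      rw [w_zero, norm_one]
  · have hV : V (fT k m) (fun s => ‖w k m s‖) δ = κ • Complex.exp (δ' * Complex.I) := by
      rw [V_T]
      refine Complex.ext ?_ ?_
      · rw [Complex.smul_re, Complex.exp_ofReal_mul_I_re]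
        simp only [Complex.add_re, Complex.smul_re, smul_eq_mul]
        linear_combination hm1
      · rw [Complex.smul_im, Complex.exp_ofReal_mul_I_im]
        simp only [Complex.add_im, Complex.smul_im, smul_eq_mul]
        linear_combination hk1
    have hr : ‖w k m δ‖ = κ := by
      have h4 := congrArg (fun z : ℂ => ‖z‖) hV
      change ‖V (fT k m) (fun s => ‖w k m s‖) δ‖ = ‖κ • Complex.exp (δ' * Complex.I)‖ at h4
      unfold V at h4
      rw [norm_smul, norm_smul, Complex.norm_exp_ofReal_mul_I, Complex.norm_exp_ofReal_mul_I,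
        mul_one, mul_one, norm_norm, Real.norm_of_nonneg hκ.le] at h4
      exact h4
    have he : Complex.exp (fT k m δ * Complex.I) = Complex.exp (δ' * Complex.I) := by
      unfold V at hV
      change ‖w k m δ‖ • Complex.exp (fT k m δ * Complex.I) = _ at hV
      rw [hr] at hV
      exact smul_right_injective ℂ hκ.ne' hV
    obtain ⟨n, hn⟩ := Complex.exp_eq_exp_iff_exists_int.1 he
    have h5 : fT k m δ = δ' + n * (2 * Real.pi) := by
      have h6 : (fT k m δ : ℂ) = δ' + n * (2 * Real.pi) := by
        have h7 : (fT k m δ : ℂ) * Complex.I = (δ' + n * (2 * Real.pi)) * Complex.I := by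
          rw [hn]
          ring
        exact mul_right_cancel₀ Complex.I_ne_zero h7
      exact_mod_cast h6
    have h8 : 0 < fT k m δ := by
      have := fT_mono k m hk h0
      rwa [fT_zero] at this
    have h9 : fT k m δ < Real.pi := by
      have h10 := fT_mono k m hk h1
      have h11 := fT_pi k m 0
      rw [zero_add, fT_zero, zero_add] at h11
      rwa [h11] at h10
    have hpi := Real.pi_pos
    have hn0 : n = 0 := by
      have h12 : (n : ℝ) < 1 := by
        by_contra hcon
        push Not at hcon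
        nlinarith
      have h13 : (-1 : ℝ) < n := by
        by_contra hcon
        push Not at hcon
        nlinarith
      have h14 : n < 1 := by exact_mod_cast h12
      have h15 : -1 < n := by exact_mod_cast h13
      omega
    rw [hn0, Int.cast_zero, zero_mul, add_zero] at h5
    exact Prod.ext h5 hr

theorem exists_lin {a b c d ρ σ : ℝ} (hab : a < b) (hb : b < a + Real.pi) (hcd : c < d)
    (hd : d < c + Real.pi) (hρ : 0 < ρ) (hσ : 0 < σ) :
    ∃ F : XX, IsLin F ∧ F.ev a = (c, ρ) ∧ F.ev b = (d, σ) := by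
  obtain ⟨T, hT, h0, h1⟩ := exists_tri (δ := b - a) (δ' := d - c) (κ := σ / ρ) (sub_pos.2 hab)
    (by linarith) (sub_pos.2 hcd) (by linarith) (div_pos hσ hρ)
  have h2 : T.f 0 = 0 := congrArg Prod.fst h0
  have h3 : T.r 0 = 1 := congrArg Prod.snd h0
  have h4 : T.f (b - a) = d - c := congrArg Prod.fst h1
  have h5 : T.r (b - a) = σ / ρ := congrArg Prod.snd h1
  refine ⟨rot c * (hom ρ hρ * (T * rot (-a))), (isLin_rot c).mul ((isLin_hom ρ hρ).mul
    (hT.mul (isLin_rot (-a)))), ?_, ?_⟩
  · refine Prod.ext ?_ ?_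
    · change T.f (a + -a) + c = c
      rw [add_neg_cancel, h2, zero_add]
    · change 1 * (ρ * (T.r (a + -a) * 1)) = ρ
      rw [add_neg_cancel, h3]
      ring
  · refine Prod.ext ?_ ?_
    · change T.f (b + -a) + c = d
      rw [← sub_eq_add_neg, h4]
      ring
    · change 1 * (ρ * (T.r (b + -a) * 1)) = σ
      rw [← sub_eq_add_neg, h5]
      field_simp

end Ang
end C715
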