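import Pool.Agent.Work.MP_c71557_gt.A.Loc
import Pool.Agent.Work.MP_c71557_gt.A.Lin

/-!
# MP_c71557_gt, module A/Ext: extension of germs (M)

* `exists_ext`.  Induction on `n`: for all `G, H, a, b` with `0 < b - a < n π` and
  `0 < H.f b - G.f a < n π` there is such an `F`.
  `n = 1`: `exists_lin` gives a linear `L` with `L.ev a = G.ev a`, `L.ev b = H.ev b` (`G.r a > 0`,
  `H.r b > 0`); glue `G` and `L` at `a` (`exists_glue`), and the result with `H` at `b`.
  `n + 1` (`n ≥ 1`): let `t = a + (b - a)/(n+1)`, `t' = G.f a + (H.f b - G.f a)/(n+1)` and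
  `K = rot (t' - t)`, `K.f t = t'`.  The case `n = 1` for `(G, K, a, t)` gives `F1` (equal to `G`
  on `(-∞,a]` and to `K` on `[t,∞)`, so `F1.f t = t'`), the case `n` for `(F1, H, t, b)` gives `F`.
  Finally choose `n` large (`exists_nat_gt`).
* `exists_sup`: `exists_ext 1 G` on `c < a` (`c < G.f a`), then `exists_ext F1 1` on `b < d`
  (`F1.f b = G.f b < d`).
-/

set_option autoImplicit false

namespace C715
namespace Ang

open XX

private theorem ext_one (G H : XX) {a b : ℝ} (hab : a < b) (hb : b < a + Real.pi)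
    (h : G.f a < H.f b) (h' : H.f b < G.f a + Real.pi) :
    ∃ F : XX, (∀ s, s ≤ a → F.ev s = G.ev s) ∧ ∀ s, b ≤ s → F.ev s = H.ev s := by
  obtain ⟨L, -, h1, h2⟩ := exists_lin hab hb h h' (G.pos a) (H.pos b)
  obtain ⟨H1, h3, h4⟩ := exists_glue G L a h1.symm
  obtain ⟨F, h5, h6⟩ := exists_glue H1 H b ((h4 b hab.le).trans h2)
  exact ⟨F, fun s hs => (h5 s (hs.trans hab.le)).trans (h3 s hs), h6⟩

private theorem ext_n (n : ℕ) : ∀ (G H : XX) {a b : ℝ}, a < b → b - a < (n + 1) * Real.pi →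
    G.f a < H.f b → H.f b - G.f a < (n + 1) * Real.pi →
    ∃ F : XX, (∀ s, s ≤ a → F.ev s = G.ev s) ∧ ∀ s, b ≤ s → F.ev s = H.ev s := by
  induction n with
  | zero =>
    intro G H a b hab hb h h'
    simp only [Nat.cast_zero, zero_add, one_mul] at hb h'
    exact ext_one G H hab (by linarith) h (by linarith)
  | succ n ih =>
    intro G H a b hab hb h h'
    have hn : (0 : ℝ) < n + 2 := by positivity
    push_cast at hb h'
    have hb' : (b - a) / (n + 2) < Real.pi := by
      rw [div_lt_iff₀ hn]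
      linarith
    have h'' : (H.f b - G.f a) / (n + 2) < Real.pi := by
      rw [div_lt_iff₀ hn]
      linarith
    have p1 : 0 < (b - a) / (n + 2) := div_pos (by linarith) hn
    have p2 : 0 < (H.f b - G.f a) / (n + 2) := div_pos (by linarith) hn
    have e1 : (b - a) / (n + 2) * (n + 2) = b - a := by field_simp
    have e2 : (H.f b - G.f a) / (n + 2) * (n + 2) = H.f b - G.f a := by field_simp
    set u := (b - a) / (n + 2) with hu
    set v := (H.f b - G.f a) / (n + 2) with hv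
    have hn0 : (0 : ℝ) ≤ n := Nat.cast_nonneg n
    let K := rot ((G.f a + v) - (a + u))
    have hK : K.f (a + u) = G.f a + v := by
      rw [rot_f]
      ring
    obtain ⟨F1, h1, h2⟩ := ext_one G K (a := a) (b := a + u) (by linarith) (by linarith)
      (by rw [hK]; linarith) (by rw [hK]; linarith)
    have h3 : F1.f (a + u) = G.f a + v := by
      rw [← hK]
      exact (ev_eq_iff.1 (h2 _ le_rfl)).1
    obtain ⟨F, h4, h5⟩ := ih F1 H (a := a + u) (b := b) (by nlinarith) (by nlinarith)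
      (by rw [h3]; nlinarith) (by rw [h3]; nlinarith)
    exact ⟨F, fun s hs => (h4 s (by linarith)).trans (h1 s hs), h5⟩

theorem exists_ext (G H : XX) {a b : ℝ} (hab : a < b) (h : G.f a < H.f b) :
    ∃ F : XX, (∀ s, s ≤ a → F.ev s = G.ev s) ∧ ∀ s, b ≤ s → F.ev s = H.ev s := by
  obtain ⟨n, hn⟩ := exists_nat_gt (max (b - a) (H.f b - G.f a) / Real.pi)
  rw [div_lt_iff₀ Real.pi_pos] at hn
  have h1 := le_max_left (b - a) (H.f b - G.f a)
  have h2 := le_max_right (b - a) (H.f b - G.f a)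
  have h3 := Real.pi_pos
  exact ext_n n G H hab (by nlinarith) h (by nlinarith)

theorem exists_sup (G : XX) {a b c d : ℝ} (hca : c < a) (hab : a ≤ b) (hbd : b < d)
    (h1 : c < G.f a) (h2 : G.f b < d) :
    ∃ F : XX, (∀ s, s ≤ c → F.ev s = (s, 1)) ∧ (∀ s, d ≤ s → F.ev s = (s, 1)) ∧
      ∀ s, a ≤ s → s ≤ b → F.ev s = G.ev s := by
  obtain ⟨F1, h3, h4⟩ := exists_ext 1 G hca (by rw [one_f]; exact h1)
  have h5 : F1.f b = G.f b := (ev_eq_iff.1 (h4 b hab)).1
  obtain ⟨F, h6, h7⟩ := exists_ext F1 1 hbd (by rw [one_f, h5]; exact h2)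
  refine ⟨F, fun s hs => ?_, fun s hs => ?_, fun s hs hs' => ?_⟩
  · rw [h6 s (by linarith), h3 s hs, one_ev]
  · rw [h7 s hs, one_ev]
  · rw [h6 s hs', h4 s hs]

end Ang
end C715
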