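import Pool.Agent.Work.MP_c71557_gt.A.DefsB
import Pool.Agent.Work.MP_c71557_gt.A.Ext
import Pool.Agent.Work.MP_c71557_gt.H.RelAct

set_option autoImplicit false
set_option linter.unusedVariables false

/-!
# MP_c71557_gt, block A: further definitions (posets of short intervals, cells with a
neighbourhood, comparison maps of relative complexes, functors `KS → T2`, products with `ℤ`)
-/

noncomputable section

namespace C715

open CategoryTheory

namespace ActCat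

variable {Γ Γ' : Type} [Group Γ] [Group Γ']

/-- fibre elements become identities under `R` -/
theorem fibIncl_const' (A : ActCat Γ) (N' : A.Ob → Subgroup Γ)
    (h1 : ∀ {a n}, n ∈ N' a → A.Adm a n a) (hle : ∀ a, A.N a ≤ N' a) (a0 : A.Ob) {D : Type}
    [SmallCategory D] (R : A.Obj ⥤ D)
    (hR : ∀ (n : Γ) (hn : n ∈ N' a0), R.map (A.hom n (h1 hn)) = 𝟙 (R.obj ⟨a0⟩)) (n : ℕ)
    (σ : Sx (A.fib N' h1 hle a0).Obj n) :
    (σ.push (A.fibIncl N' h1 hle a0)).push R = (σ.push (toPt _)).push (ptF (R.obj ⟨a0⟩)) := by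
  refine Sx.ext rfl (heq_of_eq ?_)
  funext i j h
  obtain ⟨g, hg, e⟩ := hom_surj (σ.m i j h)
  change R.map ((A.fibIncl N' h1 hle a0).map (σ.m i j h)) = 𝟙 (R.obj ⟨a0⟩)
  rw [e]
  exact hR g hg

/-! ## products with `ℤ` -/

/-- `A × ℤ` -/
def pz (A : ActCat Γ) : ActCat (Γ × Multiplicative ℤ) where
  Ob := A.Ob
  Adm a g b := A.Adm a g.1 b
  N a := (A.N a).prod ⊥
  one a := A.one a
  mul h h' := A.mul h h'
  nAdm h := A.nAdm h.1
  conj {a b g n} h hn := by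
    refine ⟨A.conj h hn.1, ?_⟩
    have h2 : n.2 = 1 := hn.2
    change g.2⁻¹ * n.2 * g.2 ∈ (⊥ : Subgroup (Multiplicative ℤ))
    rw [h2, mul_one, inv_mul_cancel]
    exact Subgroup.one_mem _

/-- the generator -/
def tz : Multiplicative ℤ := Multiplicative.ofAdd 1

/-- `A → A × ℤ` -/
def pzIncl (A : ActCat Γ) : A.Obj ⥤ A.pz.Obj :=
  functor (A := A) (A' := A.pz) (fun a => a) (MonoidHom.inl Γ (Multiplicative ℤ)) (fun h => h)
    (fun h => ⟨h, rfl⟩)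

/-- the automorphism `(1, t)` of the inclusion -/
def pzT (A : ActCat Γ) : A.pzIncl ⟶ A.pzIncl where
  app x := A.pz.hom (a := x.o) (b := x.o) (1, tz) (A.one x.o)
  naturality x y u := by
    induction u using ActCat.ind with
    | h g hg =>
      refine cl_eq.2 ?_
      have h : (((1 : Γ), tz) * (MonoidHom.inl Γ (Multiplicative ℤ)) g)⁻¹ *
          ((MonoidHom.inl Γ (Multiplicative ℤ)) g * ((1 : Γ), tz)) = 1 := by
        refine Prod.ext ?_ ?_
        · change (1 * g)⁻¹ * (g * 1) = 1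
          rw [one_mul, mul_one, inv_mul_cancel]
        · change (tz * 1)⁻¹ * (1 * tz) = 1
          rw [one_mul, mul_one, inv_mul_cancel]
      rw [h]
      exact Subgroup.one_mem _

/-- multiplication with the generator of `H_1(ℤ)` -/
def pzNt (A : ActCat Γ) (n : ℕ) : HC A.Obj n →ₗ[ℚ] HC A.pz.Obj (n + 1) :=
  nt A.pzT (𝟙 A.pzIncl) n

/-- the product of a functor with `ℤ` -/
def pzMap {A : ActCat Γ} {A' : ActCat Γ'} (f : A.Ob → A'.Ob) (φ : Γ →* Γ')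
    (hAdm : ∀ {a b : A.Ob} {g : Γ}, A.Adm a g b → A'.Adm (f a) (φ g) (f b))
    (hN : ∀ {a : A.Ob} {n : Γ}, n ∈ A.N a → φ n ∈ A'.N (f a)) : A.pz.Obj ⥤ A'.pz.Obj :=
  functor (A := A.pz) (A' := A'.pz) f (φ.prodMap (MonoidHom.id _)) (fun h => hAdm h)
    (fun h => ⟨hN h.1, h.2⟩)

end ActCat

/-- connected categories -/
def Conn (C : Type) [SmallCategory C] : Prop :=
  ∀ a b : C, Relation.EqvGen (fun x y => Nonempty (x ⟶ y)) a b

namespace Ang

open XX ActCat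

/-- short subcells of `[c,d]`, ordered by inclusion; nondegenerate if `k` -/
@[ext] structure Pc (k : Prop) (c d : ℝ) where
  lo : ℝ
  hi : ℝ
  le : lo ≤ hi
  nd : k → lo < hi
  sh : hi < lo + 2 * Real.pi
  hc : c ≤ lo
  hd : hi ≤ d

instance (k : Prop) (c d : ℝ) : Preorder (Pc k c d) where
  le a b := b.lo ≤ a.lo ∧ a.hi ≤ b.hi
  le_refl a := ⟨le_rfl, le_rfl⟩
  le_trans a b c h h' := ⟨h'.1.trans h.1, h.2.trans h'.2⟩

/-- cells satisfying `P`, together with a cell which is a neighbourhood; germs near the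
neighbourhood -/
def Wc (P : Cell → Prop) : ActCat XX where
  Ob := {p : Cell × Cell // P p.1 ∧ p.2.lo < p.1.lo ∧ p.1.hi < p.2.hi}
  Adm p F q := Into p.1.1 F q.1.1 ∧ Into p.1.2 F q.1.2
  N p := nb p.1.2.lo p.1.2.hi
  one p := ⟨Into.one _, Into.one _⟩
  mul h h' := ⟨h.1.mul h'.1, h.2.mul h'.2⟩
  nAdm {p n} h := by
    refine ⟨Into.of_nb ?_, Into.of_nb h⟩
    obtain ⟨e, he, h⟩ := h
    exact ⟨e, he, fun s h1 h2 => h s (by linarith [p.2.2.1]) (by linarith [p.2.2.2])⟩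
  conj h hn := h.2.conj hn

theorem Wc_nb {P : Cell → Prop} (p : (Wc P).Ob) {n : XX} (h : n ∈ (Wc P).N p) :
    n ∈ nb p.1.1.lo p.1.1.hi := by
  obtain ⟨e, he, h⟩ := h
  exact ⟨e, he, fun s h1 h2 => h s (by linarith [p.2.2.1]) (by linarith [p.2.2.2])⟩

/-- the cell -/
def Wc1 : (Wc fun _ => True).Obj ⥤ CC.Obj :=
  idFun (A := Wc fun _ => True) (A' := CC) (fun p => p.1.1) (fun h => h.1) (fun h => Wc_nb _ h)

/-- the cell, nondegenerate case -/
def Wc1n : (Wc Nd).Obj ⥤ CCn.Obj :=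
  idFun (A := Wc Nd) (A' := CCn) (fun p => ⟨p.1.1, p.2.1⟩) (fun h => h.1) (fun h => Wc_nb _ h)

/-- the neighbourhood -/
def Wc2 (P : Cell → Prop) : (Wc P).Obj ⥤ CCn.Obj :=
  idFun (A := Wc P) (A' := CCn)
    (fun p => ⟨p.1.2, by
      have h1 := p.2.2.1
      have h2 := p.2.2.2
      have h3 := p.1.1.le
      change p.1.2.lo < p.1.2.hi
      linarith⟩) (fun h => h.2) (fun h => h)

/-- inclusion -/
def WcI : (Wc Nd).Obj ⥤ (Wc fun _ => True).Obj :=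
  idFun (A := Wc Nd) (A' := Wc fun _ => True) (fun p => ⟨p.1, trivial, p.2.2⟩) (fun h => h)
    (fun h => h)

/-- `T1 → AAn` -/
def T1n : T1.Obj ⥤ AAn.Obj :=
  idFun (A := T1) (A' := AAn) (fun a => ⟨a.1, a.2.1⟩) (fun h => h) (fun h => h)

/-- `AAn → Ft` -/
def pAn : AAn.Obj ⥤ (ActCat.sg (⊤ : Subgroup ↥Ft)).Obj :=
  idFun (A := AAn) (A' := ActCat.sg (⊤ : Subgroup ↥Ft)) (fun _ => ()) (fun _ => trivial)
    (fun h => h)

/-- `T2 → T3` -/
def T23 : T2.Obj ⥤ T3.Obj :=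
  idFun (A := T2) (A' := T3) (fun a => ⟨a.1.hi, a.2.1.trans a.2.2⟩) (fun h => ⟨h.1, h.2.2⟩)
    (fun h => h)

/-! ## the fibres -/

/-- fibre of `T1` at `[7,8]` -/
abbrev F1 : ActCat ↥Ft := T1.fib N1 N1_adm N1_le o1

/-- fibre of `T2` at `[7,8]` -/
abbrev F2 : ActCat XX := T2.fib N2 N2_adm N2_le o2

/-- `KS → F1` -/
def kS : (sg KS).Obj ⥤ F1.Obj :=
  sgToGrp KS (N1 o1) (T1.N o1) (N1_le o1) (fun g hg n hn => T1.conj (N1_adm hg) hn) le_rfl

theorem R1_fib (n : ↥Ft) (hn : n ∈ N1 o1) :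
    R1.map (T1.hom n (N1_adm hn)) = 𝟙 (R1.obj ⟨o1⟩) := by
  refine cl_eq.2 ?_
  change (n : XX)⁻¹ * 1 ∈ nb 7 8
  rw [mul_one]
  exact (nb 7 8).inv_mem hn

theorem R2_fib (n : XX) (hn : n ∈ N2 o2) :
    R2.map (T2.hom n (N2_adm hn)) = 𝟙 (R2.obj ⟨o2⟩) := by
  refine cl_eq.2 ?_
  change n⁻¹ * 1 ∈ nb 7 8
  rw [mul_one]
  exact (nb 7 8).inv_mem hn.2

/-- `C_*(T1)/C_*(F1) → C_*(CC)/C_*(pt)` -/
def kap1 : Cx.Hom (relC (T1.fibIncl N1 N1_adm N1_le o1)) (relC (ptF (⟨a0⟩ : CC.Obj))) :=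
  relMap (T1.fibIncl N1 N1_adm N1_le o1) (ptF (⟨a0⟩ : CC.Obj)) R1 (toPt _)
    (fibIncl_const' T1 N1 N1_adm N1_le o1 R1 R1_fib)

/-- `C_*(T2)/C_*(F2) → C_*(CC)/C_*(pt)` -/
def kap2 : Cx.Hom (relC (T2.fibIncl N2 N2_adm N2_le o2)) (relC (ptF (⟨a0⟩ : CC.Obj))) :=
  relMap (T2.fibIncl N2 N2_adm N2_le o2) (ptF (⟨a0⟩ : CC.Obj)) R2 (toPt _)
    (fibIncl_const' T2 N2 N2_adm N2_le o2 R2 R2_fib)

/-! ## functors `KS → T2` -/

/-- an element which is the identity near `(-∞,0]` and `tau⁻¹` near `[7,8]` -/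
theorem exists_gT : ∃ g ∈ nbL 0, ∃ e : ℝ, 0 < e ∧
    ∀ s, 7 - e ≤ s → s ≤ 8 + e → g.ev s = (s - 2 * Real.pi, 1) := by
  have hπ := pi_b
  obtain ⟨g, h1, h2, h3⟩ := exists_sup (tau⁻¹) (a := 7 - 0.1) (b := 8 + 0.1) (c := 0.1) (d := 9)
    (by norm_num) (by norm_num) (by norm_num) (by rw [tauInv_f]; linarith)
    (by rw [tauInv_f]; linarith)
  refine ⟨g, ⟨0.1, by norm_num, fun s hs => h1 s (by linarith)⟩, 0.1, by norm_num,
    fun s hs hs' => ?_⟩
  rw [h3 s hs hs', tauInv_ev]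

/-- such an element -/
def gT : XX := exists_gT.choose

theorem gT_nbL : gT ∈ nbL 0 := exists_gT.choose_spec.1

theorem gT_ev : ∃ e : ℝ, 0 < e ∧
    ∀ s, 7 - e ≤ s → s ≤ 8 + e → gT.ev s = (s - 2 * Real.pi, 1) := exists_gT.choose_spec.2

theorem gT_adm : T2.Adm o2 gT o2b := by
  obtain ⟨e, he, h⟩ := gT_ev
  have hπ := pi_b
  refine ⟨gT_nbL, ?_, ?_⟩
  · change 7 - 2 * Real.pi ≤ gT.f 7
    exact (congrArg Prod.fst (h 7 (by linarith) (by linarith))).ge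
  · change gT.f 8 ≤ 8
    have h2 : gT.f 8 = 8 - 2 * Real.pi := congrArg Prod.fst (h 8 (by linarith) (by linarith))
    rw [h2]
    linarith

theorem one_admT : T2.Adm o2 1 o2b := by
  refine ⟨(nbL 0).one_mem, ?_, le_rfl⟩
  change 7 - 2 * Real.pi ≤ (7 : ℝ)
  linarith [pi_b.1]

/-- `k ↦ gT⁻¹ (cutS k) gT` -/
def cG : ↥KS →* XX where
  toFun k := gT⁻¹ * cutS k * gT
  map_one' := by
    rw [map_one]
    group
  map_mul' k l := by
    rw [map_mul]
    group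

/-- the conjugates are trivial in `T2` -/
theorem cG_N (k : ↥KS) : cG k ∈ T2.N o2 := by
  obtain ⟨e, he, h⟩ := gT_ev
  obtain ⟨d, hd, h1, h2, h3⟩ := cutS_spec k
  refine ⟨min e d, lt_min he hd, fun s hs => ?_⟩
  change (gT⁻¹ * cutS k * gT).ev s = (s, 1)
  rw [mul_assoc, inv_mul_ev]
  symm
  refine mul_ev_left (h1 _ ?_)
  have m := min_le_left e d
  have m' := min_le_right e d
  have hs' : s ≤ 8 + min e d := hs
  have h4 : gT.f (8 + min e d) = 8 + min e d - 2 * Real.pi :=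
    congrArg Prod.fst (h _ (by linarith [lt_min he hd]) (by linarith))
  have h5 : gT.f s ≤ gT.f (8 + min e d) := gT.f.monotone hs'
  linarith

theorem cG_adm (k : ↥KS) : T2.Adm o2 (cG k) o2 := T2.nAdm (cG_N k)

/-- `KS → T2` at `[7,8]` -/
def PsA : (sg KS).Obj ⥤ T2.Obj := sgFun KS T2 o2 cutS cutS_adm

/-- `KS → T2` at `[7 - 2π, 8]` -/
def PsB : (sg KS).Obj ⥤ T2.Obj := sgFun KS T2 o2b cutS cutS_admb

/-- the conjugate functor at `[7,8]`, which is constant -/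
def PsG : (sg KS).Obj ⥤ T2.Obj := sgFun KS T2 o2 cG cG_adm

/-- the natural transformation `gT` -/
def tT : PsG ⟶ PsB := sgNat cG_adm cutS_admb gT gT_adm (fun k => by
  have h : (gT * cG k)⁻¹ * (cutS k * gT) = 1 := by
    rw [inv_mul_eq_one]
    change gT * (gT⁻¹ * cutS k * gT) = cutS k * gT
    group
  rw [h]
  exact Subgroup.one_mem _)

/-- the natural transformation `1` -/
def iT : PsA ⟶ PsB := sgNat cutS_adm cutS_admb 1 one_admT (fun k => by
  have h : (1 * cutS k)⁻¹ * (cutS k * 1) = 1 := by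
    rw [one_mul, mul_one, inv_mul_cancel]
  rw [h]
  exact Subgroup.one_mem _)

/-! ## `Ft × ℤ` -/

/-- `(F, k) ↦ (F tau^{-k}, k)` -/
def mZi : (↥Ft × Multiplicative ℤ) →* (↥Ft × Multiplicative ℤ) where
  toFun g := (g.1 * tI ^ (Multiplicative.toAdd g.2), g.2)
  map_one' := by
    refine Prod.ext ?_ rfl
    change (1 : ↥Ft) * tI ^ (0 : ℤ) = 1
    rw [zpow_zero, mul_one]
  map_mul' g h := by
    refine Prod.ext ?_ rfl
    have hc : tI ^ (Multiplicative.toAdd g.2) * h.1 = h.1 * tI ^ (Multiplicative.toAdd g.2) :=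
      (Commute.zpow_left (tI_comm h.1) _ : Commute (tI ^ (Multiplicative.toAdd g.2)) h.1)
    change (g.1 * h.1) * tI ^ (Multiplicative.toAdd g.2 + Multiplicative.toAdd h.2) =
      (g.1 * tI ^ (Multiplicative.toAdd g.2)) * (h.1 * tI ^ (Multiplicative.toAdd h.2))
    rw [zpow_add, mul_assoc, mul_assoc, ← mul_assoc h.1 _ _, ← hc, mul_assoc]

theorem mZ_mZi (g : ↥Ft × Multiplicative ℤ) : mZ (mZi g) = ((g.1 : XX), g.2) := by
  refine Prod.ext ?_ rfl
  change ((g.1 * tI ^ (Multiplicative.toAdd g.2) : ↥Ft) : XX) * tau ^ (Multiplicative.toAdd g.2) =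
    (g.1 : XX)
  have h1 : ((g.1 * tI ^ (Multiplicative.toAdd g.2) : ↥Ft) : XX) =
      (g.1 : XX) * (tau⁻¹) ^ (Multiplicative.toAdd g.2) := rfl
  rw [h1, inv_zpow, inv_mul_cancel_right]

/-- `AA × ℤ → Ac` -/
def Th : AA.pz.Obj ⥤ Ac.Obj :=
  functor (A := AA.pz) (A' := Ac) (fun a => a) mZi (fun {a b g} h => by
    change Into a (mZ (mZi g)).1 b
    rw [mZ_mZi]
    exact h) (fun {a n} h => by
    have h1 : n = 1 := by
      have h2 : n.1 = 1 := h.1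
      have h3 : n.2 = 1 := h.2
      exact Prod.ext h2 h3
    rw [h1, map_one]
    exact Subgroup.one_mem _)

/-- `RA × ℤ` -/
def RAz : AA.pz.Obj ⥤ CC.pz.Obj :=
  pzMap (A := AA) (A' := CC) (fun a => a) Ft.subtype (fun h => h) (fun {a n} h => by
    have h' : n ∈ (⊥ : Subgroup ↥Ft) := h
    rw [Subgroup.mem_bot] at h'
    rw [h', map_one]
    exact Subgroup.one_mem _)

/-- the automorphism `tau⁻¹` of `AA → Ft` -/
def tP : pA ⟶ pA where
  app x := (ActCat.sg (⊤ : Subgroup ↥Ft)).hom (a := ()) (b := ()) tI trivial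
  naturality x y u := by
    induction u using ActCat.ind with
    | h g hg =>
      refine cl_eq.2 ?_
      have h : (tI * g)⁻¹ * (g * tI) = 1 := by
        rw [inv_mul_eq_one]
        exact tI_comm _
      exact (Subgroup.mem_bot.2 h)

end Ang
end C715
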