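import Pool.Agent.Work.MP_c71557_gt.A.DefsC

set_option autoImplicit false
set_option linter.unusedVariables false

/-!
# MP_c71557_gt, block A: the infinite cyclic covering of `A × ℤ`
-/

noncomputable section

namespace C715

open CategoryTheory

namespace ActCat

variable {Γ Γ' : Type} [Group Γ] [Group Γ']

/-- the infinite cyclic covering of `A × ℤ` -/
def pzE (A : ActCat Γ) : ActCat (Γ × Multiplicative ℤ) where
  Ob := A.Ob × ℤ
  Adm p g q := A.Adm p.1 g.1 q.1 ∧ q.2 = p.2 + Multiplicative.toAdd g.2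
  N p := (A.N p.1).prod ⊥
  one p := ⟨A.one p.1, (add_zero _).symm⟩
  mul {p q r g h} hg hh := ⟨A.mul hg.1 hh.1, by
    have h1 : Multiplicative.toAdd (h * g).2 =
      Multiplicative.toAdd h.2 + Multiplicative.toAdd g.2 := rfl
    rw [hh.2, hg.2, h1]
    ring⟩
  nAdm {p n} h := ⟨A.nAdm h.1, by
    have h2 : n.2 = 1 := h.2
    rw [h2]
    exact (add_zero _).symm⟩
  conj {a b g n} h hn := by
    refine ⟨A.conj h.1 hn.1, ?_⟩
    have h2 : n.2 = 1 := hn.2
    change g.2⁻¹ * n.2 * g.2 ∈ (⊥ : Subgroup (Multiplicative ℤ))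
    rw [h2, mul_one, inv_mul_cancel]
    exact Subgroup.one_mem _

/-- the covering projection -/
def pzPi (A : ActCat Γ) : A.pzE.Obj ⥤ A.pz.Obj :=
  idFun (A := A.pzE) (A' := A.pz) (fun p => p.1) (fun h => h.1) (fun h => h)

/-- the covering transformation -/
def pzS (A : ActCat Γ) : A.pzE.Obj ⥤ A.pzE.Obj :=
  idFun (A := A.pzE) (A' := A.pzE) (fun p => (p.1, p.2 + 1)) (fun {p q g} h => ⟨h.1, by
    change q.2 + 1 = p.2 + 1 + _
    rw [h.2]
    ring⟩) (fun h => h)

/-- `A → ` the covering -/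
def pzI (A : ActCat Γ) : A.Obj ⥤ A.pzE.Obj :=
  functor (A := A) (A' := A.pzE) (fun a => (a, 0)) (MonoidHom.inl Γ (Multiplicative ℤ))
    (fun h => ⟨h, rfl⟩) (fun h => ⟨h, rfl⟩)

/-- the transformation `(1, t) : 𝟭 → pzS` -/
def pzU (A : ActCat Γ) : 𝟭 A.pzE.Obj ⟶ A.pzS where
  app x := A.pzE.hom (a := x.o) (b := (x.o.1, x.o.2 + 1)) (1, tz) ⟨A.one x.o.1, rfl⟩
  naturality x y u := by
    induction u using ActCat.ind with
    | h g hg =>
      refine cl_eq.2 ?_
      have h : (((1 : Γ), tz) * g)⁻¹ * (g * ((1 : Γ), tz)) = 1 := by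
        refine Prod.ext ?_ ?_
        · change (1 * g.1)⁻¹ * (g.1 * 1) = 1
          rw [one_mul, mul_one, inv_mul_cancel]
        · change (tz * g.2)⁻¹ * (g.2 * tz) = 1
          rw [mul_comm tz, inv_mul_cancel]
      change (((1 : Γ), tz) * g)⁻¹ * (g * ((1 : Γ), tz)) ∈ A.pzE.N x.o
      rw [h]
      exact Subgroup.one_mem _

theorem pzI_pi (A : ActCat Γ) : A.pzI ⋙ A.pzPi = A.pzIncl := by
  refine CategoryTheory.Functor.ext (fun _ => rfl) (fun x y u => ?_)
  induction u using ActCat.ind with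
  | h g hg =>
    refine Eq.trans ?_ (Category.id_comp _).symm
    exact (Category.comp_id _).symm

/-- `1 - pzS` on chains -/
def pzD (A : ActCat Γ) : Cx.Hom (NC A.pzE.Obj) (NC A.pzE.Obj) where
  f n := LinearMap.id - (NCmap A.pzS).f n
  comm n x := by
    rw [LinearMap.sub_apply, LinearMap.sub_apply, LinearMap.id_apply, LinearMap.id_apply, map_sub,
      (NCmap A.pzS).comm]

end ActCat

end C715
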