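import Pool.Agent.Work.MP_c71557_gt.A.Pts
import Pool.Agent.Work.MP_c71557_gt.A.ActFF
import Pool.Agent.Work.MP_c71557_gt.A.Per

set_option autoImplicit false
set_option linter.unusedVariables false

/-!
# MP_c71557_gt, module A/EqB: the bases `B1`, `B2` have the homology of `CC` (M)

* `Q1n : B1 → CCn`, `Q2n : B2 → CCn` are equivalences by `hiso_functor` (A/ActFF):
  - `Q1n` full: `a, b` short nondegenerate, `G ∈ XX`, `Into a G b`.  `exists_Ft G` (A/Per) on
    `[a.lo, a.hi]`: `a.hi < a.lo + 2π`, `G a.hi ≤ b.hi < b.lo + 2π ≤ G a.lo + 2π`; get `P ∈ Ft` equal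
    to `G` on `[a.lo - e, a.hi + e]`; so `Into a P b` and `P⁻¹ G ∈ nb a.lo a.hi` (`inv_mul_ev`).
    Faithful: by definition `N1 a` is the preimage of `nb`.  Essentially surjective: for a
    nondegenerate cell `b = [x,y]` take `a = [x, x+1]` and `G` with `G x = x`, `G (x+1) = y`:
    `exists_ext 1 (rot (y - (x+1)))` (A/Ext) on `x < x+1`.
  - `Q2n` full: `0 < a.lo < a.hi`, `G ∈ XX`, `Into a G b`, `0 < b.lo ≤ G a.lo`.  Let `δ > 0` be small
    (`δ < a.lo - δ`, `δ < G (a.lo - δ)`, continuity: e.g. `δ ≤ a.lo / 3` and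
    `δ ≤ (a.lo - G.f.symm (G a.lo / 2)) `, `δ < G a.lo / 2`).  `exists_sup G` (A/Ext) with
    `[a.lo - δ, a.hi + δ]`, `c = δ`, `d` large: `F = G` near `a`, `F = 1` on `(-∞, δ]`, so
    `F ∈ nbL 0`, `Into a F b`, `F⁻¹ G ∈ nb a`.  Faithful: `n ∈ nbL 0`, `n ∈ nb a` gives `n ∈ N2 a`
    (`nbL 0` is a subgroup).  Essentially surjective: `b = [x,y]`: `a = [1, 1 + (y-x)]`,
    `G = rot (x - 1)`.
* `Q1 = Q1n ⋙ CC.restrIncl Nd`, `Q2 = Q2n ⋙ CC.restrIncl Nd` (functor extensionality, arrows by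
  `ActCat.ind`); `HIso.comp` and `hiso_Nd` (A/Pts).
-/

noncomputable section

namespace C715

open CategoryTheory

namespace Ang

open XX ActCat

/-- `B1 → CCn` -/
def Q1n : B1.Obj ⥤ CCn.Obj :=
  ActCat.functor (A := B1) (A' := CCn) (fun a => ⟨a.1, a.2.1⟩) Ft.subtype (fun h => h) (fun h => h)

/-- `B2 → CCn` -/
def Q2n : B2.Obj ⥤ CCn.Obj :=
  ActCat.functor (A := B2) (A' := CCn) (fun a => ⟨a.1, a.2.2⟩) (MonoidHom.id XX) (fun h => h.2)
    (fun h => h.2)

theorem hiso_Q1n : HIso Q1n := by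
  refine hiso_functor (A := B1) (A' := CCn) (fun a => ⟨a.1, a.2.1⟩) Ft.subtype (fun h => h)
    (fun h => h) ?_ ?_ ?_
  · intro a b g' h
    have h1 : b.1.lo ≤ g'.f a.1.lo := h.1
    have h2 : g'.f a.1.hi ≤ b.1.hi := h.2
    have ha1 : a.1.hi < a.1.lo + 2 * Real.pi := a.2.2
    have hb1 : b.1.hi < b.1.lo + 2 * Real.pi := b.2.2
    obtain ⟨P, hP, e, he, hPe⟩ := exists_Ft g' a.1.le ha1 (by linarith)
    refine ⟨⟨P, hP⟩, ⟨?_, ?_⟩, e, he, fun s hs hs' => ?_⟩
    · change b.1.lo ≤ P.f a.1.lo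
      rw [(ev_eq_iff.1 (hPe a.1.lo (by linarith) (by linarith [a.1.le]))).1]
      exact h1
    · change P.f a.1.hi ≤ b.1.hi
      rw [(ev_eq_iff.1 (hPe a.1.hi (by linarith [a.1.le]) (by linarith))).1]
      exact h2
    · change (P⁻¹ * g').ev s = (s, 1)
      rw [inv_mul_ev]
      exact hPe s hs hs'
  · intro a b g g' _ _ h
    exact h
  · intro b'
    obtain ⟨⟨x, y, hxy⟩, hb⟩ := b'
    have hb' : x < y := hb
    obtain ⟨G, hG1, hG2⟩ := exists_ext 1 (rot (y - (x + 1))) (a := x) (b := x + 1) (by linarith) (by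
      rw [one_f, rot_f]
      linarith)
    have e1 : G.f x = x := congrArg Prod.fst (hG1 x le_rfl)
    have e2 : G.f (x + 1) = y := by
      have h3 : G.f (x + 1) = x + 1 + (y - (x + 1)) := congrArg Prod.fst (hG2 (x + 1) le_rfl)
      rw [h3]
      ring
    have hpi := pi_b.1
    refine ⟨⟨⟨x, x + 1, by linarith⟩, ?_, ?_⟩, G, ⟨?_, ?_⟩, ⟨?_, ?_⟩⟩
    · change x < x + 1
      linarith
    · change x + 1 < x + 2 * Real.pi
      linarith
    · change x ≤ G.f x
      rw [e1]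
    · change G.f (x + 1) ≤ y
      rw [e2]
    · change x ≤ (G⁻¹).f x
      rw [inv_f]
      nth_rewrite 2 [← e1]
      rw [G.f.symm_apply_apply]
    · change (G⁻¹).f y ≤ x + 1
      rw [inv_f, ← e2, G.f.symm_apply_apply]

theorem hiso_Q2n : HIso Q2n := by
  refine hiso_functor (A := B2) (A' := CCn) (fun a => ⟨a.1, a.2.2⟩) (MonoidHom.id XX)
    (fun h => h.2) (fun h => h.2) ?_ ?_ ?_
  · intro a b G h
    have h1 : b.1.lo ≤ G.f a.1.lo := h.1
    have h2 : G.f a.1.hi ≤ b.1.hi := h.2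
    have ha0 : 0 < a.1.lo := a.2.1
    have hb0 : 0 < b.1.lo := b.2.1
    have hG0 : 0 < G.f a.1.lo := hb0.trans_le h1
    have h3 : 0 < a.1.lo - G.f.symm (G.f a.1.lo / 2) := by
      rw [sub_pos, G.f.symm_apply_lt]
      linarith
    obtain ⟨d, hd0, hd1, hd2, hd3⟩ : ∃ d : ℝ, 0 < d ∧ d ≤ a.1.lo / 3 ∧ d ≤ G.f a.1.lo / 4 ∧
        d ≤ a.1.lo - G.f.symm (G.f a.1.lo / 2) := by
      refine ⟨min (a.1.lo / 3) (min (G.f a.1.lo / 4) (a.1.lo - G.f.symm (G.f a.1.lo / 2))),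
        lt_min (by linarith) (lt_min (by linarith) h3), min_le_left _ _,
        (min_le_right _ _).trans (min_le_left _ _), (min_le_right _ _).trans (min_le_right _ _)⟩
    have h4 : G.f a.1.lo / 2 ≤ G.f (a.1.lo - d) := by
      rw [← G.f.symm_apply_le]
      linarith
    obtain ⟨F, hF1, -, hF3⟩ := exists_sup G (a := a.1.lo - d) (b := a.1.hi + d) (c := d)
      (d := max (a.1.hi + d) (G.f (a.1.hi + d)) + 1) (by linarith) (by linarith [a.1.le])
      (by linarith [le_max_left (a.1.hi + d) (G.f (a.1.hi + d))]) (by linarith)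
      (by linarith [le_max_right (a.1.hi + d) (G.f (a.1.hi + d))])
    refine ⟨F, ⟨⟨d, hd0, fun s hs => hF1 s (by linarith)⟩, ?_, ?_⟩, d, hd0, fun s hs hs' => ?_⟩
    · change b.1.lo ≤ F.f a.1.lo
      rw [(ev_eq_iff.1 (hF3 a.1.lo (by linarith) (by linarith [a.1.le]))).1]
      exact h1
    · change F.f a.1.hi ≤ b.1.hi
      rw [(ev_eq_iff.1 (hF3 a.1.hi (by linarith [a.1.le]) (by linarith))).1]
      exact h2
    · change (F⁻¹ * G).ev s = (s, 1)
      rw [inv_mul_ev]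
      exact hF3 s hs hs'
  · intro a b g g' h h' hn
    exact ⟨(nbL 0).mul_mem ((nbL 0).inv_mem h.1) h'.1, hn⟩
  · intro b'
    obtain ⟨⟨x, y, hxy⟩, hb⟩ := b'
    have hb' : x < y := hb
    refine ⟨⟨⟨1, 1 + (y - x), by linarith⟩, ?_, ?_⟩, rot (x - 1), ⟨?_, ?_⟩, ⟨?_, ?_⟩⟩
    · change (0 : ℝ) < 1
      exact one_pos
    · change (1 : ℝ) < 1 + (y - x)
      linarith
    · change x ≤ (rot (x - 1)).f 1
      rw [rot_f]
      linarith
    · change (rot (x - 1)).f (1 + (y - x)) ≤ y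
      rw [rot_f]
      linarith
    · change (1 : ℝ) ≤ ((rot (x - 1))⁻¹).f x
      rw [rot_inv, rot_f]
      linarith
    · change ((rot (x - 1))⁻¹).f y ≤ 1 + (y - x)
      rw [rot_inv, rot_f]
      linarith

private theorem eqb_fun1 : Q1n ⋙ CC.restrIncl Nd = Q1 := by
  refine CategoryTheory.Functor.ext (fun _ => rfl) (fun x y u => ?_)
  induction u using ActCat.ind with
  | h g hg =>
    refine Eq.trans ?_ (Category.id_comp _).symm
    exact (Category.comp_id _).symm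

private theorem eqb_fun2 : Q2n ⋙ CC.restrIncl Nd = Q2 := by
  refine CategoryTheory.Functor.ext (fun _ => rfl) (fun x y u => ?_)
  induction u using ActCat.ind with
  | h g hg =>
    refine Eq.trans ?_ (Category.id_comp _).symm
    exact (Category.comp_id _).symm

theorem hiso_Q1 : HIso Q1 := by
  have h := hiso_Q1n.comp hiso_Nd
  exact (congrArg (fun F => HIso F) eqb_fun1).mp h

theorem hiso_Q2 : HIso Q2 := by
  have h := hiso_Q2n.comp hiso_Nd
  exact (congrArg (fun F => HIso F) eqb_fun2).mp h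

end Ang
end C715
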