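import Pool.Agent.Work.MP_c71557_gt.A.DefsC
import Pool.Agent.Work.MP_c71557_gt.A.Per
import Pool.Agent.Work.MP_c71557_gt.H.FibLoc

set_option autoImplicit false
set_option linter.unusedVariables false

/-!
# MP_c71557_gt, module A/FC1: constant fibre homology for `T1` (M)

`fibConst_move` (H/FibLoc) for `A = T1`, `N' = N1`.
* `adm1`: for short nondegenerate cells `a, b` there is `g ∈ Ft` with `g a.lo = b.lo`,
  `g a.hi = b.hi`: `G ∈ XX` with this property by `exists_ext (rot (b.lo - a.lo))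
  (rot (b.hi - a.hi))` (A/Ext) on `a.lo < a.hi`; then `exists_Ft G` (A/Per):
  `G a.hi = b.hi < b.lo + 2π = G a.lo + 2π`.
* `hmove`: `g1, g2 ∈ Ft` map `a` into `b`, `E ⊆ N1 b` finite.  There is `e > 0` such that all
  `n ∈ E` are the identity on `[b.lo - e, b.hi + e]` (minimum over a finite set), and
  `b.hi + e ≤ b.lo - e + 2π`.  Let `G = g2 g1⁻¹`, `[p,q] = [g1 (a.lo - δ), g1 (a.hi + δ)]` with `δ > 0`
  so small that `b.lo - e < p`, `q < b.hi + e`, `b.lo - e < G p = g2 (a.lo - δ)`,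
  `G q = g2 (a.hi + δ) < b.hi + e` (continuity; `b.lo ≤ g1 a.lo` etc.).
  `exists_Ft_sup G` (A/Per) with `c = b.lo - e`, `d = b.hi + e` gives `v ∈ Ft`, `v = G` on `[p,q]`,
  `v = 1` on `[d, c + 2π]`.
  - `v` commutes with `n ∈ E`: both are in `Ft`, so it is enough to compare `(v n).ev s` and
    `(n v).ev s` for `s ∈ [c, c + 2π]` (periodicity: `mem_Ft`, any real is `s + 2πk`).  On
    `[c,d]`: `n = 1` and `v [c,d] = [c,d]` (`v c = c`, `v d = d`), so both are `v.ev s`; on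
    `[d, c+2π]`: `v = 1` and `n [d,c+2π] = [d, c+2π]`: both are `n.ev s`.
  - `g2⁻¹ v g1 ∈ N1 a`: on `[a.lo - δ, a.hi + δ]`: `v (g1 s) = g2 g1⁻¹ (g1 s) = g2 s`
    (`inv_mul_ev`, `mul_ev_congr`).
-/

noncomputable section

namespace C715

open CategoryTheory

namespace Ang

open XX ActCat

private theorem unifE (lo hi e0 : ℝ) (he0 : 0 < e0) {E : Set XX} (hE : E.Finite)
    (h : E ⊆ (nb lo hi : Set XX)) : ∃ e : ℝ, 0 < e ∧ e ≤ e0 ∧ ∀ n ∈ E, ∀ s, lo - e ≤ s →
      s ≤ hi + e → n.ev s = (s, 1) := by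
  induction E, hE using Set.Finite.induction_on with
  | empty => exact ⟨e0, he0, le_rfl, fun n hn => absurd hn (Set.notMem_empty n)⟩
  | insert _ _ ih =>
    rename_i x E' _ _
    obtain ⟨e, he, hee, h1⟩ := ih fun y hy => h (Set.mem_insert_of_mem _ hy)
    obtain ⟨d, hd, h2⟩ := h (Set.mem_insert x E')
    refine ⟨min e d, lt_min he hd, (min_le_left _ _).trans hee, fun n hn s h3 h4 => ?_⟩
    have m1 := min_le_left e d
    have m2 := min_le_right e d
    rcases Set.mem_insert_iff.1 hn with rfl | hn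
    · exact h2 s (by linarith) (by linarith)
    · exact h1 n hn s (by linarith) (by linarith)

private theorem smallD (g1 g2 : XX) {x y lo hi e : ℝ} (he : 0 < e) (h1 : lo ≤ g1.f x)
    (h2 : g1.f y ≤ hi) (h3 : lo ≤ g2.f x) (h4 : g2.f y ≤ hi) :
    ∃ δ : ℝ, 0 < δ ∧ lo - e < g1.f (x - δ) ∧ g1.f (y + δ) < hi + e ∧ lo - e < g2.f (x - δ) ∧
      g2.f (y + δ) < hi + e := by
  have c1 : ∀ g : XX, Filter.Tendsto (fun δ : ℝ => g.f (x - δ)) (nhds 0) (nhds (g.f x)) := by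
    intro g
    have h : Continuous (fun δ : ℝ => g.f (x - δ)) :=
      g.continuous_f.comp (continuous_const.sub continuous_id)
    have h' := h.tendsto 0
    simp only [sub_zero] at h'
    exact h'
  have c2 : ∀ g : XX, Filter.Tendsto (fun δ : ℝ => g.f (y + δ)) (nhds 0) (nhds (g.f y)) := by
    intro g
    have h : Continuous (fun δ : ℝ => g.f (y + δ)) :=
      g.continuous_f.comp (continuous_const.add continuous_id)
    have h' := h.tendsto 0
    simp only [add_zero] at h'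
    exact h'
  have e1 := (c1 g1).eventually_const_lt (show lo - e < g1.f x by linarith)
  have e2 := (c2 g1).eventually_lt_const (show g1.f y < hi + e by linarith)
  have e3 := (c1 g2).eventually_const_lt (show lo - e < g2.f x by linarith)
  have e4 := (c2 g2).eventually_lt_const (show g2.f y < hi + e by linarith)
  have e5 := ((e1.and (e2.and (e3.and e4))).filter_mono
    (nhdsWithin_le_nhds (s := Set.Ioi (0 : ℝ)))).and self_mem_nhdsWithin
  obtain ⟨δ, ⟨a1, a2, a3, a4⟩, a5⟩ := e5.exists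
  exact ⟨δ, a5, a1, a2, a3, a4⟩

private theorem Ft_zsmul {F : XX} (hF : F ∈ Ft) (k : ℤ) (s : ℝ) :
    F.ev (s + k * (2 * Real.pi)) = (F.f s + k * (2 * Real.pi), F.r s) := by
  have h1 := mem_Ft.1 hF
  induction k using Int.induction_on with
  | zero => simp only [Int.cast_zero, zero_mul, add_zero, ev_def]
  | succ n ih =>
    push_cast at ih ⊢
    have h2 := h1 (s + n * (2 * Real.pi))
    rw [ev_def, Prod.mk_inj] at ih
    rw [ih.1, ih.2] at h2
    rw [show s + ((n : ℝ) + 1) * (2 * Real.pi) = s + n * (2 * Real.pi) + 2 * Real.pi by ring, h2]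
    exact Prod.ext (by ring) rfl
  | pred n ih =>
    push_cast at ih ⊢
    have h2 := h1 (s + (-(n : ℝ) - 1) * (2 * Real.pi))
    rw [show s + (-(n : ℝ) - 1) * (2 * Real.pi) + 2 * Real.pi = s + -n * (2 * Real.pi) by ring,
      ih, Prod.mk_inj] at h2
    exact Prod.ext (by
      change F.f _ = _
      linarith [h2.1]) h2.2.symm

private theorem Ft_ext {F G : XX} (hF : F ∈ Ft) (hG : G ∈ Ft) (c : ℝ)
    (h : ∀ s, c ≤ s → s ≤ c + 2 * Real.pi → F.ev s = G.ev s) : F = G := by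
  refine ext_ev fun s => ?_
  have hT : 0 < 2 * Real.pi := by positivity
  set k : ℤ := ⌊(s - c) / (2 * Real.pi)⌋ with hk
  have h1 : (k : ℝ) ≤ (s - c) / (2 * Real.pi) := Int.floor_le _
  have h2 : (s - c) / (2 * Real.pi) < k + 1 := Int.lt_floor_add_one _
  rw [le_div_iff₀ hT] at h1
  rw [div_lt_iff₀ hT] at h2
  have h3 := h (s - k * (2 * Real.pi)) (by linarith) (by linarith)
  have h4 := Ft_zsmul hF k (s - k * (2 * Real.pi))
  have h5 := Ft_zsmul hG k (s - k * (2 * Real.pi))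
  rw [sub_add_cancel] at h4 h5
  obtain ⟨h6, h7⟩ := ev_eq_iff.1 h3
  rw [h4, h5, h6, h7]

theorem adm1 (a b : T1.Ob) : ∃ g : ↥Ft, T1.Adm a g b ∧ T1.Adm b g⁻¹ a := by
  obtain ⟨a, ha⟩ := a
  obtain ⟨b, hb⟩ := b
  have ha1 : a.lo < a.hi := ha.1
  have ha2 : a.hi < a.lo + 2 * Real.pi := ha.2
  have hb1 : b.lo < b.hi := hb.1
  have hb2 : b.hi < b.lo + 2 * Real.pi := hb.2
  obtain ⟨G, h1, h2⟩ := exists_ext (rot (b.lo - a.lo)) (rot (b.hi - a.hi)) ha1 (by
    rw [rot_f, rot_f]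
    linarith)
  have h3 : G.f a.lo = b.lo := by
    have := (ev_eq_iff.1 (h1 a.lo le_rfl)).1
    rw [this, rot_f]
    ring
  have h4 : G.f a.hi = b.hi := by
    have := (ev_eq_iff.1 (h2 a.hi le_rfl)).1
    rw [this, rot_f]
    ring
  obtain ⟨P, hP, e, he, h5⟩ := exists_Ft G ha1.le ha2 (by rw [h3, h4]; exact hb2)
  have h6 : P.f a.lo = b.lo := by
    rw [← h3]
    exact (ev_eq_iff.1 (h5 a.lo (by linarith) (by linarith))).1
  have h7 : P.f a.hi = b.hi := by
    rw [← h4]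
    exact (ev_eq_iff.1 (h5 a.hi (by linarith) (by linarith))).1
  have h8 : (P⁻¹).f b.lo = a.lo := by rw [← h6, inv_f_f]
  have h9 : (P⁻¹).f b.hi = a.hi := by rw [← h7, inv_f_f]
  exact ⟨⟨P, hP⟩, ⟨h6.ge, h7.le⟩, ⟨h8.ge, h9.le⟩⟩

theorem fc1 : T1.FibConst N1 N1_adm N1_conj N1_le o1 := by
  refine fibConst_move T1 N1 N1_adm N1_conj N1_le o1 (fun a b => ?_) (fun a b g1 g2 hg1 hg2 E hE
    hEb => ?_)
  · obtain ⟨g, hg, -⟩ := adm1 a b
    exact ⟨g, hg⟩
  obtain ⟨a, ha⟩ := a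
  obtain ⟨b, hb⟩ := b
  have ha1 : a.lo < a.hi := ha.1
  have hb1 : b.lo < b.hi := hb.1
  have hb2 : b.hi < b.lo + 2 * Real.pi := hb.2
  obtain ⟨g1, hF1⟩ := g1
  obtain ⟨g2, hF2⟩ := g2
  have i1 : b.lo ≤ g1.f a.lo := hg1.1
  have i2 : g1.f a.hi ≤ b.hi := hg1.2
  have i3 : b.lo ≤ g2.f a.lo := hg2.1
  have i4 : g2.f a.hi ≤ b.hi := hg2.2
  obtain ⟨e, he, hee, hE1⟩ := unifE b.lo b.hi ((b.lo + 2 * Real.pi - b.hi) / 4) (by linarith)
    (hE.image Subtype.val) (by
      rintro _ ⟨n, hn, rfl⟩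
      exact hEb hn)
  obtain ⟨δ, hδ, j1, j2, j3, j4⟩ := smallD g1 g2 he i1 i2 i3 i4
  have hG : ∀ s, (g2 * g1⁻¹).f (g1.f s) = g2.f s := fun s => by rw [mul_f, inv_f_f]
  obtain ⟨v, hv, hv1, hv2⟩ := exists_Ft_sup (g2 * g1⁻¹) (a := g1.f (a.lo - δ))
    (b := g1.f (a.hi + δ)) (c := b.lo - e) (d := b.hi + e) j1 (g1.f.monotone (by linarith)) j2
    (by linarith) (by rw [hG]; exact j3) (by rw [hG]; exact j4)
  have vd : v.f (b.hi + e) = b.hi + e :=
    congrArg Prod.fst (hv2 (b.hi + e) le_rfl (by linarith))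
  have vc : v.f (b.lo - e) = b.lo - e := by
    have h1 := congrArg Prod.fst (hv2 (b.lo - e + 2 * Real.pi) (by linarith) le_rfl)
    have h2 := congrArg Prod.fst (mem_Ft.1 hv (b.lo - e))
    rw [h1] at h2
    change b.lo - e + 2 * Real.pi = v.f (b.lo - e) + 2 * Real.pi at h2
    linarith
  refine ⟨⟨v, hv⟩, fun n hn => Subtype.ext ?_, ⟨δ, hδ, fun s h1 h2 => ?_⟩⟩
  · have hn1 : ∀ s, b.lo - e ≤ s → s ≤ b.hi + e → n.1.ev s = (s, 1) :=
      hE1 n.1 (Set.mem_image_of_mem _ hn)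
    have nd : n.1.f (b.hi + e) = b.hi + e :=
      congrArg Prod.fst (hn1 (b.hi + e) (by linarith) le_rfl)
    have nc : n.1.f (b.lo - e + 2 * Real.pi) = b.lo - e + 2 * Real.pi := by
      have h1 := congrArg Prod.fst (hn1 (b.lo - e) le_rfl (by linarith))
      have h2 := congrArg Prod.fst (mem_Ft.1 n.2 (b.lo - e))
      change n.1.f (b.lo - e) = b.lo - e at h1
      change n.1.f (b.lo - e + 2 * Real.pi) = n.1.f (b.lo - e) + 2 * Real.pi at h2
      rw [h2, h1]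
    change v * n.1 = n.1 * v
    refine Ft_ext (Ft.mul_mem hv n.2) (Ft.mul_mem n.2 hv) (b.lo - e) fun s h1 h2 => ?_
    rcases le_total s (b.hi + e) with h3 | h3
    · have h4 : n.1.ev (v.f s) = (v.f s, 1) := by
        refine hn1 _ ?_ ?_
        · rw [← vc]
          exact v.f.monotone h1
        · rw [← vd]
          exact v.f.monotone h3
      rw [mul_ev_right (hn1 s h1 h3), mul_ev_left h4]
    · have h4 : v.ev (n.1.f s) = (n.1.f s, 1) := by
        refine hv2 _ ?_ ?_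
        · rw [← nd]
          exact n.1.f.monotone h3
        · rw [← nc]
          exact n.1.f.monotone h2
      rw [mul_ev_left h4, mul_ev_right (hv2 s h3 h2)]
  · change ((g2⁻¹ * v) * g1).ev s = (s, 1)
    rw [mul_assoc, inv_mul_ev]
    have h3 : v.ev (g1.f s) = (g2 * g1⁻¹).ev (g1.f s) :=
      hv1 _ (g1.f.monotone h1) (g1.f.monotone h2)
    rw [mul_ev_congr (F := v) (F' := g2 * g1⁻¹) (G := g1) (G' := g1) rfl h3, inv_mul_cancel_right]

end Ang
end C715
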