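import Pool.Agent.Work.MP_c71557_gt.A.DefsC
import Pool.Agent.Work.MP_c71557_gt.H.FibLoc

set_option autoImplicit false
set_option linter.unusedVariables false

/-!
# MP_c71557_gt, module A/FC2: constant fibre homology for `T2` (M)

`fibConst_move` (H/FibLoc) for `A = T2`, `N' = N2`.
* `adm2`: for cells `a, b` of `T2` (`0 < lo < hi`) there is `g ∈ nbL 0` with `g a.lo = b.lo`,
  `g a.hi = b.hi`: first `exists_ext 1 (rot (b.lo - a.lo))` (A/Ext) on `δ < a.lo`, where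
  `0 < δ < min a.lo b.lo` (needs `δ < b.lo`): `G1 = 1` on `(-∞, δ]`, `G1 s = s + (b.lo - a.lo)` for
  `s ≥ a.lo`; then `exists_ext G1 (rot (b.hi - a.hi))` on `a.lo < a.hi`.
  The same for `g⁻¹` (`inv_f_f`).
* `hmove`: `g1, g2 ∈ nbL 0` map `a` into `b`, `E ⊆ N2 b` finite.  There is `e > 0`,
  `e < b.lo / 2`, such that all `n ∈ E` are the identity on `[b.lo - e, b.hi + e]`.  Let
  `G = g2 g1⁻¹`, `[p,q] = [g1 (a.lo - δ), g1 (a.hi + δ)]`, `δ > 0` so small that `b.lo - e < p`,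
  `q < b.hi + e`, `b.lo - e < G p = g2 (a.lo - δ)`, `G q = g2 (a.hi + δ) < b.hi + e`.
  `exists_sup G` (A/Ext) with `c = b.lo - e`, `d = b.hi + e` gives `v = G` on `[p,q]`, `v = 1` outside
  `(c,d)`.  (The element `v` need not be in `nbL 0` for `fibConst_move`, but it is.)
  - `v n = n v` for `n ∈ E`: on `(-∞,c]` and `[d,∞)`: `v = 1` there and `n` maps these half lines
    to themselves (`n c = c`, `n d = d`): both sides are `n.ev s`; on `[c,d]`: `n = 1`, `v [c,d] ⊆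
    [c,d]`: both are `v.ev s`.
  - `g2⁻¹ v g1 ∈ N2 a = nbL 0 ⊓ nb a.lo a.hi`: `nbL 0` since `g1, g2, v ∈ nbL 0` (`c > 0`); near `a`:
    `v (g1 s) = g2 s` (`inv_mul_ev`, `mul_ev_congr`).
-/

noncomputable section

namespace C715

open CategoryTheory

namespace Ang

open XX ActCat

private theorem unifE (lo hi e0 : ℝ) (he0 : 0 < e0) {E : Set XX} (hE : E.Finite)
    (h : E ⊆ (nb lo hi : Set XX)) : ∃ e : ℝ, 0 < e ∧ e ≤ e0 ∧ ∀ n ∈ E, ∀ s, lo - e ≤ s →
      s ≤ hi + e → n.ev s = (s, 1) := by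
  induction E, hE using Set.Finite.induction_on with
  | empty => exact ⟨e0, he0, le_rfl, fun n hn => absurd hn (Set.notMem_empty n)⟩
  | insert _ _ ih =>
    rename_i x E' _ _
    obtain ⟨e, he, hee, h1⟩ := ih fun y hy => h (Set.mem_insert_of_mem _ hy)
    obtain ⟨d, hd, h2⟩ := h (Set.mem_insert x E')
    refine ⟨min e d, lt_min he hd, (min_le_left _ _).trans hee, fun n hn s h3 h4 => ?_⟩
    have m1 := min_le_left e d
    have m2 := min_le_right e d
    rcases Set.mem_insert_iff.1 hn with rfl | hn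
    · exact h2 s (by linarith) (by linarith)
    · exact h1 n hn s (by linarith) (by linarith)

private theorem smallD (g1 g2 : XX) {x y lo hi e : ℝ} (he : 0 < e) (h1 : lo ≤ g1.f x)
    (h2 : g1.f y ≤ hi) (h3 : lo ≤ g2.f x) (h4 : g2.f y ≤ hi) :
    ∃ δ : ℝ, 0 < δ ∧ lo - e < g1.f (x - δ) ∧ g1.f (y + δ) < hi + e ∧ lo - e < g2.f (x - δ) ∧
      g2.f (y + δ) < hi + e := by
  have c1 : ∀ g : XX, Filter.Tendsto (fun δ : ℝ => g.f (x - δ)) (nhds 0) (nhds (g.f x)) := by
    intro g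
    have h : Continuous (fun δ : ℝ => g.f (x - δ)) :=
      g.continuous_f.comp (continuous_const.sub continuous_id)
    have h' := h.tendsto 0
    simp only [sub_zero] at h'
    exact h'
  have c2 : ∀ g : XX, Filter.Tendsto (fun δ : ℝ => g.f (y + δ)) (nhds 0) (nhds (g.f y)) := by
    intro g
    have h : Continuous (fun δ : ℝ => g.f (y + δ)) :=
      g.continuous_f.comp (continuous_const.add continuous_id)
    have h' := h.tendsto 0
    simp only [add_zero] at h'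
    exact h'
  have e1 := (c1 g1).eventually_const_lt (show lo - e < g1.f x by linarith)
  have e2 := (c2 g1).eventually_lt_const (show g1.f y < hi + e by linarith)
  have e3 := (c1 g2).eventually_const_lt (show lo - e < g2.f x by linarith)
  have e4 := (c2 g2).eventually_lt_const (show g2.f y < hi + e by linarith)
  have e5 := ((e1.and (e2.and (e3.and e4))).filter_mono
    (nhdsWithin_le_nhds (s := Set.Ioi (0 : ℝ)))).and self_mem_nhdsWithin
  obtain ⟨δ, ⟨a1, a2, a3, a4⟩, a5⟩ := e5.exists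
  exact ⟨δ, a5, a1, a2, a3, a4⟩

theorem adm2 (a b : T2.Ob) : ∃ g : XX, T2.Adm a g b ∧ T2.Adm b g⁻¹ a := by
  obtain ⟨a, ha0, ha1⟩ := a
  obtain ⟨b, hb0, hb1⟩ := b
  have m1 := min_le_left a.lo b.lo
  have m2 := min_le_right a.lo b.lo
  have m3 : 0 < min a.lo b.lo := lt_min ha0 hb0
  obtain ⟨G1, h1, h2⟩ := exists_ext 1 (rot (b.lo - a.lo)) (a := min a.lo b.lo / 2) (b := a.lo)
    (by linarith) (by
      rw [rot_f, one_f]
      linarith)
  have h3 : G1.f a.lo = b.lo := by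
    have := (ev_eq_iff.1 (h2 a.lo le_rfl)).1
    rw [this, rot_f]
    ring
  obtain ⟨G, h4, h5⟩ := exists_ext G1 (rot (b.hi - a.hi)) ha1 (by
    rw [h3, rot_f]
    linarith)
  have h6 : G.f a.lo = b.lo := by
    have := (ev_eq_iff.1 (h4 a.lo le_rfl)).1
    rw [this, h3]
  have h7 : G.f a.hi = b.hi := by
    have := (ev_eq_iff.1 (h5 a.hi le_rfl)).1
    rw [this, rot_f]
    ring
  have h8 : (G⁻¹).f b.lo = a.lo := by rw [← h6, inv_f_f]
  have h9 : (G⁻¹).f b.hi = a.hi := by rw [← h7, inv_f_f]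
  have h10 : G ∈ nbL 0 := by
    refine ⟨min a.lo b.lo / 2, by linarith, fun s hs => ?_⟩
    rw [h4 s (by linarith), h1 s (by linarith), one_ev]
  exact ⟨G, ⟨h10, h6.ge, h7.le⟩, ⟨(nbL 0).inv_mem h10, h8.ge, h9.le⟩⟩

theorem fc2 : T2.FibConst N2 N2_adm N2_conj N2_le o2 := by
  refine fibConst_move T2 N2 N2_adm N2_conj N2_le o2 (fun a b => ?_) (fun a b g1 g2 hg1 hg2 E hE
    hEb => ?_)
  · obtain ⟨g, hg, -⟩ := adm2 a b
    exact ⟨g, hg⟩
  obtain ⟨a, ha0, ha1⟩ := a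
  obtain ⟨b, hb0, hb1⟩ := b
  have i0 : g1 ∈ nbL 0 := hg1.1
  have i0' : g2 ∈ nbL 0 := hg2.1
  have i1 : b.lo ≤ g1.f a.lo := hg1.2.1
  have i2 : g1.f a.hi ≤ b.hi := hg1.2.2
  have i3 : b.lo ≤ g2.f a.lo := hg2.2.1
  have i4 : g2.f a.hi ≤ b.hi := hg2.2.2
  obtain ⟨e, he, hee, hE1⟩ := unifE b.lo b.hi (b.lo / 2) (by linarith) hE fun n hn => (hEb hn).2
  obtain ⟨δ, hδ, j1, j2, j3, j4⟩ := smallD g1 g2 he i1 i2 i3 i4
  have hG : ∀ s, (g2 * g1⁻¹).f (g1.f s) = g2.f s := fun s => by rw [mul_f, inv_f_f]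
  obtain ⟨v, hv0, hv2, hv1⟩ := exists_sup (g2 * g1⁻¹) (a := g1.f (a.lo - δ))
    (b := g1.f (a.hi + δ)) (c := b.lo - e) (d := b.hi + e) j1 (g1.f.monotone (by linarith)) j2
    (by rw [hG]; exact j3) (by rw [hG]; exact j4)
  have vd : v.f (b.hi + e) = b.hi + e := congrArg Prod.fst (hv2 (b.hi + e) le_rfl)
  have vc : v.f (b.lo - e) = b.lo - e := congrArg Prod.fst (hv0 (b.lo - e) le_rfl)
  refine ⟨v, fun n hn => ?_, ?_, ⟨δ, hδ, fun s h1 h2 => ?_⟩⟩
  · have hn1 : ∀ s, b.lo - e ≤ s → s ≤ b.hi + e → n.ev s = (s, 1) := hE1 n hn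
    have nd : n.f (b.hi + e) = b.hi + e :=
      congrArg Prod.fst (hn1 (b.hi + e) (by linarith) le_rfl)
    have nc : n.f (b.lo - e) = b.lo - e :=
      congrArg Prod.fst (hn1 (b.lo - e) le_rfl (by linarith))
    refine ext_ev fun s => ?_
    rcases le_total s (b.lo - e) with h1 | h1
    · have h4 : v.ev (n.f s) = (n.f s, 1) := by
        refine hv0 _ ?_
        rw [← nc]
        exact n.f.monotone h1
      rw [mul_ev_left h4, mul_ev_right (hv0 s h1)]
    · rcases le_total s (b.hi + e) with h3 | h3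
      · have h4 : n.ev (v.f s) = (v.f s, 1) := by
          refine hn1 _ ?_ ?_
          · rw [← vc]
            exact v.f.monotone h1
          · rw [← vd]
            exact v.f.monotone h3
        rw [mul_ev_right (hn1 s h1 h3), mul_ev_left h4]
      · have h4 : v.ev (n.f s) = (n.f s, 1) := by
          refine hv2 _ ?_
          rw [← nd]
          exact n.f.monotone h3
        rw [mul_ev_left h4, mul_ev_right (hv2 s h3)]
  · have h1 : v ∈ nbL 0 := ⟨b.lo / 2, by linarith, fun s hs => hv0 s (by linarith)⟩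
    exact (nbL 0).mul_mem ((nbL 0).mul_mem ((nbL 0).inv_mem i0') h1) i0
  · rw [mul_assoc, inv_mul_ev]
    have h3 : v.ev (g1.f s) = (g2 * g1⁻¹).ev (g1.f s) :=
      hv1 _ (g1.f.monotone h1) (g1.f.monotone h2)
    rw [mul_ev_congr (F := v) (F' := g2 * g1⁻¹) (G := g1) (G' := g1) rfl h3, inv_mul_cancel_right]

end Ang
end C715
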