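import Pool.Agent.Work.MP_c71557_gt.A.Mv2

set_option autoImplicit false

/-!
# MP_c71557_gt, module A/Mv3: `sp x y` is perfect (M)

* `insert_ray`: `M` a move for `(a,c,b)`, `c1 = M.f c`, and `d` with `c < d < b`, `c1 < d`.  Let `M1`
  be the move for `(a,c,d)` with `M1.ev c = M.ev c` and `M2` the move for `(c1,d,b)` with
  `M2.ev d = M.ev d` (`exists_move`; `c1 < M.f d < b`).  Then `M = M2 * M1`: both are the identity
  outside `[a,b]`; `M2 * M1` is linear on `[a,c]`, `[c,d]` (`M1` maps `[c,d]` onto `[c1,d]`, where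
  `M2` is linear), `[d,b]`, and has the values of `M` at `c` and `d`; use `ev_eq_of_lin` on the three
  intervals.  Ratios (with `ρ = M.r c`, `δ` the determinant of `M` on `[c,b]`, `LinOn.cross`):
  `mv M1 a c = mv M a c` (definition), `δ = mu M c b` (`ρ sin(b-c1) = δ sin(b-c)`),
  `mu M2 d b = δ` (`σ sin(b - M.f d) = δ sin(b-d)`, `σ = M.r d`), and
  `mv M2 c1 d = σ sin(M.f d - c1)/ sin(d-c1) = δ sin(d-c)/(ρ sin(d-c1)) = mu M c b / mu M1 c d`
  (`ρ σ sin(M.f d - c1) = δ sin(d-c)`).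
* `exists_config`: given `u, z > 0` and `a < c < b < a + π` there are `v > 0`, a move `M` for
  `(a,c,b)` with ratios `u, v`, and `d ∈ (c,b)` with `c1 = M.f c < d` and
  `ρ sin(d - c1)/ sin(d - c) = z`.  Take `t > 0` small with `v := u + t (u - z) > 0`, `M` from
  `exists_ratio`; let `D` be linear with `D.ev a = (a,1)`, `D.ev b = (b,1+t)` and `d := D.f c`,
  `κ = D.r c`.  With `e^{ic} = α e^{ia} + β e^{ib}` one has `κ e^{id} = α e^{ia} + (1+t) β e^{ib}`,
  `ρ e^{i c1} = u α e^{ia} + v β e^{ib}`; cross products: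
  `κ sin(d - c) = t α β sin(b-a)` (`> 0`, so `d > c`), and
  `ρ κ sin(d - c1) = (u (1+t) - v) α β sin(b-a) = z t α β sin(b - a)`; so `sin(d-c1) > 0` and, as
  `|d - c1| < π`, `c1 < d`; the ratio is `z`.
* `sp_hom`: for `ψ : sp x y →* V`, `V` commutative.  By `move_conj`, `ψ` of a move in `(x,y)`
  depends only on its ratios: define `φ u v` (`u, v > 0`) as `ψ` of a chosen move with ratios
  `u, v` for fixed `a < c < b` in `(x,y)` (`exists_ratio`).  `mu_mul`, `mv_mul`, `exists_ratio` (second move at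
  `c1 = M.f c`) give
  `φ (u u') (v v') = φ u v * φ u' v'`; put `A u = φ u 1`, `B v = φ 1 v`, so `φ u v = A u * B v`, `A`, `B`
  multiplicative.  `insert_ray` with `exists_config` gives for all `u, z > 0` (with a certain
  `v`): `φ u v = φ z v * φ u (u/z)`, i.e.
  `A u B v = A z B v A u B u (B z)⁻¹`, i.e. `B z = A z B u`.  `u = 1`: `B z = A z`; hence `B u = 1` for
  all `u`, and `A z = 1`.  So `ψ` kills all moves, and by `gen_moves` everything.
* `sp_hom'`: `y - x` arbitrary: choose `G ∈ XX` with `G.f x = 0`, `G.f y = 1`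
  (`exists_ext (rot (-x)) (rot (1 - y))`); conjugation by `G` maps `sp x y` isomorphically onto
  `sp 0 1`.
-/

namespace C715
namespace Ang

open XX

private theorem mvfa {M : XX} {a c b : ℝ} (h : IsMove M a c b) : M.f a = a :=
  congrArg Prod.fst (h.left a le_rfl)

private theorem mvfb {M : XX} {a c b : ℝ} (h : IsMove M a c b) : M.f b = b :=
  congrArg Prod.fst (h.right b le_rfl)

private theorem mvafc {M : XX} {a c b : ℝ} (h : IsMove M a c b) : a < M.f c := by
  have := M.f.strictMono h.ac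
  rwa [mvfa h] at this

private theorem mvfcb {M : XX} {a c b : ℝ} (h : IsMove M a c b) : M.f c < b := by
  have := M.f.strictMono h.cb
  rwa [mvfb h] at this

private theorem ptol3 (a b f F : ℝ) : Real.sin (b - f) * Real.sin (F - a) -
    Real.sin (b - F) * Real.sin (f - a) = Real.sin (b - a) * Real.sin (F - f) := by
  simp only [Real.sin_sub]
  ring

theorem insert_ray {M : XX} {a c b d : ℝ} (h : IsMove M a c b) (hcd : c < d) (hdb : d < b)
    (hd : M.f c < d) : ∃ M1 M2 : XX, IsMove M1 a c d ∧ IsMove M2 (M.f c) d b ∧ M = M2 * M1 ∧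
      mu M1 c d = M.r c * Real.sin (d - M.f c) / Real.sin (d - c) ∧ mv M1 a c = mv M a c ∧
      mu M2 d b = mu M c b ∧ mv M2 (M.f c) d = mu M c b / mu M1 c d := by
  have hac := h.ac
  have hbd := h.bd
  have afc := mvafc h
  have fcb := mvfcb h
  have m1 : M.f c < M.f d := M.f.strictMono hcd
  have m2 : M.f d < b := by
    have := M.f.strictMono hdb
    rwa [mvfb h] at this
  obtain ⟨M1, hM1, h1c⟩ := exists_move hac hcd (by linarith) afc hd (M.pos c)
  obtain ⟨M2, hM2, h2d⟩ := exists_move hd hdb (by linarith) m1 m2 (M.pos d)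
  have a1 : M1.f c = M.f c := congrArg Prod.fst h1c
  have a2 : M1.r c = M.r c := congrArg Prod.snd h1c
  have b1 : M2.f d = M.f d := congrArg Prod.fst h2d
  have b2 : M2.r d = M.r d := congrArg Prod.snd h2d
  have hMr : M.r b = 1 := congrArg Prod.snd (h.right b le_rfl)
  obtain ⟨p, q, hpq⟩ := id h.lin2
  have c1 := LinOn.cross hpq (s := c) (t := b) ⟨le_rfl, h.cb.le⟩ ⟨h.cb.le, le_rfl⟩
  have c2 := LinOn.cross hpq (s := c) (t := d) ⟨le_rfl, h.cb.le⟩ ⟨hcd.le, hdb.le⟩
  have c3 := LinOn.cross hpq (s := d) (t := b) ⟨hcd.le, hdb.le⟩ ⟨h.cb.le, le_rfl⟩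
  rw [mvfb h, hMr, mul_one] at c1 c3
  set δ := p.re * q.im - p.im * q.re with hδ
  have s1 : 0 < Real.sin (b - c) :=
    Real.sin_pos_of_pos_of_lt_pi (by linarith) (by linarith)
  have s2 : 0 < Real.sin (d - c) :=
    Real.sin_pos_of_pos_of_lt_pi (by linarith) (by linarith)
  have s3 : 0 < Real.sin (b - d) :=
    Real.sin_pos_of_pos_of_lt_pi (by linarith) (by linarith)
  have s4 : 0 < Real.sin (d - M.f c) :=
    Real.sin_pos_of_pos_of_lt_pi (by linarith) (by linarith)
  have hρ := M.pos c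
  have hmu : mu M c b = δ := by
    unfold mu
    rw [c1, mul_div_assoc, div_self s1.ne', mul_one]
  refine ⟨M1, M2, hM1, hM2, ?_, ?_, ?_, ?_, ?_⟩
  · refine ext_ev fun s => ?_
    rcases le_total s a with hs | hs
    · rw [mul_ev_right (hM1.left s hs), hM2.left s (by linarith), h.left s hs]
    rcases le_total b s with hs' | hs'
    · rw [mul_ev_right (hM1.right s (by linarith)), hM2.right s hs', h.right s hs']
    rcases le_total s c with hsc | hsc
    · have hle : M1.f s ≤ M.f c := by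
        rw [← a1]
        exact M1.f.monotone hsc
      rw [mul_ev_left (hM2.left (M1.f s) hle)]
      exact ev_eq_of_lin hac (by linarith) h.lin1 hM1.lin1
        (by rw [h.left a le_rfl, hM1.left a le_rfl]) h1c.symm s hs hsc
    have e1 : (M2 * M1).ev d = M.ev d := by
      rw [mul_ev_right (hM1.right d le_rfl), h2d, ev_def]
    rcases le_total s d with hsd | hsd
    · have e2 : LinOn (M2 * M1).f (M2 * M1).r (Set.Icc c d) := by
        refine LinOn.comp (f := M2.f) (r := M2.r) hM2.lin1 hM1.lin2 fun s hs => ⟨?_, ?_⟩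
        · rw [← a1]
          exact M1.f.monotone hs.1
        · have := M1.f.monotone hs.2
          rwa [mvfb hM1] at this
      have e3 : (M2 * M1).ev c = M.ev c := by
        rw [mul_ev_left (hM2.left (M1.f c) a1.le), h1c, ev_def]
      exact ev_eq_of_lin hcd (by linarith) (h.lin2.mono (Set.Icc_subset_Icc le_rfl hdb.le)) e2
        e3.symm e1.symm s hsc hsd
    · have e4 : LinOn (M2 * M1).f (M2 * M1).r (Set.Icc d b) := by
        refine hM2.lin2.congr (fun s hs => ?_) (fun s hs => ?_)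
        · exact congrArg Prod.fst (mul_ev_right (F := M2) (hM1.right s hs.1))
        · exact congrArg Prod.snd (mul_ev_right (F := M2) (hM1.right s hs.1))
      have e5 : (M2 * M1).ev b = M.ev b := by
        rw [mul_ev_right (hM1.right b (by linarith)), hM2.right b le_rfl, h.right b le_rfl]
      exact ev_eq_of_lin hdb (by linarith) (h.lin2.mono (Set.Icc_subset_Icc hcd.le le_rfl)) e4
        e1.symm e5.symm s hsd hs'
  · unfold mu
    rw [a1, a2]
  · unfold mv
    rw [a1, a2]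
  · rw [hmu]
    unfold mu
    rw [b1, b2, c3, mul_div_assoc, div_self s3.ne', mul_one]
  · rw [hmu]
    unfold mu mv
    rw [a1, a2, b1, b2]
    rw [div_div_eq_mul_div, div_eq_div_iff s4.ne' (mul_pos hρ s4).ne']
    linear_combination Real.sin (d - M.f c) * c2

theorem exists_config {a c b u z : ℝ} (hac : a < c) (hcb : c < b) (hb : b < a + Real.pi)
    (hu : 0 < u) (hz : 0 < z) : ∃ (M : XX) (d : ℝ), IsMove M a c b ∧ mu M c b = u ∧ c < d ∧ d < b ∧
      M.f c < d ∧ M.r c * Real.sin (d - M.f c) / Real.sin (d - c) = z := by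
  set t : ℝ := u / (z + 1) with ht
  have ht0 : 0 < t := by positivity
  have htz : t * z < u := by
    rw [ht, div_mul_eq_mul_div, div_lt_iff₀ (by linarith)]
    nlinarith
  have hv : 0 < u + t * (u - z) := by nlinarith [mul_pos ht0 hu]
  set v := u + t * (u - z) with hvdef
  obtain ⟨M, hM, hmu, hmv⟩ := exists_ratio hac hcb hb hu hv
  obtain ⟨D, hD, hDa, hDb⟩ := exists_lin (hac.trans hcb) hb (hac.trans hcb) hb one_pos
    (show (0 : ℝ) < 1 + t by linarith)
  have hDa1 : D.f a = a := congrArg Prod.fst hDa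
  have hDa2 : D.r a = 1 := congrArg Prod.snd hDa
  have hDb1 : D.f b = b := congrArg Prod.fst hDb
  have hDb2 : D.r b = 1 + t := congrArg Prod.snd hDb
  have m1 : a < D.f c := by
    have := D.f.strictMono hac
    rwa [hDa1] at this
  have m2 : D.f c < b := by
    have := D.f.strictMono hcb
    rwa [hDb1] at this
  have afc := mvafc hM
  have fcb := mvfcb hM
  obtain ⟨p, q, hpq⟩ := id hD
  have c1 := LinOn.cross hpq (Set.mem_univ c) (Set.mem_univ b)
  have c2 := LinOn.cross hpq (Set.mem_univ a) (Set.mem_univ c)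
  have c3 := LinOn.cross hpq (Set.mem_univ a) (Set.mem_univ b)
  rw [hDb1, hDb2] at c1
  rw [hDa1, hDa2, one_mul] at c2
  rw [hDa1, hDa2, hDb1, hDb2, one_mul] at c3
  set δ := p.re * q.im - p.im * q.re with hδ
  have sba : 0 < Real.sin (b - a) := Real.sin_pos_of_pos_of_lt_pi (by linarith) (by linarith)
  have sbc : 0 < Real.sin (b - c) := Real.sin_pos_of_pos_of_lt_pi (by linarith) (by linarith)
  have sca : 0 < Real.sin (c - a) := Real.sin_pos_of_pos_of_lt_pi (by linarith) (by linarith)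
  have hδ1 : δ = 1 + t := (mul_right_cancel₀ sba.ne' c3).symm
  rw [hδ1] at c1 c2
  have c1' : D.r c * Real.sin (b - D.f c) = Real.sin (b - c) := by
    have : (1 + t) * (D.r c * Real.sin (b - D.f c)) = (1 + t) * Real.sin (b - c) := by
      linear_combination c1
    exact mul_left_cancel₀ (by linarith) this
  have hmu' : M.r c * Real.sin (b - M.f c) = u * Real.sin (b - c) := by
    unfold mu at hmu
    rwa [div_eq_iff sbc.ne'] at hmu
  have hmv' : M.r c * Real.sin (M.f c - a) = v * Real.sin (c - a) := by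
    unfold mv at hmv
    rwa [div_eq_iff sca.ne'] at hmv
  have hκ := D.pos c
  have hρ := M.pos c
  have P1 : D.r c * Real.sin (b - a) * Real.sin (D.f c - c) =
      t * (Real.sin (b - c) * Real.sin (c - a)) := by
    have := ptol3 a b c (D.f c)
    linear_combination (-D.r c) * this + Real.sin (b - c) * c2 - Real.sin (c - a) * c1'
  have P2 : M.r c * D.r c * Real.sin (b - a) * Real.sin (D.f c - M.f c) =
      t * z * (Real.sin (b - c) * Real.sin (c - a)) := by
    have := ptol3 a b (M.f c) (D.f c)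
    rw [hvdef] at hmv'
    linear_combination (-(M.r c * D.r c)) * this + (D.r c * Real.sin (D.f c - a)) * hmu' +
      (u * Real.sin (b - c)) * c2 - (D.r c * Real.sin (b - D.f c)) * hmv' -
      ((u + t * (u - z)) * Real.sin (c - a)) * c1'
  have sdc : 0 < Real.sin (D.f c - c) := by
    have h1 : 0 < D.r c * Real.sin (b - a) * Real.sin (D.f c - c) := by
      rw [P1]
      positivity
    exact (mul_pos_iff_of_pos_left (mul_pos hκ sba)).1 h1
  have sdc1 : 0 < Real.sin (D.f c - M.f c) := by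
    have h1 : 0 < M.r c * D.r c * Real.sin (b - a) * Real.sin (D.f c - M.f c) := by
      rw [P2]
      positivity
    exact (mul_pos_iff_of_pos_left (mul_pos (mul_pos hρ hκ) sba)).1 h1
  have hsign : ∀ w : ℝ, -Real.pi < w → 0 < Real.sin w → 0 < w := by
    intro w hw hs
    by_contra hcon
    have : Real.sin w ≤ 0 := Real.sin_nonpos_of_nonpos_of_neg_pi_le (not_lt.1 hcon) hw.le
    linarith
  refine ⟨M, D.f c, hM, hmu, ?_, m2, ?_, ?_⟩
  · have := hsign _ (by linarith) sdc
    linarith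
  · have := hsign _ (by linarith) sdc1
    linarith
  · rw [div_eq_iff sdc.ne']
    have hne : D.r c * Real.sin (b - a) ≠ 0 := (mul_pos hκ sba).ne'
    have : D.r c * Real.sin (b - a) * (M.r c * Real.sin (D.f c - M.f c)) =
        D.r c * Real.sin (b - a) * (z * Real.sin (D.f c - c)) := by
      linear_combination P2 - z * P1
    exact mul_left_cancel₀ hne this

private theorem hom_conj {x y : ℝ} (W : Type) [CommGroup W] (ψ : ↥(sp x y) →* W) (M M' g : XX)
    (hM : M ∈ sp x y) (hM' : M' ∈ sp x y) (hg : g ∈ sp x y) (h : M' = g * M * g⁻¹) :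
    ψ ⟨M', hM'⟩ = ψ ⟨M, hM⟩ := by
  have h1 : (⟨M', hM'⟩ : ↥(sp x y)) = ⟨g, hg⟩ * ⟨M, hM⟩ * ⟨g, hg⟩⁻¹ := Subtype.ext h
  rw [h1, map_mul, map_mul, map_inv, mul_comm (ψ ⟨g, hg⟩), mul_inv_cancel_right]

theorem sp_hom {x y : ℝ} (hxy : x < y) (hy : y ≤ x + Real.pi) (W : Type) [CommGroup W]
    (ψ : ↥(sp x y) →* W) (F : ↥(sp x y)) : ψ F = 1 := by
  classical
  have hpi := Real.pi_pos
  set a : ℝ := x + (y - x) / 4 with ha
  set c : ℝ := x + (y - x) / 2 with hc
  set b : ℝ := x + 3 * (y - x) / 4 with hb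
  have hxa : x < a := by rw [ha]; linarith
  have hac : a < c := by rw [ha, hc]; linarith
  have hcb : c < b := by rw [hb, hc]; linarith
  have hby : b < y := by rw [hb]; linarith
  have hba : b < a + Real.pi := by rw [ha, hb]; linarith
  have hex : ∀ u v : ℝ, ∃ w : W, 0 < u → 0 < v → ∃ (M : XX) (hM : IsMove M a c b),
      mu M c b = u ∧ mv M a c = v ∧ ψ ⟨M, hM.mem_sp hxa hby⟩ = w := by
    intro u v
    by_cases h : 0 < u ∧ 0 < v
    · obtain ⟨M, hM, h1, h2⟩ := exists_ratio hac hcb hba h.1 h.2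
      exact ⟨ψ ⟨M, hM.mem_sp hxa hby⟩, fun _ _ => ⟨M, hM, h1, h2, rfl⟩⟩
    · exact ⟨1, fun h1 h2 => absurd ⟨h1, h2⟩ h⟩
  choose φ hφ using hex
  have key : ∀ (M : XX) (a' c' b' : ℝ) (h : IsMove M a' c' b') (hx : x < a') (hy' : b' < y),
      ψ ⟨M, h.mem_sp hx hy'⟩ = φ (mu M c' b') (mv M a' c') := by
    intro M a' c' b' h hx hy'
    obtain ⟨M0, hM0, h1, h2, h3⟩ := hφ (mu M c' b') (mv M a' c') h.mu_pos h.mv_pos
    obtain ⟨g, hg, hgM⟩ := move_conj hM0 h hxa hby hx hy' h1 h2
    rw [← h3]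
    exact hom_conj W ψ M0 M g _ _ hg hgM
  have hmul : ∀ u v u' v' : ℝ, 0 < u → 0 < v → 0 < u' → 0 < v' →
      φ (u' * u) (v' * v) = φ u' v' * φ u v := by
    intro u v u' v' hu hv hu' hv'
    obtain ⟨M, hM, h1, h2⟩ := exists_ratio hac hcb hba hu hv
    obtain ⟨M', hM', h1', h2'⟩ := exists_ratio (mvafc hM) (mvfcb hM) hba hu' hv'
    have h3 := move_mul hM hM' rfl
    have h4 := key _ _ _ _ h3 hxa hby
    rw [mu_mul hM hM' rfl, mv_mul hM hM' rfl, h1, h2, h1', h2'] at h4
    have h5 := key _ _ _ _ hM hxa hby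
    have h6 := key _ _ _ _ hM' hxa hby
    rw [h1, h2] at h5
    rw [h1', h2'] at h6
    rw [← h4, ← h5, ← h6, ← map_mul]
    rfl
  have hins : ∀ u z : ℝ, 0 < u → 0 < z → ∃ v, 0 < v ∧ φ u v = φ u (u / z) * φ z v := by
    intro u z hu hz
    obtain ⟨M, d, hM, hmu, hcd, hdb, hfd, hz'⟩ := exists_config hac hcb hba hu hz
    obtain ⟨M1, M2, hM1, hM2, hMM, e1, e2, e3, e4⟩ := insert_ray hM hcd hdb hfd
    have afc := mvafc hM
    have k0 := key _ _ _ _ hM hxa hby
    have k1 := key _ _ _ _ hM1 hxa (by linarith)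
    have k2 := key _ _ _ _ hM2 (by linarith) hby
    rw [hz'] at e1
    rw [e1, e2] at k1
    rw [e3, e4, e1, hmu] at k2
    rw [hmu] at k0
    refine ⟨mv M a c, hM.mv_pos, ?_⟩
    rw [← k0, ← k1, ← k2, ← map_mul]
    congr 1
    exact Subtype.ext hMM
  have hone : φ 1 1 = 1 := by
    have := hmul 1 1 1 1 one_pos one_pos one_pos one_pos
    rw [mul_one] at this
    exact (left_eq_mul.1 this)
  have hsplit : ∀ u v : ℝ, 0 < u → 0 < v → φ u v = φ u 1 * φ 1 v := by
    intro u v hu hv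
    have := hmul 1 v u 1 one_pos hv hu one_pos
    rwa [mul_one, one_mul] at this
  have hBA : ∀ u z : ℝ, 0 < u → 0 < z → φ 1 (u / z) * φ z 1 = 1 := by
    intro u z hu hz
    obtain ⟨v, hv, h1⟩ := hins u z hu hz
    rw [hsplit u v hu hv, hsplit u (u / z) hu (div_pos hu hz), hsplit z v hz hv] at h1
    have h2 : φ u 1 * φ 1 v * (φ 1 (u / z) * φ z 1) = φ u 1 * φ 1 v * 1 := by
      rw [mul_one]
      conv_rhs => rw [h1]
      simp only [mul_comm, mul_left_comm]
    exact mul_left_cancel h2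
  have hA : ∀ z : ℝ, 0 < z → φ z 1 = 1 := by
    intro z hz
    have := hBA z z hz hz
    rwa [div_self hz.ne', hone, one_mul] at this
  have hB : ∀ w : ℝ, 0 < w → φ 1 w = 1 := by
    intro w hw
    have := hBA w 1 hw one_pos
    rwa [div_one, hone, mul_one] at this
  have hall : ∀ (M : XX) (a' c' b' : ℝ) (h : IsMove M a' c' b') (hx : x < a') (hy' : b' < y),
      ψ ⟨M, h.mem_sp hx hy'⟩ = 1 := by
    intro M a' c' b' h hx hy'
    rw [key M a' c' b' h hx hy', hsplit _ _ h.mu_pos h.mv_pos, hA _ h.mu_pos, hB _ h.mv_pos,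
      mul_one]
  have hle : Subgroup.closure {M : XX | ∃ a c b : ℝ, x < a ∧ b < y ∧ IsMove M a c b} ≤
      ψ.ker.map (sp x y).subtype := by
    rw [Subgroup.closure_le]
    rintro M ⟨a', c', b', hx, hy', h⟩
    exact ⟨⟨M, h.mem_sp hx hy'⟩, hall M a' c' b' h hx hy', rfl⟩
  obtain ⟨K, hK, hKF⟩ := hle (gen_moves hxy hy F.2)
  have : K = F := Subtype.ext hKF
  rw [← this]
  exact hK

private theorem nbR_conj {F n : XX} {a b : ℝ} (h : b ≤ F.f a) (hn : n ∈ nbR b) :
    F⁻¹ * n * F ∈ nbR a := by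
  obtain ⟨e, he, hn⟩ := hn
  refine ⟨a - F.f.symm (F.f a - e), ?_, ?_⟩
  · rw [sub_pos, F.f.symm_apply_lt]
    linarith
  · intro s h2
    have h5 : F.f a - e ≤ F.f s := by
      rw [← F.f.symm_apply_le]
      linarith
    rw [mul_assoc, inv_mul_ev]
    symm
    exact mul_ev_left (hn (F.f s) (by linarith))

theorem sp_hom' {x y : ℝ} (hxy : x < y) (W : Type) [CommGroup W]
    (ψ : ↥(sp x y) →* W) (F : ↥(sp x y)) : ψ F = 1 := by
  have hpi := Real.pi_gt_three
  obtain ⟨G, hG1, hG2⟩ := exists_ext (rot (-x)) (rot (1 - y)) hxy (by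
    rw [rot_f, rot_f]
    linarith)
  have gx : G.f x = 0 := by
    have := congrArg Prod.fst (hG1 x le_rfl)
    change G.f x = x + -x at this
    rw [this]
    ring
  have gy : G.f y = 1 := by
    have := congrArg Prod.fst (hG2 y le_rfl)
    change G.f y = y + (1 - y) at this
    rw [this]
    ring
  have g0 : (G⁻¹).f 0 = x := by rw [← gx]; exact inv_f_f G x
  have g1 : (G⁻¹).f 1 = y := by rw [← gy]; exact inv_f_f G y
  have hc : ∀ H ∈ sp 0 1, G⁻¹ * H * G ∈ sp x y := fun H hH =>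
    ⟨nbL_conj gx.le hH.1, nbR_conj gy.ge hH.2⟩
  have hc' : G * F.1 * G⁻¹ ∈ sp 0 1 := by
    have h1 : (G⁻¹)⁻¹ * F.1 * G⁻¹ ∈ sp 0 1 :=
      ⟨nbL_conj g0.le F.2.1, nbR_conj g1.ge F.2.2⟩
    rwa [inv_inv] at h1
  let κ : ↥(sp 0 1) →* ↥(sp x y) :=
    { toFun := fun H => ⟨G⁻¹ * H.1 * G, hc H.1 H.2⟩
      map_one' := Subtype.ext (by
        change G⁻¹ * 1 * G = 1
        rw [mul_one, inv_mul_cancel])
      map_mul' := fun H K => Subtype.ext (by
        change G⁻¹ * (H.1 * K.1) * G = (G⁻¹ * H.1 * G) * (G⁻¹ * K.1 * G)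
        group) }
  have h2 := sp_hom (x := 0) (y := 1) one_pos (by linarith) W (ψ.comp κ) ⟨G * F.1 * G⁻¹, hc'⟩
  have h3 : κ ⟨G * F.1 * G⁻¹, hc'⟩ = F := Subtype.ext (by
    change G⁻¹ * (G * F.1 * G⁻¹) * G = F.1
    group)
  rw [MonoidHom.comp_apply, h3] at h2
  exact h2

end Ang
end C715
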