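import Pool.Agent.Work.MP_c71557_gt.A.CS
import Pool.Agent.Work.MP_c71557_gt.A.Mv3
import Pool.Agent.Work.MP_c71557_gt.H.H1

/-!
# MP_c71557_gt, module A/H1F: `H_1 = 0` for `KS` and the fibres (S-M)

* `h1_KS`: `H1_zero` (H/H1) with `K = KS` (subgroup of `↥Ft`): let `χ : ↥Ft → V` be additive on `KS`.
  By `cutS_inj`, `cutS_surj` (A/CS) and `cutS_sp`, `cutS : KS → sp (8 - 2π) 7` is an isomorphism
  (`MulEquiv.ofBijective` of the corestriction); so `ψ : sp (8 - 2π) 7 →* Multiplicative V`,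
  `ψ h = ofAdd (χ (cutS⁻¹ h))`, is a homomorphism into a commutative group, hence trivial by
  `sp_hom'` (A/Mv3); so `χ = 0` on `KS`.
* `h1_F1`, `h1_F2`: the homology isomorphisms `kS : sg KS → F1`, `cS : sg KS → F2` (A/CS).
-/

set_option autoImplicit false
set_option linter.unusedVariables false

noncomputable section

namespace C715

open CategoryTheory

namespace Ang

open XX ActCat

private theorem cutS_injective : Function.Injective cutS := by
  rw [injective_iff_map_eq_one]
  exact cutS_inj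

/-- the inverse of `cutS` -/
private def uncut (h : ↥(sp (8 - 2 * Real.pi) 7)) : ↥KS := (cutS_surj h.2).choose

private theorem cutS_uncut (h : ↥(sp (8 - 2 * Real.pi) 7)) : cutS (uncut h) = h.1 :=
  (cutS_surj h.2).choose_spec

private theorem uncut_mul (h h' : ↥(sp (8 - 2 * Real.pi) 7)) :
    uncut (h * h') = uncut h * uncut h' := by
  apply cutS_injective
  rw [map_mul, cutS_uncut, cutS_uncut, cutS_uncut]
  rfl

theorem h1_KS : Subsingleton (HC (sg KS).Obj 1) := by
  refine H1_zero KS (fun V _ _ χ hχ => ?_)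
  have hπ := pi_b
  let ψ : ↥(sp (8 - 2 * Real.pi) 7) →* Multiplicative V :=
    MonoidHom.mk' (fun h => Multiplicative.ofAdd (χ (uncut h).1)) (fun h h' => by
      rw [uncut_mul, ← ofAdd_add, ← hχ _ (uncut h).2 _ (uncut h').2]
      rfl)
  have hψ := sp_hom' (x := 8 - 2 * Real.pi) (y := 7) (by linarith) (Multiplicative V) ψ
  intro a ha
  have h1 := hψ ⟨cutS ⟨a, ha⟩, cutS_sp _⟩
  have h2 : uncut ⟨cutS ⟨a, ha⟩, cutS_sp _⟩ = ⟨a, ha⟩ := by
    apply cutS_injective
    rw [cutS_uncut]
  have h3 : Multiplicative.ofAdd (χ (uncut ⟨cutS ⟨a, ha⟩, cutS_sp _⟩).1) = 1 := h1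
  rw [h2] at h3
  exact Multiplicative.ofAdd.injective h3

theorem h1_F1 : Subsingleton (HC F1.Obj 1) := by
  have := h1_KS
  exact (hiso_kS 1).2.subsingleton

theorem h1_F2 : Subsingleton (HC F2.Obj 1) := by
  have := h1_KS
  exact (hiso_cS 1).2.subsingleton

end Ang
end C715
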