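import Pool.Agent.Work.MP_c71557_gt.A.DefsC
import Pool.Agent.Work.MP_c71557_gt.H.ActDir
import Pool.Agent.Work.MP_c71557_gt.H.QA
import Pool.Agent.Work.MP_c71557_gt.H.Equiv

set_option autoImplicit false
set_option linter.unusedVariables false

/-!
# MP_c71557_gt, module A/T2a: `T2` is acyclic (M)

* `acy_T3`: `T3` (objects `y > 0`; arrows `y → z`: `F ∈ nbL 0` with `F y ≤ z`, modulo `nbL y`) is
  cofiltered: `acy_of_cofiltered` (H/Filt).  Nonempty: `y = 1`.  Lower bound of `y1, y2`: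
  `min y1 y2` with the arrows `1`.  Equalizing `F, G : y → z`: `F⁻¹ G ∈ nbL 0` is the identity on
  `(-∞, e]` (`e > 0`); take `w = min y (e/2)`, arrow `1 : w → y`; then `F 1 = G 1` modulo `nbL w`.
* `hiso_T23`: `T23 : T2 → T3`, `[x,y] ↦ y`.  `quillenA_over` (H/QA), `acy_over` (H/ActDir): over
  `z > 0`: objects `([x,y], F)`, `F ∈ nbL 0`, `F y ≤ z`.  Nonempty: `[z/2, z]`, `F = 1`.  Directed:
  `a3 = [min (F1 x1) (F2 x2), max (F1 y1) (F2 y2)]`, `F3 = 1`, `k_i = F_i` (`F_i x_i > 0` because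
  `F_i 0 = 0`).  Thin: `T2.N [x,y] = nbL y = T3.N y`.
* `acy_T2`: `Acy.congr` (H/Equiv).
-/

noncomputable section

namespace C715

open CategoryTheory

namespace Ang

open XX ActCat

theorem acy_T3 : Acy T3.Obj := by
  have : IsCofiltered T3.Obj :=
    { cone_objs := fun a b => by
        have m : 0 < min a.o.1 b.o.1 := lt_min a.o.2 b.o.2
        exact ⟨⟨⟨min a.o.1 b.o.1, m⟩⟩,
          T3.hom (a := (⟨min a.o.1 b.o.1, m⟩ : T3.Ob)) (b := a.o) 1
            ⟨(nbL 0).one_mem, min_le_left _ _⟩,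
          T3.hom (a := (⟨min a.o.1 b.o.1, m⟩ : T3.Ob)) (b := b.o) 1
            ⟨(nbL 0).one_mem, min_le_right _ _⟩, trivial⟩
      cone_maps := fun a b f g => by
        obtain ⟨F, hF, rfl⟩ := hom_surj f
        obtain ⟨G, hG, rfl⟩ := hom_surj g
        have h1 : F⁻¹ * G ∈ nbL 0 := (nbL 0).mul_mem ((nbL 0).inv_mem hF.1) hG.1
        obtain ⟨e, he, h2⟩ := h1
        have m : 0 < min a.o.1 (e / 2) := lt_min a.o.2 (by linarith)
        refine ⟨⟨⟨min a.o.1 (e / 2), m⟩⟩,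
          T3.hom (a := (⟨min a.o.1 (e / 2), m⟩ : T3.Ob)) (b := a.o) 1
            ⟨(nbL 0).one_mem, min_le_left _ _⟩, ?_⟩
        refine (hom_eq (A := T3)).2 ?_
        refine ⟨e / 2, by linarith, fun s hs => ?_⟩
        have h3 := min_le_right a.o.1 (e / 2)
        have h4 : (F * 1)⁻¹ * (G * 1) = F⁻¹ * G := by group
        rw [h4]
        refine h2 s ?_
        change s ≤ min a.o.1 (e / 2) + e / 2 at hs
        linarith
      nonempty := ⟨⟨⟨1, one_pos⟩⟩⟩ }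
  exact acy_of_cofiltered

private theorem pos_f {F : XX} (h : F ∈ nbL 0) {x : ℝ} (hx : 0 < x) : 0 < F.f x := by
  obtain ⟨e, he, h⟩ := h
  have h1 : F.f 0 = 0 := congrArg Prod.fst (h 0 (by linarith))
  have h2 := F.f.strictMono hx
  rwa [h1] at h2

theorem hiso_T23 : HIso T23 := by
  refine quillenA_over T23 fun b => ?_
  obtain ⟨z, hz⟩ := b
  refine acy_over (A := T2) (A' := T3) (fun a => ⟨a.1.hi, a.2.1.trans a.2.2⟩)
    (fun h => ⟨h.1, h.2.2⟩) (fun h => h) ⟨z, hz⟩ ?_ ?_ (fun a a' g k k' _ _ _ h => h)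
  · exact ⟨⟨⟨z / 2, z, by linarith⟩, by
      change 0 < z / 2
      linarith, by
      change z / 2 < z
      linarith⟩, 1, (nbL 0).one_mem, le_rfl⟩
  · intro a1 g1 a2 g2 h1 h2
    have l1 : g1.f a1.1.lo < g1.f a1.1.hi := g1.f.strictMono a1.2.2
    have l2 : 0 < g1.f a1.1.lo := pos_f h1.1 a1.2.1
    have l3 : 0 < g2.f a2.1.lo := pos_f h2.1 a2.2.1
    have m1 := min_le_left (g1.f a1.1.lo) (g2.f a2.1.lo)
    have m2 := le_max_left (g1.f a1.1.hi) (g2.f a2.1.hi)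
    have l4 : min (g1.f a1.1.lo) (g2.f a2.1.lo) < max (g1.f a1.1.hi) (g2.f a2.1.hi) := by
      linarith
    refine ⟨⟨⟨min (g1.f a1.1.lo) (g2.f a2.1.lo), max (g1.f a1.1.hi) (g2.f a2.1.hi), l4.le⟩,
      lt_min l2 l3, l4⟩, 1, g1, g2, ⟨(nbL 0).one_mem, max_le h1.2 h2.2⟩,
      ⟨h1.1, m1, m2⟩, ⟨h2.1, min_le_right _ _, le_max_right _ _⟩, ?_, ?_⟩
    · rw [one_mul, inv_mul_cancel]
      exact Subgroup.one_mem _
    · rw [one_mul, inv_mul_cancel]
      exact Subgroup.one_mem _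

theorem acy_T2 : Acy T2.Obj := (Acy.congr hiso_T23).2 acy_T3

end Ang
end C715
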