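import Pool.Agent.Work.MP_c71557_gt.A.EqB
import Pool.Agent.Work.MP_c71557_gt.A.T2a
import Pool.Agent.Work.MP_c71557_gt.A.FC1
import Pool.Agent.Work.MP_c71557_gt.A.FC2
import Pool.Agent.Work.MP_c71557_gt.A.H1F
import Pool.Agent.Work.MP_c71557_gt.A.ConnA
import Pool.Agent.Work.MP_c71557_gt.H.RelPt
import Pool.Agent.Work.MP_c71557_gt.H.Five

set_option autoImplicit false
set_option linter.unusedVariables false

/-!
# MP_c71557_gt, module A/LowA: comparison of relative homologies in low degrees (M-L)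

Let `X = relC (ptF ⟨a0⟩ : CC)`, `X1 = relC (ptF ⟨o1⟩ : B1)`, `X2 = relC (ptF ⟨o2⟩ : B2)`,
`Y1 = relC (T1.fibIncl …)`, `Y2 = relC (T2.fibIncl …)`.
1. `kap1 = (T1.relActMap N1 …).comp c1` with `c1 : X1 → X` the map of cokernels induced by `Q1` (and the
   identity of the point); check on representatives (`R1 = proj ⋙ Q1` on simplices).  `c1` is a
   quasi-isomorphism by `coker_qis` (H/Five; `ptF_inj`, H/RelPt; `hiso_Q1`, A/EqB).  The same for
   `kap2`, `c2`, `Q2`.
2. `H_0(X) = 0`: `relPt_zero` (H/RelPt) and `H0_of_connected` (H/Equiv), `conn_CC` (A/ConnA).  So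
   `H_0(X1) = H_0(X2) = 0`.
3. `H_p(Y2) = 0` for `p ≤ 2`: `relAcy` (H/RelPt) for `j = T2.fibIncl …`, `acy_T2` (A/T2a),
   `fibIncl_inj` (H/RelAct); the one object category `F2` is nonempty and a 0-chain with sum of
   coefficients 0 is 0; `H_2(Y2) ≅ H_1(F2) = 0` (`h1_F2`, A/H1F).
4. `rel_act` (H/RelAct) for `T2`, `fc2` (A/FC2), `S = Serre.triv` (H/Base; `P V` is `Subsingleton V`):
   the map `H_n(Y2) → H_n(X2)` is surjective if `H_p(X2) ⊗ H_q(F2) = 0` for `q ≥ 1`, `p + q + 1 = n`.
   `n = 1`: no condition, so `H_1(X2) = 0`; `n = 2`: `(p,q) = (0,1)`: `H_0 = 0`, so `H_2(X2) = 0`.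
   So `H_p(X) = H_p(X1) = H_p(X2) = 0` for `p ≤ 2` (`low_X`).
5. For `n ≤ 4`, `q ≥ 1` and `p + q = n` or `p + q + 1 = n`, and for `p + q + 1 = 5`: either `p ≤ 2` or
   (`p = 3`, `q = 1` and `H_1(F_i) = 0`, `h1_F1`, `h1_F2`).  (`p + q ≤ 4`.)  A tensor product with a
   zero factor is zero.  So by `rel_act` the maps `H_n(Y_i) → H_n(X_i)` have zero kernel and zero
   cokernel for `n ≤ 4` and zero cokernel for `n = 5`.
6. `h1_CC`: `H_1(CC) → H_1(X)` is bijective (`relPt`), `H_1(X) = 0`.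
-/

noncomputable section

namespace C715

open CategoryTheory

namespace Ang

open XX ActCat

private theorem ptF_comp {C D : Type} [SmallCategory C] [SmallCategory D] (F : C ⥤ D) (c : C) :
    ptF c ⋙ F = ptF (F.obj c) := by
  refine CategoryTheory.Functor.ext (fun _ => rfl) (fun x y u => ?_)
  simp

private theorem pt_sq {C D : Type} [SmallCategory C] [SmallCategory D] (F : C ⥤ D) (c : C) (n : ℕ)
    (x : (NC Pt).X n) :
    (NCmap F).f n ((NCmap (ptF c)).f n x) =
      (NCmap (ptF (F.obj c))).f n ((Cx.Hom.id (NC Pt)).f n x) := by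
  have h := congrArg (fun g : Cx.Hom (NC Pt) (NC D) => g.f n x) (NCmap_comp (ptF c) F)
  rw [ptF_comp] at h
  exact h

private theorem qis_id (A : Cx) : Cx.Qis (Cx.Hom.id A) := fun n =>
  ⟨fun a b h => by rwa [Cx.H_id, Cx.H_id] at h, fun y => ⟨y, Cx.H_id A n y⟩⟩

/-- comparison of the bases -/
private def cc {C D : Type} [SmallCategory C] [SmallCategory D] (F : C ⥤ D) (c : C) :
    Cx.Hom (relC (ptF c)) (relC (ptF (F.obj c))) :=
  Cx.cokerMap (NCmap (ptF c)) (NCmap (ptF (F.obj c))) (Cx.Hom.id _) (NCmap F) (pt_sq F c)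

private theorem cc_qis {C D : Type} [SmallCategory C] [SmallCategory D] {F : C ⥤ D} (hF : HIso F)
    (c : C) : Cx.Qis (cc F c) :=
  Cx.coker_qis _ _ (ptF_inj c) (ptF_inj _) _ _ (pt_sq F c) (qis_id _) hF

private theorem tens_left {V W : Type} [AddCommGroup V] [Module ℚ V] [AddCommGroup W] [Module ℚ W]
    (h : Subsingleton V) : Subsingleton (TensorProduct ℚ V W) := by
  have key : ∀ x : TensorProduct ℚ V W, x = 0 := by
    intro x
    induction x with
    | zero => rfl
    | tmul v w => rw [Subsingleton.elim v 0, TensorProduct.zero_tmul]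
    | add a b ha hb => rw [ha, hb, add_zero]
  exact ⟨fun a b => (key a).trans (key b).symm⟩

private theorem tens_right {V W : Type} [AddCommGroup V] [Module ℚ V] [AddCommGroup W]
    [Module ℚ W] (h : Subsingleton W) : Subsingleton (TensorProduct ℚ V W) := by
  have key : ∀ x : TensorProduct ℚ V W, x = 0 := by
    intro x
    induction x with
    | zero => rfl
    | tmul v w => rw [Subsingleton.elim w 0, TensorProduct.tmul_zero]
    | add a b ha hb => rw [ha, hb, add_zero]
  exact ⟨fun a b => (key a).trans (key b).symm⟩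

private theorem inj_of_ker {V W : Type} [AddCommGroup V] [Module ℚ V] [AddCommGroup W]
    [Module ℚ W] (f : V →ₗ[ℚ] W) (h : Serre.triv.P (LinearMap.ker f)) : Function.Injective f := by
  have h' : Subsingleton (LinearMap.ker f) := h
  rw [← LinearMap.ker_eq_bot, Submodule.eq_bot_iff]
  intro x hx
  exact congrArg Subtype.val (Subsingleton.elim (⟨x, hx⟩ : LinearMap.ker f) 0)

private theorem surj_of_coker {V W : Type} [AddCommGroup V] [Module ℚ V] [AddCommGroup W]
    [Module ℚ W] (f : V →ₗ[ℚ] W) (h : Serre.triv.P (W ⧸ LinearMap.range f)) :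
    Function.Surjective f := by
  have h' : Subsingleton (W ⧸ LinearMap.range f) := h
  intro y
  have h1 : (Submodule.Quotient.mk y : W ⧸ LinearMap.range f) = 0 := Subsingleton.elim _ _
  exact (Submodule.Quotient.mk_eq_zero _).1 h1

private theorem zero_X : Subsingleton ((relC (ptF (⟨a0⟩ : CC.Obj))).H 0) :=
  relPt_zero _ (H0_of_connected conn_CC)

/-- comparison map for `T1` -/
private def c1 : Cx.Hom (relC (ptF (⟨o1⟩ : (T1.enl N1 N1_adm N1_conj).Obj)))
    (relC (ptF (⟨a0⟩ : CC.Obj))) := cc Q1 (⟨o1⟩ : B1.Obj)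

/-- comparison map for `T2` -/
private def c2 : Cx.Hom (relC (ptF (⟨o2⟩ : (T2.enl N2 N2_adm N2_conj).Obj)))
    (relC (ptF (⟨a0⟩ : CC.Obj))) := cc Q2 (⟨o2⟩ : B2.Obj)

private theorem c1_qis : Cx.Qis c1 := cc_qis hiso_Q1 _

private theorem c2_qis : Cx.Qis c2 := cc_qis hiso_Q2 _

private theorem proj_Q1 : (T1.proj N1 N1_adm N1_conj N1_le ⋙ Q1 : T1.Obj ⥤ CC.Obj) = R1 := by
  refine CategoryTheory.Functor.ext (fun _ => rfl) (fun x y u => ?_)
  induction u using ActCat.ind with
  | h g hg =>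
    refine Eq.trans ?_ (Category.id_comp _).symm
    exact (Category.comp_id _).symm

private theorem proj_Q2 : (T2.proj N2 N2_adm N2_conj N2_le ⋙ Q2 : T2.Obj ⥤ CC.Obj) = R2 := by
  refine CategoryTheory.Functor.ext (fun _ => rfl) (fun x y u => ?_)
  induction u using ActCat.ind with
  | h g hg =>
    refine Eq.trans ?_ (Category.id_comp _).symm
    exact (Category.comp_id _).symm

private theorem kap1_eq : kap1 = (T1.relActMap N1 N1_adm N1_conj N1_le o1).comp c1 := by
  refine Cx.Hom.ext (funext fun n => ?_)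
  refine Submodule.linearMap_qext _ (LinearMap.ext fun x => ?_)
  have h := congrArg (fun g : Cx.Hom (NC T1.Obj) (NC CC.Obj) => g.f n x)
    (NCmap_comp (T1.proj N1 N1_adm N1_conj N1_le) (Q1 : (T1.enl N1 N1_adm N1_conj).Obj ⥤ CC.Obj))
  rw [proj_Q1] at h
  exact congrArg Submodule.Quotient.mk h.symm

private theorem kap2_eq : kap2 = (T2.relActMap N2 N2_adm N2_conj N2_le o2).comp c2 := by
  refine Cx.Hom.ext (funext fun n => ?_)
  refine Submodule.linearMap_qext _ (LinearMap.ext fun x => ?_)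
  have h := congrArg (fun g : Cx.Hom (NC T2.Obj) (NC CC.Obj) => g.f n x)
    (NCmap_comp (T2.proj N2 N2_adm N2_conj N2_le) (Q2 : (T2.enl N2 N2_adm N2_conj).Obj ⥤ CC.Obj))
  rw [proj_Q2] at h
  exact congrArg Submodule.Quotient.mk h.symm

private theorem conn_F2 (a b : F2.Obj) :
    Relation.EqvGen (fun x y : F2.Obj => Nonempty (x ⟶ y)) a b := by
  have h : a = b := by
    cases a
    cases b
    rfl
  rw [h]
  exact Relation.EqvGen.refl _

private theorem Y2_zero (p : ℕ) (hp : p ≤ 2) :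
    Subsingleton ((relC (T2.fibIncl N2 N2_adm N2_le o2)).H p) := by
  obtain ⟨h1, h2, h3⟩ := relAcy acy_T2 (T2.fibIncl N2 N2_adm N2_le o2)
    (T2.fibIncl_inj N2 N2_adm N2_le o2) ⟨⟨()⟩⟩ (H0_of_connected conn_F2)
  obtain rfl | rfl | rfl : p = 0 ∨ p = 1 ∨ p = 2 := by omega
  · exact h2
  · exact h3
  · have h4 := h1 0
    have h5 : Subsingleton (HC F2.Obj 1) := h1_F2
    exact h4.1.subsingleton (β := HC F2.Obj 1)

theorem low_X (p : ℕ) (hp : p ≤ 2) : Subsingleton ((relC (ptF (⟨a0⟩ : CC.Obj))).H p) := by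
  have key : ∀ p ≤ 2, Subsingleton ((relC (ptF (⟨o2⟩ : (T2.enl N2 N2_adm N2_conj).Obj))).H p) := by
    have h0 : Subsingleton ((relC (ptF (⟨o2⟩ : (T2.enl N2 N2_adm N2_conj).Obj))).H 0) := by
      have := zero_X
      exact (c2_qis 0).1.subsingleton
    intro p hp
    obtain rfl | hp1 : p = 0 ∨ 1 ≤ p := by omega
    · exact h0
    · have h1 := (T2.rel_act N2 N2_adm N2_conj N2_le o2 fc2 Serre.triv p).2 (fun p' q hq h => by
        obtain rfl : p' = 0 := by omega
        exact tens_left h0)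
      have h2 := surj_of_coker _ h1
      have h3 := Y2_zero p hp
      exact h2.subsingleton
  have := key p hp
  exact (c2_qis p).2.subsingleton

private theorem low_X1 (p : ℕ) (hp : p ≤ 2) :
    Subsingleton ((relC (ptF (⟨o1⟩ : (T1.enl N1 N1_adm N1_conj).Obj))).H p) := by
  have := low_X p hp
  exact (c1_qis p).1.subsingleton

private theorem low_X2 (p : ℕ) (hp : p ≤ 2) :
    Subsingleton ((relC (ptF (⟨o2⟩ : (T2.enl N2 N2_adm N2_conj).Obj))).H p) := by
  have := low_X p hp
  exact (c2_qis p).1.subsingleton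

theorem low1 (n : ℕ) (hn : n ≤ 4) : Function.Bijective (kap1.H n) := by
  have h1 := (T1.rel_act N1 N1_adm N1_conj N1_le o1 fc1 Serre.triv n)
  have h2 : Function.Bijective ((T1.relActMap N1 N1_adm N1_conj N1_le o1).H n) := by
    refine ⟨inj_of_ker _ (h1.1 fun p q hq h => ?_), surj_of_coker _ (h1.2 fun p q hq h => ?_)⟩
    · by_cases hp : p ≤ 2
      · exact tens_left (low_X1 p hp)
      · obtain rfl : q = 1 := by omega
        exact tens_right h1_F1
    · exact tens_left (low_X1 p (by omega))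
  have h3 : kap1.H n = (c1.H n).comp ((T1.relActMap N1 N1_adm N1_conj N1_le o1).H n) := by
    rw [kap1_eq]
    exact LinearMap.ext fun y => Cx.H_comp _ _ n y
  rw [h3]
  exact (c1_qis n).comp h2

private theorem kap2_H (n : ℕ) :
    kap2.H n = (c2.H n).comp ((T2.relActMap N2 N2_adm N2_conj N2_le o2).H n) := by
  rw [kap2_eq]
  exact LinearMap.ext fun y => Cx.H_comp _ _ n y

theorem low2 (n : ℕ) (hn : n ≤ 4) : Function.Bijective (kap2.H n) := by
  have h1 := (T2.rel_act N2 N2_adm N2_conj N2_le o2 fc2 Serre.triv n)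
  have h2 : Function.Bijective ((T2.relActMap N2 N2_adm N2_conj N2_le o2).H n) := by
    refine ⟨inj_of_ker _ (h1.1 fun p q hq h => ?_), surj_of_coker _ (h1.2 fun p q hq h => ?_)⟩
    · by_cases hp : p ≤ 2
      · exact tens_left (low_X2 p hp)
      · obtain rfl : q = 1 := by omega
        exact tens_right h1_F2
    · exact tens_left (low_X2 p (by omega))
  rw [kap2_H]
  exact (c2_qis n).comp h2

theorem low2s : Function.Surjective (kap2.H 5) := by
  have h1 := (T2.rel_act N2 N2_adm N2_conj N2_le o2 fc2 Serre.triv 5)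
  have h2 : Function.Surjective ((T2.relActMap N2 N2_adm N2_conj N2_le o2).H 5) := by
    refine surj_of_coker _ (h1.2 fun p q hq h => ?_)
    by_cases hp : p ≤ 2
    · exact tens_left (low_X2 p hp)
    · obtain rfl : q = 1 := by omega
      exact tens_right h1_F2
  rw [kap2_H]
  exact (c2_qis 5).2.comp h2

theorem h1_CC : Subsingleton (HC CC.Obj 1) := by
  have := low_X 1 (by norm_num)
  exact (relPt (⟨a0⟩ : CC.Obj) 0).1.subsingleton

end Ang
end C715
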