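import Pool.Agent.Work.MP_c71557_gt.A.ShT
import Pool.Agent.Work.MP_c71557_gt.A.LowA
import Pool.Agent.Work.MP_c71557_gt.H.Les

set_option autoImplicit false
set_option linter.unusedVariables false

/-!
# MP_c71557_gt, module A/ExA: exactness at `H_q(AA)` (M)

Proof of `ex_PhA`.  Let `m = q + 1 ≤ 4`.  `w = HCmap T1A m w1` (`hiso_T1A`, A/ShT).  `T1A ⋙ RA = R1`
(functor extensionality, arrows by `ActCat.ind`), so `HCmap R1 m w1 = 0`.  Let
`j = T1.fibIncl N1 N1_adm N1_le o1`, `Y1 = relC j`, `u = (toCoker (NCmap j)).H m w1 ∈ H_m(Y1)`.  Then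
`kap1.H m u = (toCoker (NCmap (ptF ⟨a0⟩))).H m (HCmap R1 m w1) = 0` (on representatives), so `u = 0` by
`low1` (A/LowA).  By `exact_mid` (H/Les) for `coker_SES (NCmap j) (NCmap_inj j (fibIncl_inj …))`
(H/Base, H/RelPt, H/RelAct): `w1 = HCmap j m v`; `v = HCmap kS m s` (`hiso_kS`, A/CS).  Finally
`kS ⋙ j ⋙ T1A = PhA` (functor extensionality), so `w = HCmap PhA m s`.
-/

noncomputable section

namespace C715

open CategoryTheory

namespace Ang

open XX ActCat

private theorem T1A_RA : T1A ⋙ RA = R1 := by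
  refine CategoryTheory.Functor.ext (fun _ => rfl) (fun x y u => ?_)
  induction u using ActCat.ind with
  | h g hg =>
    refine Eq.trans ?_ (Category.id_comp _).symm
    exact (Category.comp_id _).symm

private theorem kS_PhA : (kS ⋙ T1.fibIncl N1 N1_adm N1_le o1) ⋙ T1A = PhA := by
  refine CategoryTheory.Functor.ext (fun _ => rfl) (fun x y u => ?_)
  induction u using ActCat.ind with
  | h g hg =>
    refine Eq.trans ?_ (Category.id_comp _).symm
    exact (Category.comp_id _).symm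

private theorem PhA_RA : PhA ⋙ RA = toPt _ ⋙ ptF (⟨a0⟩ : CC.Obj) := by
  refine CategoryTheory.Functor.ext (fun _ => rfl) (fun x y u => ?_)
  induction u using ActCat.ind with
  | h g hg =>
    refine Eq.trans ?_ (Category.id_comp _).symm
    refine Eq.trans ?_ (Category.comp_id _).symm
    refine cl_eq.2 ?_
    change (g : XX)⁻¹ * 1 ∈ nb 7 8
    rw [mul_one]
    exact (nb 7 8).inv_mem (mem_KS.1 hg)

theorem ex_PhA (q : ℕ) (hq : q ≤ 3) (w : HC AA.Obj (q + 1)) (hw : HCmap RA (q + 1) w = 0) :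
    ∃ s : HC (sg KS).Obj (q + 1), HCmap PhA (q + 1) s = w := by
  obtain ⟨w1, rfl⟩ := (hiso_T1A (q + 1)).2 w
  rw [← HCmap_comp, T1A_RA] at hw
  have h1 : kap1.H (q + 1) ((Cx.toCoker (NCmap (T1.fibIncl N1 N1_adm N1_le o1))).H (q + 1) w1) =
      (Cx.toCoker (NCmap (ptF (⟨a0⟩ : CC.Obj)))).H (q + 1) (HCmap R1 (q + 1) w1) := by
    induction w1 using Cx.H_ind with
    | h x hx => rfl
  rw [hw, map_zero] at h1
  have h2 : (Cx.toCoker (NCmap (T1.fibIncl N1 N1_adm N1_le o1))).H (q + 1) w1 = 0 :=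
    (low1 (q + 1) (by omega)).1 (by rw [h1, map_zero])
  obtain ⟨v, rfl⟩ := (Cx.exact_mid (Cx.coker_SES (NCmap (T1.fibIncl N1 N1_adm N1_le o1))
    (NCmap_inj _ (T1.fibIncl_inj N1 N1_adm N1_le o1))) (q + 1) w1).1 h2
  obtain ⟨s, rfl⟩ := (hiso_kS (q + 1)).2 v
  refine ⟨s, ?_⟩
  rw [← kS_PhA, HCmap_comp, HCmap_comp]

/-- `KS` acts trivially near `[7,8]` -/
theorem RA_PhA (q : ℕ) (s : HC (sg KS).Obj (q + 1)) :
    HCmap RA (q + 1) (HCmap PhA (q + 1) s) = 0 := by
  rw [← HCmap_comp, PhA_RA, HCmap_comp]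
  have hp : Subsingleton (HC ActCat.Pt (q + 1)) := acy_pt.2.2 q
  rw [Subsingleton.elim (HCmap (toPt (sg KS).Obj) (q + 1) s) 0, map_zero]

end Ang
end C715
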