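import Pool.Agent.Work.MP_c71557_gt.A.DefsZ

set_option autoImplicit false
set_option linter.unusedVariables false

/-!
# MP_c71557_gt, module A/PzB: the exact sequence of the infinite cyclic covering (M)

`pz_ses`: `0 → C(pzE) → C(pzE) → C(pz) → 0` is exact; the maps are `1 - pzS` and `pzPi`.

Proof.  Simplices: an `n`-simplex `σ` of `A.pz` and `k ∈ ℤ` determine a unique simplex `L σ k` of
`A.pzE` over `σ` with first vertex `((σ.o 0).o, k)`: if `g_{ij}` represents `σ.m i j`, the second
component `c_{ij} = toAdd g_{ij}.2` does not depend on the representative (`N = (A.N a).prod ⊥`) and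
`c_{ij} + c_{jl} = c_{il}`; the vertices are `((σ.o i).o, k + c_{0i})` and the arrows the classes of
the same elements.  So `τ ↦ (τ.push pzPi, (τ.o 0).o.2)` is a bijection
`Sx A.pzE.Obj n ≃ Sx A.pz.Obj n × ℤ`, under which `pzS` becomes `(σ, k) ↦ (σ, k + 1)`.
(A convenient way to get `L`: the functor `χ : A.pz → ℤ`-torsor is not needed; one can also prove
injectivity and surjectivity of `τ ↦ (τ.push pzPi, k)` directly with `Sx.ext`, `hom_surj`.)

Linear algebra, for a set `X` and `V = (X × ℤ →₀ ℚ)`, `S (x,k) = (x,k+1)`: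
* `1 - S` is injective: if `v = S v` then the finite support of `v` is invariant under
  `(x,k) ↦ (x,k+1)`, so it is empty;
* the image of `1 - S` is the kernel of `V → (X →₀ ℚ)`: modulo the image `[(x,k)] = [(x,0)]` for all
  `k ∈ ℤ` (induction), so `v ≡ ∑_x (sum of the coefficients over x) (x,0)`.
-/

noncomputable section

namespace C715

open CategoryTheory

section lin

variable {E X : Type} (π : E → X) (κ : E → ℤ) (s : E → E)

/-- the data of an infinite cyclic covering of sets -/
private structure Cov (π : E → X) (κ : E → ℤ) (s : E → E) : Prop where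
  inj : ∀ e e', π e = π e' → κ e = κ e' → e = e'
  surj : ∀ x k, ∃ e, π e = x ∧ κ e = k
  sp : ∀ e, π (s e) = π e
  sk : ∀ e, κ (s e) = κ e + 1

variable {π κ s}

private theorem Cov.s_inj (h : Cov π κ s) : Function.Injective s := by
  intro e e' he
  apply h.inj
  · rw [← h.sp e, ← h.sp e', he]
  · have h1 := h.sk e
    have h2 := h.sk e'
    rw [he] at h1
    omega

private theorem Cov.s_surj (h : Cov π κ s) (e : E) : ∃ e', s e' = e ∧ κ e' = κ e - 1 := by
  obtain ⟨e', h1, h2⟩ := h.surj (π e) (κ e - 1)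
  refine ⟨e', ?_, h2⟩
  apply h.inj
  · rw [h.sp, h1]
  · rw [h.sk, h2]
    ring

private theorem Cov.injective (h : Cov π κ s) :
    Function.Injective (LinearMap.id - Finsupp.lmapDomain ℚ ℚ s : (E →₀ ℚ) →ₗ[ℚ] (E →₀ ℚ)) := by
  classical
  rw [← LinearMap.ker_eq_bot, LinearMap.ker_eq_bot']
  intro v hv
  have hv' : v = Finsupp.mapDomain s v := by
    rw [LinearMap.sub_apply, sub_eq_zero] at hv
    exact hv
  by_contra hne
  have hsup : v.support.Nonempty := Finsupp.support_nonempty_iff.2 hne
  obtain ⟨e, he, hmin⟩ := v.support.exists_min_image κ hsup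
  obtain ⟨e', h1, h2⟩ := h.s_surj e
  have h3 : v e = v e' := by
    conv_lhs => rw [hv', ← h1]
    exact Finsupp.mapDomain_apply h.s_inj v e'
  have h4 : e' ∈ v.support := by
    rw [Finsupp.mem_support_iff, ← h3]
    exact Finsupp.mem_support_iff.1 he
  have := hmin e' h4
  omega

private theorem Cov.single_mem (h : Cov π κ s) (e₀ : X → E) (h0 : ∀ x, π (e₀ x) = x)
    (h0' : ∀ x, κ (e₀ x) = 0) (m : ℤ) : ∀ e, κ e = m →
    Finsupp.single e (1:ℚ) - Finsupp.single (e₀ (π e)) 1 ∈ LinearMap.range
      (LinearMap.id - Finsupp.lmapDomain ℚ ℚ s : (E →₀ ℚ) →ₗ[ℚ] (E →₀ ℚ)) := by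
  have hs : ∀ e : E, Finsupp.single e (1:ℚ) - Finsupp.single (s e) 1 ∈ LinearMap.range
      (LinearMap.id - Finsupp.lmapDomain ℚ ℚ s : (E →₀ ℚ) →ₗ[ℚ] (E →₀ ℚ)) := by
    intro e
    refine ⟨Finsupp.single e 1, ?_⟩
    rw [LinearMap.sub_apply, LinearMap.id_apply]
    congr 1
    exact Finsupp.mapDomain_single
  induction m using Int.induction_on with
  | zero =>
    intro e he
    have : e = e₀ (π e) := h.inj _ _ (h0 _).symm (by rw [he, h0'])
    rw [← this, sub_self]
    exact Submodule.zero_mem _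
  | succ m ih =>
    intro e he
    obtain ⟨e', h1, h2⟩ := h.s_surj e
    have h3 := ih e' (by omega)
    have h4 : π e' = π e := by rw [← h1, h.sp]
    rw [h4] at h3
    have h5 := hs e'
    rw [h1] at h5
    have e6 : Finsupp.single e (1:ℚ) - Finsupp.single (e₀ (π e)) 1 =
        (Finsupp.single e' (1:ℚ) - Finsupp.single (e₀ (π e)) 1) -
        (Finsupp.single e' (1:ℚ) - Finsupp.single e 1) := by abel
    rw [e6]
    exact Submodule.sub_mem _ h3 h5
  | pred m ih =>
    intro e he
    have h3 := ih (s e) (by rw [h.sk]; omega)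
    rw [h.sp] at h3
    have h5 := hs e
    have e6 : Finsupp.single e (1:ℚ) - Finsupp.single (e₀ (π e)) 1 =
        (Finsupp.single (s e) (1:ℚ) - Finsupp.single (e₀ (π e)) 1) +
        (Finsupp.single e (1:ℚ) - Finsupp.single (s e) 1) := by abel
    rw [e6]
    exact Submodule.add_mem _ h3 h5

private theorem Cov.exact (h : Cov π κ s) :
    Function.Exact (LinearMap.id - Finsupp.lmapDomain ℚ ℚ s : (E →₀ ℚ) →ₗ[ℚ] (E →₀ ℚ))
      (Finsupp.lmapDomain ℚ ℚ π : (E →₀ ℚ) →ₗ[ℚ] (X →₀ ℚ)) := by
  classical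
  intro v
  constructor
  · intro hv
    choose e₀ h0 h0' using fun x => h.surj x 0
    have h1 : v - Finsupp.mapDomain (fun e => e₀ (π e)) v ∈ LinearMap.range
        (LinearMap.id - Finsupp.lmapDomain ℚ ℚ s : (E →₀ ℚ) →ₗ[ℚ] (E →₀ ℚ)) := by
      clear hv
      induction v using Finsupp.induction_linear with
      | zero => simp
      | add a b ha hb =>
        rw [Finsupp.mapDomain_add]
        have e : a + b - (Finsupp.mapDomain (fun e => e₀ (π e)) a +
            Finsupp.mapDomain (fun e => e₀ (π e)) b) =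
            (a - Finsupp.mapDomain (fun e => e₀ (π e)) a) +
            (b - Finsupp.mapDomain (fun e => e₀ (π e)) b) := by abel
        rw [e]
        exact Submodule.add_mem _ ha hb
      | single e c =>
        rw [Finsupp.mapDomain_single]
        have h2 := Submodule.smul_mem _ c (h.single_mem e₀ h0 h0' (κ e) e rfl)
        rw [smul_sub, Finsupp.smul_single, Finsupp.smul_single, smul_eq_mul, mul_one] at h2
        exact h2
    have h2 : Finsupp.mapDomain (fun e => e₀ (π e)) v = 0 := by
      have h3 : Finsupp.mapDomain π v = 0 := hv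
      have h4 : Finsupp.mapDomain (e₀ ∘ π) v = Finsupp.mapDomain e₀ (Finsupp.mapDomain π v) :=
        Finsupp.mapDomain_comp
      rw [h3, Finsupp.mapDomain_zero] at h4
      exact h4
    rw [h2, sub_zero] at h1
    exact h1
  · rintro ⟨w, rfl⟩
    rw [LinearMap.sub_apply, LinearMap.id_apply, map_sub, sub_eq_zero]
    show Finsupp.mapDomain π w = Finsupp.mapDomain π (Finsupp.mapDomain s w)
    rw [← Finsupp.mapDomain_comp]
    congr 1
    funext e
    exact (h.sp e).symm

private theorem Cov.surjective (h : Cov π κ s) :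
    Function.Surjective (Finsupp.lmapDomain ℚ ℚ π : (E →₀ ℚ) →ₗ[ℚ] (X →₀ ℚ)) :=
  Finsupp.mapDomain_surjective (fun x => by
    obtain ⟨e, he, -⟩ := h.surj x 0
    exact ⟨e, he⟩)

end lin

namespace ActCat

variable {Γ : Type} [Group Γ]

/-- the second component of an arrow of `A.pz` -/
private def cc (A : ActCat Γ) {x y : A.pz.Obj} (u : x ⟶ y) : ℤ :=
  Quotient.lift (s := A.pz.setoid x.o y.o) (fun g => Multiplicative.toAdd g.1.2) (by
    rintro ⟨g, hg⟩ ⟨g', hg'⟩ h
    have h2 : (g⁻¹ * g').2 = 1 := h.2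
    have h3 : g.2 = g'.2 := inv_mul_eq_one.1 h2
    show Multiplicative.toAdd g.2 = Multiplicative.toAdd g'.2
    rw [h3]) u

private theorem cc_id (A : ActCat Γ) (x : A.pz.Obj) : cc A (𝟙 x) = 0 := rfl

private theorem cc_comp (A : ActCat Γ) {x y z : A.pz.Obj} (u : x ⟶ y) (v : y ⟶ z) :
    cc A (u ≫ v) = cc A u + cc A v := by
  induction u using ActCat.ind with
  | h g hg =>
    induction v using ActCat.ind with
    | h g' hg' =>
      show Multiplicative.toAdd (g'.2 * g.2) = Multiplicative.toAdd g.2 + Multiplicative.toAdd g'.2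
      rw [toAdd_mul, add_comm]

private theorem pzE_snd (A : ActCat Γ) {x y : A.pzE.Obj} (u : x ⟶ y) :
    y.o.2 = x.o.2 + cc A (A.pzPi.map u) := by
  induction u using ActCat.ind with
  | h g hg => exact hg.2

private theorem pzPi_faithful (A : ActCat Γ) {x y : A.pzE.Obj} (u v : x ⟶ y)
    (h : A.pzPi.map u = A.pzPi.map v) : u = v := by
  induction u using ActCat.ind with
  | h g hg =>
    induction v using ActCat.ind with
    | h g' hg' =>
      have h' : A.pz.cl (a := x.o.1) (b := y.o.1) g hg.1 = A.pz.cl g' hg'.1 := h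
      have h'' := cl_eq.1 h'
      exact cl_eq.2 h''

/-- lift of an arrow -/
private theorem exists_lift (A : ActCat Γ) {x y : A.pz.Obj} (u : x ⟶ y) (k l : ℤ)
    (h : l = k + cc A u) :
    ∃ v : ((⟨(x.o, k)⟩ : A.pzE.Obj) ⟶ (⟨(y.o, l)⟩ : A.pzE.Obj)), A.pzPi.map v = u := by
  induction u using ActCat.ind with
  | h g hg => exact ⟨A.pzE.hom (a := (x.o, k)) (b := (y.o, l)) g ⟨hg, h⟩, rfl⟩

private theorem pz_cov (A : ActCat Γ) (n : ℕ) :
    Cov (fun τ : Sx A.pzE.Obj n => τ.push A.pzPi) (fun τ => (τ.o 0).o.2)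
      (fun τ => τ.push A.pzS) where
  inj := by
    intro τ τ' h hk
    have ho : τ.o = τ'.o := by
      funext i
      have h1 : A.pzPi.obj (τ.o i) = A.pzPi.obj (τ'.o i) := congrArg (fun ρ => ρ.o i) h
      have h2 : cc A (A.pzPi.map (τ.m 0 i (Fin.zero_le i))) =
          cc A (A.pzPi.map (τ'.m 0 i (Fin.zero_le i))) :=
        congrArg (fun ρ : Sx A.pz.Obj n => cc A (ρ.m 0 i (Fin.zero_le i))) h
      have h3 := pzE_snd A (τ.m 0 i (Fin.zero_le i))
      have h4 := pzE_snd A (τ'.m 0 i (Fin.zero_le i))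
      have h5 : (τ.o i).o.1 = (τ'.o i).o.1 := congrArg (fun x : A.pz.Obj => x.o) h1
      have h6 : (τ.o i).o.2 = (τ'.o i).o.2 := by
        rw [h3, h4, h2, hk]
      exact Obj.ext (Prod.ext h5 h6)
    obtain ⟨o, m, ms, mc⟩ := τ
    obtain ⟨o', m', ms', mc'⟩ := τ'
    obtain rfl : o = o' := ho
    have hm : m = m' := by
      have h1 := (Sx.ext_iff.1 h).2
      have h2 := eq_of_heq h1
      funext i j hij
      apply pzPi_faithful
      exact congrFun (congrFun (congrFun h2 i) j) hij
    subst hm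
    rfl
  surj := by
    intro σ k
    have hl : ∀ (i j : Fin (n + 1)) (hij : i ≤ j),
        k + cc A (σ.m 0 j (Fin.zero_le j)) = k + cc A (σ.m 0 i (Fin.zero_le i)) +
          cc A (σ.m i j hij) := by
      intro i j hij
      rw [← σ.m_comp 0 i j (Fin.zero_le i) hij, cc_comp, add_assoc]
    choose v hv using fun (i j : Fin (n + 1)) (hij : i ≤ j) =>
      exists_lift A (σ.m i j hij) _ _ (hl i j hij)
    refine ⟨{ o := fun i => ⟨((σ.o i).o, k + cc A (σ.m 0 i (Fin.zero_le i)))⟩
              m := fun i j hij => v i j hij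
              m_self := fun i => pzPi_faithful A _ _ ((hv i i le_rfl).trans (σ.m_self i))
              m_comp := fun i j l hij hjl => pzPi_faithful A _ _ (by
                rw [Functor.map_comp, hv, hv, hv]
                exact σ.m_comp i j l hij hjl) }, ?_, ?_⟩
    · apply Sx.ext
      · rfl
      · apply heq_of_eq
        funext i j hij
        exact hv i j hij
    · show k + cc A (σ.m 0 0 _) = k
      rw [σ.m_self, cc_id, add_zero]
  sp := by
    intro τ
    have h : A.pzS ⋙ A.pzPi = A.pzPi := by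
      refine CategoryTheory.Functor.ext (fun _ => rfl) (fun x y u => ?_)
      induction u using ActCat.ind with
      | h g hg =>
        refine Eq.trans ?_ (Category.id_comp _).symm
        exact (Category.comp_id _).symm
    exact congrArg (fun F : A.pzE.Obj ⥤ A.pz.Obj => τ.push F) h
  sk := fun τ => rfl

theorem pz_ses (A : ActCat Γ) : Cx.SES A.pzD (NCmap A.pzPi) where
  inj n := (pz_cov A n).injective
  exact n := (pz_cov A n).exact
  surj n := (pz_cov A n).surjective

end ActCat
end C715
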