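import Pool.Agent.Work.MP_c71557_gt.A.PzA
import Pool.Agent.Work.MP_c71557_gt.A.PzB
import Pool.Agent.Work.MP_c71557_gt.H.Les

set_option autoImplicit false
set_option linter.unusedVariables false

/-!
# MP_c71557_gt, module A/PzC: the homology of `A × ℤ` (M)

`pz_bij`: `(x, w) ↦ pzIncl x + pzNt w` is a bijection `H_{n+1}(A) × H_n(A) → H_{n+1}(A × ℤ)`.

Proof.  Let `δ = Cx.delta (pz_ses A) n : H_{n+1}(pz) → H_n(pzE)` (H/Les).
1. `(A.pzD).H m = 0` for all `m`: on a class `[z]` it is `[z] - HCmap pzS [z] = 0` (`pzS_H`, A/PzA).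
   So by `exact_mid`, `exact_right`: `ker δ = image of HCmap pzPi (n+1)`, and `HCmap pzPi (n+1)` has
   the same image as `HCmap pzIncl (n+1)` (`pzI_pi`, `hiso_pzI`, `HCmap_comp`).
2. For a cycle `z ∈ Z_n(A)`: `δ (pzNt [z]) = - HCmap pzI [z]`.  Let `u = Functor.whiskerLeft A.pzI A.pzU :
   pzI → pzI ⋙ pzS` and `W = pr u n z - pr (𝟙 pzI) n z` (A/Pr).  Then `NCmap pzPi W =
   dpr pzT (𝟙 pzIncl) n z` by `pr_whiskerRight` and `pr_congr` (functors equal by `pzI_pi`, the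
   components are the same arrows), and `d W = pzS (pzI z) - pzI z - 0 = pzD (- pzI z)` by `d_pr`
   (or `d_pr_zero` if `n = 0`; for `n + 1` use `d z = 0`) and `NCmap_comp`.  `delta_spec`.
3. `HCmap pzIncl` is injective (`pz_ret`), `HCmap pzI` is bijective.
   Injectivity of the map: `pzIncl x + pzNt w = 0` gives, applying `δ` (which kills `pzIncl x`),
   `HCmap pzI w = 0`, so `w = 0`, `x = 0`.  Surjectivity: for `y` choose `w` with
   `HCmap pzI w = - δ y`; then `δ (y - pzNt w) = 0`, so `y - pzNt w = pzIncl x`.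
-/

noncomputable section

namespace C715

open CategoryTheory

namespace ActCat

variable {Γ : Type} [Group Γ]

private theorem pzD_H (A : ActCat Γ) (n : ℕ) (y : HC A.pzE.Obj n) : (A.pzD).H n y = 0 := by
  induction y using Cx.H_ind with
  | h x hx =>
    rw [Cx.H_cls, Cx.cls_eq_zero]
    have h1 := pzS_H A n ((NC A.pzE.Obj).cls n x hx)
    rw [HCmap, Cx.H_cls, Cx.cls_eq] at h1
    change x - (NCmap A.pzS).f n x ∈ _
    rw [← neg_sub]
    exact Submodule.neg_mem _ h1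

private theorem ker_delta (A : ActCat Γ) (n : ℕ) (y : HC A.pz.Obj (n + 1)) :
    Cx.delta (pz_ses A) n y = 0 ↔ ∃ x, HCmap A.pzIncl (n + 1) x = y := by
  have h1 := Cx.exact_right (pz_ses A) n y
  rw [h1]
  constructor
  · rintro ⟨w, rfl⟩
    obtain ⟨x, rfl⟩ := ((hiso_pzI A) (n + 1)).2 w
    refine ⟨x, ?_⟩
    rw [← pzI_pi, HCmap_comp]
  · rintro ⟨x, rfl⟩
    refine ⟨HCmap A.pzI (n + 1) x, ?_⟩
    rw [← pzI_pi, HCmap_comp]

private theorem pzIS_pi (A : ActCat Γ) : (A.pzI ⋙ A.pzS) ⋙ A.pzPi = A.pzIncl := by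
  refine CategoryTheory.Functor.ext (fun _ => rfl) (fun x y u => ?_)
  induction u using ActCat.ind with
  | h g hg =>
    refine Eq.trans ?_ (Category.id_comp _).symm
    exact (Category.comp_id _).symm

private theorem pz_W (A : ActCat Γ) (n : ℕ) (z : (NC A.Obj).X n) (hz : z ∈ (NC A.Obj).Z n) :
    ∃ W : (NC A.pzE.Obj).X (n + 1), (NCmap A.pzPi).f (n + 1) W = dpr A.pzT (𝟙 A.pzIncl) n z ∧
      A.pzD.f n (-((NCmap A.pzI).f n z)) = (NC A.pzE.Obj).d n W := by
  refine ⟨pr (Functor.whiskerLeft A.pzI A.pzU) n z - pr (𝟙 A.pzI) n z, ?_, ?_⟩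
  · rw [map_sub, pr_whiskerRight, pr_whiskerRight, dpr_apply]
    congr 1
    · exact pr_congr _ _ (pzI_pi A) (pzIS_pi A) (fun x => HEq.rfl) n z
    · exact pr_congr _ _ (pzI_pi A) (pzI_pi A) (fun x => heq_of_eq (A.pzPi.map_id _)) n z
  · have hD : A.pzD.f n (-((NCmap A.pzI).f n z)) =
        (NCmap (A.pzI ⋙ A.pzS)).f n z - (NCmap A.pzI).f n z := by
      change -((NCmap A.pzI).f n z) - (NCmap A.pzS).f n (-((NCmap A.pzI).f n z)) = _
      have h1 : (NCmap A.pzS).f n ((NCmap A.pzI).f n z) = (NCmap (A.pzI ⋙ A.pzS)).f n z := by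
        rw [← NCmap_comp]
        rfl
      rw [map_neg, h1]
      abel
    rw [hD, map_sub]
    cases n with
    | zero =>
      rw [d_pr_zero, d_pr_zero, sub_self, sub_zero]
      rfl
    | succ n =>
      have h1 := d_pr (Functor.whiskerLeft A.pzI A.pzU) n z
      have h2 := d_pr (𝟙 A.pzI) n z
      rw [Cx.mem_Z_succ.1 hz, map_zero, add_zero] at h1 h2
      rw [h1, h2, sub_self, sub_zero]
      rfl

private theorem delta_nt (A : ActCat Γ) (n : ℕ) (w : HC A.Obj n) :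
    Cx.delta (pz_ses A) n (A.pzNt n w) = -(HCmap A.pzI n w) := by
  induction w using Cx.H_ind with
  | h z hz =>
    obtain ⟨W, hW1, hW2⟩ := pz_W A n z hz
    have hb : (NCmap A.pzPi).f (n + 1) W ∈ (NC A.pz.Obj).Z (n + 1) := by
      rw [hW1]
      exact dpr_Z A.pzT (𝟙 A.pzIncl) n hz
    have ha : -((NCmap A.pzI).f n z) ∈ (NC A.pzE.Obj).Z n :=
      Submodule.neg_mem _ ((NCmap A.pzI).map_Z n hz)
    have h1 := Cx.delta_spec (pz_ses A) n W _ hb hW2 ha
    have h2 : A.pzNt n ((NC A.Obj).cls n z hz) =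
        (NC A.pz.Obj).cls (n + 1) ((NCmap A.pzPi).f (n + 1) W) hb := by
      refine (nt_cls A.pzT (𝟙 A.pzIncl) n z hz).trans ?_
      rw [Cx.cls_eq, hW1, sub_self]
      exact Submodule.zero_mem _
    rw [h2, h1]
    rfl

theorem pz_bij (A : ActCat Γ) (n : ℕ) : Function.Bijective
    (fun x : HC A.Obj (n + 1) × HC A.Obj n => HCmap A.pzIncl (n + 1) x.1 + A.pzNt n x.2) := by
  have hI : ∀ x, Cx.delta (pz_ses A) n (HCmap A.pzIncl (n + 1) x) = 0 := fun x =>
    (ker_delta A n _).2 ⟨x, rfl⟩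
  constructor
  · rintro ⟨x, w⟩ ⟨x', w'⟩ h
    have h1 : HCmap A.pzIncl (n + 1) x + A.pzNt n w =
      HCmap A.pzIncl (n + 1) x' + A.pzNt n w' := h
    have h2 := congrArg (Cx.delta (pz_ses A) n) h1
    rw [map_add, map_add, hI, hI, zero_add, zero_add, delta_nt, delta_nt, neg_inj] at h2
    obtain rfl : w = w' := ((hiso_pzI A) n).1 h2
    have h3 := add_right_cancel h1
    obtain rfl : x = x' := pz_ret A (n + 1) h3
    rfl
  · intro y
    obtain ⟨w, hw⟩ := ((hiso_pzI A) n).2 (-(Cx.delta (pz_ses A) n y))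
    have hw' : HCmap A.pzI n w = -(Cx.delta (pz_ses A) n y) := hw
    have h1 : Cx.delta (pz_ses A) n (y - A.pzNt n w) = 0 := by
      rw [map_sub, delta_nt, hw', neg_neg, sub_self]
    obtain ⟨x, hx⟩ := (ker_delta A n _).1 h1
    refine ⟨(x, w), ?_⟩
    change HCmap A.pzIncl (n + 1) x + A.pzNt n w = y
    rw [hx, sub_add_cancel]

end ActCat
end C715
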