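import Pool.Agent.Work.MP_c71557_gt.A.DefsC
import Pool.Agent.Work.MP_c71557_gt.A.ActFF

set_option autoImplicit false
set_option linter.unusedVariables false

/-!
# MP_c71557_gt, module A/ThA: compatibilities (M)

* `hiso_Th`: `hiso_functor` (A/ActFF): `mZi` is bijective (inverse `(F,k) ↦ (F tau^k, k)`, i.e.
  `(F, k) ↦ (F * tI ^ (-k), k)`), `Adm` is preserved both ways (`mZ_mZi`), both `N` are trivial
  (`(⊥).prod ⊥` and `⊥`), the functor is the identity on objects.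
* `Th_AcBc`: `Th ⋙ AcBc = RAz` as functors (note `CC.pz = Bc` by `rfl`; `mZ_mZi`); `HCmap_comp`.
* `Th_AcF_incl`: `AA.pzIncl ⋙ Th ⋙ AcF = pA` (`mZi (F, 1) = (F, 1)`).
* `Th_AcF_nt`: `nt_whiskerRight`, `nt_congr` (A/Pr): the transformation `pzT` composed with `Th ⋙ AcF` is
  the class of `(mZi (1, tz)).1 = tI ^ 1 = tI`, as `tP`; the identity goes to the identity.
* `RAz_incl`: `AA.pzIncl ⋙ RAz = RA ⋙ CC.pzIncl`.
* `RAz_nt`: `nt_whiskerRight`, `nt_whiskerLeft`, `nt_congr`: `pzT` of `AA` composed with `RAz` is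
  `whiskerLeft RA (pzT of CC)`: the classes of `(1, tz)`.
* `nt_PhA`: `nt_whiskerLeft PhA tP (𝟙 pA)` and `nt_whiskerRight tA iA pA` (A/Pr), then `nt_congr`:
  `PhA ⋙ pA = PhB ⋙ pA` (functor extensionality), components `tI` and `1`.
-/

noncomputable section

namespace C715

open CategoryTheory

namespace Ang

open XX ActCat

private theorem mZi_inj {x : ↥Ft × Multiplicative ℤ} (h : mZi x = 1) : x = 1 := by
  have h1 := mZ_mZi x
  rw [h, map_one] at h1
  have h2 : (x.1 : XX) = 1 := (congrArg Prod.fst h1).symm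
  have h3 : x.2 = 1 := (congrArg Prod.snd h1).symm
  exact Prod.ext (Subtype.ext h2) h3

private theorem mZi_inv (g' : ↥Ft × Multiplicative ℤ) :
    mZi (g'.1 * tI ^ (-Multiplicative.toAdd g'.2), g'.2) = g' := by
  refine Prod.ext ?_ rfl
  change g'.1 * tI ^ (-Multiplicative.toAdd g'.2) * tI ^ (Multiplicative.toAdd g'.2) = g'.1
  rw [mul_assoc, ← zpow_add, neg_add_cancel, zpow_zero, mul_one]

theorem hiso_Th : HIso Th := by
  refine hiso_functor (A := AA.pz) (A' := Ac) (fun a => a) mZi (fun {a b g} h => by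
    change Into a (mZ (mZi g)).1 b
    rw [mZ_mZi]
    exact h) (fun {a n} h => by
    have h1 : n = 1 := by
      have h2 : n.1 = 1 := h.1
      have h3 : n.2 = 1 := h.2
      exact Prod.ext h2 h3
    rw [h1, map_one]
    exact Subgroup.one_mem _) ?_ ?_ ?_
  · intro a b g' hg'
    refine ⟨(g'.1 * tI ^ (-Multiplicative.toAdd g'.2), g'.2), ?_, ?_⟩
    · have h1 : Into a (mZ g').1 b := hg'
      rw [← mZi_inv g', mZ_mZi] at h1
      exact h1
    · rw [mZi_inv, inv_mul_cancel]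
      exact Subgroup.one_mem _
  · intro a b g g' hg hg' h
    have h1 : mZi (g⁻¹ * g') = 1 := Subgroup.mem_bot.1 h
    rw [mZi_inj h1]
    exact Subgroup.one_mem _
  · intro b'
    refine ⟨b', 1, Ac.one b', ?_⟩
    rw [inv_one]
    exact Ac.one b'

private theorem Th_AcBc_eq : Th ⋙ AcBc = (RAz : AA.pz.Obj ⥤ Bc.Obj) := by
  refine CategoryTheory.Functor.ext (fun _ => rfl) (fun x y u => ?_)
  induction u using ActCat.ind with
  | h g hg =>
    refine Eq.trans ?_ (Category.id_comp _).symm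
    refine Eq.trans ?_ (Category.comp_id _).symm
    refine cl_eq.2 ?_
    change (mZ (mZi g))⁻¹ * ((g.1 : XX), g.2) ∈ Bc.N x.o
    rw [mZ_mZi, inv_mul_cancel]
    exact Subgroup.one_mem _

theorem Th_AcBc (n : ℕ) (y : HC AA.pz.Obj n) :
    HCmap AcBc n (HCmap Th n y) = (HCmap RAz n y : HC Bc.Obj n) := by
  rw [← HCmap_comp, Th_AcBc_eq]
  rfl

private theorem Th_AcF_eq : (AA.pzIncl ⋙ Th) ⋙ AcF = pA := by
  refine CategoryTheory.Functor.ext (fun _ => rfl) (fun x y u => ?_)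
  induction u using ActCat.ind with
  | h g hg =>
    refine Eq.trans ?_ (Category.id_comp _).symm
    refine Eq.trans ?_ (Category.comp_id _).symm
    refine cl_eq.2 ?_
    change (g * tI ^ (0 : ℤ))⁻¹ * g ∈ (⊥ : Subgroup ↥Ft)
    rw [zpow_zero, mul_one, inv_mul_cancel]
    exact Subgroup.one_mem _

theorem Th_AcF_incl (n : ℕ) (x : HC AA.Obj n) :
    HCmap AcF n (HCmap Th n (HCmap AA.pzIncl n x)) = HCmap pA n x := by
  rw [← HCmap_comp, ← HCmap_comp]
  change (HCmap ((AA.pzIncl ⋙ Th) ⋙ AcF) n) x = _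
  rw [Th_AcF_eq]

theorem Th_AcF_nt (n : ℕ) (w : HC AA.Obj n) :
    HCmap AcF (n + 1) (HCmap Th (n + 1) (AA.pzNt n w)) = nt tP (𝟙 pA) n w := by
  unfold pzNt
  rw [nt_whiskerRight, nt_whiskerRight]
  refine nt_congr _ _ _ _ Th_AcF_eq Th_AcF_eq (fun x => ?_) (fun x => ?_) n w
  · refine heq_of_eq (cl_eq.2 ?_)
    change ((1 : ↥Ft) * tI ^ (1 : ℤ))⁻¹ * tI ∈ (⊥ : Subgroup ↥Ft)
    rw [zpow_one, one_mul, inv_mul_cancel]
    exact Subgroup.one_mem _
  · refine heq_of_eq (cl_eq.2 ?_)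
    change ((1 : ↥Ft) * tI ^ (0 : ℤ))⁻¹ * 1 ∈ (⊥ : Subgroup ↥Ft)
    rw [zpow_zero, one_mul, inv_one, one_mul]
    exact Subgroup.one_mem _

private theorem RAz_eq : AA.pzIncl ⋙ RAz = RA ⋙ CC.pzIncl := by
  refine CategoryTheory.Functor.ext (fun _ => rfl) (fun x y u => ?_)
  induction u using ActCat.ind with
  | h g hg =>
    refine Eq.trans ?_ (Category.id_comp _).symm
    exact (Category.comp_id _).symm

theorem RAz_incl (n : ℕ) (x : HC AA.Obj n) :
    HCmap RAz n (HCmap AA.pzIncl n x) = HCmap CC.pzIncl n (HCmap RA n x) := by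
  rw [← HCmap_comp, ← HCmap_comp, RAz_eq]

theorem RAz_nt (n : ℕ) (w : HC AA.Obj n) :
    HCmap RAz (n + 1) (AA.pzNt n w) = CC.pzNt n (HCmap RA n w) := by
  unfold pzNt
  rw [nt_whiskerRight, nt_whiskerLeft]
  refine nt_congr _ _ _ _ RAz_eq RAz_eq (fun x => ?_) (fun x => ?_) n w
  · exact heq_of_eq rfl
  · exact heq_of_eq rfl

private theorem PhAB : PhA ⋙ pA = PhB ⋙ pA := by
  refine CategoryTheory.Functor.ext (fun _ => rfl) (fun x y u => ?_)
  induction u using ActCat.ind with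
  | h g hg =>
    refine Eq.trans ?_ (Category.id_comp _).symm
    exact (Category.comp_id _).symm

theorem nt_PhA (q : ℕ) (s : HC (sg KS).Obj q) :
    nt tP (𝟙 pA) q (HCmap PhA q s) = HCmap pA (q + 1) (nt tA iA q s) := by
  rw [nt_whiskerRight, nt_whiskerLeft]
  refine nt_congr _ _ _ _ rfl PhAB (fun x => ?_) (fun x => ?_) q s
  · exact heq_of_eq rfl
  · exact heq_of_eq rfl

end Ang
end C715
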