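import Pool.Agent.Work.MP_c71557_gt.A.Sig2
import Pool.Agent.Work.MP_c71557_gt.A.ExA
import Pool.Agent.Work.MP_c71557_gt.A.ThA
import Pool.Agent.Work.MP_c71557_gt.A.PzC

set_option autoImplicit false
set_option linter.unusedVariables false

/-!
# MP_c71557_gt, module A/FinA: the angular theorem for all cells (M)

Notation: `p = HCmap pA` (bijective: `hiso_pA`, A/ShT), `R = HCmap RA`, `τ w = nt tP (𝟙 pA) n w`,
`Φ = HCmap PhA`, `ν s = nt tA iA q s`, so `R (ν s) = EE q s` by definition, `τ (Φ s) = p (ν s)`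
(`nt_PhA`, A/ThA).  Every `y ∈ H_{n+1}(Ac)` is `Th (pzIncl x + pzNt w)` with unique `x ∈ H_{n+1}(AA)`,
`w ∈ H_n(AA)` (`hiso_Th`, A/ThA; `pz_bij`, A/PzC), and (A/ThA)
  `AcBc y = pzIncl (R x) + pzNt (R w)` (in `CC.pz = Bc`),   `AcF y = p x + τ w`.

* `fin_inj`, `n + 1 ≤ 4`: let `y ↦ (0,0)` (the map is linear).  `pz_bij` for `CC`: `R x = 0`, `R w = 0`;
  `p x + τ w = 0`.  If `n = 0`: `R` is injective on `H_0` (`h0_inj`, `conn_AA`, A/ConnA), so `w = 0`,
  `p x = 0`, `x = 0`.  If `n = q + 1` (`q ≤ 2`): `w = Φ s` (`ex_PhA`, A/ExA), so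
  `p (x + ν s) = 0`, `x = - ν s`, `0 = R x = - EE s`, `s = 0` (`EE_bij`, A/Sig2), so `w = 0`, `x = 0`.
  Degree 0: `h0_inj AcBc conn_Ac`.
* `fin_surj`, `1 ≤ n + 1 ≤ 5`: given `(pzIncl u + pzNt v, f)` (`pz_bij` for `CC`), choose `w` with
  `R w = v`: `R` is surjective in degree `n ≤ 4`: degree 0: `h0_surj` (A/ConnA), degree 1:
  `h1_CC` (A/LowA), degree `q + 1 ≥ 2`: `R (ν s) = EE q s`, `EE_bij`, `EE_surj` (A/Sig2).  Let
  `x0 = p⁻¹ (f - τ w)`.  If `n = 0`: `H_1(CC) = 0` (`h1_CC`), so `R x0 = u`: take `(x0, w)`.  If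
  `n = q + 1`, `q ≤ 3`: choose `s` with `EE n s = u - R x0` (`EE_bij`, `EE_surj`) and take
  `x = x0 + ν s`, `w' = w - Φ s`: `R x = u`, `R w' = v` (`RA_PhA`, A/ExA), and
  `p x + τ w' = p x0 + p (ν s) + τ w - τ (Φ s) = f`.
-/

noncomputable section

namespace C715

open CategoryTheory

namespace Ang

open XX ActCat

theorem RA_surj (n : ℕ) (hn : n ≤ 5) : Function.Surjective (HCmap RA n) := by
  match n, hn with
  | 0, _ => exact h0_surj RA conn_CC ⟨⟨a0⟩⟩
  | 1, _ =>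
    intro y
    have := h1_CC
    exact ⟨0, Subsingleton.elim _ _⟩
  | q + 2, h =>
    intro y
    have h1 : Function.Surjective (EE (q + 1)) := by
      rcases Nat.lt_or_ge q 3 with h' | h'
      · exact (EE_bij q (by omega)).2
      · obtain rfl : q = 3 := by omega
        exact EE_surj
    obtain ⟨s, hs⟩ := h1 y
    exact ⟨nt tA iA (q + 1) s, hs⟩

/-- multiplication with the class of `tau⁻¹` -/
private abbrev ta (n : ℕ) : HC AA.Obj n →ₗ[ℚ] HC (sg (⊤ : Subgroup ↥Ft)).Obj (n + 1) :=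
  nt tP (𝟙 pA) n

private theorem decomp (n : ℕ) (y : HC Ac.Obj (n + 1)) : ∃ (x : HC AA.Obj (n + 1))
    (w : HC AA.Obj n), y = HCmap Th (n + 1) (HCmap AA.pzIncl (n + 1) x + AA.pzNt n w) := by
  obtain ⟨y', rfl⟩ := (hiso_Th (n + 1)).2 y
  obtain ⟨⟨x, w⟩, rfl⟩ := (pz_bij AA n).2 y'
  exact ⟨x, w, rfl⟩

private theorem AcBc_eq (n : ℕ) (x : HC AA.Obj (n + 1)) (w : HC AA.Obj n) :
    HCmap AcBc (n + 1) (HCmap Th (n + 1) (HCmap AA.pzIncl (n + 1) x + AA.pzNt n w)) =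
      (HCmap CC.pzIncl (n + 1) (HCmap RA (n + 1) x) + CC.pzNt n (HCmap RA n w) :
        HC CC.pz.Obj (n + 1)) := by
  rw [Th_AcBc, map_add, RAz_incl, RAz_nt]

private theorem AcF_eq (n : ℕ) (x : HC AA.Obj (n + 1)) (w : HC AA.Obj n) :
    HCmap AcF (n + 1) (HCmap Th (n + 1) (HCmap AA.pzIncl (n + 1) x + AA.pzNt n w)) =
      HCmap pA (n + 1) x + ta n w := by
  rw [map_add, map_add, Th_AcF_incl, Th_AcF_nt]

private theorem pz_zero_iff (n : ℕ) (x : HC CC.Obj (n + 1)) (w : HC CC.Obj n)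
    (h : HCmap CC.pzIncl (n + 1) x + CC.pzNt n w = 0) : x = 0 ∧ w = 0 := by
  have h1 := (pz_bij CC n).1 (a₁ := (x, w)) (a₂ := (0, 0)) (by
    change HCmap CC.pzIncl (n + 1) x + CC.pzNt n w = HCmap CC.pzIncl (n + 1) 0 + CC.pzNt n 0
    rw [h, map_zero, map_zero, add_zero])
  exact ⟨congrArg Prod.fst h1, congrArg Prod.snd h1⟩

theorem fin_inj (n : ℕ) (hn : n ≤ 4) : Function.Injective
    (fun x : HC Ac.Obj n => (HCmap AcBc n x, HCmap AcF n x)) := by
  rcases n with _ | n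
  · intro x y h
    exact h0_inj AcBc conn_Ac (congrArg Prod.fst h)
  · have key : ∀ y : HC Ac.Obj (n + 1), HCmap AcBc (n + 1) y = 0 → HCmap AcF (n + 1) y = 0 →
        y = 0 := by
      intro y hB hF
      obtain ⟨x, w, rfl⟩ := decomp n y
      rw [AcF_eq] at hF
      have hB' : HCmap CC.pzIncl (n + 1) (HCmap RA (n + 1) x) + CC.pzNt n (HCmap RA n w) = 0 :=
        (AcBc_eq n x w).symm.trans hB
      obtain ⟨hx, hw⟩ := pz_zero_iff n _ _ hB'
      have hw0 : w = 0 := by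
        rcases n with _ | q
        · exact h0_inj RA conn_AA (hw.trans (map_zero _).symm)
        · obtain ⟨s, rfl⟩ := ex_PhA q (by omega) w hw
          have h1 : HCmap pA (q + 1 + 1) (x + nt tA iA (q + 1) s) = 0 := by
            rw [map_add, ← nt_PhA]
            exact hF
          have h2 : x + nt tA iA (q + 1) s = 0 := (hiso_pA (q + 1 + 1)).1 (h1.trans (map_zero _).symm)
          have h3 : EE (q + 1) s = 0 := by
            have h4 : HCmap RA (q + 1 + 1) (x + nt tA iA (q + 1) s) = 0 := by rw [h2, map_zero]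
            rw [map_add, hx, zero_add] at h4
            exact h4
          have h5 : s = 0 := (EE_bij q (by omega)).1 (h3.trans (map_zero _).symm)
          rw [h5, map_zero]
      rw [hw0, map_zero, add_zero] at hF
      have hx0 : x = 0 := (hiso_pA (n + 1)).1 (hF.trans (map_zero _).symm)
      rw [hx0, hw0, map_zero, map_zero, add_zero, map_zero]
    intro y y' h
    have h1 : HCmap AcBc (n + 1) y = HCmap AcBc (n + 1) y' := congrArg Prod.fst h
    have h2 : HCmap AcF (n + 1) y = HCmap AcF (n + 1) y' := congrArg Prod.snd h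
    exact sub_eq_zero.1 (key (y - y') (by rw [map_sub, h1, sub_self]) (by rw [map_sub, h2, sub_self]))

theorem fin_surj (n : ℕ) (h1 : 1 ≤ n) (hn : n ≤ 5) : Function.Surjective
    (fun x : HC Ac.Obj n => (HCmap AcBc n x, HCmap AcF n x)) := by
  obtain ⟨n, rfl⟩ : ∃ m, n = m + 1 := ⟨n - 1, by omega⟩
  rintro ⟨b, f⟩
  obtain ⟨⟨u, v⟩, hb⟩ := (pz_bij CC n).2 b
  have hb' : HCmap CC.pzIncl (n + 1) u + CC.pzNt n v = b := hb
  obtain ⟨w, hw⟩ := RA_surj n (by omega) v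
  obtain ⟨x0, hx0⟩ := (hiso_pA (n + 1)).2 (f - ta n w)
  obtain ⟨x, w', hx, hw', hf⟩ : ∃ (x : HC AA.Obj (n + 1)) (w' : HC AA.Obj n),
      HCmap RA (n + 1) x = u ∧ HCmap RA n w' = v ∧ HCmap pA (n + 1) x + ta n w' = f := by
    rcases n with _ | q
    · have := h1_CC
      exact ⟨x0, w, Subsingleton.elim _ _, hw, by rw [hx0, sub_add_cancel]⟩
    · have h2 : Function.Surjective (EE (q + 1)) := by
        rcases Nat.lt_or_ge q 3 with h' | h'
        · exact (EE_bij q (by omega)).2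
        · obtain rfl : q = 3 := by omega
          exact EE_surj
      obtain ⟨s, hs⟩ := h2 (u - HCmap RA (q + 1 + 1) x0)
      refine ⟨x0 + nt tA iA (q + 1) s, w - HCmap PhA (q + 1) s, ?_, ?_, ?_⟩
      · rw [map_add]
        change _ + EE (q + 1) s = _
        rw [hs, add_sub_cancel]
      · rw [map_sub, RA_PhA, sub_zero, hw]
      · rw [map_add, map_sub, hx0, ← nt_PhA]
        change f - ta (q + 1) w + ta (q + 1) (HCmap PhA (q + 1) s) +
          (ta (q + 1) w - ta (q + 1) (HCmap PhA (q + 1) s)) = f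
        abel
  refine ⟨HCmap Th (n + 1) (HCmap AA.pzIncl (n + 1) x + AA.pzNt n w'), Prod.ext ?_ ?_⟩
  · refine (AcBc_eq n x w').trans ?_
    rw [hx, hw']
    exact hb'
  · exact (AcF_eq n x w').trans hf

end Ang
end C715
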