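import Pool.Agent.Work.MP_c71557_gt.A.Defs

set_option autoImplicit false

/-!
# MP_c71557_gt, module A/LinU: uniqueness of linear maps on an interval (S-M)

`ev_eq_of_lin`: let `V_F = cos • p + sin • q`, `V_G = cos • p' + sin • q'` on `[a,b]`.  The values at
`a` and `b` agree and `sin (b - a) ≠ 0`, so `p = p'`, `q = q'` and `V_F = V_G` on `[a,b]`.  Norms
give `F.r s = G.r s` (`‖r • e^{if}‖ = r`), and then `e^{i F.f s} = e^{i G.f s}`, i.e.
`F.f s - G.f s ∈ 2πℤ` for `s ∈ [a,b]` (`Complex.exp_eq_exp_iff_exists_int`).  The function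
`F.f - G.f` is continuous, vanishes at `a` and its values on the connected set `[a,b]` lie in
`2πℤ`: it is `0` (otherwise by the intermediate value theorem it takes a value in `(0, 2π)` or in
`(-2π, 0)`).
-/

namespace C715
namespace Ang

open XX

private theorem norm_V (F : XX) (s : ℝ) : ‖V F.f F.r s‖ = F.r s := by
  unfold V
  rw [norm_smul, Complex.norm_exp_ofReal_mul_I, mul_one, Real.norm_of_nonneg (F.pos s).le]

private theorem V_eq_iff (F G : XX) (s : ℝ) (h : V F.f F.r s = V G.f G.r s) :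
    F.r s = G.r s ∧ ∃ n : ℤ, F.f s = G.f s + n * (2 * Real.pi) := by
  have h1 : F.r s = G.r s := by rw [← norm_V, ← norm_V, h]
  refine ⟨h1, ?_⟩
  unfold V at h
  rw [h1] at h
  have h2 : Complex.exp (F.f s * Complex.I) = Complex.exp (G.f s * Complex.I) := by
    have h3 := smul_right_injective ℂ (G.pos s).ne'
    exact h3 h
  obtain ⟨n, hn⟩ := Complex.exp_eq_exp_iff_exists_int.1 h2
  refine ⟨n, ?_⟩
  have h4 : (F.f s : ℂ) = G.f s + n * (2 * Real.pi) := by
    have h5 : (F.f s : ℂ) * Complex.I = (G.f s + n * (2 * Real.pi)) * Complex.I := by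
      rw [hn]
      ring
    exact mul_right_cancel₀ Complex.I_ne_zero h5
  exact_mod_cast h4

theorem ev_eq_of_lin {F G : XX} {a b : ℝ} (hab : a < b) (hb : b < a + Real.pi)
    (hF : LinOn F.f F.r (Set.Icc a b)) (hG : LinOn G.f G.r (Set.Icc a b))
    (ha : F.ev a = G.ev a) (h : F.ev b = G.ev b) :
    ∀ s, a ≤ s → s ≤ b → F.ev s = G.ev s := by
  obtain ⟨p, q, hF⟩ := hF
  obtain ⟨p', q', hG⟩ := hG
  have hVa : V F.f F.r a = V G.f G.r a := by
    obtain ⟨h1, h2⟩ := ev_eq_iff.1 ha
    unfold V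
    rw [h1, h2]
  have hVb : V F.f F.r b = V G.f G.r b := by
    obtain ⟨h1, h2⟩ := ev_eq_iff.1 h
    unfold V
    rw [h1, h2]
  rw [hF a ⟨le_rfl, hab.le⟩, hG a ⟨le_rfl, hab.le⟩] at hVa
  rw [hF b ⟨hab.le, le_rfl⟩, hG b ⟨hab.le, le_rfl⟩] at hVb
  have hs : Real.sin (b - a) ≠ 0 :=
    (Real.sin_pos_of_pos_of_lt_pi (sub_pos.2 hab) (by linarith)).ne'
  have hp : p = p' := by
    have e : Real.sin (b - a) • (p - p') = 0 := by
      have : Real.sin (b - a) • (p - p') =
          Real.sin b • ((Real.cos a • p + Real.sin a • q) - (Real.cos a • p' + Real.sin a • q')) -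
          Real.sin a • ((Real.cos b • p + Real.sin b • q) -
            (Real.cos b • p' + Real.sin b • q')) := by
        rw [Real.sin_sub]
        module
      rw [this, hVa, hVb, sub_self, sub_self, smul_zero, smul_zero, sub_zero]
    exact sub_eq_zero.1 ((smul_eq_zero.1 e).resolve_left hs)
  have hq : q = q' := by
    have e : Real.sin (b - a) • (q - q') = 0 := by
      have : Real.sin (b - a) • (q - q') =
          Real.cos a • ((Real.cos b • p + Real.sin b • q) - (Real.cos b • p' + Real.sin b • q')) -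
          Real.cos b • ((Real.cos a • p + Real.sin a • q) -
            (Real.cos a • p' + Real.sin a • q')) := by
        rw [Real.sin_sub]
        module
      rw [this, hVa, hVb, sub_self, sub_self, smul_zero, smul_zero, sub_zero]
    exact sub_eq_zero.1 ((smul_eq_zero.1 e).resolve_left hs)
  have hV : ∀ s ∈ Set.Icc a b, V F.f F.r s = V G.f G.r s := by
    intro s hs
    rw [hF s hs, hG s hs, hp, hq]
  have hpi := Real.pi_pos
  have key : ∀ s ∈ Set.Icc a b, F.f s = G.f s := by
    intro s hs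
    obtain ⟨-, n, hn⟩ := V_eq_iff F G s (hV s hs)
    by_contra hne
    have hn0 : n ≠ 0 := by
      rintro rfl
      apply hne
      rw [hn, Int.cast_zero, zero_mul, add_zero]
    have hcont : ContinuousOn (fun u => |F.f u - G.f u|) (Set.Icc a s) :=
      ((F.continuous_f.sub G.continuous_f).abs).continuousOn
    have h0 : |F.f a - G.f a| = 0 := by
      rw [(ev_eq_iff.1 ha).1, sub_self, abs_zero]
    have h1 : 2 * Real.pi ≤ |F.f s - G.f s| := by
      rw [hn, add_sub_cancel_left, abs_mul, abs_of_pos (by positivity : (0 : ℝ) < 2 * Real.pi)]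
      have h2 : (1 : ℝ) ≤ |(n : ℝ)| := by
        rw [← Int.cast_abs]
        exact_mod_cast Int.one_le_abs hn0
      nlinarith
    have h3 := intermediate_value_Icc hs.1 hcont
    obtain ⟨u, hu, hu'⟩ := h3 (show Real.pi ∈ Set.Icc (|F.f a - G.f a|) (|F.f s - G.f s|) from
      ⟨by rw [h0]; exact hpi.le, by linarith⟩)
    obtain ⟨-, m, hm⟩ := V_eq_iff F G u (hV u ⟨hu.1, hu.2.trans hs.2⟩)
    have h4 : |F.f u - G.f u| = Real.pi := hu'
    rw [hm, add_sub_cancel_left, abs_mul, abs_of_pos (by positivity : (0 : ℝ) < 2 * Real.pi)] at h4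
    have h5 : |(m : ℝ)| * 2 = 1 := by
      have : (|(m : ℝ)| * 2) * Real.pi = 1 * Real.pi := by linarith
      exact mul_right_cancel₀ hpi.ne' this
    have h6 : |m| * 2 = 1 := by
      rw [← Int.cast_abs] at h5
      exact_mod_cast h5
    omega
  intro s h1 h2
  exact ev_eq_iff.2 ⟨key s ⟨h1, h2⟩, (V_eq_iff F G s (hV s ⟨h1, h2⟩)).1⟩

end Ang
end C715
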