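import Pool.Agent.Work.MP_c71557_gt.A.Defs

set_option autoImplicit false

/-!
# MP_c71557_gt, module A/Loc: elements of `XX` from local data, gluing (S-M)

* `exists_of_local`: the structure with `f`, `r`; `pos` because locally `r = G.r > 0`; `pl`: on
  `[t, t+e]` the pair agrees with `G`, and `G` is linear on `[t, t+e']`: `LinOn.mono`,
  `LinOn.congr`, take the minimum of the radii (the same on the left).
* `exists_glue`: `f s = if s ≤ t then F.f s else G.f s` is strictly monotone (use `F.f t = G.f t`)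
  and surjective (a value `y ≤ F.f t` is attained by `F.f.symm y ≤ t`, a value `y > G.f t` by
  `G.f.symm y > t`): `StrictMono.orderIsoOfSurjective`; `r` similarly; then `exists_of_local`
  (three cases `u < t`, `u = t`, `u > t` for the base point `u`; in the first and the last case take
  `e` smaller than the distance to `t`).
-/

namespace C715
namespace Ang

open XX

theorem exists_of_local (f : ℝ ≃o ℝ) (r : ℝ → ℝ)
    (h : ∀ t, ∃ e : ℝ, 0 < e ∧ (∃ G : XX, ∀ s, t ≤ s → s ≤ t + e → f s = G.f s ∧ r s = G.r s) ∧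
      (∃ G : XX, ∀ s, t - e ≤ s → s ≤ t → f s = G.f s ∧ r s = G.r s)) :
    ∃ F : XX, F.f = f ∧ F.r = r := by
  refine ⟨⟨f, r, fun s => ?_, fun t => ?_⟩, rfl, rfl⟩
  · obtain ⟨e, he, ⟨G, hG⟩, -⟩ := h s
    rw [(hG s le_rfl (by linarith)).2]
    exact G.pos s
  · obtain ⟨e, he, ⟨G, hG⟩, ⟨K, hK⟩⟩ := h t
    obtain ⟨e1, he1, h1, -⟩ := G.pl t
    obtain ⟨e2, he2, -, h2⟩ := K.pl t
    have m1 : min e (min e1 e2) ≤ e := min_le_left _ _
    have m2 : min e (min e1 e2) ≤ e1 := (min_le_right _ _).trans (min_le_left _ _)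
    have m3 : min e (min e1 e2) ≤ e2 := (min_le_right _ _).trans (min_le_right _ _)
    refine ⟨min e (min e1 e2), lt_min he (lt_min he1 he2), ?_, ?_⟩
    · refine (h1.mono (Set.Icc_subset_Icc le_rfl (by linarith))).congr ?_ ?_
      · intro s hs
        exact (hG s hs.1 (hs.2.trans (by linarith))).1
      · intro s hs
        exact (hG s hs.1 (hs.2.trans (by linarith))).2
    · refine (h2.mono (Set.Icc_subset_Icc (by linarith) le_rfl)).congr ?_ ?_
      · intro s hs
        exact (hK s (le_trans (by linarith) hs.1) hs.2).1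
      · intro s hs
        exact (hK s (le_trans (by linarith) hs.1) hs.2).2

theorem exists_glue (F G : XX) (t : ℝ) (h : F.ev t = G.ev t) :
    ∃ H : XX, (∀ s, s ≤ t → H.ev s = F.ev s) ∧ ∀ s, t ≤ s → H.ev s = G.ev s := by
  classical
  obtain ⟨hf, hr⟩ := ev_eq_iff.1 h
  let g : ℝ → ℝ := fun s => if s ≤ t then F.f s else G.f s
  let k : ℝ → ℝ := fun s => if s ≤ t then F.r s else G.r s
  have g1 : ∀ s, s ≤ t → g s = F.f s := fun s hs => if_pos hs
  have g2 : ∀ s, t ≤ s → g s = G.f s := by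
    intro s hs
    rcases hs.eq_or_lt with rfl | hs
    · exact (g1 _ le_rfl).trans hf
    · exact if_neg (not_le.2 hs)
  have k1 : ∀ s, s ≤ t → k s = F.r s := fun s hs => if_pos hs
  have k2 : ∀ s, t ≤ s → k s = G.r s := by
    intro s hs
    rcases hs.eq_or_lt with rfl | hs
    · exact (k1 _ le_rfl).trans hr
    · exact if_neg (not_le.2 hs)
  have hmono : StrictMono g := by
    intro a b hab
    rcases le_total b t with hb | hb
    · rw [g1 a (hab.le.trans hb), g1 b hb]
      exact F.f.strictMono hab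
    · rcases le_total t a with ha | ha
      · rw [g2 a ha, g2 b hb]
        exact G.f.strictMono hab
      · rw [g1 a ha, g2 b hb]
        rcases ha.eq_or_lt with rfl | ha
        · rw [hf]
          exact G.f.strictMono hab
        · calc F.f a < F.f t := F.f.strictMono ha
            _ = G.f t := hf
            _ ≤ G.f b := G.f.monotone hb
  have hsurj : Function.Surjective g := by
    intro y
    rcases le_total y (F.f t) with hy | hy
    · refine ⟨F.f.symm y, ?_⟩
      rw [g1 _ (by rwa [F.f.symm_apply_le]), F.f.apply_symm_apply]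
    · refine ⟨G.f.symm y, ?_⟩
      rw [g2 _ (by rwa [G.f.le_symm_apply, ← hf]), G.f.apply_symm_apply]
  obtain ⟨H, hH1, hH2⟩ := exists_of_local (hmono.orderIsoOfSurjective g hsurj) k (by
    intro u
    rcases lt_trichotomy u t with hu | hu | hu
    · exact ⟨t - u, by linarith, ⟨F, fun s _ h2 => ⟨g1 s (by linarith), k1 s (by linarith)⟩⟩,
        ⟨F, fun s _ h2 => ⟨g1 s (by linarith), k1 s (by linarith)⟩⟩⟩
    · subst hu
      exact ⟨1, one_pos, ⟨G, fun s h1 _ => ⟨g2 s h1, k2 s h1⟩⟩,
        ⟨F, fun s _ h2 => ⟨g1 s h2, k1 s h2⟩⟩⟩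
    · exact ⟨u - t, by linarith, ⟨G, fun s h1 _ => ⟨g2 s (by linarith), k2 s (by linarith)⟩⟩,
        ⟨G, fun s h1 _ => ⟨g2 s (by linarith), k2 s (by linarith)⟩⟩⟩)
  have e1 : ∀ s, H.f s = g s := fun s => by
    rw [hH1]
    rfl
  have e2 : ∀ s, H.r s = k s := fun s => by rw [hH2]
  refine ⟨H, fun s hs => ?_, fun s hs => ?_⟩
  · exact ev_eq_iff.2 ⟨(e1 s).trans (g1 s hs), (e2 s).trans (k1 s hs)⟩
  · exact ev_eq_iff.2 ⟨(e1 s).trans (g2 s hs), (e2 s).trans (k2 s hs)⟩

end Ang
end C715
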