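import Pool.Agent.Work.MP_c71557_gt.A.Ext
import Pool.Agent.Work.MP_c71557_gt.A.LinU
import Pool.Agent.Work.MP_c71557_gt.A.Cmp

set_option autoImplicit false

/-!
# MP_c71557_gt, module A/Mv1: moves generate (M)

* `exists_move`: `L1` linear with `L1.ev a = (a,1)`, `L1.ev c = (c', ρ)`, `L2` linear with
  `L2.ev c = (c', ρ)`, `L2.ev b = (b,1)` (`exists_lin`); glue `1, L1, L2, 1` at `a, c, b`.
* `move_unique`: two moves with the same `a, c, b` and the same value at `c` agree
  (`ev_eq_of_lin` on `[a,c]` and `[c,b]`).
* `gen_aux`: let `F` be the identity outside `[a,b]`, `Pcs F a n b`, `b < a + π`; then `F` is in the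
  subgroup generated by the moves `M` with `a ≤ a'`, `b' ≤ b` (`IsMove M a' c' b'`).
  Induction on `n` (for all `F`, `a`).  `n = 1`: `F` is linear on `[a,b]` with `F.ev a = (a,1)`,
  `F.ev b = (b,1)`, so `F = 1` (`ev_eq_of_lin` with `G = 1`, whose linearity is easy).
  `n = 2` (pieces `[a,t]`, `[t,b]`): `F` is a move.
  `n ≥ 3` : pieces `[a,t1], [t1,t2], …` (`t2 < b`).  EITHER `F.f t1 < t2`: let `M` be the move with
  `a' = a`, `c' = F.f t1`, `b' = t2` and value `M.ev c' = (t1, (F.r t1)⁻¹)` at `c'` (`a < t1 < t2`).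
  Then `F * M` is linear on `[a,c']` and on `[c',t2]` (`M` maps these intervals onto `[a,t1]` and
  `[t1,t2]`), `(F * M).ev c' = (c', 1)`, so `F * M` is the identity on `[a,c']`, and has the pieces
  `[c',t2], [t2,t3], …, b` : `n - 1` pieces; it is the identity outside `[c',b]`.  OR
  `t1 < F.f t2`: let `M` be the move with `a' = a`, `c' = F.f t1`, `b' = F.f t2`, value
  `(t1, (F.r t1)⁻¹)` at `c'`; `M * F` is linear on the same intervals as `F`, and
  `(M * F).ev t1 = (t1, 1)`, so it is the identity on `[a,t1]`, `n - 1` pieces `[t1,t2], …`.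
  One of the two holds: otherwise `t2 ≤ F.f t1 < F.f t2 ≤ t1 < t2`.
  (`F.f t2 ≤ b`, `b < a + π`, fine.)
* `gen_moves`: `F ∈ sp x y`: choose `[a,b] ⊂ (x,y)` with `F = 1` outside `[a,b]` (if `x < y`; take
  `a = x + e`, `b = y - e` with `e` small), `exists_pcs`.
-/

namespace C715
namespace Ang

open XX

/-- identity outside `[a,b]`, linear on `[a,c]` and on `[c,b]` -/
structure IsMove (M : XX) (a c b : ℝ) : Prop where
  ac : a < c
  cb : c < b
  bd : b < a + Real.pi
  left : ∀ s, s ≤ a → M.ev s = (s, 1)
  right : ∀ s, b ≤ s → M.ev s = (s, 1)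
  lin1 : LinOn M.f M.r (Set.Icc a c)
  lin2 : LinOn M.f M.r (Set.Icc c b)

theorem exists_move {a c b c' ρ : ℝ} (hac : a < c) (hcb : c < b) (hb : b < a + Real.pi)
    (hac' : a < c') (hcb' : c' < b) (hρ : 0 < ρ) : ∃ M : XX, IsMove M a c b ∧ M.ev c = (c', ρ) := by
  obtain ⟨L1, hL1, h1a, h1c⟩ := exists_lin hac (by linarith) hac' (by linarith) one_pos hρ
  obtain ⟨L2, hL2, h2c, h2b⟩ := exists_lin hcb (by linarith) hcb' (by linarith) hρ one_pos
  obtain ⟨H1, h11, h12⟩ := exists_glue 1 L1 a (by rw [one_ev, h1a])
  obtain ⟨H2, h21, h22⟩ := exists_glue H1 L2 c (by rw [h12 c hac.le, h1c, h2c])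
  obtain ⟨H3, h31, h32⟩ := exists_glue H2 1 b (by rw [h22 b hcb.le, h2b, one_ev])
  have e1 : ∀ s ∈ Set.Icc a c, H3.ev s = L1.ev s := by
    intro s hs
    rw [h31 s (hs.2.trans hcb.le), h21 s hs.2, h12 s hs.1]
  have e2 : ∀ s ∈ Set.Icc c b, H3.ev s = L2.ev s := by
    intro s hs
    rw [h31 s hs.2, h22 s hs.1]
  refine ⟨H3, ⟨hac, hcb, hb, ?_, ?_, ?_, ?_⟩, ?_⟩
  · intro s hs
    rw [h31 s (by linarith), h21 s (by linarith), h11 s hs, one_ev]
  · intro s hs
    rw [h32 s hs, one_ev]
  · exact (LinOn.mono hL1 (Set.subset_univ _)).congr (fun s hs => congrArg Prod.fst (e1 s hs))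
      (fun s hs => congrArg Prod.snd (e1 s hs))
  · exact (LinOn.mono hL2 (Set.subset_univ _)).congr (fun s hs => congrArg Prod.fst (e2 s hs))
      (fun s hs => congrArg Prod.snd (e2 s hs))
  · rw [e1 c ⟨hac.le, le_rfl⟩, h1c]

theorem move_unique {M M' : XX} {a c b : ℝ} (h : IsMove M a c b) (h' : IsMove M' a c b)
    (hc : M.ev c = M'.ev c) : M = M' := by
  have hbd := h.bd
  have h1 := h.ac
  have h2 := h.cb
  refine ext_ev fun s => ?_
  rcases le_total s a with hs | hs
  · rw [h.left s hs, h'.left s hs]
  rcases le_total b s with hs' | hs'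
  · rw [h.right s hs', h'.right s hs']
  rcases le_total s c with hsc | hsc
  · exact ev_eq_of_lin h.ac (by linarith) h.lin1 h'.lin1
      (by rw [h.left a le_rfl, h'.left a le_rfl]) hc s hs hsc
  · exact ev_eq_of_lin h.cb (by linarith) h.lin2 h'.lin2 hc
      (by rw [h.right b le_rfl, h'.right b le_rfl]) s hsc hs'

private theorem pcs_congr {F G : XX} {a b : ℝ} {n : ℕ} (h : Pcs F a n b)
    (hG : ∀ s, a ≤ s → G.ev s = F.ev s) : Pcs G a n b := by
  induction h with
  | one h hl =>
    exact Pcs.one h (hl.congr (fun s hs => congrArg Prod.fst (hG s hs.1))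
      (fun s hs => congrArg Prod.snd (hG s hs.1)))
  | cons h hl _ ih =>
    exact Pcs.cons h (hl.congr (fun s hs => congrArg Prod.fst (hG s hs.1))
      (fun s hs => congrArg Prod.snd (hG s hs.1))) (ih fun s hs => hG s (h.le.trans hs))

private theorem lin_one (A : Set ℝ) : LinOn (1 : XX).f (1 : XX).r A := by
  refine ⟨⟨1, 0⟩, ⟨0, 1⟩, fun s _ => Complex.ext ?_ ?_⟩
  · rw [V_re]
    simp only [one_f, one_r, Complex.add_re, Complex.smul_re, smul_eq_mul]
    ring
  · rw [V_im]
    simp only [one_f, one_r, Complex.add_im, Complex.smul_im, smul_eq_mul]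
    ring

private theorem gen_aux {x y b : ℝ} (hby : b < y) (n : ℕ) : ∀ (F : XX) (a : ℝ), x < a →
    b < a + Real.pi → (∀ s, s ≤ a → F.ev s = (s, 1)) → (∀ s, b ≤ s → F.ev s = (s, 1)) →
    Pcs F a n b →
    F ∈ Subgroup.closure {M : XX | ∃ a c b : ℝ, x < a ∧ b < y ∧ IsMove M a c b} := by
  induction n with
  | zero =>
    intro F a _ _ _ _ h
    cases h
  | succ n ih =>
    intro F a hxa hba hl hr h
    have hab := h.lt
    have hfa : F.f a = a := congrArg Prod.fst (hl a le_rfl)
    have hfb : F.f b = b := congrArg Prod.fst (hr b le_rfl)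
    cases h with
    | one _ hlin =>
      have h1 : F = 1 := by
        refine ext_ev fun s => ?_
        rw [one_ev]
        rcases le_total s a with hs | hs
        · exact hl s hs
        rcases le_total b s with hs' | hs'
        · exact hr s hs'
        rw [ev_eq_of_lin hab hba hlin (lin_one _) (by rw [hl a le_rfl, one_ev])
          (by rw [hr b le_rfl, one_ev]) s hs hs', one_ev]
      rw [h1]
      exact Subgroup.one_mem _
    | cons hat1 hlin1 htail =>
      rename_i t1
      cases htail with
      | one ht1b hlin2 =>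
        exact Subgroup.subset_closure ⟨a, t1, b, hxa, hby, ⟨hat1, ht1b, hba, hl, hr, hlin1, hlin2⟩⟩
      | cons ht12 hlin2 htail2 =>
        rename_i t2 m
        have ht2b := htail2.lt
        have hm1 : a < F.f t1 := by
          have := F.f.strictMono hat1
          rwa [hfa] at this
        have hm2 : F.f t1 < F.f t2 := F.f.strictMono ht12
        have hm3 : F.f t2 < b := by
          have := F.f.strictMono ht2b
          rwa [hfb] at this
        have hrp := F.pos t1
        rcases lt_or_ge (F.f t1) t2 with hcase | hcase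
        · -- first case
          obtain ⟨M, hM, hMc⟩ := exists_move (ρ := (F.r t1)⁻¹) hm1 hcase (by linarith) hat1 ht12
            (inv_pos.2 hrp)
          have hMa : M.f a = a := congrArg Prod.fst (hM.left a le_rfl)
          have hMt2 : M.f t2 = t2 := congrArg Prod.fst (hM.right t2 le_rfl)
          have hMcf : M.f (F.f t1) = t1 := congrArg Prod.fst hMc
          have hMcr : M.r (F.f t1) = (F.r t1)⁻¹ := congrArg Prod.snd hMc
          have hMmem : M ∈ Subgroup.closure
              {M : XX | ∃ a c b : ℝ, x < a ∧ b < y ∧ IsMove M a c b} :=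
            Subgroup.subset_closure ⟨a, F.f t1, t2, hxa, by linarith, hM⟩
          have hGmem : F * M ∈ Subgroup.closure
              {M : XX | ∃ a c b : ℝ, x < a ∧ b < y ∧ IsMove M a c b} := by
            have g1 : ∀ s, s ≤ a → (F * M).ev s = (s, 1) := fun s hs => by
              rw [mul_ev_right (hM.left s hs), hl s hs]
            have g2 : ∀ s, t2 ≤ s → (F * M).ev s = F.ev s := fun s hs =>
              mul_ev_right (hM.right s hs)
            have g3 : LinOn (F * M).f (F * M).r (Set.Icc a (F.f t1)) := by
              refine LinOn.comp (f := F.f) (r := F.r) hlin1 hM.lin1 fun s hs => ⟨?_, ?_⟩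
              · rw [← hMa]
                exact (M.f.monotone hs.1)
              · rw [← hMcf]
                exact (M.f.monotone hs.2)
            have g4 : (F * M).ev (F.f t1) = (F.f t1, 1) := by
              rw [mul_ev, hMcf, hMcr, mul_inv_cancel₀ hrp.ne']
            have g5 : ∀ s, a ≤ s → s ≤ F.f t1 → (F * M).ev s = (s, 1) := fun s hs hs' => by
              rw [ev_eq_of_lin hm1 (by linarith) g3 (lin_one _) (by rw [g1 a le_rfl, one_ev])
                (by rw [g4, one_ev]) s hs hs', one_ev]
            have g6 : LinOn (F * M).f (F * M).r (Set.Icc (F.f t1) t2) := by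
              refine LinOn.comp (f := F.f) (r := F.r) hlin2 hM.lin2 fun s hs => ⟨?_, ?_⟩
              · rw [← hMcf]
                exact (M.f.monotone hs.1)
              · rw [← hMt2]
                exact (M.f.monotone hs.2)
            refine ih (F * M) (F.f t1) (by linarith) (by linarith) ?_ ?_ ?_
            · intro s hs
              rcases le_total s a with h | h
              · exact g1 s h
              · exact g5 s h hs
            · intro s hs
              rw [g2 s (by linarith), hr s hs]
            · exact Pcs.cons hcase g6 (pcs_congr htail2 fun s hs => g2 s hs)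
          have : F = (F * M) * M⁻¹ := by group
          rw [this]
          exact Subgroup.mul_mem _ hGmem (Subgroup.inv_mem _ hMmem)
        · -- second case
          have hcase' : t1 < F.f t2 := by linarith
          obtain ⟨M, hM, hMc⟩ := exists_move (ρ := (F.r t1)⁻¹) hm1 hm2 (by linarith) hat1 hcase'
            (inv_pos.2 hrp)
          have hMcf : M.f (F.f t1) = t1 := congrArg Prod.fst hMc
          have hMcr : M.r (F.f t1) = (F.r t1)⁻¹ := congrArg Prod.snd hMc
          have hMmem : M ∈ Subgroup.closure
              {M : XX | ∃ a c b : ℝ, x < a ∧ b < y ∧ IsMove M a c b} :=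
            Subgroup.subset_closure ⟨a, F.f t1, F.f t2, hxa, by linarith, hM⟩
          have hGmem : M * F ∈ Subgroup.closure
              {M : XX | ∃ a c b : ℝ, x < a ∧ b < y ∧ IsMove M a c b} := by
            have g1 : ∀ s, s ≤ a → (M * F).ev s = (s, 1) := fun s hs => by
              rw [mul_ev_right (hl s hs), hM.left s hs]
            have g2 : ∀ s, t2 ≤ s → (M * F).ev s = F.ev s := fun s hs =>
              mul_ev_left (hM.right _ (F.f.monotone hs))
            have g3 : LinOn (M * F).f (M * F).r (Set.Icc a t1) := by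
              refine LinOn.comp (f := M.f) (r := M.r) hM.lin1 hlin1 fun s hs => ⟨?_, ?_⟩
              · rw [← hfa]
                exact (F.f.monotone hs.1)
              · exact (F.f.monotone hs.2)
            have g4 : (M * F).ev t1 = (t1, 1) := by
              rw [mul_ev, hMcf, hMcr, inv_mul_cancel₀ hrp.ne']
            have g5 : ∀ s, a ≤ s → s ≤ t1 → (M * F).ev s = (s, 1) := fun s hs hs' => by
              rw [ev_eq_of_lin hat1 (by linarith) g3 (lin_one _) (by rw [g1 a le_rfl, one_ev])
                (by rw [g4, one_ev]) s hs hs', one_ev]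
            have g6 : LinOn (M * F).f (M * F).r (Set.Icc t1 t2) := by
              refine LinOn.comp (f := M.f) (r := M.r) hM.lin2 hlin2 fun s hs => ⟨?_, ?_⟩
              · exact (F.f.monotone hs.1)
              · exact (F.f.monotone hs.2)
            refine ih (M * F) t1 (by linarith) (by linarith) ?_ ?_ ?_
            · intro s hs
              rcases le_total s a with h | h
              · exact g1 s h
              · exact g5 s h hs
            · intro s hs
              rw [g2 s (by linarith), hr s hs]
            · exact Pcs.cons ht12 g6 (pcs_congr htail2 fun s hs => g2 s hs)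
          have : F = M⁻¹ * (M * F) := by group
          rw [this]
          exact Subgroup.mul_mem _ (Subgroup.inv_mem _ hMmem) hGmem

theorem gen_moves {x y : ℝ} (hxy : x < y) (hy : y ≤ x + Real.pi) {F : XX} (hF : F ∈ sp x y) :
    F ∈ Subgroup.closure {M : XX | ∃ a c b : ℝ, x < a ∧ b < y ∧ IsMove M a c b} := by
  obtain ⟨⟨e, he, h1⟩, ⟨d, hd, h2⟩⟩ := hF
  have k1 : 0 < min e ((y - x) / 3) := lt_min he (by linarith)
  have k2 : 0 < min d ((y - x) / 3) := lt_min hd (by linarith)
  have k3 := min_le_left e ((y - x) / 3)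
  have k4 := min_le_right e ((y - x) / 3)
  have k5 := min_le_left d ((y - x) / 3)
  have k6 := min_le_right d ((y - x) / 3)
  have hab : x + min e ((y - x) / 3) < y - min d ((y - x) / 3) := by linarith
  obtain ⟨n, hn⟩ := exists_pcs F hab
  exact gen_aux (by linarith) n F _ (by linarith) (by linarith) (fun s hs => h1 s (by linarith))
    (fun s hs => h2 s (by linarith)) hn

theorem IsMove.mem_sp {M : XX} {a c b x y : ℝ} (h : IsMove M a c b) (hx : x < a) (hy : b < y) :
    M ∈ sp x y := by
  refine ⟨⟨a - x, sub_pos.2 hx, fun s hs => h.left s (by linarith)⟩,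
    ⟨y - b, sub_pos.2 hy, fun s hs => h.right s (by linarith)⟩⟩

end Ang
end C715
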