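import Pool.Agent.Work.MP_c71557_gt.A.Mv1

set_option autoImplicit false

/-!
# MP_c71557_gt, module A/Mv2: conjugation of moves (M)

`mu M a c b`, `mv M a c b` are the two ratios of the move: if `e^{ic} = α e^{ia} + β e^{ib}` then
`M` maps it to `mu α e^{ia} + mv β e^{ib}`.

* `exists_lin3`: choose `L` linear (`exists_lin`) with `L.ev a = (a', α'/α)`, `L.ev b = (b', β'/β)`,
  where `α = sin (b - c)/ sin (b - a)`, `β = sin (c - a)/ sin (b - a)` and `α', β'` the same with
  primes (all positive).  The identity `sin (b-a) e^{ic} = sin (b-c) e^{ia} + sin (c-a) e^{ib}`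
  gives `V_L c = α V_L a + β V_L b = α' e^{ia'} + β' e^{ib'} = e^{ic'}`; so `L.r c = 1` and
  `L.f c ≡ c'` modulo `2π`; both are in `(a', b')`, of length `< π`, so `L.f c = c'`.
* `move_conj`: take `L` as in `exists_lin3` for `(a,c,b) → (a',c',b')`, and `g ∈ sp x y` with
  `g = L` on `[a,b]` (`exists_sup`: with `x < c0 < min a a'`, `max b b' < d0 < y`; then `g` is the
  identity on `(-∞, c0]` and `[d0, ∞)`).  Claim `M' = g M g⁻¹`.  Both are the identity outside
  `[a',b']`; `N = g M g⁻¹` is a move for `(a',c',b')` (`LinOn.comp`, `LinOn.symm`), with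
  `N.ev c' = g (M (c, 1))` (`L.ev c = (c', 1)`).  By `mu_mv_lin` (cross products: for `L` linear
  with determinant `δ = α'β' sin(b'-a') / (αβ sin(b-a))`) the ratios of `N` are those of `M`,
  hence those of `M'`; and the ratios determine `(f, r)` at `c'` (`ratio_inj`):
  `r sin(b' - f) = mu sin(b'-c')`, `r sin(f - a') = mv sin(c'-a')`, `f ∈ (a',b')`, `r > 0`
  (`r e^{i f}` is determined).  Then `move_unique`.
* `mu_mul`, `mv_mul`: immediate from the definitions.
* `exists_ratio`: `D` linear with `D.ev a = (a,u)`, `D.ev b = (b,v)` (`exists_lin`);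
  `(c', ρ) := D.ev c`, `a < c' < b` by monotonicity, `exists_move`; the ratios by
  `LinOn.cross`: with `δ = det D` one has `u v sin(b-a) = δ sin(b-a)`, `ρ v sin(b-c') = δ sin(b-c)`,
  `u ρ sin(c'-a) = δ sin(c-a)`.
-/

namespace C715
namespace Ang

open XX

/-- ratio of the move along `a` -/
noncomputable def mu (M : XX) (c b : ℝ) : ℝ := M.r c * Real.sin (b - M.f c) / Real.sin (b - c)

/-- ratio of the move along `b` -/
noncomputable def mv (M : XX) (a c : ℝ) : ℝ := M.r c * Real.sin (M.f c - a) / Real.sin (c - a)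

private theorem ptol (a b f F : ℝ) : Real.sin (b - f) * Real.sin (F - a) -
    Real.sin (b - F) * Real.sin (f - a) = Real.sin (b - a) * Real.sin (F - f) := by
  simp only [Real.sin_sub]
  ring

/-- the ratios determine the point -/
private theorem ratio_inj {a b f F r R : ℝ} (hb : b < a + Real.pi) (h1 : a < f) (h2 : f < b)
    (h3 : a < F) (h4 : F < b) (hr : 0 < r) (hR : 0 < R)
    (e1 : r * Real.sin (b - f) = R * Real.sin (b - F))
    (e2 : r * Real.sin (f - a) = R * Real.sin (F - a)) : f = F ∧ r = R := by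
  have s1 : 0 < Real.sin (b - f) := Real.sin_pos_of_pos_of_lt_pi (by linarith) (by linarith)
  have s2 : 0 < Real.sin (b - F) := Real.sin_pos_of_pos_of_lt_pi (by linarith) (by linarith)
  have s5 : 0 < Real.sin (b - a) := Real.sin_pos_of_pos_of_lt_pi (by linarith) (by linarith)
  have hpt := ptol a b f F
  have h5 : r * R * (Real.sin (b - f) * Real.sin (F - a) -
      Real.sin (b - F) * Real.sin (f - a)) = 0 := by
    linear_combination R * Real.sin (F - a) * e1 - R * Real.sin (b - F) * e2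
  have h6 : Real.sin (F - f) = 0 := by
    rw [hpt] at h5
    have hrR : r * R ≠ 0 := (mul_pos hr hR).ne'
    have := (mul_eq_zero.1 h5).resolve_left hrR
    exact (mul_eq_zero.1 this).resolve_left s5.ne'
  have h7 : F - f = 0 := by
    rcases lt_trichotomy (F - f) 0 with h | h | h
    · have : 0 < Real.sin (-(F - f)) :=
        Real.sin_pos_of_pos_of_lt_pi (by linarith) (by linarith)
      rw [Real.sin_neg, h6] at this
      linarith
    · exact h
    · have : 0 < Real.sin (F - f) := Real.sin_pos_of_pos_of_lt_pi h (by linarith)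
      linarith
  have h8 : f = F := by linarith
  refine ⟨h8, ?_⟩
  rw [h8] at e1
  exact mul_right_cancel₀ s2.ne' e1

theorem exists_lin3 {a c b a' c' b' : ℝ} (hac : a < c) (hcb : c < b) (hb : b < a + Real.pi)
    (hac' : a' < c') (hcb' : c' < b') (hb' : b' < a' + Real.pi) :
    ∃ L : XX, IsLin L ∧ L.f a = a' ∧ L.f b = b' ∧ L.ev c = (c', 1) := by
  have s1 : 0 < Real.sin (b - c) := Real.sin_pos_of_pos_of_lt_pi (by linarith) (by linarith)
  have s2 : 0 < Real.sin (c - a) := Real.sin_pos_of_pos_of_lt_pi (by linarith) (by linarith)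
  have s3 : 0 < Real.sin (b - a) := Real.sin_pos_of_pos_of_lt_pi (by linarith) (by linarith)
  have s1' : 0 < Real.sin (b' - c') := Real.sin_pos_of_pos_of_lt_pi (by linarith) (by linarith)
  have s2' : 0 < Real.sin (c' - a') := Real.sin_pos_of_pos_of_lt_pi (by linarith) (by linarith)
  have s3' : 0 < Real.sin (b' - a') := Real.sin_pos_of_pos_of_lt_pi (by linarith) (by linarith)
  set S := Real.sin (b - a) with hS
  set S' := Real.sin (b' - a') with hS'
  set A := Real.sin (b - c) with hA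
  set B := Real.sin (c - a) with hB
  set A' := Real.sin (b' - c') with hA'
  set B' := Real.sin (c' - a') with hB'
  have ha0 : 0 < (A' / S') / (A / S) := by positivity
  have hb0 : 0 < (B' / S') / (B / S) := by positivity
  obtain ⟨L, hL, hLa, hLb⟩ := exists_lin (hac.trans hcb) hb (hac'.trans hcb') hb' ha0 hb0
  have hLa1 : L.f a = a' := congrArg Prod.fst hLa
  have hLa2 : L.r a = (A' / S') / (A / S) := congrArg Prod.snd hLa
  have hLb1 : L.f b = b' := congrArg Prod.fst hLb
  have hLb2 : L.r b = (B' / S') / (B / S) := congrArg Prod.snd hLb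
  obtain ⟨p, q, hpq⟩ := id hL
  have c1 := LinOn.cross hpq (Set.mem_univ c) (Set.mem_univ b)
  have c2 := LinOn.cross hpq (Set.mem_univ a) (Set.mem_univ c)
  have c3 := LinOn.cross hpq (Set.mem_univ a) (Set.mem_univ b)
  rw [hLb1, hLb2] at c1
  rw [hLa1, hLa2] at c2
  rw [hLa1, hLa2, hLb1, hLb2] at c3
  set δ := p.re * q.im - p.im * q.re with hδ
  rw [← hS', ← hS] at c3
  rw [← hA] at c1
  rw [← hB] at c2
  have m1 : a' < L.f c := by
    have := L.f.strictMono hac
    rwa [hLa1] at this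
  have m2 : L.f c < b' := by
    have := L.f.strictMono hcb
    rwa [hLb1] at this
  have hδ1 : δ = A' * B' * S / (A * B * S') := by
    field_simp at c3 ⊢
    nlinarith [c3]
  have e1 : L.r c * Real.sin (b' - L.f c) = 1 * Real.sin (b' - c') := by
    rw [one_mul, ← hA']
    rw [hδ1] at c1
    field_simp at c1 ⊢
    nlinarith [c1]
  have e2 : L.r c * Real.sin (L.f c - a') = 1 * Real.sin (c' - a') := by
    rw [one_mul, ← hB']
    rw [hδ1] at c2
    field_simp at c2 ⊢
    nlinarith [c2]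
  obtain ⟨r1, r2⟩ := ratio_inj hb' m1 m2 hac' hcb' (L.pos c) one_pos e1 e2
  exact ⟨L, hL, hLa1, hLb1, Prod.ext r1 r2⟩

private theorem IsMove.fa {M : XX} {a c b : ℝ} (h : IsMove M a c b) : M.f a = a :=
  congrArg Prod.fst (h.left a le_rfl)

private theorem IsMove.fb {M : XX} {a c b : ℝ} (h : IsMove M a c b) : M.f b = b :=
  congrArg Prod.fst (h.right b le_rfl)

private theorem IsMove.afc {M : XX} {a c b : ℝ} (h : IsMove M a c b) : a < M.f c := by
  have := M.f.strictMono h.ac
  rwa [h.fa] at this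

private theorem IsMove.fcb {M : XX} {a c b : ℝ} (h : IsMove M a c b) : M.f c < b := by
  have := M.f.strictMono h.cb
  rwa [h.fb] at this

private theorem IsMove.sbc {M : XX} {a c b : ℝ} (h : IsMove M a c b) : 0 < Real.sin (b - c) :=
  Real.sin_pos_of_pos_of_lt_pi (by linarith [h.cb]) (by linarith [h.ac, h.bd])

private theorem IsMove.sca {M : XX} {a c b : ℝ} (h : IsMove M a c b) : 0 < Real.sin (c - a) :=
  Real.sin_pos_of_pos_of_lt_pi (by linarith [h.ac]) (by linarith [h.cb, h.bd])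

private theorem IsMove.sbf {M : XX} {a c b : ℝ} (h : IsMove M a c b) :
    0 < Real.sin (b - M.f c) :=
  Real.sin_pos_of_pos_of_lt_pi (by linarith [h.fcb]) (by linarith [h.afc, h.bd])

private theorem IsMove.sfa {M : XX} {a c b : ℝ} (h : IsMove M a c b) :
    0 < Real.sin (M.f c - a) :=
  Real.sin_pos_of_pos_of_lt_pi (by linarith [h.afc]) (by linarith [h.fcb, h.bd])

theorem IsMove.mu_pos {M : XX} {a c b : ℝ} (h : IsMove M a c b) : 0 < mu M c b :=
  div_pos (mul_pos (M.pos c) h.sbf) h.sbc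

theorem IsMove.mv_pos {M : XX} {a c b : ℝ} (h : IsMove M a c b) : 0 < mv M a c :=
  div_pos (mul_pos (M.pos c) h.sfa) h.sca

theorem mu_mul {M M' : XX} {a c c1 b : ℝ} (h : IsMove M a c b) (h' : IsMove M' a c1 b)
    (h1 : M.f c = c1) : mu (M' * M) c b = mu M' c1 b * mu M c b := by
  unfold mu
  rw [mul_f, mul_r, h1]
  have e1 := h.sbc
  have e2 := h'.sbc
  field_simp

theorem mv_mul {M M' : XX} {a c c1 b : ℝ} (h : IsMove M a c b) (h' : IsMove M' a c1 b)
    (h1 : M.f c = c1) : mv (M' * M) a c = mv M' a c1 * mv M a c := by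
  unfold mv
  rw [mul_f, mul_r, h1]
  have e1 := h.sca
  have e2 := h'.sca
  field_simp

theorem move_mul {M M' : XX} {a c c1 b : ℝ} (h : IsMove M a c b) (h' : IsMove M' a c1 b)
    (h1 : M.f c = c1) : IsMove (M' * M) a c b := by
  refine ⟨h.ac, h.cb, h.bd, ?_, ?_, ?_, ?_⟩
  · intro s hs
    rw [mul_ev_right (h.left s hs), h'.left s hs]
  · intro s hs
    rw [mul_ev_right (h.right s hs), h'.right s hs]
  · refine LinOn.comp (f := M'.f) (r := M'.r) h'.lin1 h.lin1 fun s hs => ⟨?_, ?_⟩
    · rw [← h.fa]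
      exact M.f.monotone hs.1
    · rw [← h1]
      exact M.f.monotone hs.2
  · refine LinOn.comp (f := M'.f) (r := M'.r) h'.lin2 h.lin2 fun s hs => ⟨?_, ?_⟩
    · rw [← h1]
      exact M.f.monotone hs.1
    · rw [← h.fb]
      exact M.f.monotone hs.2

theorem exists_ratio {a c b u v : ℝ} (hac : a < c) (hcb : c < b) (hb : b < a + Real.pi)
    (hu : 0 < u) (hv : 0 < v) : ∃ M : XX, IsMove M a c b ∧ mu M c b = u ∧ mv M a c = v := by
  obtain ⟨D, hD, hDa, hDb⟩ := exists_lin (hac.trans hcb) hb (hac.trans hcb) hb hu hv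
  have hDa1 : D.f a = a := congrArg Prod.fst hDa
  have hDa2 : D.r a = u := congrArg Prod.snd hDa
  have hDb1 : D.f b = b := congrArg Prod.fst hDb
  have hDb2 : D.r b = v := congrArg Prod.snd hDb
  have m1 : a < D.f c := by
    have := D.f.strictMono hac
    rwa [hDa1] at this
  have m2 : D.f c < b := by
    have := D.f.strictMono hcb
    rwa [hDb1] at this
  obtain ⟨M, hM, hMc⟩ := exists_move hac hcb hb m1 m2 (D.pos c)
  have hM1 : M.f c = D.f c := congrArg Prod.fst hMc
  have hM2 : M.r c = D.r c := congrArg Prod.snd hMc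
  obtain ⟨p, q, hpq⟩ := id hD
  have c1 := LinOn.cross hpq (Set.mem_univ c) (Set.mem_univ b)
  have c2 := LinOn.cross hpq (Set.mem_univ a) (Set.mem_univ c)
  have c3 := LinOn.cross hpq (Set.mem_univ a) (Set.mem_univ b)
  rw [hDb1, hDb2] at c1
  rw [hDa1, hDa2] at c2
  rw [hDa1, hDa2, hDb1, hDb2] at c3
  set δ := p.re * q.im - p.im * q.re with hδ
  have e1 := hM.sbc
  have e2 := hM.sca
  have e3 : 0 < Real.sin (b - a) := Real.sin_pos_of_pos_of_lt_pi (by linarith) (by linarith)
  have hd : δ = u * v := (mul_right_cancel₀ e3.ne' c3).symm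
  rw [hd] at c1 c2
  refine ⟨M, hM, ?_, ?_⟩
  · unfold mu
    rw [hM1, hM2, div_eq_iff e1.ne']
    have : v * (D.r c * Real.sin (b - D.f c)) = v * (u * Real.sin (b - c)) := by
      linear_combination c1
    exact mul_left_cancel₀ hv.ne' this
  · unfold mv
    rw [hM1, hM2, div_eq_iff e2.ne']
    have : u * (D.r c * Real.sin (D.f c - a)) = u * (v * Real.sin (c - a)) := by
      linear_combination c2
    exact mul_left_cancel₀ hu.ne' this

private theorem conj_ev {g M : XX} {t : ℝ} (h : M.ev t = (t, 1)) :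
    (g * M * g⁻¹).ev (g.f t) = (g.f t, 1) := by
  have h1 : M.f t = t := congrArg Prod.fst h
  have h2 : M.r t = 1 := congrArg Prod.snd h
  have h3 : (g⁻¹).f (g.f t) = t := inv_f_f g t
  have h4 : (g⁻¹).r (g.f t) = (g.r t)⁻¹ := by
    rw [inv_r, OrderIso.symm_apply_apply]
  rw [mul_ev, mul_f, mul_r, h3, h1, h4, h2, mul_one, mul_inv_cancel₀ (g.pos t).ne']

private theorem conj_lin {g M : XX} {a b a1 b1 : ℝ} (hab : a < b)
    (hg : LinOn g.f g.r (Set.Icc a b)) (hM : LinOn M.f M.r (Set.Icc a b))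
    (hg' : LinOn g.f g.r (Set.Icc a1 b1)) (ha : M.f a = a1) (hb : M.f b = b1) :
    LinOn (g * M * g⁻¹).f (g * M * g⁻¹).r (Set.Icc (g.f a) (g.f b)) := by
  have h1 : LinOn (g * M).f (g * M).r (Set.Icc a b) := by
    refine LinOn.comp (f := g.f) (r := g.r) hg' hM fun s hs => ⟨?_, ?_⟩
    · rw [← ha]
      exact M.f.monotone hs.1
    · rw [← hb]
      exact M.f.monotone hs.2
  have h2 : LinOn (g⁻¹).f (g⁻¹).r (Set.Icc (g.f a) (g.f b)) := LinOn.symm g.pos hab hg
  refine LinOn.comp (f := (g * M).f) (r := (g * M).r) h1 h2 fun s hs => ⟨?_, ?_⟩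
  · rw [← inv_f_f g a]
    exact (g⁻¹).f.monotone hs.1
  · rw [← inv_f_f g b]
    exact (g⁻¹).f.monotone hs.2

theorem move_conj {M M' : XX} {a c b a' c' b' x y : ℝ} (h : IsMove M a c b)
    (h' : IsMove M' a' c' b') (hx : x < a) (hy : b < y) (hx' : x < a') (hy' : b' < y)
    (hu : mu M c b = mu M' c' b') (hv : mv M a c = mv M' a' c') :
    ∃ g ∈ sp x y, M' = g * M * g⁻¹ := by
  obtain ⟨L, hL, hLa, hLb, hLc⟩ := exists_lin3 h.ac h.cb h.bd h'.ac h'.cb h'.bd
  have hac := h.ac
  have hcb := h.cb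
  have hac' := h'.ac
  have hcb' := h'.cb
  have hbd := h.bd
  have hbd' := h'.bd
  have hm1 : x < min a a' := lt_min hx hx'
  have hm2 : max b b' < y := max_lt hy hy'
  set c0 := (x + min a a') / 2 with hc0
  set d0 := (max b b' + y) / 2 with hd0
  have k1 : c0 < a := by linarith [min_le_left a a']
  have k2 : c0 < a' := by linarith [min_le_right a a']
  have k3 : b < d0 := by linarith [le_max_left b b']
  have k4 : b' < d0 := by linarith [le_max_right b b']
  have k5 : x < c0 := by linarith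
  have k6 : d0 < y := by linarith
  obtain ⟨g, hg1, hg2, hg3⟩ := exists_sup L k1 (hac.trans hcb).le k3 (by rw [hLa]; exact k2)
    (by rw [hLb]; exact k4)
  have hgmem : g ∈ sp x y := ⟨⟨c0 - x, by linarith, fun s hs => hg1 s (by linarith)⟩,
    ⟨y - d0, by linarith, fun s hs => hg2 s (by linarith)⟩⟩
  refine ⟨g, hgmem, ?_⟩
  have gf : ∀ s, a ≤ s → s ≤ b → g.f s = L.f s := fun s h1 h2 => congrArg Prod.fst (hg3 s h1 h2)
  have gr : ∀ s, a ≤ s → s ≤ b → g.r s = L.r s := fun s h1 h2 => congrArg Prod.snd (hg3 s h1 h2)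
  have ga : g.f a = a' := by rw [gf a le_rfl (by linarith), hLa]
  have gb : g.f b = b' := by rw [gf b (by linarith) le_rfl, hLb]
  have gc : g.ev c = (c', 1) := by rw [hg3 c hac.le hcb.le, hLc]
  have gc1 : g.f c = c' := congrArg Prod.fst gc
  have gc2 : g.r c = 1 := congrArg Prod.snd gc
  have glin : ∀ s t, a ≤ s → t ≤ b → LinOn g.f g.r (Set.Icc s t) := fun s t h1 h2 =>
    (LinOn.mono hL (Set.subset_univ (Set.Icc s t))).congr
      (fun u hu => gf u (h1.trans hu.1) (hu.2.trans h2))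
      (fun u hu => gr u (h1.trans hu.1) (hu.2.trans h2))
  have hN : IsMove (g * M * g⁻¹) a' c' b' := by
    refine ⟨h'.ac, h'.cb, h'.bd, ?_, ?_, ?_, ?_⟩
    · intro s hs
      obtain ⟨t, rfl⟩ := g.f.surjective s
      rw [← ga] at hs
      exact conj_ev (h.left t (g.f.le_iff_le.1 hs))
    · intro s hs
      obtain ⟨t, rfl⟩ := g.f.surjective s
      rw [← gb] at hs
      exact conj_ev (h.right t (g.f.le_iff_le.1 hs))
    · rw [← ga, ← gc1]
      exact conj_lin h.ac (glin a c le_rfl hcb.le) h.lin1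
        (glin a (M.f c) le_rfl h.fcb.le) h.fa rfl
    · rw [← gb, ← gc1]
      exact conj_lin h.cb (glin c b hac.le le_rfl) h.lin2
        (glin (M.f c) b h.afc.le le_rfl) rfl h.fb
  -- the value at `c'`
  have n0 : (g⁻¹).ev c' = (c, 1) := by
    have := inv_ev gc
    rwa [inv_one] at this
  have n1 : (g⁻¹).f c' = c := congrArg Prod.fst n0
  have n2 : (g⁻¹).r c' = 1 := congrArg Prod.snd n0
  have n3 : (g * M * g⁻¹).f c' = L.f (M.f c) := by
    rw [mul_f, mul_f, n1, gf _ h.afc.le h.fcb.le]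
  have n4 : (g * M * g⁻¹).r c' = L.r (M.f c) * M.r c := by
    rw [mul_r, mul_r, n1, n2, mul_one, gr _ h.afc.le h.fcb.le]
  obtain ⟨p, q, hpq⟩ := id hL
  have hLc1 : L.f c = c' := congrArg Prod.fst hLc
  have hLc2 : L.r c = 1 := congrArg Prod.snd hLc
  have c1 := LinOn.cross hpq (Set.mem_univ c) (Set.mem_univ b)
  have c2 := LinOn.cross hpq (Set.mem_univ a) (Set.mem_univ c)
  have c3 := LinOn.cross hpq (Set.mem_univ (M.f c)) (Set.mem_univ b)
  have c4 := LinOn.cross hpq (Set.mem_univ a) (Set.mem_univ (M.f c))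
  rw [hLc1, hLc2, hLb, one_mul] at c1
  rw [hLc1, hLc2, hLa, mul_one] at c2
  rw [hLb] at c3
  rw [hLa] at c4
  set δ := p.re * q.im - p.im * q.re with hδ
  have p1 := L.pos b
  have p2 := L.pos a
  have q1 := h.sbc
  have q2 := h.sca
  have q1' := h'.sbc
  have q2' := h'.sca
  have hδ0 : 0 < δ := by
    have : 0 < δ * Real.sin (b - c) := by
      rw [← c1]
      exact mul_pos p1 q1'
    exact (mul_pos_iff_of_pos_right q1).1 this
  have e1 : mu (g * M * g⁻¹) c' b' = mu M c b := by
    unfold mu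
    rw [n3, n4, div_eq_div_iff q1'.ne' q1.ne']
    have : δ * L.r b * (L.r (M.f c) * M.r c * Real.sin (b' - L.f (M.f c)) * Real.sin (b - c)) =
        δ * L.r b * (M.r c * Real.sin (b - M.f c) * Real.sin (b' - c')) := by
      linear_combination δ * M.r c * Real.sin (b - c) * c3 -
        δ * M.r c * Real.sin (b - M.f c) * c1
    exact mul_left_cancel₀ (mul_pos hδ0 p1).ne' this
  have e2 : mv (g * M * g⁻¹) a' c' = mv M a c := by
    unfold mv
    rw [n3, n4, div_eq_div_iff q2'.ne' q2.ne']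
    have : δ * L.r a * (L.r (M.f c) * M.r c * Real.sin (L.f (M.f c) - a') * Real.sin (c - a)) =
        δ * L.r a * (M.r c * Real.sin (M.f c - a) * Real.sin (c' - a')) := by
      linear_combination δ * M.r c * Real.sin (c - a) * c4 -
        δ * M.r c * Real.sin (M.f c - a) * c2
    exact mul_left_cancel₀ (mul_pos hδ0 p2).ne' this
  rw [hu] at e1
  rw [hv] at e2
  unfold mu at e1
  unfold mv at e2
  rw [div_eq_div_iff q1'.ne' q1'.ne'] at e1
  rw [div_eq_div_iff q2'.ne' q2'.ne'] at e2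
  have e1' := mul_right_cancel₀ q1'.ne' e1
  have e2' := mul_right_cancel₀ q2'.ne' e2
  obtain ⟨r1, r2⟩ := ratio_inj h'.bd hN.afc hN.fcb h'.afc h'.fcb (XX.pos _ c') (XX.pos _ c') e1' e2'
  exact (move_unique hN h' (Prod.ext r1 r2)).symm

end Ang
end C715
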