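import Pool.Agent.Work.MP_c71557_gt.A.FinA
import Pool.Agent.Work.MP_c71557_gt.A.AcS

set_option autoImplicit false
set_option linter.unusedVariables false

/-!
# MP_c71557_gt, module A/OutA: the angular theorem (S-M)

`AcsBcs ⋙ Bc.restrIncl ShC = Ac.restrIncl ShC ⋙ AcBc` (functor extensionality, arrows by `ActCat.ind`),
`AcsF = Ac.restrIncl ShC ⋙ AcF` by definition; `hiso_Acs`, `hiso_Bcs` (A/AcS), `HCmap_comp` (H/Base):
the map of the statement is, up to the bijections `HCmap (Ac.restrIncl ShC)` and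
`HCmap (Bc.restrIncl ShC)`, the map of `fin_inj`, `fin_surj` (A/FinA).
-/

noncomputable section

namespace C715

open CategoryTheory

namespace Ang

open XX ActCat

/-- `Acs → Ac` -/
private abbrev jA : Acs.Obj ⥤ Ac.Obj := Ac.restrIncl (fun a : Ac.Ob => ShC a)

/-- `Bcs → Bc` -/
private abbrev jB : Bcs.Obj ⥤ Bc.Obj := Bc.restrIncl (fun a : Bc.Ob => ShC a)

private theorem fun_eq : AcsBcs ⋙ jB = jA ⋙ AcBc := by
  refine CategoryTheory.Functor.ext (fun _ => rfl) (fun x y u => ?_)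
  induction u using ActCat.ind with
  | h g hg =>
    refine Eq.trans ?_ (Category.id_comp _).symm
    exact (Category.comp_id _).symm

private theorem cB (n : ℕ) (x : HC Acs.Obj n) :
    HCmap jB n (HCmap AcsBcs n x) = HCmap AcBc n (HCmap jA n x) :=
  (HCmap_comp AcsBcs jB n x).symm.trans
    ((congrArg (fun F : Acs.Obj ⥤ Bc.Obj => HCmap F n x) fun_eq).trans (HCmap_comp jA AcBc n x))

private theorem cF (n : ℕ) (x : HC Acs.Obj n) : HCmap AcsF n x = HCmap AcF n (HCmap jA n x) :=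
  HCmap_comp jA AcF n x

theorem out_inj (n : ℕ) (hn : n ≤ 4) : Function.Injective
    (fun x : HC Acs.Obj n => (HCmap AcsBcs n x, HCmap AcsF n x)) := by
  intro x y h
  have h1 : HCmap AcsBcs n x = HCmap AcsBcs n y := congrArg Prod.fst h
  have h2 : HCmap AcsF n x = HCmap AcsF n y := congrArg Prod.snd h
  exact (hiso_Acs n).1 (fin_inj n hn (Prod.ext
    ((cB n x).symm.trans ((congrArg (HCmap jB n) h1).trans (cB n y)))
    ((cF n x).symm.trans (h2.trans (cF n y)))))

theorem out_surj (n : ℕ) (h1 : 1 ≤ n) (hn : n ≤ 5) : Function.Surjective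
    (fun x : HC Acs.Obj n => (HCmap AcsBcs n x, HCmap AcsF n x)) := by
  rintro ⟨b, f⟩
  obtain ⟨y, hy⟩ := fin_surj n h1 hn (HCmap jB n b, f)
  obtain ⟨x, hx⟩ := (hiso_Acs n).2 y
  have hx' : HCmap jA n x = y := hx
  have h2 : HCmap AcBc n y = HCmap jB n b := congrArg Prod.fst hy
  have h3 : HCmap AcF n y = f := congrArg Prod.snd hy
  refine ⟨x, Prod.ext ?_ ?_⟩
  · exact (hiso_Bcs n).1 ((cB n x).trans ((congrArg (HCmap AcBc n) hx').trans h2))
  · exact (cF n x).trans ((congrArg (HCmap AcF n) hx').trans h3)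

end Ang
end C715
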