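import Pool.Agent.Work.MP_c71557_gt.A.DefsC
import Pool.Agent.Work.MP_c71557_gt.H.ActDir
import Pool.Agent.Work.MP_c71557_gt.H.QA

set_option autoImplicit false
set_option linter.unusedVariables false

/-!
# MP_c71557_gt, module A/Pts: nondegenerate cells in all cells (M)

`hiso_Nd : HIso (CC.restrIncl Nd)` (`CCn = CC.restr Nd`).  Auxiliary categories `Wc P` (A/DefsC):
pairs `(a, a')`, `a ⊂ interior of a'`, `P a`, arrows = elements mapping `a → b`, `a' → b'`, modulo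
germs of the identity near `a'`.
* `Wc1 : Wc True → CC`, `(a,a') ↦ a`, is a homology isomorphism: `quillenA_under` (H/QA) and
  `acy_under` (H/ActDir).  Under a cell `c`: objects `((a,a'), F)`, `Into c F a`.  Nonempty:
  `a = c`, `a' = [c.lo - 1, c.hi + 1]`, `F = 1`.  Directed: for `((a1,a1'),F1)`, `((a2,a2'),F2)` take
  `a3 = c`, `a3' = [c.lo - δ, c.hi + δ]`, `F3 = 1`, `k_i = F_i`, with `δ > 0` small: `F_i a3' ⊆ a_i'`
  because `a_i'.lo < a_i.lo ≤ F_i c.lo` etc. (continuity; explicitly `F_i.f.symm a_i'.lo < c.lo`, so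
  `δ = min` of the four positive numbers `c.lo - F_i.f.symm a_i'.lo`, `F_i.f.symm a_i'.hi - c.hi`).
  Equalizing: `g : c → a`, `k, k' : (a,a') → (b,b')` with `(k g)⁻¹ (k' g) ∈ nb c`: take
  `(a3, a3') = (c, [c.lo - δ, c.hi + δ])`, `g3 = 1`, `m = g` with `δ` small enough that `m a3' ⊆ a'`
  and that `(k g)⁻¹ (k' g)` is the identity near `a3'` (it is the identity on
  `[c.lo - e, c.hi + e]`; `δ < e/2`).
* `Wc1n : Wc Nd → CCn`: the same proof.
* `Wc2 P : Wc P → CCn`, `(a,a') ↦ a'` for `P = True` and `P = Nd`: `quillenA_over`, `acy_over`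
  (H/ActDir).  Over a nondegenerate cell `b`: objects `((a,a'), F)`, `Into a' F b`.  Nonempty: `a'=b`,
  `a` = the middle third, `F = 1`.  Directed: `a3 =` smallest cell containing `F1 a1`, `F2 a2`;
  `a3' =` smallest cell containing `F1 a1'`, `F2 a2'`; `F3 = 1`, `k_i = F_i` (`a3 ⊂ interior a3'` by
  strict monotonicity of `F_i`; `a3` nondegenerate if `a1` is).  Thin: the groups `N` are the same.
* `WcI ⋙ Wc2 True = Wc2 Nd`, so `WcI` is a homology isomorphism (`HIso.of_comp_right`, H/Base);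
  `Wc1n ⋙ CC.restrIncl Nd = WcI ⋙ Wc1` (functor extensionality, arrows by `ActCat.ind`), so
  `CC.restrIncl Nd` is one (`HIso.comp`, `HIso.of_comp_left`).
-/

noncomputable section

namespace C715

open CategoryTheory

namespace Ang

open XX ActCat

/-- the closed neighbourhood -/
private def pts_nbh (c : Cell) (d : ℝ) (hd : 0 < d) : Cell :=
  ⟨c.lo - d, c.hi + d, by linarith [c.le]⟩

/-- a cell together with a neighbourhood -/
private def pts_ob (P : Cell → Prop) (c : Cell) (hc : P c) (d : ℝ) (hd : 0 < d) : (Wc P).Ob :=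
  ⟨(c, pts_nbh c d hd), hc, by
    change c.lo - d < c.lo
    linarith, by
    change c.hi < c.hi + d
    linarith⟩

/-- small neighbourhoods of `c` are mapped into `q` -/
private theorem pts_small (c q : Cell) (F : XX) (h1 : q.lo < F.f c.lo) (h2 : F.f c.hi < q.hi) :
    ∃ e : ℝ, 0 < e ∧ ∀ d (hd : 0 < d), d ≤ e → Into (pts_nbh c d hd) F q := by
  refine ⟨min (c.lo - F.f.symm q.lo) (F.f.symm q.hi - c.hi), ?_, ?_⟩
  · refine lt_min ?_ ?_
    · rw [sub_pos, F.f.symm_apply_lt]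
      exact h1
    · rw [sub_pos, F.f.lt_symm_apply]
      exact h2
  · intro d hd hde
    have m1 := hde.trans (min_le_left _ _)
    have m2 := hde.trans (min_le_right _ _)
    refine ⟨?_, ?_⟩
    · change q.lo ≤ F.f (c.lo - d)
      rw [← F.f.symm_apply_le]
      linarith
    · change F.f (c.hi + d) ≤ q.hi
      rw [← F.f.le_symm_apply]
      linarith

private theorem pts_small' {P : Cell → Prop} (c : Cell) (a : (Wc P).Ob) (F : XX)
    (h : Into c F a.1.1) :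
    ∃ e : ℝ, 0 < e ∧ ∀ d (hd : 0 < d), d ≤ e → Into (pts_nbh c d hd) F a.1.2 :=
  pts_small c a.1.2 F (a.2.2.1.trans_le h.1) (lt_of_le_of_lt h.2 a.2.2.2)

private theorem pts_dir {P : Cell → Prop} (c : Cell) (hc : P c) (a1 a2 : (Wc P).Ob) (g1 g2 : XX)
    (h1 : Into c g1 a1.1.1) (h2 : Into c g2 a2.1.1) :
    ∃ a3 : (Wc P).Ob, a3.1.1 = c ∧ (Wc P).Adm a3 g1 a1 ∧ (Wc P).Adm a3 g2 a2 := by
  obtain ⟨e1, he1, H1⟩ := pts_small' c a1 g1 h1
  obtain ⟨e2, he2, H2⟩ := pts_small' c a2 g2 h2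
  have hm : 0 < min e1 e2 := lt_min he1 he2
  exact ⟨pts_ob P c hc (min e1 e2) hm, rfl,
    ⟨h1, H1 _ hm (min_le_left _ _)⟩, ⟨h2, H2 _ hm (min_le_right _ _)⟩⟩

private theorem pts_eq {P : Cell → Prop} (c : Cell) (hc : P c) (a a' : (Wc P).Ob) (g k k' : XX)
    (h1 : Into c g a.1.1) (h : (k * g)⁻¹ * (k' * g) ∈ nb c.lo c.hi) :
    ∃ a3 : (Wc P).Ob, a3.1.1 = c ∧ (Wc P).Adm a3 g a ∧
      (k * g)⁻¹ * (k' * g) ∈ nb a3.1.2.lo a3.1.2.hi := by
  obtain ⟨e1, he1, H1⟩ := pts_small' c a g h1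
  obtain ⟨e2, he2, H2⟩ := h
  have hm : 0 < min e1 (e2 / 2) := lt_min he1 (half_pos he2)
  refine ⟨pts_ob P c hc (min e1 (e2 / 2)) hm, rfl,
    ⟨h1, H1 _ hm (min_le_left _ _)⟩, e2 / 2, half_pos he2, fun s hs hs' => ?_⟩
  have m2 := min_le_right e1 (e2 / 2)
  refine H2 s ?_ ?_
  · have : c.lo - min e1 (e2 / 2) - e2 / 2 ≤ s := hs
    linarith
  · have : s ≤ c.hi + min e1 (e2 / 2) + e2 / 2 := hs'
    linarith

theorem hiso_Wc1 : HIso Wc1 := by
  refine quillenA_under _ fun b => ?_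
  obtain ⟨c⟩ := b
  refine acy_under (A := Wc fun _ => True) (A' := CC) (fun p => p.1.1) (fun h => h.1)
    (fun h => Wc_nb _ h) c ?_ ?_ ?_
  · exact ⟨pts_ob _ c trivial 1 one_pos, 1, Into.one c⟩
  · intro a1 g1 a2 g2 h1 h2
    obtain ⟨a3, e, h3, h4⟩ := pts_dir c trivial a1 a2 g1 g2 h1 h2
    refine ⟨a3, 1, g1, g2, ?_, h3, h4, ?_, ?_⟩
    · change Into c 1 a3.1.1
      rw [e]
      exact Into.one c
    · rw [mul_one, inv_mul_cancel]
      exact Subgroup.one_mem _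
    · rw [mul_one, inv_mul_cancel]
      exact Subgroup.one_mem _
  · intro a a' g k k' h1 _ _ h
    obtain ⟨a3, e, h3, h4⟩ := pts_eq c trivial a a' g k k' h1 h
    refine ⟨a3, 1, g, ?_, h3, ?_, h4⟩
    · change Into c 1 a3.1.1
      rw [e]
      exact Into.one c
    · rw [mul_one, inv_mul_cancel]
      exact Subgroup.one_mem _

theorem hiso_Wc1n : HIso Wc1n := by
  refine quillenA_under _ fun b => ?_
  obtain ⟨c, hc⟩ := b
  refine acy_under (A := Wc Nd) (A' := CCn) (fun p => ⟨p.1.1, p.2.1⟩) (fun h => h.1)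
    (fun h => Wc_nb _ h) ⟨c, hc⟩ ?_ ?_ ?_
  · exact ⟨pts_ob _ c hc 1 one_pos, 1, Into.one c⟩
  · intro a1 g1 a2 g2 h1 h2
    obtain ⟨a3, e, h3, h4⟩ := pts_dir c hc a1 a2 g1 g2 h1 h2
    refine ⟨a3, 1, g1, g2, ?_, h3, h4, ?_, ?_⟩
    · change Into c 1 a3.1.1
      rw [e]
      exact Into.one c
    · rw [mul_one, inv_mul_cancel]
      exact Subgroup.one_mem _
    · rw [mul_one, inv_mul_cancel]
      exact Subgroup.one_mem _
  · intro a a' g k k' h1 _ _ h
    obtain ⟨a3, e, h3, h4⟩ := pts_eq c hc a a' g k k' h1 h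
    refine ⟨a3, 1, g, ?_, h3, ?_, h4⟩
    · change Into c 1 a3.1.1
      rw [e]
      exact Into.one c
    · rw [mul_one, inv_mul_cancel]
      exact Subgroup.one_mem _

theorem hiso_Wc2 (P : Cell → Prop) (hP : P = (fun _ => True) ∨ P = Nd) : HIso (Wc2 P) := by
  have hPnd : ∀ a : Cell, a.lo < a.hi → P a := by
    intro a ha
    rcases hP with rfl | rfl
    · trivial
    · exact ha
  have hPle : ∀ (a b : Cell) (F : XX), P a → b.lo ≤ F.f a.lo → F.f a.hi ≤ b.hi → P b := by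
    intro a b F ha h1 h2
    rcases hP with rfl | rfl
    · trivial
    · exact lt_of_le_of_lt h1 ((F.f.strictMono ha).trans_le h2)
  refine quillenA_over _ fun b => ?_
  obtain ⟨b, hb⟩ := b
  refine acy_over (A := Wc P) (A' := CCn) (fun p => ⟨p.1.2, by
      have h1 := p.2.2.1
      have h2 := p.2.2.2
      have h3 := p.1.1.le
      change p.1.2.lo < p.1.2.hi
      linarith⟩) (fun h => h.2) (fun h => h) ⟨b, hb⟩ ?_ ?_ ?_
  · have hb' : b.lo < b.hi := hb
    refine ⟨⟨(⟨(2 * b.lo + b.hi) / 3, (b.lo + 2 * b.hi) / 3, by linarith⟩, b), hPnd _ ?_, ?_, ?_⟩,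
      1, Into.one b⟩
    · change (2 * b.lo + b.hi) / 3 < (b.lo + 2 * b.hi) / 3
      linarith
    · change b.lo < (2 * b.lo + b.hi) / 3
      linarith
    · change (b.lo + 2 * b.hi) / 3 < b.hi
      linarith
  · intro a1 g1 a2 g2 h1 h2
    have m1 : g1.f a1.1.2.lo < g1.f a1.1.1.lo := g1.f.strictMono a1.2.2.1
    have m2 : g1.f a1.1.1.hi < g1.f a1.1.2.hi := g1.f.strictMono a1.2.2.2
    have m3 : g2.f a2.1.2.lo < g2.f a2.1.1.lo := g2.f.strictMono a2.2.2.1
    have m4 : g2.f a2.1.1.hi < g2.f a2.1.2.hi := g2.f.strictMono a2.2.2.2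
    have m5 : g1.f a1.1.1.lo ≤ g1.f a1.1.1.hi := g1.f.monotone a1.1.1.le
    have m6 : g1.f a1.1.2.lo ≤ g1.f a1.1.2.hi := g1.f.monotone a1.1.2.le
    refine ⟨⟨(⟨min (g1.f a1.1.1.lo) (g2.f a2.1.1.lo), max (g1.f a1.1.1.hi) (g2.f a2.1.1.hi),
        (min_le_left _ _).trans (m5.trans (le_max_left _ _))⟩,
      ⟨min (g1.f a1.1.2.lo) (g2.f a2.1.2.lo), max (g1.f a1.1.2.hi) (g2.f a2.1.2.hi),
        (min_le_left _ _).trans (m6.trans (le_max_left _ _))⟩),
      hPle _ _ g1 a1.2.1 (min_le_left _ _) (le_max_left _ _),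
      min_lt_min m1 m3, max_lt_max m2 m4⟩, 1, g1, g2, ?_, ?_, ?_, ?_, ?_⟩
    · exact ⟨le_min h1.1 h2.1, max_le h1.2 h2.2⟩
    · exact ⟨⟨min_le_left _ _, le_max_left _ _⟩, ⟨min_le_left _ _, le_max_left _ _⟩⟩
    · exact ⟨⟨min_le_right _ _, le_max_right _ _⟩, ⟨min_le_right _ _, le_max_right _ _⟩⟩
    · rw [one_mul, inv_mul_cancel]
      exact Subgroup.one_mem _
    · rw [one_mul, inv_mul_cancel]
      exact Subgroup.one_mem _
  · intro a a' g k k' _ _ _ h
    exact h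

private theorem pts_fun1 : WcI ⋙ Wc2 (fun _ => True) = Wc2 Nd := by
  refine CategoryTheory.Functor.ext (fun _ => rfl) (fun x y u => ?_)
  induction u using ActCat.ind with
  | h g hg =>
    refine Eq.trans ?_ (Category.id_comp _).symm
    exact (Category.comp_id _).symm

private theorem pts_fun2 : Wc1n ⋙ CC.restrIncl Nd = WcI ⋙ Wc1 := by
  refine CategoryTheory.Functor.ext (fun _ => rfl) (fun x y u => ?_)
  induction u using ActCat.ind with
  | h g hg =>
    refine Eq.trans ?_ (Category.id_comp _).symm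
    exact (Category.comp_id _).symm

theorem hiso_Nd : HIso (CC.restrIncl Nd) := by
  have h1 : HIso WcI := by
    refine HIso.of_comp_right (hiso_Wc2 (fun _ => True) (Or.inl rfl)) ?_
    rw [pts_fun1]
    exact hiso_Wc2 Nd (Or.inr rfl)
  refine HIso.of_comp_left hiso_Wc1n ?_
  exact (congrArg (fun F => HIso F) pts_fun2).mpr (h1.comp hiso_Wc1)

end Ang
end C715
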