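import Pool.Agent.Work.MP_c71557_gt.A.DefsZ
import Pool.Agent.Work.MP_c71557_gt.A.ActFF
import Pool.Agent.Work.MP_c71557_gt.H.Defs5

set_option autoImplicit false
set_option linter.unusedVariables false

/-!
# MP_c71557_gt, module A/PzA: the infinite cyclic covering of `A × ℤ` is `A` (S)

* `hiso_pzI : HIso A.pzI` by `hiso_functor` (A/ActFF): full: `g' : (a,0) → (b,0)` in `pzE` has
  `g'.2 = 1` (`0 = 0 + toAdd g'.2`), so `g' = (g'.1, 1)`; faithful: `(n, 1) ∈ (A.N a).prod ⊥` iff
  `n ∈ A.N a`; essentially surjective: `(b, k)`: `a = b`, `g = (1, ofAdd k)`.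
* `pzS_H : HCmap A.pzS n y = y`: `HCmap_natTrans` (H/Prism) with `A.pzU`, `HCmap_id` (H/Base).
* `pz_ret`: `HCmap A.pzIncl n` is injective: the projection `A.pz → A` (`functor (fun a => a)
  (MonoidHom.fst _ _) …`) composed with `pzIncl` is the identity functor (functor extensionality).
* `pz_zero`: `HCmap A.pzIncl 0` is bijective: surjective because every 0-chain of `A.pz` is the image
  of a 0-chain of `A` (`Sx.ext0`, H/Defs5; `NCmap_single`).
-/

noncomputable section

namespace C715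

open CategoryTheory

namespace ActCat

variable {Γ : Type} [Group Γ]

theorem hiso_pzI (A : ActCat Γ) : HIso A.pzI := by
  refine hiso_functor (A := A) (A' := A.pzE) (fun a => (a, 0))
    (MonoidHom.inl Γ (Multiplicative ℤ)) (fun h => ⟨h, rfl⟩) (fun h => ⟨h, rfl⟩) ?_ ?_ ?_
  · intro a b g' h
    refine ⟨g'.1, h.1, ?_⟩
    have h2 : (0 : ℤ) = 0 + Multiplicative.toAdd g'.2 := h.2
    have h3 : g'.2 = 1 := by
      apply Multiplicative.toAdd.injective
      rw [toAdd_one]
      omega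
    have h4 : (MonoidHom.inl Γ (Multiplicative ℤ) g'.1)⁻¹ * g' = 1 := by
      refine Prod.ext ?_ ?_
      · change (g'.1)⁻¹ * g'.1 = 1
        rw [inv_mul_cancel]
      · change (1 : Multiplicative ℤ)⁻¹ * g'.2 = 1
        rw [h3, inv_one, mul_one]
    rw [h4]
    exact Subgroup.one_mem _
  · intro a b g g' _ _ h
    exact h.1
  · rintro ⟨b, k⟩
    refine ⟨b, ((1 : Γ), Multiplicative.ofAdd k), ⟨A.one b, ?_⟩, ?_, ?_⟩
    · change k = 0 + k
      rw [zero_add]
    · change A.Adm b (1 : Γ)⁻¹ b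
      rw [inv_one]
      exact A.one b
    · change (0 : ℤ) = k + -k
      rw [add_neg_cancel]

theorem pzS_H (A : ActCat Γ) (n : ℕ) (y : HC A.pzE.Obj n) : HCmap A.pzS n y = y := by
  rw [← HCmap_natTrans A.pzU n, HCmap_id]

/-- the projection -/
private def pzPr (A : ActCat Γ) : A.pz.Obj ⥤ A.Obj :=
  functor (A := A.pz) (A' := A) (fun a => a) (MonoidHom.fst Γ (Multiplicative ℤ)) (fun h => h)
    (fun h => h.1)

private theorem pzIncl_pr (A : ActCat Γ) : A.pzIncl ⋙ pzPr A = 𝟭 A.Obj := by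
  refine CategoryTheory.Functor.ext (fun _ => rfl) (fun x y u => ?_)
  induction u using ActCat.ind with
  | h g hg =>
    refine Eq.trans ?_ (Category.id_comp _).symm
    exact (Category.comp_id _).symm

theorem pz_ret (A : ActCat Γ) (n : ℕ) : Function.Injective (HCmap A.pzIncl n) := by
  intro x y h
  have h1 := congrArg (HCmap (pzPr A) n) h
  rw [← HCmap_comp, ← HCmap_comp, pzIncl_pr, HCmap_id, HCmap_id] at h1
  exact h1

theorem pz_zero (A : ActCat Γ) : Function.Bijective (HCmap A.pzIncl 0) := by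
  refine ⟨pz_ret A 0, fun y => ?_⟩
  obtain ⟨x, hx, rfl⟩ := Cx.H_surj y
  have hs : Function.Surjective (fun σ : Sx A.Obj 0 => σ.push A.pzIncl) := by
    intro τ
    exact ⟨Sx.pt ⟨(τ.o 0).o⟩, Sx.ext0 rfl⟩
  obtain ⟨z, hz⟩ := Finsupp.mapDomain_surjective hs x
  refine ⟨(NC A.Obj).cls 0 z trivial, ?_⟩
  refine (Cx.H_cls _ _ _ _).trans ?_
  congr 1

end ActCat
end C715
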