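import Pool.Agent.Work.MP_c71557_gt.A.ThinP
import Pool.Agent.Work.MP_c71557_gt.A.PiA
import Pool.Agent.Work.MP_c71557_gt.H.ActDir

/-!
# MP_c71557_gt, module A/ShT: `T1 → AA` is a homology isomorphism (M)

* `hiso_pA`: `pA : AA → Ft` (one object category).  `quillenA_over` (H/QA) with `acy_over`
  (H/ActDir): nonempty: any cell, `g = 1`.  Directed: for `(a1, g1)`, `(a2, g2)` let `a3` be the
  smallest cell containing `g1 a1` and `g2 a2` (`lo = min (g1.f a1.lo) (g2.f a2.lo)`,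
  `hi = max …`), `g3 = 1`, `k1 = g1`, `k2 = g2`.  Thin: both `N` are `⊥`.
  (The objects of `(ActCat.sg ⊤).Obj` are `⟨()⟩`; `Adm () g ()` is `g ∈ ⊤`.)
* `hiso_pAn`: the same for nondegenerate cells (`a3` is nondegenerate).
* `hiso_T1n`: `T1n : T1 → AAn` (short nondegenerate cells in nondegenerate cells).
  `quillenA_over`: for a nondegenerate cell `b` the category `D = CostructuredArrow T1n ⟨b⟩` has
  objects `(a, g)`, `a` short nondegenerate, `g ∈ Ft`, `Into a g b` (all `N` are `⊥`, so classes are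
  elements), and arrows `(a, g) → (a', g')` = `{k : Into a k a', g' k = g}`: at most one, namely
  `k = g'⁻¹ g`, and it exists iff `[g a.lo, g a.hi] ⊆ [g' a'.lo, g' a'.hi]`.
  Apply `acy_thin` (A/ThinP) with `P = Pc True b.lo b.hi` (A/PiA: acyclic) and
  `π (a, g) = [g.f a.lo, g.f a.hi]`; it is short because `g` commutes with `tau` (`mem_Ft`):
  `g a.hi < g (a.lo + 2π) = g a.lo + 2π`.  Surjective: `p = π (p, 1)`.
  Technical: objects of `D` are `CostructuredArrow.mk (A'.hom g hg)` (cf. `over_cases`, `over_hom` in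
  H/ActDir, which are private: copy them); to define `π` on `D` use `Quotient.lift`/`Quotient.out`
  (here the relation is equality because `N = ⊥`), e.g. `(x.hom : AAn.Hm _ _).out`.
* `hiso_T1A`: `T1A ⋙ pA = T1n ⋙ pAn` (functor extensionality: same objects, on arrows by
  `ActCat.ind`), so `HIso.comp`, `HIso.of_comp_right` (H/Base).
-/

set_option autoImplicit false
set_option linter.unusedVariables false

noncomputable section

namespace C715

open CategoryTheory

namespace Ang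

open XX ActCat

/-- the hull of two images -/
private def hull (a1 a2 : Cell) (F G : XX) : Cell where
  lo := min (F.f a1.lo) (G.f a2.lo)
  hi := max (F.f a1.hi) (G.f a2.hi)
  le := (min_le_left _ _).trans ((F.f.monotone a1.le).trans (le_max_left _ _))

theorem hiso_pA : HIso pA := by
  refine quillenA_over pA (fun b => ?_)
  refine ActCat.acy_over (A := AA) (A' := ActCat.sg (⊤ : Subgroup ↥Ft)) (fun _ => ())
    (fun _ => trivial) (fun h => h) b.o ⟨a0, 1, trivial⟩ ?_ ?_
  · intro a1 g1 a2 g2 _ _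
    refine ⟨hull a1 a2 g1.1 g2.1, 1, g1, g2, trivial, ⟨min_le_left _ _, le_max_left _ _⟩,
      ⟨min_le_right _ _, le_max_right _ _⟩, ?_, ?_⟩
    · rw [one_mul, inv_mul_cancel]; exact Subgroup.one_mem _
    · rw [one_mul, inv_mul_cancel]; exact Subgroup.one_mem _
  · intro a a' g k k' _ _ _ h
    exact h

theorem hiso_pAn : HIso pAn := by
  refine quillenA_over pAn (fun b => ?_)
  refine ActCat.acy_over (A := AAn) (A' := ActCat.sg (⊤ : Subgroup ↥Ft)) (fun _ => ())
    (fun _ => trivial) (fun h => h) b.o ⟨⟨a0, by change (7 : ℝ) < 8; norm_num⟩, 1, trivial⟩ ?_ ?_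
  · intro a1 g1 a2 g2 _ _
    refine ⟨⟨hull a1.1 a2.1 g1.1 g2.1, ?_⟩, 1, g1, g2, trivial,
      ⟨min_le_left _ _, le_max_left _ _⟩,
      ⟨min_le_right _ _, le_max_right _ _⟩, ?_, ?_⟩
    · change min _ _ < max _ _
      exact lt_of_le_of_lt (min_le_left _ _)
        (lt_of_lt_of_le (g1.1.f.strictMono a1.2) (le_max_left _ _))
    · rw [one_mul, inv_mul_cancel]; exact Subgroup.one_mem _
    · rw [one_mul, inv_mul_cancel]; exact Subgroup.one_mem _
  · intro a a' g k k' _ _ _ h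
    exact h

section ovr

variable {b : AAn.Ob}

/-- the element of an object over `b` -/
private def gz (X : CostructuredArrow T1n (⟨b⟩ : AAn.Obj)) : ↥Ft := (hom_surj X.hom).choose

private theorem gz_adm (X : CostructuredArrow T1n (⟨b⟩ : AAn.Obj)) :
    Into X.left.o.1 (gz X).1 b.1 := (hom_surj X.hom).choose_spec.choose

private theorem gz_spec (X : CostructuredArrow T1n (⟨b⟩ : AAn.Obj)) :
    X.hom = AAn.hom (a := (T1n.obj X.left).o) (b := b) (gz X) (gz_adm X) :=
  (hom_surj X.hom).choose_spec.choose_spec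

private theorem ft_add {F : XX} (hF : F ∈ Ft) (s : ℝ) :
    F.f (s + 2 * Real.pi) = F.f s + 2 * Real.pi := congrArg Prod.fst (mem_Ft.1 hF s)

private def piz (X : CostructuredArrow T1n (⟨b⟩ : AAn.Obj)) : Pc True b.1.lo b.1.hi where
  lo := (gz X).1.f X.left.o.1.lo
  hi := (gz X).1.f X.left.o.1.hi
  le := (gz X).1.f.monotone X.left.o.1.le
  nd := fun _ => (gz X).1.f.strictMono X.left.o.2.1
  sh := by
    have h1 := (gz X).1.f.strictMono X.left.o.2.2
    rwa [ft_add (gz X).2] at h1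
  hc := (gz_adm X).1
  hd := (gz_adm X).2

private theorem over_iff (X Y : CostructuredArrow T1n (⟨b⟩ : AAn.Obj)) (k : ↥Ft)
    (hk : T1.Adm X.left.o k Y.left.o) :
    T1n.map (T1.hom k hk) ≫ Y.hom = X.hom ↔ gz Y * k = gz X := by
  rw [gz_spec X, gz_spec Y]
  have h1 : T1n.map (T1.hom k hk) ≫
      AAn.hom (a := (T1n.obj Y.left).o) (b := b) (gz Y) (gz_adm Y) =
      AAn.hom (a := (T1n.obj X.left).o) (b := b) (gz Y * k) (Into.mul hk (gz_adm Y)) := rfl
  rw [h1]
  refine Iff.trans hom_eq ?_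
  change _ ∈ (⊥ : Subgroup ↥Ft) ↔ _
  rw [Subgroup.mem_bot, inv_mul_eq_one]

private theorem thin (X Y : CostructuredArrow T1n (⟨b⟩ : AAn.Obj)) (u v : X ⟶ Y) : u = v := by
  obtain ⟨k, hk, e⟩ := hom_surj u.left
  obtain ⟨k', hk', e'⟩ := hom_surj v.left
  have h1 := CostructuredArrow.w u
  have h2 := CostructuredArrow.w v
  rw [e] at h1
  rw [e'] at h2
  have h3 := (over_iff X Y k hk).1 h1
  have h4 := (over_iff X Y k' hk').1 h2
  have h5 : k = k' := mul_left_cancel (h3.trans h4.symm)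
  refine CostructuredArrow.hom_ext _ _ ?_
  rw [e, e']
  subst h5
  rfl

private theorem piz_iff (X Y : CostructuredArrow T1n (⟨b⟩ : AAn.Obj)) :
    Nonempty (X ⟶ Y) ↔ piz X ≤ piz Y := by
  constructor
  · rintro ⟨u⟩
    obtain ⟨k, hk, e⟩ := hom_surj u.left
    have h1 := CostructuredArrow.w u
    rw [e] at h1
    have h3 := (over_iff X Y k hk).1 h1
    refine ⟨?_, ?_⟩
    · change (gz Y).1.f Y.left.o.1.lo ≤ (gz X).1.f X.left.o.1.lo
      rw [← h3]
      exact (gz Y).1.f.monotone hk.1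
    · change (gz X).1.f X.left.o.1.hi ≤ (gz Y).1.f Y.left.o.1.hi
      rw [← h3]
      exact (gz Y).1.f.monotone hk.2
  · rintro ⟨h1, h2⟩
    have h1' : (gz Y).1.f Y.left.o.1.lo ≤ (gz X).1.f X.left.o.1.lo := h1
    have h2' : (gz X).1.f X.left.o.1.hi ≤ (gz Y).1.f Y.left.o.1.hi := h2
    have hk : T1.Adm X.left.o ((gz Y)⁻¹ * gz X) Y.left.o := by
      have e : ∀ s, (gz Y).1.f (((gz Y)⁻¹ * gz X : ↥Ft).1.f s) = (gz X).1.f s := by
        intro s
        have h3 : (gz Y * ((gz Y)⁻¹ * gz X) : ↥Ft) = gz X := by group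
        have h4 : (gz Y * ((gz Y)⁻¹ * gz X) : ↥Ft).1.f s = (gz X).1.f s := by rw [h3]
        exact h4
      refine ⟨?_, ?_⟩
      · rw [← (gz Y).1.f.le_iff_le, e]
        exact h1'
      · rw [← (gz Y).1.f.le_iff_le, e]
        exact h2'
    refine ⟨CostructuredArrow.homMk (T1.hom _ hk) ?_⟩
    refine (over_iff X Y _ hk).2 ?_
    group

private theorem piz_surj (p : Pc True b.1.lo b.1.hi) :
    ∃ X : CostructuredArrow T1n (⟨b⟩ : AAn.Obj), piz X ≤ p ∧ p ≤ piz X := by
  let a : T1.Ob := ⟨⟨p.lo, p.hi, p.le⟩, p.nd trivial, p.sh⟩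
  have h1 : Into a.1 1 b.1 := ⟨p.hc, p.hd⟩
  let X : CostructuredArrow T1n (⟨b⟩ : AAn.Obj) :=
    CostructuredArrow.mk (S := T1n) (Y := (⟨a⟩ : T1.Obj))
      (AAn.hom (a := (T1n.obj ⟨a⟩).o) (b := b) (1 : ↥Ft) h1)
  have h2 : gz X = 1 := by
    have h3 : AAn.hom (a := (T1n.obj ⟨a⟩).o) (b := b) (1 : ↥Ft) h1 =
        AAn.hom (a := (T1n.obj X.left).o) (b := b) (gz X) (gz_adm X) := gz_spec X
    have h4 : (1 : ↥Ft)⁻¹ * gz X ∈ (⊥ : Subgroup ↥Ft) := hom_eq.1 h3
    rw [Subgroup.mem_bot, inv_one, one_mul] at h4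
    exact h4
  refine ⟨X, ⟨?_, ?_⟩, ⟨?_, ?_⟩⟩
  · change p.lo ≤ (gz X).1.f p.lo
    rw [h2]; exact le_rfl
  · change (gz X).1.f p.hi ≤ p.hi
    rw [h2]; exact le_rfl
  · change (gz X).1.f p.lo ≤ p.lo
    rw [h2]; exact le_rfl
  · change p.hi ≤ (gz X).1.f p.hi
    rw [h2]; exact le_rfl

end ovr

theorem hiso_T1n : HIso T1n := by
  refine quillenA_over T1n (fun b => ?_)
  exact acy_thin (acy_Pc True b.o.1.le (fun _ => b.o.2)) (piz (b := b.o)) (thin (b := b.o))
    (piz_iff (b := b.o)) (piz_surj (b := b.o))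

theorem hiso_T1A : HIso T1A := by
  have h : T1A ⋙ pA = T1n ⋙ pAn := by
    refine CategoryTheory.Functor.ext (fun _ => rfl) (fun x y u => ?_)
    induction u using ActCat.ind with
    | h f hf =>
      refine Eq.trans ?_ (Category.id_comp _).symm
      exact (Category.comp_id _).symm
  refine HIso.of_comp_right (G := pA) hiso_pA ?_
  rw [h]
  exact hiso_T1n.comp hiso_pAn

end Ang
end C715
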