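import Pool.Agent.Work.MP_c71557_gt.A.DefsC
import Pool.Agent.Work.MP_c71557_gt.H.Equiv

set_option autoImplicit false
set_option linter.unusedVariables false

/-!
# MP_c71557_gt, module A/Sig1: the suspension chains in `T2` (M)

Proof.  `w = pr tT (q+1) z - pr iT (q+1) z` (`pr`: A/Pr; `tT : PsG → PsB`, `iT : PsA → PsB`: A/DefsC).
* `d w = PsA z - PsG z` by `d_pr` (A/Pr), since `d z = 0`.
  `PsA = cS ⋙ T2.fibIncl …` (functor extensionality, arrows by `ActCat.ind`).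
  `PsG = toPt _ ⋙ ptF (⟨()⟩ : F2.Obj) ⋙ T2.fibIncl …`, because `cG k ∈ T2.N o2` (`cG_N`; `cl_eq`).  The
  chain `NCmap (toPt _) z` is a cycle of positive degree in `NC Pt`, so it is `d b'` (`acy_pt`,
  H/Equiv; `Acy`, `Cx.H_subsingleton`); `b = NCmap (ptF ⟨()⟩) b'`.
* `NCmap R2 (pr tT z) = pr (whiskerRight tT R2) z = pr (whiskerRight tA RA) z = NCmap RA (pr tA z)` and
  the same for `iT`, `iA`: `pr_whiskerRight`, `pr_congr` (A/Pr).  Equalities of functors: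
  `PsG ⋙ R2 = PhA ⋙ RA`, `PsA ⋙ R2 = PhA ⋙ RA`, `PsB ⋙ R2 = PhB ⋙ RA` by `sgFun_comp` and `sgFun_congr`
  (A/DefsB; `R2 = idFun … = functor … (MonoidHom.id _) …`): `(cG k)⁻¹ * KSX k ∈ nb 7 8` since both are in
  `nb 7 8` (`cG_N`, `nbL_le_nb`); `(cutS k)⁻¹ * KSX k ∈ nb 7 8` and `∈ nb (7 - 2π) 8` by `cutS_spec`,
  `inv_mul_ev`.  Components: at the only object they are the classes of `gT` and `tau⁻¹` in
  `CC.Hm a0 b0` (equal: `gT⁻¹ * tau⁻¹ ∈ nb 7 8`, `gT_ev`, `tauInv_ev`), and of `1` and `1`.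
-/

noncomputable section

namespace C715

open CategoryTheory

namespace Ang

open XX ActCat

private theorem PsA_eq : PsA = cS ⋙ T2.fibIncl N2 N2_adm N2_le o2 := by
  refine CategoryTheory.Functor.ext (fun _ => rfl) (fun x y u => ?_)
  induction u using ActCat.ind with
  | h g hg =>
    refine Eq.trans ?_ (Category.id_comp _).symm
    exact (Category.comp_id _).symm

private theorem PsG_eq : PsG =
    toPt (sg KS).Obj ⋙ (ptF (⟨()⟩ : F2.Obj) ⋙ T2.fibIncl N2 N2_adm N2_le o2) := by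
  refine CategoryTheory.Functor.ext (fun _ => rfl) (fun x y u => ?_)
  induction u using ActCat.ind with
  | h g hg =>
    refine Eq.trans ?_ (Category.id_comp _).symm
    refine Eq.trans ?_ (Category.comp_id _).symm
    refine cl_eq.2 ?_
    change (cG ⟨g, hg⟩)⁻¹ * 1 ∈ T2.N o2
    rw [mul_one]
    exact (T2.N o2).inv_mem (cG_N _)

private theorem PhA_RA : PhA ⋙ RA =
    sgFun KS CC a0 (Ft.subtype.comp KS.subtype) (fun k => KS_adma k) :=
  sgFun_comp KS AA CC a0 KS.subtype KS_adma (fun a => a) Ft.subtype (fun h => h)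
    (fun {a n} h => by
      have h' : n ∈ (⊥ : Subgroup ↥Ft) := h
      rw [Subgroup.mem_bot] at h'
      rw [h', map_one]
      exact Subgroup.one_mem _)

private theorem PhB_RA : PhB ⋙ RA =
    sgFun KS CC b0 (Ft.subtype.comp KS.subtype) (fun k => KS_admb k) :=
  sgFun_comp KS AA CC b0 KS.subtype KS_admb (fun a => a) Ft.subtype (fun h => h)
    (fun {a n} h => by
      have h' : n ∈ (⊥ : Subgroup ↥Ft) := h
      rw [Subgroup.mem_bot] at h'
      rw [h', map_one]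
      exact Subgroup.one_mem _)

private theorem PsG_R2 : PsG ⋙ R2 = PhA ⋙ RA := by
  rw [PhA_RA]
  refine (sgFun_comp KS T2 CC o2 cG cG_adm (fun a => a.1) (MonoidHom.id XX) (fun h => h.2)
    (fun h => nbL_le_nb _ _ h)).trans ?_
  refine sgFun_congr KS CC a0 _ _ _ _ (fun k => ?_)
  change (cG k)⁻¹ * KSX k ∈ nb 7 8
  exact (nb 7 8).mul_mem ((nb 7 8).inv_mem (nbL_le_nb _ _ (cG_N k))) k.2

private theorem PsA_R2 : PsA ⋙ R2 = PhA ⋙ RA := by
  rw [PhA_RA]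
  refine (sgFun_comp KS T2 CC o2 cutS cutS_adm (fun a => a.1) (MonoidHom.id XX) (fun h => h.2)
    (fun h => nbL_le_nb _ _ h)).trans ?_
  refine sgFun_congr KS CC a0 _ _ _ _ (fun k => ?_)
  change (cutS k)⁻¹ * KSX k ∈ nb 7 8
  exact (nb 7 8).mul_mem ((nb 7 8).inv_mem (cutS_N2 k).2) k.2

private theorem PsB_R2 : PsB ⋙ R2 = PhB ⋙ RA := by
  rw [PhB_RA]
  refine (sgFun_comp KS T2 CC o2b cutS cutS_admb (fun a => a.1) (MonoidHom.id XX) (fun h => h.2)
    (fun h => nbL_le_nb _ _ h)).trans ?_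
  refine sgFun_congr KS CC b0 _ _ _ _ (fun k => ?_)
  change (cutS k)⁻¹ * KSX k ∈ nb (7 - 2 * Real.pi) 8
  obtain ⟨e, he, h1, h2, h3⟩ := cutS_spec k
  exact ⟨e, he, fun s hs hs' => inv_mul_ev.2 (h3 s hs hs')⟩

private theorem gT_tauInv : gT⁻¹ * tau⁻¹ ∈ nb 7 8 := by
  obtain ⟨e, he, h⟩ := gT_ev
  exact ⟨e, he, fun s h1 h2 => inv_mul_ev.2 ((h s h1 h2).trans (tauInv_ev s).symm)⟩

theorem sig_chain (q : ℕ) (z : (NC (sg KS).Obj).X (q + 1)) (hz : z ∈ (NC (sg KS).Obj).Z (q + 1)) :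
    ∃ (w : (NC T2.Obj).X (q + 2)) (b : (NC F2.Obj).X (q + 2)),
      (NCmap R2).f (q + 2) w = (NCmap RA).f (q + 2) (dpr tA iA (q + 1) z) ∧
      (NC T2.Obj).d (q + 1) w = (NCmap (T2.fibIncl N2 N2_adm N2_le o2)).f (q + 1)
        ((NCmap cS).f (q + 1) z - (NC F2.Obj).d (q + 1) b) := by
  have hz' : (NC (sg KS).Obj).d q z = 0 := Cx.mem_Z_succ.1 hz
  obtain ⟨b', hb'⟩ : (NCmap (toPt (sg KS).Obj)).f (q + 1) z ∈ (NC Pt).Bd (q + 1) :=
    Cx.H_subsingleton.1 (acy_pt.2.2 q) _ ((NCmap (toPt (sg KS).Obj)).map_Z (q + 1) hz)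
  refine ⟨pr tT (q + 1) z - pr iT (q + 1) z, (NCmap (ptF (⟨()⟩ : F2.Obj))).f (q + 2) b', ?_, ?_⟩
  · have e1 : (NCmap R2).f (q + 2) (pr tT (q + 1) z) = (NCmap RA).f (q + 2) (pr tA (q + 1) z) := by
      refine (pr_whiskerRight tT R2 (q + 1) z).trans ?_
      refine Eq.trans ?_ (pr_whiskerRight tA RA (q + 1) z).symm
      exact pr_congr _ _ PsG_R2 PsB_R2 (fun x => heq_of_eq (cl_eq.2 gT_tauInv)) (q + 1) z
    have e2 : (NCmap R2).f (q + 2) (pr iT (q + 1) z) = (NCmap RA).f (q + 2) (pr iA (q + 1) z) := by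
      refine (pr_whiskerRight iT R2 (q + 1) z).trans ?_
      refine Eq.trans ?_ (pr_whiskerRight iA RA (q + 1) z).symm
      exact pr_congr _ _ PsA_R2 PsB_R2 (fun x => HEq.rfl) (q + 1) z
    rw [dpr_apply, map_sub, map_sub, e1, e2]
  · have h1 := d_pr tT q z
    have h2 := d_pr iT q z
    rw [hz', map_zero, add_zero] at h1 h2
    have h3 : (NCmap PsA).f (q + 1) z = (NCmap (T2.fibIncl N2 N2_adm N2_le o2)).f (q + 1)
        ((NCmap cS).f (q + 1) z) := by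
      rw [PsA_eq, ← NCmap_comp]
      rfl
    have h4 : (NCmap PsG).f (q + 1) z = (NCmap (T2.fibIncl N2 N2_adm N2_le o2)).f (q + 1)
        ((NC F2.Obj).d (q + 1) ((NCmap (ptF (⟨()⟩ : F2.Obj))).f (q + 2) b')) := by
      rw [PsG_eq, ← NCmap_comp, ← NCmap_comp, ← Cx.Hom.comm, hb']
      rfl
    rw [map_sub, h1, h2, map_sub, h3, h4]
    abel

end Ang
end C715
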