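import Pool.Agent.Work.MP_c71557_gt.A.Sig1
import Pool.Agent.Work.MP_c71557_gt.A.LowA

set_option autoImplicit false
set_option linter.unusedVariables false

/-!
# MP_c71557_gt, module A/Sig2: `EE` is bijective in low degrees (M)

Let `j = T2.fibIncl …`, `Y2 = relC j`, `X = relC (ptF ⟨a0⟩ : CC)`, `δ = Cx.delta (coker_SES (NCmap j) _)
(q+1) : H_{q+2}(Y2) → H_{q+1}(F2)`; `δ` is bijective (`relAcy`, H/RelPt; `acy_T2`, `fibIncl_inj`).
For a cycle `z ∈ Z_{q+1}(sg KS)` take `w`, `b` from `sig_chain` (A/Sig1).  The image of `w` in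
`Y2.X (q+2)` is a cycle (`d w` is in the image of `NCmap j`); let `W` be its class.
* `δ W = [cS z - d b] = HCmap cS [z]` (`delta_spec`, H/Les).
* `kap2.H (q+2) W = [R2 w mod] = (toCoker (NCmap (ptF ⟨a0⟩))).H (q+2) (EE (q+1) [z])`, because
  `EE (q+1) [z] = [NCmap RA (dpr tA iA z)]` (`nt_cls`, `H_cls`).
So with `P = (toCoker _).H (q+2) : H_{q+2}(CC) → H_{q+2}(X)` (bijective: `relPt`, H/RelPt):
`P (EE (q+1) y) = kap2.H (q+2) (δ⁻¹ (HCmap cS y))` for all `y`; `HCmap cS` is bijective (`hiso_cS`,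
A/CS), `kap2.H m` is bijective for `m ≤ 4` and surjective for `m = 5` (A/LowA).
-/

noncomputable section

namespace C715

open CategoryTheory

namespace Ang

open XX ActCat

private abbrev jj : F2.Obj ⥤ T2.Obj := T2.fibIncl N2 N2_adm N2_le o2

private theorem jj_inj (n : ℕ) : Function.Injective (fun σ : Sx F2.Obj n => σ.push jj) :=
  fibIncl_inj T2 N2 N2_adm N2_le o2 n

private noncomputable abbrev dd (q : ℕ) : (relC jj).H (q + 2) →ₗ[ℚ] HC F2.Obj (q + 1) :=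
  Cx.delta (Cx.coker_SES (NCmap jj) (NCmap_inj jj jj_inj)) (q + 1)

private noncomputable abbrev PP (q : ℕ) :
    HC CC.Obj (q + 2) →ₗ[ℚ] (relC (ptF (⟨a0⟩ : CC.Obj))).H (q + 2) :=
  (Cx.toCoker (NCmap (ptF (⟨a0⟩ : CC.Obj)))).H (q + 2)

private theorem key (q : ℕ) (y : HC (sg KS).Obj (q + 1)) : ∃ W : (relC jj).H (q + 2),
    dd q W = HCmap cS (q + 1) y ∧ kap2.H (q + 2) W = PP q (EE (q + 1) y) := by
  induction y using Cx.H_ind with
  | h z hz =>
    obtain ⟨w, b, h1, h2⟩ := sig_chain q z hz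
    have ha : (NCmap cS).f (q + 1) z - (NC F2.Obj).d (q + 1) b ∈ (NC F2.Obj).Z (q + 1) :=
      Submodule.sub_mem _ ((NCmap cS).map_Z (q + 1) hz) ((NC F2.Obj).d_mem_Z (q + 1) b)
    have hb : (Cx.toCoker (NCmap jj)).f (q + 2) w ∈ (relC jj).Z (q + 2) := by
      refine Cx.mem_Z_succ.2 ?_
      rw [← Cx.Hom.comm, h2]
      exact (Submodule.Quotient.mk_eq_zero _).2 ⟨_, rfl⟩
    refine ⟨(relC jj).cls (q + 2) ((Cx.toCoker (NCmap jj)).f (q + 2) w) hb, ?_, ?_⟩
    · refine (Cx.delta_spec _ (q + 1) w _ hb h2.symm ha).trans ?_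
      refine Cx.cls_eq.2 ?_
      refine ⟨-b, ?_⟩
      change (NC F2.Obj).d (q + 1) (-b) =
        ((NCmap cS).f (q + 1) z - (NC F2.Obj).d (q + 1) b) - (NCmap cS).f (q + 1) z
      rw [map_neg, sub_sub_cancel_left]
    · refine Cx.cls_eq.2 ?_
      have e : kap2.f (q + 2) ((Cx.toCoker (NCmap jj)).f (q + 2) w) =
          (Cx.toCoker (NCmap (ptF (⟨a0⟩ : CC.Obj)))).f (q + 2)
            ((NCmap RA).f (q + 2) (dpr tA iA (q + 1) z)) := by
        rw [← h1]
        rfl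
      refine ⟨0, ?_⟩
      rw [map_zero]
      exact (sub_eq_zero.2 e).symm

private theorem F2_zero (x : (NC F2.Obj).X 0)
    (hx : Finsupp.linearCombination ℚ (fun _ => (1 : ℚ)) x = 0) : x ∈ (NC F2.Obj).Bd 0 := by
  have hs : Subsingleton (Sx F2.Obj 0) := ⟨fun a b => Sx.ext0
    (Obj.ext (@Subsingleton.elim Unit _ (a.o 0).o (b.o 0).o))⟩
  have h0 : x = 0 := by
    by_contra hne
    obtain ⟨σ, hσ⟩ := Finsupp.ne_iff.1 hne
    have h1 : x = Finsupp.single σ ((x : Sx F2.Obj 0 →₀ ℚ) σ) := by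
      refine Finsupp.ext fun τ => ?_
      rw [hs.elim τ σ, Finsupp.single_eq_same]
    rw [h1, Finsupp.linearCombination_single, smul_eq_mul, mul_one] at hx
    exact hσ hx
  rw [h0]
  exact Submodule.zero_mem _

private theorem dd_bij (q : ℕ) : Function.Bijective (dd q) :=
  (relAcy acy_T2 jj jj_inj ⟨⟨()⟩⟩ F2_zero).1 q

private theorem PP_inj (q : ℕ) : Function.Injective (PP q) := (relPt (⟨a0⟩ : CC.Obj) (q + 1)).1

private theorem EE_surj' (q : ℕ) (h : Function.Surjective (kap2.H (q + 2))) :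
    Function.Surjective (EE (q + 1)) := by
  intro u
  obtain ⟨W', hW'⟩ := h (PP q u)
  obtain ⟨y, hy⟩ := (hiso_cS (q + 1)).2 (dd q W')
  obtain ⟨W, h1, h2⟩ := key q y
  have h3 : W = W' := (dd_bij q).1 (h1.trans hy)
  refine ⟨y, PP_inj q ?_⟩
  rw [← h2, h3, hW']

theorem EE_bij (q : ℕ) (hq : q ≤ 2) : Function.Bijective (EE (q + 1)) := by
  have hk := low2 (q + 2) (by omega)
  refine ⟨(injective_iff_map_eq_zero _).2 (fun y hy => ?_), EE_surj' q hk.2⟩
  obtain ⟨W, h1, h2⟩ := key q y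
  rw [hy, map_zero] at h2
  have h3 : W = 0 := (injective_iff_map_eq_zero _).1 hk.1 W h2
  rw [h3, map_zero] at h1
  exact (injective_iff_map_eq_zero _).1 (hiso_cS (q + 1)).1 y h1.symm

theorem EE_surj : Function.Surjective (EE 4) := EE_surj' 3 low2s

end Ang
end C715
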