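import Pool.Agent.Work.MP_c71557_gt.A.DefsC
import Pool.Agent.Work.MP_c71557_gt.H.Filt
import Pool.Agent.Work.MP_c71557_gt.H.Equiv

set_option autoImplicit false
set_option linter.unusedVariables false

/-!
# MP_c71557_gt, module A/ThinP: thin categories and preorders (S)

`acy_thin`: let `π : D → P` be a map from the objects of a thin category `D` to a preorder `P` with
`x ⟶ y` nonempty iff `π x ≤ π y`, and every `p : P` equivalent to some `π x`.  If `P` is acyclic (as
a category), so is `D`.

Proof.  `G : D ⥤ P`, `G.obj = π`, `G.map f = homOfLE ((hle _ _).1 ⟨f⟩)`.  It is faithful (`hthin`),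
full (homs of `P` are subsingletons, `hle`), essentially surjective (`hs`, isomorphism of `p` and
`π x` in a preorder: `⟨homOfLE _, homOfLE _⟩`).  So it is an equivalence; `hiso_of_equiv G` (H/Equiv)
and `Acy.congr`.
-/

noncomputable section

namespace C715

open CategoryTheory

theorem acy_thin {D : Type} [SmallCategory D] {P : Type} [Preorder P] (hP : Acy P) (π : D → P)
    (hthin : ∀ (x y : D) (f g : x ⟶ y), f = g)
    (hle : ∀ x y : D, Nonempty (x ⟶ y) ↔ π x ≤ π y)
    (hs : ∀ p : P, ∃ x : D, π x ≤ p ∧ p ≤ π x) : Acy D := by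
  let G : D ⥤ P :=
    { obj := π
      map := fun {x y} f => homOfLE ((hle x y).1 ⟨f⟩)
      map_id := fun _ => Subsingleton.elim _ _
      map_comp := fun _ _ => Subsingleton.elim _ _ }
  have h1 : G.Faithful := ⟨fun {x y f g} _ => hthin x y f g⟩
  have h2 : G.Full := ⟨fun {x y} g => ⟨((hle x y).2 (leOfHom g)).some, Subsingleton.elim _ _⟩⟩
  have h3 : G.EssSurj := ⟨fun p => by
    obtain ⟨x, hx1, hx2⟩ := hs p
    exact ⟨x, ⟨{ hom := homOfLE hx1, inv := homOfLE hx2
                 hom_inv_id := Subsingleton.elim _ _, inv_hom_id := Subsingleton.elim _ _ }⟩⟩⟩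
  have h4 : G.IsEquivalence := { }
  exact (Acy.congr (hiso_of_equiv G)).2 hP

end C715
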