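import Mathlib

set_option autoImplicit false

/-!
# MP_c71557_gt, block A (angular groups): the group `XX`

Homogeneous piecewise linear homeomorphisms of the universal cover of `ℂ ∖ 0` in polar coordinates:
`F (θ, ρ) = (f θ, r θ * ρ)`, where `V s = r s * e^{i f s}` is locally, on each side of every point,
of the form `cos s • p + sin s • q`.
-/

namespace C715
namespace Ang

open Complex

/-- `r s * e^{i f s}` -/
noncomputable def V (f r : ℝ → ℝ) (s : ℝ) : ℂ := r s • Complex.exp (f s * I)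

/-- linear on the set `A` of rays -/
def LinOn (f r : ℝ → ℝ) (A : Set ℝ) : Prop :=
  ∃ p q : ℂ, ∀ s ∈ A, V f r s = Real.cos s • p + Real.sin s • q

/-- homogeneous piecewise linear homeomorphisms -/
@[ext] structure XX where
  f : ℝ ≃o ℝ
  r : ℝ → ℝ
  pos : ∀ s, 0 < r s
  pl : ∀ t, ∃ e : ℝ, 0 < e ∧ LinOn f r (Set.Icc t (t + e)) ∧ LinOn f r (Set.Icc (t - e) t)

theorem V_re (f r : ℝ → ℝ) (s : ℝ) : (V f r s).re = r s * Real.cos (f s) := by
  unfold V
  rw [Complex.smul_re, Complex.exp_ofReal_mul_I_re, smul_eq_mul]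

theorem V_im (f r : ℝ → ℝ) (s : ℝ) : (V f r s).im = r s * Real.sin (f s) := by
  unfold V
  rw [Complex.smul_im, Complex.exp_ofReal_mul_I_im, smul_eq_mul]

theorem LinOn.mono {f r : ℝ → ℝ} {A B : Set ℝ} (h : LinOn f r B) (hAB : A ⊆ B) : LinOn f r A := by
  obtain ⟨p, q, h⟩ := h
  exact ⟨p, q, fun s hs => h s (hAB hs)⟩

theorem LinOn.congr {f r f' r' : ℝ → ℝ} {A : Set ℝ} (h : LinOn f r A)
    (hf : ∀ s ∈ A, f' s = f s) (hr : ∀ s ∈ A, r' s = r s) : LinOn f' r' A := by
  obtain ⟨p, q, h⟩ := h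
  refine ⟨p, q, fun s hs => ?_⟩
  rw [← h s hs]
  unfold V
  rw [hf s hs, hr s hs]

theorem LinOn.comp {f r g k : ℝ → ℝ} {A B : Set ℝ} (hF : LinOn f r B) (hG : LinOn g k A)
    (h : ∀ s ∈ A, g s ∈ B) : LinOn (fun s => f (g s)) (fun s => r (g s) * k s) A := by
  obtain ⟨p, q, hF⟩ := hF
  obtain ⟨p', q', hG⟩ := hG
  refine ⟨p'.re • p + p'.im • q, q'.re • p + q'.im • q, fun s hs => ?_⟩
  have h1 := hF (g s) (h s hs)
  have h2 := hG s hs
  have h3 : k s * Real.cos (g s) = Real.cos s * p'.re + Real.sin s * q'.re := by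
    rw [← V_re g k s, h2]
    simp only [Complex.add_re, Complex.smul_re, smul_eq_mul]
  have h4 : k s * Real.sin (g s) = Real.cos s * p'.im + Real.sin s * q'.im := by
    rw [← V_im g k s, h2]
    simp only [Complex.add_im, Complex.smul_im, smul_eq_mul]
  have h5 : V (fun s => f (g s)) (fun s => r (g s) * k s) s = k s • V f r (g s) := by
    unfold V
    rw [smul_smul, mul_comm (k s)]
  rw [h5, h1, smul_add, smul_smul, smul_smul, h3, h4]
  module

/-- the oriented area of two vectors `V s`, `V t` on a piece -/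
theorem LinOn.cross {f r : ℝ → ℝ} {A : Set ℝ} {p q : ℂ}
    (h : ∀ s ∈ A, V f r s = Real.cos s • p + Real.sin s • q) {s t : ℝ} (hs : s ∈ A) (ht : t ∈ A) :
    r s * r t * Real.sin (f t - f s) = (p.re * q.im - p.im * q.re) * Real.sin (t - s) := by
  have h1 := V_re f r s
  have h2 := V_im f r s
  have h3 := V_re f r t
  have h4 := V_im f r t
  rw [h s hs] at h1 h2
  rw [h t ht] at h3 h4
  simp only [Complex.add_re, Complex.add_im, Complex.smul_re, Complex.smul_im, smul_eq_mul]
    at h1 h2 h3 h4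
  rw [Real.sin_sub, Real.sin_sub]
  linear_combination (r t * Real.sin (f t)) * (-h1) + (r t * Real.cos (f t)) * h2 +
    (Real.cos s * p.im + Real.sin s * q.im) * h3 - (Real.cos s * p.re + Real.sin s * q.re) * h4

theorem LinOn.det_pos {f : ℝ ≃o ℝ} {r : ℝ → ℝ} (hr : ∀ s, 0 < r s) {a b : ℝ} (hab : a < b)
    {p q : ℂ} (h : ∀ s ∈ Set.Icc a b, V f r s = Real.cos s • p + Real.sin s • q) :
    0 < p.re * q.im - p.im * q.re := by
  -- choose `s > a` close to `a`
  have hc : ContinuousAt f a := f.continuous.continuousAt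
  obtain ⟨d, hd, hd'⟩ := Metric.continuousAt_iff.1 hc 1 one_pos
  let s := a + min (min (b - a) (d / 2)) 1
  have h1 : 0 < min (min (b - a) (d / 2)) 1 :=
    lt_min (lt_min (sub_pos.2 hab) (half_pos hd)) one_pos
  have h2 : min (min (b - a) (d / 2)) 1 ≤ b - a := (min_le_left _ _).trans (min_le_left _ _)
  have h3 : min (min (b - a) (d / 2)) 1 ≤ d / 2 := (min_le_left _ _).trans (min_le_right _ _)
  have h4 : min (min (b - a) (d / 2)) 1 ≤ 1 := min_le_right _ _
  have hts : a < s := lt_add_of_pos_right a h1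
  have hs : s ∈ Set.Icc a b := ⟨hts.le, by change a + _ ≤ b; linarith⟩
  have ht : a ∈ Set.Icc a b := ⟨le_rfl, hab.le⟩
  have h5 := LinOn.cross h ht hs
  have h6 : f s - f a < 1 := by
    have : dist s a < d := by
      rw [Real.dist_eq, abs_of_pos (sub_pos.2 hts)]
      change a + _ - a < d
      linarith
    have h7 := hd' this
    rw [Real.dist_eq] at h7
    exact (le_abs_self _).trans_lt h7
  have h7 : 0 < f s - f a := sub_pos.2 (f.strictMono hts)
  have hpi : (3 : ℝ) < Real.pi := Real.pi_gt_three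
  have h8 : 0 < Real.sin (f s - f a) := Real.sin_pos_of_pos_of_lt_pi h7 (by linarith)
  have h9 : 0 < Real.sin (s - a) := Real.sin_pos_of_pos_of_lt_pi (sub_pos.2 hts) (by
    change a + _ - a < _
    linarith)
  have h10 : 0 < r a * r s * Real.sin (f s - f a) := mul_pos (mul_pos (hr a) (hr s)) h8
  rw [h5] at h10
  exact (mul_pos_iff_of_pos_right h9).1 h10

theorem LinOn.symm {f : ℝ ≃o ℝ} {r : ℝ → ℝ} (hr : ∀ s, 0 < r s) {a b : ℝ} (hab : a < b)
    (h : LinOn f r (Set.Icc a b)) :
    LinOn f.symm (fun s => (r (f.symm s))⁻¹) (Set.Icc (f a) (f b)) := by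
  obtain ⟨p, q, h⟩ := h
  have hd := LinOn.det_pos hr hab h
  set δ := p.re * q.im - p.im * q.re with hδ
  refine ⟨⟨q.im / δ, -p.im / δ⟩, ⟨-q.re / δ, p.re / δ⟩, fun s hs => ?_⟩
  obtain ⟨x, rfl⟩ := f.surjective s
  have hx : x ∈ Set.Icc a b := ⟨f.le_iff_le.1 hs.1, f.le_iff_le.1 hs.2⟩
  have h1 := V_re f r x
  have h2 := V_im f r x
  rw [h x hx] at h1 h2
  simp only [Complex.add_re, Complex.add_im, Complex.smul_re, Complex.smul_im, smul_eq_mul]
    at h1 h2
  have hx0 := (hr x).ne'
  have hδ0 := hd.ne'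
  refine Complex.ext ?_ ?_
  · rw [V_re]
    simp only [f.symm_apply_apply, Complex.add_re, Complex.smul_re, smul_eq_mul]
    field_simp
    rw [hδ]
    linear_combination q.im * h1 - q.re * h2
  · rw [V_im]
    simp only [f.symm_apply_apply, Complex.add_im, Complex.smul_im, smul_eq_mul]
    field_simp
    rw [hδ]
    linear_combination (-p.im) * h1 + p.re * h2

namespace XX

/-- the value at the unit vector of the ray `s` -/
def ev (F : XX) (s : ℝ) : ℝ × ℝ := (F.f s, F.r s)

theorem ev_def (F : XX) (s : ℝ) : F.ev s = (F.f s, F.r s) := rfl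

theorem ev_eq_iff {F G : XX} {s t : ℝ} : F.ev s = G.ev t ↔ F.f s = G.f t ∧ F.r s = G.r t :=
  Prod.mk_inj

theorem ext_ev {F G : XX} (h : ∀ s, F.ev s = G.ev s) : F = G := by
  refine XX.ext (OrderIso.ext (funext fun s => (ev_eq_iff.1 (h s)).1))
    (funext fun s => (ev_eq_iff.1 (h s)).2)

theorem continuous_f (F : XX) : Continuous F.f := F.f.continuous

/-- identity -/
def one : XX where
  f := OrderIso.refl ℝ
  r _ := 1
  pos _ := one_pos
  pl t := by
    have h : ∀ A : Set ℝ, LinOn (OrderIso.refl ℝ) (fun _ => 1) A := fun A => by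
      refine ⟨⟨1, 0⟩, ⟨0, 1⟩, fun s _ => Complex.ext ?_ ?_⟩
      · rw [V_re]
        simp only [OrderIso.refl_apply, Complex.add_re, Complex.smul_re, smul_eq_mul]
        ring
      · rw [V_im]
        simp only [OrderIso.refl_apply, Complex.add_im, Complex.smul_im, smul_eq_mul]
        ring
    exact ⟨1, one_pos, h _, h _⟩

/-- composition, `G` first -/
def mul (F G : XX) : XX where
  f := G.f.trans F.f
  r s := F.r (G.f s) * G.r s
  pos s := mul_pos (F.pos _) (G.pos _)
  pl t := by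
    obtain ⟨e, he, h1, h2⟩ := F.pl (G.f t)
    obtain ⟨d, hd, h3, h4⟩ := G.pl t
    refine ⟨min d (min (G.f.symm (G.f t + e) - t) (t - G.f.symm (G.f t - e))), ?_, ?_, ?_⟩
    · refine lt_min hd (lt_min ?_ ?_)
      · rw [sub_pos, G.f.lt_symm_apply]
        linarith
      · rw [sub_pos, G.f.symm_apply_lt]
        linarith
    · refine LinOn.comp (f := F.f) (r := F.r) h1 (h3.mono ?_) ?_
      · intro s hs
        refine ⟨hs.1, hs.2.trans ?_⟩
        have := min_le_left d (min (G.f.symm (G.f t + e) - t) (t - G.f.symm (G.f t - e)))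
        linarith
      · intro s hs
        refine ⟨G.f.monotone hs.1, ?_⟩
        change G.f s ≤ G.f t + e
        rw [← G.f.le_symm_apply]
        refine hs.2.trans ?_
        have := min_le_right d (min (G.f.symm (G.f t + e) - t) (t - G.f.symm (G.f t - e)))
        have := min_le_left (G.f.symm (G.f t + e) - t) (t - G.f.symm (G.f t - e))
        linarith
    · refine LinOn.comp (f := F.f) (r := F.r) h2 (h4.mono ?_) ?_
      · intro s hs
        refine ⟨le_trans ?_ hs.1, hs.2⟩
        have := min_le_left d (min (G.f.symm (G.f t + e) - t) (t - G.f.symm (G.f t - e)))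
        linarith
      · intro s hs
        refine ⟨?_, G.f.monotone hs.2⟩
        change G.f t - e ≤ G.f s
        rw [← G.f.symm_apply_le]
        refine le_trans ?_ hs.1
        have := min_le_right d (min (G.f.symm (G.f t + e) - t) (t - G.f.symm (G.f t - e)))
        have := min_le_right (G.f.symm (G.f t + e) - t) (t - G.f.symm (G.f t - e))
        linarith

/-- inverse -/
noncomputable def inv (F : XX) : XX where
  f := F.f.symm
  r s := (F.r (F.f.symm s))⁻¹
  pos s := inv_pos.2 (F.pos _)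
  pl t := by
    obtain ⟨e, he, h1, h2⟩ := F.pl (F.f.symm t)
    have h3 := LinOn.symm F.pos (by linarith) h1
    have h4 := LinOn.symm F.pos (by linarith) h2
    rw [F.f.apply_symm_apply] at h3 h4
    refine ⟨min (F.f (F.f.symm t + e) - t) (t - F.f (F.f.symm t - e)), ?_, ?_, ?_⟩
    · refine lt_min ?_ ?_
      · rw [sub_pos, ← F.f.symm_apply_lt]
        linarith
      · rw [sub_pos, ← F.f.lt_symm_apply]
        linarith
    · refine h3.mono ?_
      intro s hs
      refine ⟨hs.1, hs.2.trans ?_⟩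
      have := min_le_left (F.f (F.f.symm t + e) - t) (t - F.f (F.f.symm t - e))
      linarith
    · refine h4.mono ?_
      intro s hs
      refine ⟨le_trans ?_ hs.1, hs.2⟩
      have := min_le_right (F.f (F.f.symm t + e) - t) (t - F.f (F.f.symm t - e))
      linarith

noncomputable instance : Group XX where
  mul := mul
  one := one
  inv := inv
  mul_assoc F G H := ext_ev fun s => Prod.ext rfl (mul_assoc _ _ _)
  one_mul F := ext_ev fun s => Prod.ext rfl (one_mul _)
  mul_one F := ext_ev fun s => Prod.ext rfl (mul_one _)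
  inv_mul_cancel F := ext_ev fun s => Prod.ext (F.f.symm_apply_apply s) (by
    change (F.r (F.f.symm (F.f s)))⁻¹ * F.r s = 1
    rw [F.f.symm_apply_apply]
    exact inv_mul_cancel₀ (F.pos s).ne')

theorem mul_f (F G : XX) (s : ℝ) : (F * G).f s = F.f (G.f s) := rfl
theorem mul_r (F G : XX) (s : ℝ) : (F * G).r s = F.r (G.f s) * G.r s := rfl
theorem one_f (s : ℝ) : (1 : XX).f s = s := rfl
theorem one_r (s : ℝ) : (1 : XX).r s = 1 := rfl
theorem inv_f (F : XX) (s : ℝ) : (F⁻¹).f s = F.f.symm s := rfl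
theorem inv_r (F : XX) (s : ℝ) : (F⁻¹).r s = (F.r (F.f.symm s))⁻¹ := rfl
theorem one_ev (s : ℝ) : (1 : XX).ev s = (s, 1) := rfl
theorem mul_ev (F G : XX) (s : ℝ) : (F * G).ev s = (F.f (G.f s), F.r (G.f s) * G.r s) := rfl

theorem inv_f_f (F : XX) (s : ℝ) : (F⁻¹).f (F.f s) = s := F.f.symm_apply_apply s
theorem f_inv_f (F : XX) (s : ℝ) : F.f ((F⁻¹).f s) = s := F.f.apply_symm_apply s

/-- `F * G` where `G` is the identity -/
theorem mul_ev_right {F G : XX} {s : ℝ} (h : G.ev s = (s, 1)) : (F * G).ev s = F.ev s := by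
  have h1 : G.f s = s := congrArg Prod.fst h
  have h2 : G.r s = 1 := congrArg Prod.snd h
  rw [mul_ev, h1, h2, mul_one, ev_def]

/-- `F * G` where `F` is the identity -/
theorem mul_ev_left {F G : XX} {s : ℝ} (h : F.ev (G.f s) = (G.f s, 1)) :
    (F * G).ev s = G.ev s := by
  have h1 : F.f (G.f s) = G.f s := congrArg Prod.fst h
  have h2 : F.r (G.f s) = 1 := congrArg Prod.snd h
  rw [mul_ev, h1, h2, one_mul, ev_def]

theorem mul_ev_congr {F F' G G' : XX} {s : ℝ} (h : G.ev s = G'.ev s)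
    (h' : F.ev (G.f s) = F'.ev (G.f s)) : (F * G).ev s = (F' * G').ev s := by
  obtain ⟨h1, h2⟩ := ev_eq_iff.1 h
  obtain ⟨h3, h4⟩ := ev_eq_iff.1 h'
  rw [mul_ev, mul_ev, h3, h4, h2, h1]

/-- `F⁻¹ G = 1` at `s` iff `F = G` at `s` -/
theorem inv_mul_ev {F G : XX} {s : ℝ} : (F⁻¹ * G).ev s = (s, 1) ↔ F.ev s = G.ev s := by
  constructor
  · intro h
    have h1 : F.f.symm (G.f s) = s := congrArg Prod.fst h
    have h2 : (F.r (F.f.symm (G.f s)))⁻¹ * G.r s = 1 := congrArg Prod.snd h
    rw [h1] at h2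
    rw [ev_eq_iff]
    refine ⟨?_, ?_⟩
    · rw [← h1, F.f.apply_symm_apply, h1]
    · have := (F.pos s).ne'
      field_simp at h2
      exact h2.symm
  · intro h
    obtain ⟨h1, h2⟩ := ev_eq_iff.1 h
    have h3 : F.f.symm (G.f s) = s := by rw [← h1, F.f.symm_apply_apply]
    refine Prod.ext h3 ?_
    change (F.r (F.f.symm (G.f s)))⁻¹ * G.r s = 1
    rw [h3, ← h2]
    exact inv_mul_cancel₀ (F.pos s).ne'

theorem inv_ev {F : XX} {s t r : ℝ} (h : F.ev s = (t, r)) : (F⁻¹).ev t = (s, r⁻¹) := by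
  have h1 : F.f s = t := congrArg Prod.fst h
  have h2 : F.r s = r := congrArg Prod.snd h
  subst h1
  subst h2
  refine Prod.ext (F.f.symm_apply_apply s) ?_
  change (F.r (F.f.symm (F.f s)))⁻¹ = _
  rw [F.f.symm_apply_apply]

/-- rotation by `α` -/
noncomputable def rot (α : ℝ) : XX where
  f := OrderIso.addRight α
  r _ := 1
  pos _ := one_pos
  pl t := by
    have h : ∀ A : Set ℝ, LinOn (OrderIso.addRight α) (fun _ => 1) A := fun A => by
      refine ⟨⟨Real.cos α, Real.sin α⟩, ⟨-Real.sin α, Real.cos α⟩, fun s _ => Complex.ext ?_ ?_⟩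
      · rw [V_re]
        simp only [OrderIso.addRight_apply, Real.cos_add, Complex.add_re, Complex.smul_re,
          smul_eq_mul]
        ring
      · rw [V_im]
        simp only [OrderIso.addRight_apply, Real.sin_add, Complex.add_im, Complex.smul_im,
          smul_eq_mul]
        ring
    exact ⟨1, one_pos, h _, h _⟩

theorem rot_f (α s : ℝ) : (rot α).f s = s + α := rfl
theorem rot_r (α s : ℝ) : (rot α).r s = 1 := rfl
theorem rot_ev (α s : ℝ) : (rot α).ev s = (s + α, 1) := rfl

theorem rot_add (α β : ℝ) : rot (α + β) = rot α * rot β :=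
  ext_ev fun s => Prod.ext (by
    change s + (α + β) = (s + β) + α
    ring) (by
    change (1 : ℝ) = 1 * 1
    rw [mul_one])

theorem rot_zero : rot 0 = 1 := ext_ev fun s => Prod.ext (add_zero s) rfl

theorem rot_inv (α : ℝ) : (rot α)⁻¹ = rot (-α) := by
  rw [inv_eq_iff_mul_eq_one, ← rot_add, add_neg_cancel, rot_zero]

end XX

end Ang
end C715
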